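import Mathlib

open MeasureTheory Set Filter Topology
open scoped ENNReal

set_option linter.unusedSectionVars false
set_option linter.style.haveILetI false

namespace Run7.h119

section Shift

variable {X : Type*} [MetricSpace X] [SecondCountableTopology X] [SigmaCompactSpace X]
  [MeasurableSpace X] [BorelSpace X] {μ : Measure X} [IsFiniteMeasure μ]

/-- translation in the time variable -/
def shiftMap (X : Type*) [MetricSpace X] (σ : ℝ) : C(ℝ × X, ℝ × X) :=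
  ⟨fun q => (q.1 + σ, q.2), by fun_prop⟩

omit [SecondCountableTopology X] [SigmaCompactSpace X] [MeasurableSpace X] [BorelSpace X] in
theorem continuous_shiftMap : Continuous (shiftMap X) := by
  apply ContinuousMap.continuous_of_continuous_uncurry
  change Continuous (fun q : ℝ × (ℝ × X) => (q.2.1 + q.1, q.2.2))
  fun_prop

omit [SecondCountableTopology X] [SigmaCompactSpace X] [BorelSpace X] in
theorem mp_shift (σ : ℝ) :
    MeasurePreserving (fun q : ℝ × X => (q.1 + σ, q.2)) (volume.prod μ) (volume.prod μ) :=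
  (measurePreserving_add_right (volume : Measure ℝ) σ).prod (MeasurePreserving.id μ)

theorem tendsto_shift {p : ℝ≥0∞} (hp1 : 1 ≤ p) (hp : p ≠ ∞) {ψ : ℝ × X → ℝ}
    (hψ : MemLp ψ p (volume.prod μ)) :
    Tendsto (fun σ : ℝ => eLpNorm (fun q : ℝ × X => ψ (q.1 + σ, q.2) - ψ q) p (volume.prod μ))
      (𝓝 0) (𝓝 0) := by
  haveI : Fact (1 ≤ p) := ⟨hp1⟩
  have hc : Continuous (fun σ : ℝ => Lp.compMeasurePreserving (shiftMap X σ) (mp_shift (μ := μ) σ)
      (hψ.toLp ψ)) :=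
    Continuous.compMeasurePreservingLp (f := fun _ : ℝ => hψ.toLp ψ) continuous_const
      continuous_shiftMap (fun σ => mp_shift σ) hp
  have h0 := hc.tendsto 0
  have e : ∀ σ : ℝ, Lp.compMeasurePreserving (shiftMap X σ) (mp_shift (μ := μ) σ)
      (hψ.toLp ψ) = (hψ.comp_measurePreserving (mp_shift (μ := μ) σ)).toLp
        (ψ ∘ (fun q : ℝ × X => (q.1 + σ, q.2))) := fun σ =>
    Lp.toLp_compMeasurePreserving hψ (mp_shift (μ := μ) σ)
  simp only [e] at h0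
  rw [Lp.tendsto_Lp_iff_tendsto_eLpNorm''] at h0
  refine h0.congr (fun σ => ?_)
  congr 1
  funext q
  simp

end Shift

section Jensen

theorem enorm_integral_rpow_le {α : Type*} [MeasurableSpace α] {P : Measure α}
    [IsProbabilityMeasure P] {p : ℝ} (hp : 1 ≤ p) {f : α → ℝ} (hf : AEStronglyMeasurable f P) :
    ‖∫ x, f x ∂P‖ₑ ^ p ≤ ∫⁻ x, ‖f x‖ₑ ^ p ∂P := by
  have hp0 : (0:ℝ) < p := by linarith
  have h1 : ‖∫ x, f x ∂P‖ₑ ≤ eLpNorm f 1 P := by
    rw [eLpNorm_one_eq_lintegral_enorm]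
    exact enorm_integral_le_lintegral_enorm f
  have h2 : eLpNorm f 1 P ≤ eLpNorm f (ENNReal.ofReal p) P := by
    apply eLpNorm_le_eLpNorm_of_exponent_le _ hf
    rw [← ENNReal.ofReal_one]; exact ENNReal.ofReal_le_ofReal hp
  have h3 : eLpNorm f (ENNReal.ofReal p) P = (∫⁻ x, ‖f x‖ₑ ^ p ∂P) ^ (1/p) := by
    rw [eLpNorm_eq_lintegral_rpow_enorm_toReal (by simp [hp0]) ENNReal.ofReal_ne_top,
      ENNReal.toReal_ofReal hp0.le]
  calc ‖∫ x, f x ∂P‖ₑ ^ p ≤ ((∫⁻ x, ‖f x‖ₑ ^ p ∂P) ^ (1/p)) ^ p := by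
        gcongr
        exact (h1.trans h2).trans_eq h3
    _ = _ := by
        rw [← ENNReal.rpow_mul, one_div, inv_mul_cancel₀ hp0.ne', ENNReal.rpow_one]

end Jensen


section Avg

variable {X : Type*} [MeasurableSpace X] {μ : Measure X} [IsFiniteMeasure μ]

/-- time average against a probability measure -/
noncomputable def avg (P : Measure ℝ) (ψ : ℝ × X → ℝ) (q : ℝ × X) : ℝ :=
  ∫ s, ψ (q.1 + s, q.2) ∂P

omit [IsFiniteMeasure μ] in
theorem measurable_shift3 : Measurable (fun z : (ℝ × X) × ℝ => (z.1.1 + z.2, z.1.2)) := by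
  fun_prop

theorem stronglyMeasurable_avg {P : Measure ℝ} [SFinite P] {ψ : ℝ × X → ℝ}
    (hψ : StronglyMeasurable ψ) : StronglyMeasurable (avg P ψ) := by
  exact (hψ.comp_measurable measurable_shift3).integral_prod_right' (ν := P)

theorem lintegral_shift (μ : Measure X) [SFinite μ] (s : ℝ) {F : ℝ × X → ℝ≥0∞} (hF : Measurable F) :
    ∫⁻ q : ℝ × X, F (q.1 + s, q.2) ∂(volume.prod μ) = ∫⁻ q, F q ∂(volume.prod μ) := by
  have : MeasurePreserving (fun q : ℝ × X => (q.1 + s, q.2)) (volume.prod μ) (volume.prod μ) :=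
    (measurePreserving_add_right (volume : Measure ℝ) s).prod (MeasurePreserving.id μ)
  exact this.lintegral_comp hF

theorem lintegral_avg {P : Measure ℝ} [IsProbabilityMeasure P] {F : ℝ × X → ℝ≥0∞}
    (hF : Measurable F) :
    ∫⁻ q : ℝ × X, (∫⁻ s, F (q.1 + s, q.2) ∂P) ∂(volume.prod μ) = ∫⁻ q, F q ∂(volume.prod μ) := by
  rw [lintegral_lintegral_swap]
  · simp_rw [lintegral_shift μ _ hF]
    simp
  · exact (hF.comp measurable_shift3).aemeasurable

theorem lintegral_rpow_lt_top {α : Type*} [MeasurableSpace α] {ν : Measure α} {p : ℝ} (hp : 1 ≤ p)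
    {ψ : α → ℝ} (hψ : MemLp ψ (ENNReal.ofReal p) ν) : ∫⁻ q, ‖ψ q‖ₑ ^ p ∂ν < ∞ := by
  have hp0 : (0:ℝ) < p := by linarith
  have := lintegral_rpow_enorm_lt_top_of_eLpNorm_lt_top (by simp [hp0]) ENNReal.ofReal_ne_top hψ.2
  rwa [ENNReal.toReal_ofReal hp0.le] at this

theorem memLp_of_lintegral {α : Type*} [MeasurableSpace α] {ν : Measure α} {p : ℝ} (hp : 1 ≤ p)
    {ψ : α → ℝ} (hm : AEStronglyMeasurable ψ ν) (h : ∫⁻ q, ‖ψ q‖ₑ ^ p ∂ν < ∞) :
    MemLp ψ (ENNReal.ofReal p) ν := by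
  have hp0 : (0:ℝ) < p := by linarith
  refine ⟨hm, ?_⟩
  rw [eLpNorm_lt_top_iff_lintegral_rpow_enorm_lt_top (by simp [hp0]) ENNReal.ofReal_ne_top,
    ENNReal.toReal_ofReal hp0.le]
  exact h

theorem ae_memLp_avg {P : Measure ℝ} [IsProbabilityMeasure P] {p : ℝ} (hp : 1 ≤ p)
    {ψ : ℝ × X → ℝ} (hm : StronglyMeasurable ψ) (hψ : MemLp ψ (ENNReal.ofReal p) (volume.prod μ)) :
    ∀ᵐ q ∂(volume.prod μ), MemLp (fun s => ψ (q.1 + s, q.2)) (ENNReal.ofReal p) P := by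
  have h1 : ∫⁻ q : ℝ × X, (∫⁻ s, ‖ψ (q.1 + s, q.2)‖ₑ ^ p ∂P) ∂(volume.prod μ) < ∞ := by
    rw [lintegral_avg (F := fun q => ‖ψ q‖ₑ ^ p) (by have := hm.measurable; fun_prop)]
    exact lintegral_rpow_lt_top hp hψ
  have h2 := ae_lt_top (μ := volume.prod μ)
    (f := fun q : ℝ × X => ∫⁻ s, ‖ψ (q.1 + s, q.2)‖ₑ ^ p ∂P)
    (Measurable.lintegral_prod_right
      (((hm.comp_measurable measurable_shift3).measurable.enorm.pow_const p))) h1.ne
  filter_upwards [h2] with q hq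
  refine memLp_of_lintegral hp ?_ hq
  exact (hm.comp_measurable (by fun_prop : Measurable (fun s : ℝ => (q.1 + s, q.2)))).aestronglyMeasurable

theorem lintegral_avg_sub_le {P : Measure ℝ} [IsProbabilityMeasure P] {p : ℝ} (hp : 1 ≤ p)
    {ψ : ℝ × X → ℝ} (hm : StronglyMeasurable ψ) (hψ : MemLp ψ (ENNReal.ofReal p) (volume.prod μ)) :
    ∫⁻ q, ‖avg P ψ q - ψ q‖ₑ ^ p ∂(volume.prod μ) ≤
      ∫⁻ s, (∫⁻ q : ℝ × X, ‖ψ (q.1 + s, q.2) - ψ q‖ₑ ^ p ∂(volume.prod μ)) ∂P := by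
  have hp0 : ENNReal.ofReal p ≥ 1 := by
    rw [← ENNReal.ofReal_one]; exact ENNReal.ofReal_le_ofReal hp
  rw [lintegral_lintegral_swap]
  · refine lintegral_mono_ae ?_
    filter_upwards [ae_memLp_avg (P := P) hp hm hψ] with q hq
    have hi : Integrable (fun s => ψ (q.1 + s, q.2)) P := hq.integrable hp0
    have : avg P ψ q - ψ q = ∫ s, (ψ (q.1 + s, q.2) - ψ q) ∂P := by
      rw [integral_sub hi (integrable_const _)]
      simp [avg]
    rw [this]
    exact enorm_integral_rpow_le hp (hi.sub (integrable_const _)).aestronglyMeasurable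
  · have h1 : Measurable (fun z : ℝ × (ℝ × X) => ψ (z.2.1 + z.1, z.2.2)) :=
      hm.measurable.comp (by fun_prop)
    have h2 : Measurable (fun z : ℝ × (ℝ × X) => ψ z.2) := hm.measurable.comp (by fun_prop)
    exact ((h1.sub h2).enorm.pow_const p).aemeasurable

theorem lintegral_avg_le {P : Measure ℝ} [IsProbabilityMeasure P] {p : ℝ} (hp : 1 ≤ p)
    {ψ : ℝ × X → ℝ} (hm : StronglyMeasurable ψ) :
    ∫⁻ q, ‖avg P ψ q‖ₑ ^ p ∂(volume.prod μ) ≤ ∫⁻ q, ‖ψ q‖ₑ ^ p ∂(volume.prod μ) := by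
  have h0 : Measurable (fun q : ℝ × X => ‖ψ q‖ₑ ^ p) := by have := hm.measurable; fun_prop
  rw [← lintegral_avg (P := P) h0]
  refine lintegral_mono (fun q => ?_)
  exact enorm_integral_rpow_le hp
    (hm.comp_measurable (by fun_prop : Measurable (fun s : ℝ => (q.1 + s, q.2)))).aestronglyMeasurable

theorem memLp_avg {P : Measure ℝ} [IsProbabilityMeasure P] {p : ℝ} (hp : 1 ≤ p)
    {ψ : ℝ × X → ℝ} (hm : StronglyMeasurable ψ) (hψ : MemLp ψ (ENNReal.ofReal p) (volume.prod μ)) :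
    MemLp (avg P ψ) (ENNReal.ofReal p) (volume.prod μ) :=
  memLp_of_lintegral hp (stronglyMeasurable_avg hm).aestronglyMeasurable
    ((lintegral_avg_le hp hm).trans_lt (lintegral_rpow_lt_top hp hψ))

end Avg

section Unif

/-- the uniform probability measure on `(0,h]` -/
noncomputable def U (h : ℝ) : Measure ℝ := ENNReal.ofReal h⁻¹ • volume.restrict (Ioc 0 h)

theorem isProb_U {h : ℝ} (hh : 0 < h) : IsProbabilityMeasure (U h) := by
  refine ⟨?_⟩
  simp only [U, Measure.smul_apply, MeasurableSet.univ, Measure.restrict_apply, univ_inter,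
    Real.volume_Ioc, sub_zero, smul_eq_mul]
  rw [← ENNReal.ofReal_mul (by positivity), inv_mul_cancel₀ hh.ne', ENNReal.ofReal_one]

theorem integral_U {G : Type*} [NormedAddCommGroup G] [NormedSpace ℝ G] {h : ℝ} (hh : 0 < h)
    (F : ℝ → G) : ∫ s, F s ∂(U h) = h⁻¹ • ∫ s in (0:ℝ)..h, F s := by
  rw [U, integral_smul_measure, intervalIntegral.integral_of_le hh.le,
    ENNReal.toReal_ofReal (by positivity)]

theorem tendsto_avg_U {X : Type*} [MetricSpace X] [SecondCountableTopology X] [SigmaCompactSpace X]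
    [MeasurableSpace X] [BorelSpace X] {μ : Measure X} [IsFiniteMeasure μ] {p : ℝ} (hp : 1 ≤ p)
    {ψ : ℝ × X → ℝ} (hm : StronglyMeasurable ψ) (hψ : MemLp ψ (ENNReal.ofReal p) (volume.prod μ)) :
    Tendsto (fun h : ℝ => ∫⁻ q, ‖avg (U h) ψ q - ψ q‖ₑ ^ p ∂(volume.prod μ)) (𝓝[>] 0) (𝓝 0) := by
  have hp0 : (0:ℝ) < p := by linarith
  have hp1 : ENNReal.ofReal p ≥ 1 := by
    rw [← ENNReal.ofReal_one]; exact ENNReal.ofReal_le_ofReal hp
  have h1 := tendsto_shift hp1 ENNReal.ofReal_ne_top hψ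
  have h2 : Tendsto (fun σ : ℝ => ∫⁻ q : ℝ × X, ‖ψ (q.1 + σ, q.2) - ψ q‖ₑ ^ p ∂(volume.prod μ))
      (𝓝 0) (𝓝 0) := by
    have h3 := (ENNReal.continuous_rpow_const (y := p)).tendsto 0 |>.comp h1
    rw [ENNReal.zero_rpow_of_pos hp0] at h3
    refine h3.congr (fun σ => ?_)
    simp only [Function.comp]
    rw [eLpNorm_eq_lintegral_rpow_enorm_toReal (by simp [hp0]) ENNReal.ofReal_ne_top,
      ENNReal.toReal_ofReal hp0.le, ← ENNReal.rpow_mul, one_div, inv_mul_cancel₀ hp0.ne',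
      ENNReal.rpow_one]
  rw [ENNReal.tendsto_nhds_zero] at h2 ⊢
  intro ε hε
  have h4 := h2 ε hε
  rw [Metric.eventually_nhds_iff] at h4
  obtain ⟨δ, hδ, h5⟩ := h4
  have h6 : Ioo (0:ℝ) δ ∈ 𝓝[>] (0:ℝ) := Ioo_mem_nhdsGT hδ
  filter_upwards [h6] with h hh
  haveI := isProb_U hh.1
  refine (lintegral_avg_sub_le hp hm hψ).trans ?_
  have h7 : ∀ᵐ s ∂(U h), (∫⁻ q : ℝ × X, ‖ψ (q.1 + s, q.2) - ψ q‖ₑ ^ p ∂(volume.prod μ)) ≤ ε := by
    have : ∀ᵐ s ∂(U h), s ∈ Ioc 0 h := by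
      unfold U
      exact Measure.ae_smul_measure (ae_restrict_mem measurableSet_Ioc) _
    filter_upwards [this] with s hs
    apply h5
    rw [Real.dist_eq, sub_zero, abs_of_pos hs.1]
    exact lt_of_le_of_lt hs.2 hh.2
  calc _ ≤ ∫⁻ s, ε ∂(U h) := lintegral_mono_ae h7
    _ = ε := by simp

end Unif

end Run7.h119
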