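import Mathlib
import Pool.Agent.Run7.h119.Steklov

open MeasureTheory Set Filter Topology
open scoped ENNReal

set_option linter.unusedSectionVars false
set_option linter.style.haveILetI false

namespace Run7.h119

section BP

variable {X : Type*} [MeasurableSpace X] {μ : Measure X} [IsFiniteMeasure μ]

theorem lp2_integrable (F : Lp ℝ 2 μ) : Integrable F μ :=
  (Lp.memLp F).integrable (by norm_num)

theorem lp2_norm1_le (F : Lp ℝ 2 μ) : ∫ x, ‖F x‖ ∂μ ≤ (μ.real univ) ^ (1/2:ℝ) * ‖F‖ := by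
  have h1 : eLpNorm F 1 μ ≤ eLpNorm F 2 μ * μ univ ^ (1 / (1:ℝ≥0∞).toReal - 1 / (2:ℝ≥0∞).toReal) :=
    eLpNorm_le_eLpNorm_mul_rpow_measure_univ (by norm_num) (Lp.memLp F).1
  have h2 : ∫ x, ‖F x‖ ∂μ = (eLpNorm F 1 μ).toReal := by
    rw [integral_norm_eq_lintegral_enorm (Lp.memLp F).1, eLpNorm_one_eq_lintegral_enorm]
  have e : (1 / (1:ℝ≥0∞).toReal - 1 / (2:ℝ≥0∞).toReal : ℝ) = 1/2 := by norm_num
  rw [e] at h1
  rw [h2]
  have h3 : (eLpNorm F 2 μ * μ univ ^ (1/2:ℝ)) ≠ ∞ := by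
    apply ENNReal.mul_ne_top (Lp.memLp F).2.ne
    exact ENNReal.rpow_ne_top_of_nonneg (by norm_num) (measure_ne_top _ _)
  calc (eLpNorm F 1 μ).toReal ≤ (eLpNorm F 2 μ * μ univ ^ (1/2:ℝ)).toReal :=
        ENNReal.toReal_mono h3 h1
    _ = _ := by
      rw [ENNReal.toReal_mul, Lp.norm_def, ← ENNReal.toReal_rpow, mul_comm]; rfl

/-- A Bochner integral in `L²` can be evaluated pointwise. -/
theorem integral_lp2_ae {ρ : Measure ℝ} [SFinite ρ] {F : ℝ → Lp ℝ 2 μ} (hF : Integrable F ρ)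
    {ψ : ℝ × X → ℝ} (hψ : StronglyMeasurable ψ)
    (h : ∀ᵐ r ∂ρ, (fun x => ψ (r, x)) =ᵐ[μ] F r) :
    Integrable ψ (ρ.prod μ) ∧
    ((∫ r, F r ∂ρ : Lp ℝ 2 μ) : X → ℝ) =ᵐ[μ] (fun x => ∫ r, ψ (r, x) ∂ρ) := by
  have hi : Integrable ψ (ρ.prod μ) := by
    rw [integrable_prod_iff hψ.aestronglyMeasurable]
    constructor
    · filter_upwards [h] with r hr
      exact (integrable_congr hr).2 (lp2_integrable _)
    · refine Integrable.mono' (hF.norm.const_mul ((μ.real univ) ^ (1/2:ℝ))) ?_ ?_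
      · exact hψ.aestronglyMeasurable.norm.integral_prod_right'
      · filter_upwards [h] with r hr
        rw [Real.norm_of_nonneg (integral_nonneg (fun _ => norm_nonneg _))]
        calc ∫ x, ‖ψ (r, x)‖ ∂μ = ∫ x, ‖F r x‖ ∂μ := by
              apply integral_congr_ae
              filter_upwards [hr] with x hx
              rw [hx]
          _ ≤ _ := lp2_norm1_le _
  refine ⟨hi, ?_⟩
  refine Integrable.ae_eq_of_forall_setIntegral_eq _ _ (lp2_integrable _) hi.integral_prod_right ?_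
  intro s hs _
  rw [← L2.inner_indicatorConstLp_one (𝕜 := ℝ) hs (measure_ne_top μ s), ← integral_inner hF]
  have e1 : ∫ r, inner ℝ (indicatorConstLp 2 hs (measure_ne_top μ s) (1:ℝ)) (F r) ∂ρ
      = ∫ r, (∫ x in s, ψ (r, x) ∂μ) ∂ρ := by
    apply integral_congr_ae
    filter_upwards [h] with r hr
    rw [L2.inner_indicatorConstLp_one (𝕜 := ℝ) hs (measure_ne_top μ s)]
    apply setIntegral_congr_ae hs
    filter_upwards [hr] with x hx _
    exact hx.symm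
  rw [e1]
  exact integral_integral_swap (f := fun r x => ψ (r, x)) (ν := μ.restrict s)
    (by
      have : Integrable ψ ((ρ.prod μ).restrict (univ ×ˢ s)) := hi.restrict
      rw [← Measure.prod_restrict, Measure.restrict_univ] at this
      exact this)

end BP

section Pair

variable {α : Type*} [MeasurableSpace α] {ν : Measure α}

theorem lintegral_mul_enorm_le {p q : ℝ} (hpq : p.HolderConjugate q) {F G : α → ℝ}
    (hF : AEStronglyMeasurable F ν) (hG : AEStronglyMeasurable G ν) :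
    ∫⁻ a, ‖F a * G a‖ₑ ∂ν ≤ (∫⁻ a, ‖F a‖ₑ ^ p ∂ν) ^ (1/p) * (∫⁻ a, ‖G a‖ₑ ^ q ∂ν) ^ (1/q) := by
  have := ENNReal.lintegral_mul_le_Lp_mul_Lq ν hpq hF.enorm hG.enorm
  refine le_trans (le_of_eq ?_) this
  apply lintegral_congr
  intro a
  simp [enorm_mul]

theorem tendsto_pair {p q : ℝ} (hpq : p.HolderConjugate q) {l : Filter ℝ} {F G : α → ℝ}
    {Fh Gh : ℝ → α → ℝ} (hF : MemLp F (ENNReal.ofReal p) ν) (hG : MemLp G (ENNReal.ofReal q) ν)
    (hFh : ∀ᶠ h in l, MemLp (Fh h) (ENNReal.ofReal p) ν)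
    (hGh : ∀ᶠ h in l, MemLp (Gh h) (ENNReal.ofReal q) ν)
    (h1 : Tendsto (fun h => ∫⁻ a, ‖Fh h a - F a‖ₑ ^ p ∂ν) l (𝓝 0))
    (h2 : Tendsto (fun h => ∫⁻ a, ‖Gh h a - G a‖ₑ ^ q ∂ν) l (𝓝 0)) :
    Tendsto (fun h => ∫ a, Fh h a * Gh h a ∂ν) l (𝓝 (∫ a, F a * G a ∂ν)) := by
  have hp := hpq.pos
  have hq := hpq.symm.pos
  have hp1 := hpq.lt
  have hq1 := hpq.symm.lt
  have key : ∀ {A B : α → ℝ}, MemLp A (ENNReal.ofReal p) ν → MemLp B (ENNReal.ofReal q) ν →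
      Integrable (fun a => A a * B a) ν := by
    intro A B hA hB
    refine ⟨hA.1.mul hB.1, ?_⟩
    refine (lintegral_mul_enorm_le hpq hA.1 hB.1).trans_lt ?_
    refine ENNReal.mul_lt_top ?_ ?_
    · exact ENNReal.rpow_lt_top_of_nonneg (by positivity) (lintegral_rpow_lt_top hp1.le hA).ne
    · exact ENNReal.rpow_lt_top_of_nonneg (by positivity) (lintegral_rpow_lt_top hq1.le hB).ne
  refine tendsto_integral_of_L1 _ (key hF hG).1 ?_ ?_
  · filter_upwards [hFh, hGh] with h hh1 hh2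
    exact key hh1 hh2
  · -- bound
    set A := (∫⁻ a, ‖F a‖ₑ ^ p ∂ν) ^ (1/p) with hA
    set B := (∫⁻ a, ‖G a‖ₑ ^ q ∂ν) ^ (1/q) with hB
    have hAt : A ≠ ∞ := ENNReal.rpow_ne_top_of_nonneg (by positivity) (lintegral_rpow_lt_top hp1.le hF).ne
    have hBt : B ≠ ∞ := ENNReal.rpow_ne_top_of_nonneg (by positivity) (lintegral_rpow_lt_top hq1.le hG).ne
    have t1 : Tendsto (fun h => (∫⁻ a, ‖Fh h a - F a‖ₑ ^ p ∂ν) ^ (1/p)) l (𝓝 0) := by
      have := (ENNReal.continuous_rpow_const (y := 1/p)).tendsto 0 |>.comp h1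
      rwa [ENNReal.zero_rpow_of_pos (by positivity)] at this
    have t2 : Tendsto (fun h => (∫⁻ a, ‖Gh h a - G a‖ₑ ^ q ∂ν) ^ (1/q)) l (𝓝 0) := by
      have := (ENNReal.continuous_rpow_const (y := 1/q)).tendsto 0 |>.comp h2
      rwa [ENNReal.zero_rpow_of_pos (by positivity)] at this
    have t3 : Tendsto (fun h => (∫⁻ a, ‖Fh h a - F a‖ₑ ^ p ∂ν) ^ (1/p) * B +
        (∫⁻ a, ‖Fh h a - F a‖ₑ ^ p ∂ν) ^ (1/p) * (∫⁻ a, ‖Gh h a - G a‖ₑ ^ q ∂ν) ^ (1/q) +
        A * (∫⁻ a, ‖Gh h a - G a‖ₑ ^ q ∂ν) ^ (1/q)) l (𝓝 0) := by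
      have s1 := ENNReal.Tendsto.mul_const t1 (Or.inr hBt)
      have s2 := ENNReal.Tendsto.mul t1 (Or.inr ENNReal.zero_ne_top) t2 (Or.inr ENNReal.zero_ne_top)
      have s3 := ENNReal.Tendsto.const_mul t2 (Or.inr hAt)
      have := (s1.add s2).add s3
      simpa using this
    refine tendsto_of_tendsto_of_tendsto_of_le_of_le' tendsto_const_nhds t3
      (Eventually.of_forall fun _ => by simp) ?_
    filter_upwards [hFh, hGh] with h hh1 hh2
    have e : ∀ a, ‖Fh h a * Gh h a - F a * G a‖ₑ ≤ ‖(Fh h a - F a) * G a‖ₑ +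
        ‖(Fh h a - F a) * (Gh h a - G a)‖ₑ + ‖F a * (Gh h a - G a)‖ₑ := by
      intro a
      have : Fh h a * Gh h a - F a * G a = (Fh h a - F a) * G a +
        (Fh h a - F a) * (Gh h a - G a) + F a * (Gh h a - G a) := by ring
      rw [this]
      exact (enorm_add_le _ _).trans (add_le_add_left (enorm_add_le _ _) _)
    have m1 : AEStronglyMeasurable (fun a => Fh h a - F a) ν := hh1.1.sub hF.1
    have m2 : AEStronglyMeasurable (fun a => Gh h a - G a) ν := hh2.1.sub hG.1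
    calc ∫⁻ a, ‖Fh h a * Gh h a - F a * G a‖ₑ ∂ν
        ≤ ∫⁻ a, (‖(Fh h a - F a) * G a‖ₑ +
        ‖(Fh h a - F a) * (Gh h a - G a)‖ₑ + ‖F a * (Gh h a - G a)‖ₑ) ∂ν := lintegral_mono e
      _ = ∫⁻ a, ‖(Fh h a - F a) * G a‖ₑ ∂ν + ∫⁻ a, ‖(Fh h a - F a) * (Gh h a - G a)‖ₑ ∂ν +
          ∫⁻ a, ‖F a * (Gh h a - G a)‖ₑ ∂ν := by
        rw [lintegral_add_left', lintegral_add_left']
        · exact (m1.mul hG.1).enorm
        · exact ((m1.mul hG.1).enorm).add ((m1.mul m2).enorm)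
      _ ≤ _ := by
        gcongr
        · exact lintegral_mul_enorm_le hpq m1 hG.1
        · exact lintegral_mul_enorm_le hpq m1 m2
        · exact lintegral_mul_enorm_le hpq hF.1 m2

end Pair

end Run7.h119
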