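import Mathlib
import Pool.Agent.Run7.h119.BP

open MeasureTheory Set Filter Topology
open scoped ENNReal

set_option linter.unusedSectionVars false
set_option linter.style.haveILetI false

namespace Run7.h119

section S

variable {G : Type*} [NormedAddCommGroup G] [NormedSpace ℝ G] [CompleteSpace G]

/-- box average of a vector valued function over `[r, r+h]` -/
noncomputable def S (h : ℝ) (F : ℝ → G) (r : ℝ) : G := h⁻¹ • ∫ s in r..(r + h), F s

theorem hasDerivAt_S (h : ℝ) {F : ℝ → G} (hF : Continuous F) (r : ℝ) :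
    HasDerivAt (S h F) (h⁻¹ • (F (r + h) - F r)) r := by
  have e : S h F = fun r => h⁻¹ • ((∫ s in (0:ℝ)..(r + h), F s) - ∫ s in (0:ℝ)..r, F s) := by
    funext r
    rw [S, intervalIntegral.integral_interval_sub_left]
    · exact hF.intervalIntegrable _ _
    · exact hF.intervalIntegrable _ _
  rw [e]
  have h1 : HasDerivAt (fun u : ℝ => ∫ s in (0:ℝ)..u, F s) (F (r+h)) (r + h) :=
    intervalIntegral.integral_hasDerivAt_right (hF.intervalIntegrable _ _)
      (hF.stronglyMeasurableAtFilter _ _) hF.continuousAt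
  have h2 : HasDerivAt (fun u : ℝ => ∫ s in (0:ℝ)..u, F s) (F r) r :=
    intervalIntegral.integral_hasDerivAt_right (hF.intervalIntegrable _ _)
      (hF.stronglyMeasurableAtFilter _ _) hF.continuousAt
  have h3 : HasDerivAt (fun r : ℝ => ∫ s in (0:ℝ)..(r + h), F s) (F (r+h)) r := by
    exact h1.comp_add_const r h
  exact (h3.sub h2).const_smul h⁻¹

theorem continuous_S (h : ℝ) {F : ℝ → G} (hF : Continuous F) : Continuous (S h F) :=
  continuous_iff_continuousAt.2 fun r => (hasDerivAt_S h hF r).continuousAt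

theorem S_eq {h : ℝ} (hh : 0 < h) (F : ℝ → G) (r : ℝ) : S h F r = ∫ s, F (r + s) ∂(U h) := by
  rw [integral_U hh, S, intervalIntegral.integral_comp_add_left (fun s => F s)]
  simp

theorem tendsto_S {F : ℝ → G} (hF : Continuous F) (r : ℝ) :
    Tendsto (fun h => S h F r) (𝓝[>] 0) (𝓝 (F r)) := by
  have h2 : HasDerivAt (fun u : ℝ => ∫ s in r..u, F s) (F r) r :=
    intervalIntegral.integral_hasDerivAt_right (hF.intervalIntegrable _ _)
      (hF.stronglyMeasurableAtFilter _ _) hF.continuousAt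
  have := hasDerivAt_iff_tendsto_slope_zero.1 h2
  refine (this.mono_left (nhdsWithin_mono _ (fun x (hx : 0 < x) => hx.ne'))).congr (fun h => ?_)
  simp [S]

theorem norm_S_le {h : ℝ} (hh : 0 < h) {F : ℝ → G} {r C : ℝ}
    (hC : ∀ s ∈ Icc r (r + h), ‖F s‖ ≤ C) : ‖S h F r‖ ≤ C := by
  rw [S, norm_smul, norm_inv, Real.norm_of_nonneg hh.le]
  have := intervalIntegral.norm_integral_le_of_norm_le_const (a := r) (b := r + h) (f := F) (C := C)
    (fun s hs => by
      rw [uIoc_of_le (by linarith)] at hs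
      exact hC s ⟨hs.1.le, hs.2⟩)
  rw [add_sub_cancel_left, abs_of_pos hh] at this
  rw [inv_mul_le_iff₀ hh]
  linarith

end S


section Slice

variable {X : Type*} [MeasurableSpace X] {μ : Measure X} [IsFiniteMeasure μ]

theorem U_le {h : ℝ} : U h ≤ ENNReal.ofReal h⁻¹ • volume := by
  unfold U
  refine Measure.le_iff.2 fun s hs => ?_
  simp only [Measure.smul_apply, smul_eq_mul]
  gcongr
  exact Measure.restrict_le_self

theorem lintegral_slice_le {P : Measure ℝ} {c : ℝ≥0∞} (hP : P ≤ c • volume) {F : ℝ × X → ℝ≥0∞}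
    (hF : Measurable F) (r : ℝ) :
    ∫⁻ s, (∫⁻ x, F (r + s, x) ∂μ) ∂P ≤ c * ∫⁻ q, F q ∂(volume.prod μ) := by
  calc ∫⁻ s, (∫⁻ x, F (r + s, x) ∂μ) ∂P ≤ ∫⁻ s, (∫⁻ x, F (r + s, x) ∂μ) ∂(c • volume) :=
        lintegral_mono' hP le_rfl
    _ = c * ∫⁻ s, (∫⁻ x, F (r + s, x) ∂μ) := by rw [lintegral_smul_measure]; rfl
    _ = c * ∫⁻ s, (∫⁻ x, F (s, x) ∂μ) := by
        congr 1
        exact lintegral_add_left_eq_self (fun s => ∫⁻ x, F (s, x) ∂μ) r
    _ = c * ∫⁻ q, F q ∂(volume.prod μ) := by rw [lintegral_prod _ hF.aemeasurable]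

theorem memLp_slice {P : Measure ℝ} [SFinite P] {c : ℝ≥0∞} (hc : c ≠ ∞) (hP : P ≤ c • volume)
    {p : ℝ} (hp : 1 ≤ p) {ψ : ℝ × X → ℝ} (hm : StronglyMeasurable ψ)
    (hψ : MemLp ψ (ENNReal.ofReal p) (volume.prod μ)) (r : ℝ) :
    MemLp (fun z : ℝ × X => ψ (r + z.1, z.2)) (ENNReal.ofReal p) (P.prod μ) := by
  have m1 : StronglyMeasurable (fun z : ℝ × X => ψ (r + z.1, z.2)) :=
    hm.comp_measurable (by fun_prop)
  refine memLp_of_lintegral hp m1.aestronglyMeasurable ?_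
  rw [lintegral_prod _ (m1.measurable.enorm.pow_const p).aemeasurable]
  refine (lintegral_slice_le hP (F := fun q => ‖ψ q‖ₑ ^ p) (hm.measurable.enorm.pow_const p) r).trans_lt ?_
  exact ENNReal.mul_lt_top hc.lt_top (lintegral_rpow_lt_top hp hψ)

theorem memLp_avg_slice {P : Measure ℝ} [IsProbabilityMeasure P] {c : ℝ≥0∞} (hc : c ≠ ∞)
    (hP : P ≤ c • volume)
    {p : ℝ} (hp : 1 ≤ p) {ψ : ℝ × X → ℝ} (hm : StronglyMeasurable ψ)
    (hψ : MemLp ψ (ENNReal.ofReal p) (volume.prod μ)) (r : ℝ) :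
    MemLp (fun x => avg P ψ (r, x)) (ENNReal.ofReal p) μ := by
  have m1 : StronglyMeasurable (fun z : ℝ × X => ψ (r + z.1, z.2)) :=
    hm.comp_measurable (by fun_prop)
  refine memLp_of_lintegral hp
    ((stronglyMeasurable_avg hm).comp_measurable (by fun_prop)).aestronglyMeasurable ?_
  have h1 : ∫⁻ x, ‖avg P ψ (r, x)‖ₑ ^ p ∂μ ≤ ∫⁻ x, (∫⁻ s, ‖ψ (r + s, x)‖ₑ ^ p ∂P) ∂μ := by
    refine lintegral_mono (fun x => ?_)
    exact enorm_integral_rpow_le hp
      (hm.comp_measurable (by fun_prop : Measurable (fun s : ℝ => (r + s, x)))).aestronglyMeasurable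
  refine h1.trans_lt ?_
  rw [lintegral_lintegral_swap]
  · refine (lintegral_slice_le hP (F := fun q => ‖ψ q‖ₑ ^ p) (hm.measurable.enorm.pow_const p) r).trans_lt ?_
    exact ENNReal.mul_lt_top hc.lt_top (lintegral_rpow_lt_top hp hψ)
  · exact ((hm.comp_measurable (by fun_prop :
      Measurable (fun z : X × ℝ => (r + z.2, z.1)))).measurable.enorm.pow_const p).aemeasurable

theorem integrable_mul_of_memLp {α : Type*} [MeasurableSpace α] {ν : Measure α} {p q : ℝ}
    (hpq : p.HolderConjugate q) {A B : α → ℝ}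
    (hA : MemLp A (ENNReal.ofReal p) ν) (hB : MemLp B (ENNReal.ofReal q) ν) :
    Integrable (fun a => A a * B a) ν := by
  have hp := hpq.pos
  have hq := hpq.symm.pos
  refine ⟨hA.1.mul hB.1, ?_⟩
  refine (lintegral_mul_enorm_le hpq hA.1 hB.1).trans_lt ?_
  refine ENNReal.mul_lt_top ?_ ?_
  · exact ENNReal.rpow_lt_top_of_nonneg (by positivity) (lintegral_rpow_lt_top hpq.lt.le hA).ne
  · exact ENNReal.rpow_lt_top_of_nonneg (by positivity) (lintegral_rpow_lt_top hpq.symm.lt.le hB).ne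

/-- Fubini for the averaged right-hand side -/
theorem fub_avg {P : Measure ℝ} [IsProbabilityMeasure P] {c : ℝ≥0∞} (hc : c ≠ ∞)
    (hP : P ≤ c • volume) {p q : ℝ} (hpq : p.HolderConjugate q) {R : ℝ × X → ℝ}
    (hR : StronglyMeasurable R) (hRm : MemLp R (ENNReal.ofReal q) (volume.prod μ)) (r : ℝ)
    {φ : X → ℝ} (hφ : MemLp φ (ENNReal.ofReal p) μ) :
    ∫ s, (∫ x, R (r + s, x) * φ x ∂μ) ∂P = ∫ x, avg P R (r, x) * φ x ∂μ := by
  have h1 : MemLp (fun z : ℝ × X => φ z.2) (ENNReal.ofReal p) (P.prod μ) := hφ.comp_snd P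
  have h2 := memLp_slice hc hP hpq.symm.lt.le hR hRm r (P := P)
  have h3 : Integrable (fun z : ℝ × X => R (r + z.1, z.2) * φ z.2) (P.prod μ) :=
    integrable_mul_of_memLp hpq.symm h2 h1
  rw [integral_integral_swap (f := fun s x => R (r + s, x) * φ x) h3]
  apply integral_congr_ae
  filter_upwards with x
  rw [integral_mul_const]
  rfl

end Slice

end Run7.h119
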