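import Mathlib
import Pool.Agent.Run7.h119.Lin

open MeasureTheory Set Filter Topology
open scoped ENNReal

set_option linter.unusedSectionVars false
set_option linter.style.haveILetI false

namespace Run7.h119

variable {X : Type*} [MetricSpace X] [SecondCountableTopology X] [SigmaCompactSpace X]
  [MeasurableSpace X] [BorelSpace X] {μ : Measure X} [IsFiniteMeasure μ]
  {V : Type*} [NormedAddCommGroup V] [InnerProductSpace ℝ V] [CompleteSpace V]

/-- a solution of the linear problem `w'' + A w = R` on `[a,b]` -/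
structure LinSol (ι : V →L[ℝ] Lp ℝ 2 μ) (p q a b : ℝ) (w : ℝ → V) (z : ℝ → Lp ℝ 2 μ)
    (zf R : ℝ × X → ℝ) : Prop where
  hpq : p.HolderConjugate q
  w_cont : Continuous w
  z_cont : Continuous z
  zf_meas : StronglyMeasurable zf
  R_meas : StronglyMeasurable R
  zf_mem : MemLp zf (ENNReal.ofReal p) (volume.prod μ)
  R_mem : MemLp R (ENNReal.ofReal q) (volume.prod μ)
  z_ae : ∀ᵐ t, t ∈ Ioo a b → (fun x => zf (t, x)) =ᵐ[μ] z t
  w_deriv : ∀ s t, a ≤ s → s ≤ t → t ≤ b → ι (w t) - ι (w s) = ∫ r in s..t, z r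
  weak : ∀ φ : V, MemLp (ι φ) (ENNReal.ofReal p) μ → ∀ s t, a ≤ s → s ≤ t → t ≤ b →
    inner ℝ (z t - z s) (ι φ) + ∫ r in s..t, inner ℝ (w r) φ
      = ∫ r in s..t, ∫ x, R (r, x) * ι φ x ∂μ

namespace LinSol

variable {ι : V →L[ℝ] Lp ℝ 2 μ} {p q a b : ℝ} {w : ℝ → V} {z : ℝ → Lp ℝ 2 μ}
    {zf R : ℝ × X → ℝ}

theorem S_z_ae (H : LinSol ι p q a b w z zf R) {h r : ℝ} (hh : 0 < h) (hr : a ≤ r)
    (hb : r + h < b) : ((S h z r : Lp ℝ 2 μ) : X → ℝ) =ᵐ[μ] fun x => avg (U h) zf (r, x) := by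
  haveI := isProb_U hh
  rw [S_eq hh]
  have h1 : Continuous (fun s => z (r + s)) := H.z_cont.comp (by fun_prop)
  have h2 : Integrable (fun s => z (r + s)) (U h) := by
    unfold U
    apply Integrable.smul_measure _ ENNReal.ofReal_ne_top
    exact (h1.continuousOn.integrableOn_compact isCompact_Icc).mono_set Ioc_subset_Icc_self
  have h3 : StronglyMeasurable (fun y : ℝ × X => zf (r + y.1, y.2)) :=
    H.zf_meas.comp_measurable (by fun_prop)
  refine (integral_lp2_ae h2 h3 ?_).2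
  have h4 : ∀ᵐ s : ℝ, r + s ∈ Ioo a b → (fun x => zf (r + s, x)) =ᵐ[μ] z (r + s) := by
    have := (measurePreserving_add_left volume r).quasiMeasurePreserving.ae H.z_ae
    exact this
  have h5 : ∀ᵐ s ∂(U h), s ∈ Ioc 0 h := by
    unfold U
    exact Measure.ae_smul_measure (ae_restrict_mem measurableSet_Ioc) _
  have h6 : U h ≪ volume := by
    unfold U
    exact (Measure.absolutelyContinuous_of_le_smul (c := ENNReal.ofReal h⁻¹) (by
      exact U_le))
  filter_upwards [h6.ae_le h4, h5] with s hs1 hs2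
  exact hs1 ⟨by linarith [hs2.1], by linarith [hs2.2]⟩

theorem ι_diff (H : LinSol ι p q a b w z zf R) {h r : ℝ} (hh : 0 < h) (hr : a ≤ r)
    (hb : r + h ≤ b) : ι (h⁻¹ • (w (r + h) - w r)) = S h z r := by
  rw [map_smul, map_sub, H.w_deriv r (r + h) hr (by linarith) hb, S]

theorem weak_avg (H : LinSol ι p q a b w z zf R) {h r : ℝ} (hh : 0 < h) (hr : a ≤ r)
    (hb : r + h ≤ b) {φ : V} (hφ : MemLp (ι φ) (ENNReal.ofReal p) μ) :
    inner ℝ (h⁻¹ • (z (r + h) - z r)) (ι φ) + inner ℝ (S h w r) φ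
      = ∫ x, avg (U h) R (r, x) * ι φ x ∂μ := by
  haveI := isProb_U hh
  have h1 := H.weak φ hφ r (r + h) hr (by linarith) hb
  have h2 := fub_avg (P := U h) ENNReal.ofReal_ne_top U_le H.hpq H.R_meas H.R_mem r hφ
  rw [← h2, integral_U hh]
  have h3 : ∫ s in (0:ℝ)..h, (∫ x, R (r + s, x) * ι φ x ∂μ) = ∫ s in r..(r+h), (∫ x, R (s, x) * ι φ x ∂μ) := by
    rw [intervalIntegral.integral_comp_add_left (fun s => ∫ x, R (s, x) * ι φ x ∂μ)]
    simp
  rw [h3, ← h1, inner_smul_left, S, inner_smul_left, smul_eq_mul, mul_add]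
  congr 1
  rw [intervalIntegral.integral_of_le (by linarith), intervalIntegral.integral_of_le (by linarith)]
  congr 1
  have h4 : Integrable w (volume.restrict (Ioc r (r + h))) :=
    (H.w_cont.continuousOn.integrableOn_compact isCompact_Icc).mono_set Ioc_subset_Icc_self
  rw [real_inner_comm, ← integral_inner h4]
  apply integral_congr_ae
  filter_upwards with s
  exact real_inner_comm _ _


/-- convergence of the averaged pairing -/
theorem tendsto_avg_pair {p q : ℝ} (hpq : p.HolderConjugate q) {A B : ℝ × X → ℝ}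
    (hA : StronglyMeasurable A) (hB : StronglyMeasurable B)
    (hAm : MemLp A (ENNReal.ofReal p) (volume.prod μ))
    (hBm : MemLp B (ENNReal.ofReal q) (volume.prod μ)) (s t : ℝ) (hst : s ≤ t) :
    Tendsto (fun h => ∫ r in s..t, ∫ x, avg (U h) B (r, x) * avg (U h) A (r, x) ∂μ) (𝓝[>] 0)
      (𝓝 (∫ r in s..t, ∫ x, B (r, x) * A (r, x) ∂μ)) ∧
    Tendsto (fun h => ∫ r in s..t, ∫ x, avg (U h) B (r, x) * A (r, x) ∂μ) (𝓝[>] 0)
      (𝓝 (∫ r in s..t, ∫ x, B (r, x) * A (r, x) ∂μ)) := by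
  have hle : ((volume.restrict (Ioc s t)).prod μ : Measure (ℝ × X)) ≤ volume.prod μ := by
    have : (volume.restrict (Ioc s t)).prod μ = (volume.prod μ).restrict (Ioc s t ×ˢ univ) := by
      rw [← Measure.prod_restrict, Measure.restrict_univ]
    rw [this]
    exact Measure.restrict_le_self
  have hA' : MemLp A (ENNReal.ofReal p) ((volume.restrict (Ioc s t)).prod μ) := hAm.mono_measure hle
  have hB' : MemLp B (ENNReal.ofReal q) ((volume.restrict (Ioc s t)).prod μ) := hBm.mono_measure hle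
  have hAh : ∀ h, 0 < h → MemLp (avg (U h) A) (ENNReal.ofReal p) ((volume.restrict (Ioc s t)).prod μ) := by
    intro h hh
    haveI := isProb_U hh
    exact (memLp_avg hpq.lt.le hA hAm).mono_measure hle
  have hBh : ∀ h, 0 < h → MemLp (avg (U h) B) (ENNReal.ofReal q) ((volume.restrict (Ioc s t)).prod μ) := by
    intro h hh
    haveI := isProb_U hh
    exact (memLp_avg hpq.symm.lt.le hB hBm).mono_measure hle
  have tA : Tendsto (fun h : ℝ => ∫⁻ y, ‖avg (U h) A y - A y‖ₑ ^ p ∂((volume.restrict (Ioc s t)).prod μ))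
      (𝓝[>] 0) (𝓝 0) :=
    tendsto_of_tendsto_of_tendsto_of_le_of_le tendsto_const_nhds (tendsto_avg_U hpq.lt.le hA hAm)
      (fun _ => by simp) (fun _ => lintegral_mono' hle le_rfl)
  have tB : Tendsto (fun h : ℝ => ∫⁻ y, ‖avg (U h) B y - B y‖ₑ ^ q ∂((volume.restrict (Ioc s t)).prod μ))
      (𝓝[>] 0) (𝓝 0) :=
    tendsto_of_tendsto_of_tendsto_of_le_of_le tendsto_const_nhds (tendsto_avg_U hpq.symm.lt.le hB hBm)
      (fun _ => by simp) (fun _ => lintegral_mono' hle le_rfl)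
  have conv : ∀ {C D : ℝ × X → ℝ}, MemLp C (ENNReal.ofReal p) ((volume.restrict (Ioc s t)).prod μ) →
      MemLp D (ENNReal.ofReal q) ((volume.restrict (Ioc s t)).prod μ) →
      ∫ r in s..t, ∫ x, D (r, x) * C (r, x) ∂μ = ∫ y, D y * C y ∂((volume.restrict (Ioc s t)).prod μ) := by
    intro C D hC hD
    rw [intervalIntegral.integral_of_le hst, integral_prod]
    exact integrable_mul_of_memLp hpq.symm hD hC
  rw [conv hA' hB']
  constructor
  · have := tendsto_pair hpq.symm hB' hA' (Fh := fun h => avg (U h) B) (Gh := fun h => avg (U h) A)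
      (l := 𝓝[>] 0) (by filter_upwards [self_mem_nhdsWithin] with h hh using hBh h hh)
      (by filter_upwards [self_mem_nhdsWithin] with h hh using hAh h hh) tB tA
    refine this.congr' ?_
    filter_upwards [self_mem_nhdsWithin] with h hh
    exact (conv (hAh h hh) (hBh h hh)).symm
  · have := tendsto_pair hpq.symm hB' hA' (Fh := fun h => avg (U h) B) (Gh := fun _ => A)
      (l := 𝓝[>] 0) (by filter_upwards [self_mem_nhdsWithin] with h hh using hBh h hh)
      (Eventually.of_forall fun _ => hA') tB (by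
        have h0 : (0:ℝ) < p := hpq.pos
        simp [h0])
    refine this.congr' ?_
    filter_upwards [self_mem_nhdsWithin] with h hh
    exact (conv hA' (hBh h hh)).symm

theorem energy (H : LinSol ι p q a b w z zf R) {s t : ℝ} (hs : a ≤ s) (hst : s ≤ t) (ht : t < b) :
    (‖z t‖ ^ 2 + ‖w t‖ ^ 2) / 2 - (‖z s‖ ^ 2 + ‖w s‖ ^ 2) / 2
      = ∫ r in s..t, ∫ x, R (r, x) * zf (r, x) ∂μ := by
  have t1 := (tendsto_avg_pair H.hpq H.zf_meas H.R_meas H.zf_mem H.R_mem s t hst).1
  have t2 : Tendsto (fun h => (‖S h z t‖ ^ 2 + ‖S h w t‖ ^ 2) / 2 - (‖S h z s‖ ^ 2 + ‖S h w s‖ ^ 2) / 2)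
      (𝓝[>] 0) (𝓝 ((‖z t‖ ^ 2 + ‖w t‖ ^ 2) / 2 - (‖z s‖ ^ 2 + ‖w s‖ ^ 2) / 2)) := by
    have a1 := (tendsto_S H.z_cont t).norm.pow 2
    have a2 := (tendsto_S H.w_cont t).norm.pow 2
    have a3 := (tendsto_S H.z_cont s).norm.pow 2
    have a4 := (tendsto_S H.w_cont s).norm.pow 2
    exact ((a1.add a2).div_const 2).sub ((a3.add a4).div_const 2)
  refine tendsto_nhds_unique t2 (t1.congr' ?_)
  have hpos : (0:ℝ) < b - t := by linarith
  filter_upwards [Ioo_mem_nhdsGT hpos] with h hh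
  haveI := isProb_U hh.1
  have hder : ∀ r, HasDerivAt (fun r => (‖S h z r‖ ^ 2 + ‖S h w r‖ ^ 2) / 2)
      (inner ℝ (h⁻¹ • (z (r + h) - z r)) (S h z r) + inner ℝ (S h w r) (h⁻¹ • (w (r + h) - w r))) r := by
    intro r
    have d1 := (hasDerivAt_S h H.z_cont r).norm_sq
    have d2 := (hasDerivAt_S h H.w_cont r).norm_sq
    have d3 := (d1.add d2).div_const 2
    refine d3.congr_deriv ?_
    rw [real_inner_comm (S h z r)]
    ring
  have hcont : Continuous (fun r => inner ℝ (h⁻¹ • (z (r + h) - z r)) (S h z r) +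
      inner ℝ (S h w r) (h⁻¹ • (w (r + h) - w r))) := by
    have c1 := continuous_S h H.z_cont
    have c2 := continuous_S h H.w_cont
    have c3 := H.z_cont
    have c4 := H.w_cont
    fun_prop
  rw [← intervalIntegral.integral_eq_sub_of_hasDerivAt (fun r _ => hder r)
    (hcont.intervalIntegrable _ _)]
  apply intervalIntegral.integral_congr
  intro r hr
  rw [uIcc_of_le hst] at hr
  have hr1 : a ≤ r := hs.trans hr.1
  have hr2 : r + h < b := by linarith [hr.2, hh.2]
  have e1 := H.ι_diff hh.1 hr1 hr2.le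
  have e2 := H.S_z_ae hh.1 hr1 hr2
  have hmem : MemLp (ι (h⁻¹ • (w (r + h) - w r))) (ENNReal.ofReal p) μ := by
    rw [e1]
    exact (memLp_congr_ae e2).2 (memLp_avg_slice ENNReal.ofReal_ne_top U_le H.hpq.lt.le H.zf_meas
      H.zf_mem r)
  have e3 := H.weak_avg hh.1 hr1 hr2.le hmem
  rw [e1] at e3
  simp only
  rw [e3]
  apply integral_congr_ae
  filter_upwards [e2] with x hx
  rw [hx]


theorem tendsto_int_S {G : Type*} [NormedAddCommGroup G] [InnerProductSpace ℝ G] [CompleteSpace G]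
    {F : ℝ → G} (hF : Continuous F) {s t : ℝ} (hst : s ≤ t) :
    Tendsto (fun h => ∫ r in s..t, inner ℝ (S h F r) (F r)) (𝓝[>] 0)
      (𝓝 (∫ r in s..t, ‖F r‖ ^ 2)) := by
  obtain ⟨C, hC⟩ := (isCompact_Icc (a := s) (b := t + 1)).exists_bound_of_continuousOn hF.continuousOn
  have hC0 : 0 ≤ C := (norm_nonneg _).trans (hC s ⟨le_rfl, by linarith⟩)
  refine intervalIntegral.tendsto_integral_filter_of_dominated_convergence (fun _ => C * C) ?_ ?_ ?_ ?_
  · refine Eventually.of_forall fun h => ?_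
    have c1 := continuous_S h hF
    exact (c1.inner hF).aestronglyMeasurable
  · filter_upwards [Ioo_mem_nhdsGT (zero_lt_one' ℝ)] with h hh
    refine Eventually.of_forall fun r hr => ?_
    rw [uIoc_of_le hst] at hr
    refine (norm_inner_le_norm _ _).trans ?_
    have h1 : ‖S h F r‖ ≤ C := norm_S_le hh.1 fun s' hs' => hC s' ⟨by linarith [hr.1, hs'.1], by
      linarith [hr.2, hs'.2, hh.2]⟩
    have h2 : ‖F r‖ ≤ C := hC r ⟨hr.1.le, by linarith [hr.2]⟩
    exact mul_le_mul h1 h2 (norm_nonneg _) hC0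
  · exact intervalIntegrable_const
  · refine Eventually.of_forall fun r _ => ?_
    have := Filter.Tendsto.inner (𝕜 := ℝ) (tendsto_S hF r) (tendsto_const_nhds (x := F r))
    rwa [real_inner_self_eq_norm_sq] at this

theorem virial (H : LinSol ι p q a b w z zf R) {yf : ℝ × X → ℝ} (hyf : StronglyMeasurable yf)
    (hym : MemLp yf (ENNReal.ofReal p) (volume.prod μ))
    (hy : ∀ᵐ r, r ∈ Ioo a b → (fun x => yf (r, x)) =ᵐ[μ] ι (w r))
    {s t : ℝ} (hs : a ≤ s) (hst : s ≤ t) (ht : t < b) :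
    inner ℝ (z t) (ι (w t)) - inner ℝ (z s) (ι (w s)) + ∫ r in s..t, (‖w r‖ ^ 2 - ‖z r‖ ^ 2)
      = ∫ r in s..t, ∫ x, R (r, x) * yf (r, x) ∂μ := by
  have t1 := (tendsto_avg_pair H.hpq hyf H.R_meas hym H.R_mem s t hst).2
  set y : ℝ → Lp ℝ 2 μ := fun r => ι (w a) + ∫ τ in a..r, z τ with hydef
  have hyd : ∀ r, HasDerivAt y (z r) r := by
    intro r
    have h2 : HasDerivAt (fun u : ℝ => ∫ s in a..u, z s) (z r) r :=
      intervalIntegral.integral_hasDerivAt_right (H.z_cont.intervalIntegrable _ _)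
        (H.z_cont.stronglyMeasurableAtFilter _ _) H.z_cont.continuousAt
    exact h2.const_add _
  have hyc : Continuous y := continuous_iff_continuousAt.2 fun r => (hyd r).continuousAt
  have hyw : ∀ r, a ≤ r → r ≤ b → y r = ι (w r) := by
    intro r h1 h2
    rw [hydef]
    simp only
    rw [← H.w_deriv a r le_rfl h1 h2]
    abel
  have t2 : Tendsto (fun h => inner ℝ (S h z t) (y t) - inner ℝ (S h z s) (y s) +
      ((∫ r in s..t, inner ℝ (S h w r) (w r)) - ∫ r in s..t, inner ℝ (S h z r) (z r)))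
      (𝓝[>] 0) (𝓝 (inner ℝ (z t) (y t) - inner ℝ (z s) (y s) +
        ((∫ r in s..t, ‖w r‖ ^ 2) - ∫ r in s..t, ‖z r‖ ^ 2))) := by
    have a1 := Filter.Tendsto.inner (𝕜 := ℝ) (tendsto_S H.z_cont t) (tendsto_const_nhds (x := y t))
    have a2 := Filter.Tendsto.inner (𝕜 := ℝ) (tendsto_S H.z_cont s) (tendsto_const_nhds (x := y s))
    exact (a1.sub a2).add ((tendsto_int_S H.w_cont hst).sub (tendsto_int_S H.z_cont hst))
  have i1 : IntervalIntegrable (fun r => ‖w r‖ ^ 2) volume s t :=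
    (H.w_cont.norm.pow 2).intervalIntegrable _ _
  have i2 : IntervalIntegrable (fun r => ‖z r‖ ^ 2) volume s t :=
    (H.z_cont.norm.pow 2).intervalIntegrable _ _
  rw [intervalIntegral.integral_sub i1 i2, ← hyw t (hs.trans hst) ht.le,
    ← hyw s hs (hst.trans ht.le)]
  refine tendsto_nhds_unique t2 (t1.congr' ?_)
  have hpos : (0:ℝ) < b - t := by linarith
  filter_upwards [Ioo_mem_nhdsGT hpos] with h hh
  haveI := isProb_U hh.1
  have c1 := continuous_S h H.z_cont
  have c2 := continuous_S h H.w_cont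
  have c3 := H.z_cont
  have c4 := H.w_cont
  have hder : ∀ r, HasDerivAt (fun r => inner ℝ (S h z r) (y r))
      (inner ℝ (S h z r) (z r) + inner ℝ (h⁻¹ • (z (r + h) - z r)) (y r)) r := by
    intro r
    exact (hasDerivAt_S h H.z_cont r).inner ℝ (hyd r)
  have hcont : Continuous (fun r => inner ℝ (S h z r) (z r) +
      inner ℝ (h⁻¹ • (z (r + h) - z r)) (y r)) := by
    fun_prop
  rw [← intervalIntegral.integral_eq_sub_of_hasDerivAt (fun r _ => hder r)
    (hcont.intervalIntegrable _ _)]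
  have j1 : IntervalIntegrable (fun r => (inner ℝ (S h w r) (w r) : ℝ)) volume s t :=
    (c2.inner c4).intervalIntegrable _ _
  have j2 : IntervalIntegrable (fun r => (inner ℝ (S h z r) (z r) : ℝ)) volume s t :=
    (c1.inner c3).intervalIntegrable _ _
  rw [← intervalIntegral.integral_sub j1 j2, ← intervalIntegral.integral_add
    (hcont.intervalIntegrable _ _) (j1.sub j2)]
  -- slices of yf are in L^p
  have hsl : ∀ᵐ r : ℝ, MemLp (fun x => yf (r, x)) (ENNReal.ofReal p) μ := by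
    have h1 := lintegral_rpow_lt_top H.hpq.lt.le hym
    rw [lintegral_prod _ (hyf.measurable.enorm.pow_const p).aemeasurable] at h1
    have h2 := ae_lt_top (Measurable.lintegral_prod_right' (hyf.measurable.enorm.pow_const p)) h1.ne
    filter_upwards [h2] with r hr
    exact memLp_of_lintegral H.hpq.lt.le
      (hyf.comp_measurable (by fun_prop)).aestronglyMeasurable hr
  apply intervalIntegral.integral_congr_ae
  filter_upwards [hsl, hy] with r hr1 hr2 hr
  rw [uIoc_of_le hst] at hr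
  have b1 : a ≤ r := hs.trans hr.1.le
  have b2 : r < b := lt_of_le_of_lt hr.2 ht
  have b3 : r + h ≤ b := by linarith [hr.2, hh.2]
  have hr3 := hr2 ⟨lt_of_le_of_lt hs hr.1, b2⟩
  have hmem : MemLp (ι (w r)) (ENNReal.ofReal p) μ := (memLp_congr_ae hr3).1 hr1
  have e3 := H.weak_avg hh.1 b1 b3 hmem
  rw [hyw r b1 b2.le]
  have e4 : ∫ x, avg (U h) R (r, x) * yf (r, x) ∂μ = ∫ x, avg (U h) R (r, x) * ι (w r) x ∂μ := by
    apply integral_congr_ae
    filter_upwards [hr3] with x hx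
    rw [hx]
  rw [e4, ← e3]
  ring

end LinSol

end Run7.h119
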