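import Mathlib
import Pool.Agent.Run7.h119.Energy

open MeasureTheory Set Filter Topology
open scoped ENNReal

set_option linter.unusedSectionVars false
set_option linter.style.haveILetI false

namespace Run7.h119

section Proj

variable {V : Type*} [NormedAddCommGroup V] [InnerProductSpace ℝ V] [CompleteSpace V]

theorem exists_proj {C : Set V} (hne : C.Nonempty) (hcl : IsClosed C) (hcv : Convex ℝ C) (w : V) :
    ∃ z ∈ C, ∀ y ∈ C, inner ℝ (w - z) (y - z) ≤ 0 := by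
  obtain ⟨z, hz, h⟩ := exists_norm_eq_iInf_of_complete_convex hne hcl.isComplete hcv w
  exact ⟨z, hz, (norm_eq_iInf_iff_real_inner_le_zero hcv hz).1 h⟩

/-- a selection of metric projections -/
structure IsProj (C : Set V) (P : V → V) : Prop where
  mem : ∀ w, P w ∈ C
  vi : ∀ w, ∀ y ∈ C, inner ℝ (w - P w) (y - P w) ≤ 0

variable {C : Set V} {P : V → V}

theorem IsProj.sub_le (h : IsProj C P) (w₀ w₁ : V) :
    ‖(w₁ - P w₁) - (w₀ - P w₀)‖ ≤ ‖w₁ - w₀‖ := by
  have h1 := h.vi w₁ _ (h.mem w₀)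
  have h2 := h.vi w₀ _ (h.mem w₁)
  set x₁ := w₁ - P w₁
  set x₀ := w₀ - P w₀
  have e1 : w₁ - w₀ = (x₁ - x₀) + (P w₁ - P w₀) := by simp only [x₁, x₀]; abel
  have h3 : 0 ≤ inner ℝ (x₁ - x₀) (P w₁ - P w₀) := by
    rw [inner_sub_left]
    have : inner ℝ x₁ (P w₀ - P w₁) = - inner ℝ x₁ (P w₁ - P w₀) := by
      rw [← inner_neg_right]; congr 1; abel
    linarith
  have h4 : ‖x₁ - x₀‖ * ‖x₁ - x₀‖ ≤ ‖x₁ - x₀‖ * ‖w₁ - w₀‖ := by
    calc ‖x₁ - x₀‖ * ‖x₁ - x₀‖ = inner ℝ (x₁ - x₀) (x₁ - x₀) := (real_inner_self_eq_norm_mul_norm _).symm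
      _ ≤ inner ℝ (x₁ - x₀) (w₁ - w₀) := by rw [e1, inner_add_right]; linarith
      _ ≤ _ := real_inner_le_norm _ _
  by_cases h0 : ‖x₁ - x₀‖ = 0
  · rw [h0]; exact norm_nonneg _
  · exact le_of_mul_le_mul_left h4 (lt_of_le_of_ne (norm_nonneg _) (Ne.symm h0))

theorem IsProj.upper (h : IsProj C P) (w₀ w₁ : V) :
    ‖w₁ - P w₁‖ ^ 2 / 2 - ‖w₀ - P w₀‖ ^ 2 / 2 ≤ inner ℝ (w₁ - P w₁) (w₁ - w₀) := by
  have h1 := h.vi w₁ _ (h.mem w₀)
  set x₁ := w₁ - P w₁
  set x₀ := w₀ - P w₀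
  have e1 : w₁ - w₀ = (x₁ - x₀) - (P w₀ - P w₁) := by simp only [x₁, x₀]; abel
  have h2 : inner ℝ x₁ (x₁ - x₀) ≤ inner ℝ x₁ (w₁ - w₀) := by
    rw [e1, inner_sub_right x₁ (x₁ - x₀)]; linarith
  have h3 : ‖x₁‖ ^ 2 / 2 - ‖x₀‖ ^ 2 / 2 ≤ inner ℝ x₁ (x₁ - x₀) := by
    have := norm_sub_sq_real x₁ x₀
    have h5 : (0:ℝ) ≤ ‖x₁ - x₀‖ ^ 2 := sq_nonneg _
    rw [inner_sub_right, real_inner_self_eq_norm_sq]
    linarith
  linarith

theorem IsProj.lower (h : IsProj C P) (w₀ w₁ : V) :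
    inner ℝ (w₀ - P w₀) (w₁ - w₀) ≤ ‖w₁ - P w₁‖ ^ 2 / 2 - ‖w₀ - P w₀‖ ^ 2 / 2 := by
  have := h.upper w₁ w₀
  have e : w₀ - w₁ = -(w₁ - w₀) := by abel
  rw [e, inner_neg_right] at this
  linarith

theorem IsProj.hasFDerivAt (h : IsProj C P) (w : V) :
    HasFDerivAt (fun w => ‖w - P w‖ ^ 2 / 2) (innerSL ℝ (w - P w)) w := by
  rw [hasFDerivAt_iff_isLittleO_nhds_zero]
  have key : ∀ y, ‖‖w + y - P (w + y)‖ ^ 2 / 2 - ‖w - P w‖ ^ 2 / 2 - (innerSL ℝ (w - P w)) y‖ ≤ ‖y‖ * ‖y‖ := by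
    intro y
    have h1 := h.upper w (w + y)
    have h2 := h.lower w (w + y)
    have h3 := h.sub_le w (w + y)
    rw [add_sub_cancel_left] at h1 h2 h3
    rw [innerSL_apply_apply, Real.norm_eq_abs, abs_le]
    have h4 : inner ℝ ((w + y - P (w + y)) - (w - P w)) y ≤ ‖y‖ * ‖y‖ :=
      (real_inner_le_norm _ _).trans (mul_le_mul_of_nonneg_right h3 (norm_nonneg _))
    rw [inner_sub_left] at h4
    have h5 : 0 ≤ ‖y‖ * ‖y‖ := by positivity
    constructor <;> linarith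
  rw [Asymptotics.isLittleO_iff]
  intro c hc
  filter_upwards [Metric.ball_mem_nhds (0 : V) hc] with y hy
  rw [mem_ball_zero_iff] at hy
  refine (key y).trans ?_
  gcongr

end Proj

section Form

variable {X : Type*} [MeasurableSpace X] {μ : Measure X} [IsFiniteMeasure μ]
  {V : Type*} [NormedAddCommGroup V] [InnerProductSpace ℝ V] [CompleteSpace V]

/-- abstract energy space: lattice property and a weak Sobolev inequality -/
structure Form (ι : V →L[ℝ] Lp ℝ 2 μ) (ρ Sob : ℝ) : Prop where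
  markov : ∀ (w : V) (l : ℝ), 0 ≤ l → ∃ ξ : V, (ι ξ : X → ℝ) =ᵐ[μ] (fun x => max (ι w x - l) 0) ∧
    0 ≤ inner ℝ (w - ξ) ξ
  sob : ∀ (w : V) (l : ℝ), 0 < l → μ.real {x | l ≤ |ι w x|} ≤ Sob * (‖w‖ / l) ^ ρ

/-- obstacle set -/
def Obs (ι : V →L[ℝ] Lp ℝ 2 μ) (l : ℝ) : Set V := {z | ∀ᵐ x ∂μ, |ι z x| ≤ l}

variable {ι : V →L[ℝ] Lp ℝ 2 μ}

theorem ι_smul_ae (c : ℝ) (w : V) : (ι (c • w) : X → ℝ) =ᵐ[μ] fun x => c * ι w x := by
  rw [map_smul]
  filter_upwards [Lp.coeFn_smul c (ι w)] with x hx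
  rw [hx]; rfl

theorem ι_add_ae (w w' : V) : (ι (w + w') : X → ℝ) =ᵐ[μ] fun x => ι w x + ι w' x := by
  rw [map_add]
  filter_upwards [Lp.coeFn_add (ι w) (ι w')] with x hx
  rw [hx]; rfl

theorem ι_sub_ae (w w' : V) : (ι (w - w') : X → ℝ) =ᵐ[μ] fun x => ι w x - ι w' x := by
  rw [map_sub]
  filter_upwards [Lp.coeFn_sub (ι w) (ι w')] with x hx
  rw [hx]; rfl

theorem ι_neg_ae (w : V) : (ι (-w) : X → ℝ) =ᵐ[μ] fun x => - ι w x := by
  rw [map_neg]
  filter_upwards [Lp.coeFn_neg (ι w)] with x hx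
  rw [hx]; rfl

theorem ι_zero_ae : (ι 0 : X → ℝ) =ᵐ[μ] fun _ => 0 := by
  rw [map_zero]
  exact Lp.coeFn_zero ℝ 2 μ

theorem zero_mem_Obs {l : ℝ} (hl : 0 ≤ l) : (0 : V) ∈ Obs ι l := by
  filter_upwards [ι_zero_ae (ι := ι)] with x hx
  rw [hx]; simpa using hl

theorem convex_Obs {l : ℝ} : Convex ℝ (Obs ι l) := by
  intro z hz y hy a b ha hb hab
  filter_upwards [hz, hy, ι_add_ae (ι := ι) (a • z) (b • y), ι_smul_ae (ι := ι) a z,
    ι_smul_ae (ι := ι) b y] with x h1 h2 h3 h4 h5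
  rw [h3, h4, h5]
  calc |a * ι z x + b * ι y x| ≤ |a * ι z x| + |b * ι y x| := abs_add_le _ _
    _ = a * |ι z x| + b * |ι y x| := by rw [abs_mul, abs_mul, abs_of_nonneg ha, abs_of_nonneg hb]
    _ ≤ a * l + b * l := by gcongr
    _ = l := by rw [← add_mul, hab, one_mul]

theorem isClosed_Obs {l : ℝ} : IsClosed (Obs ι l) := by
  have : Obs ι l = ι ⁻¹' (Icc (-(Lp.const 2 μ l)) (Lp.const 2 μ l)) := by
    ext z
    simp only [Obs, mem_ofPred_eq, mem_preimage, mem_Icc]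
    rw [← Lp.coeFn_le, ← Lp.coeFn_le]
    constructor
    · intro h
      constructor
      · filter_upwards [h, Lp.coeFn_neg (Lp.const 2 μ l), Lp.coeFn_const (p := 2) (μ := μ) (c := l)] with x h1 h2 h3
        rw [h2, Pi.neg_apply, h3]
        exact (abs_le.1 h1).1
      · filter_upwards [h, Lp.coeFn_const (p := 2) (μ := μ) (c := l)] with x h1 h3
        rw [h3]
        exact (abs_le.1 h1).2
    · rintro ⟨h1, h2⟩
      filter_upwards [h1, h2, Lp.coeFn_neg (Lp.const 2 μ l), Lp.coeFn_const (p := 2) (μ := μ) (c := l)] with x h1 h2 h3 h4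
      rw [h3, Pi.neg_apply, h4] at h1
      rw [h4] at h2
      exact abs_le.2 ⟨h1, h2⟩
  rw [this]
  exact isClosed_Icc.preimage ι.continuous

/-- the unit obstacle projection -/
theorem exists_isProj (ι : V →L[ℝ] Lp ℝ 2 μ) : ∃ P : V → V, IsProj (Obs ι 1) P := by
  have h := fun w : V => exists_proj ⟨0, zero_mem_Obs (ι := ι) zero_le_one⟩ isClosed_Obs convex_Obs w
  choose P h1 h2 using h
  exact ⟨P, h1, h2⟩

/-- one-sided obstacle estimate for nonnegative test functions -/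
theorem sandwich_nonneg {ρ Sob : ℝ} (F : Form ι ρ Sob) {p q : ℝ} (hpq : p.HolderConjugate q) {l : ℝ}
    (hl : 0 < l) {w z : V} (hz : z ∈ Obs ι l) (vi : ∀ y ∈ Obs ι l, inner ℝ (w - z) (y - z) ≤ 0)
    {h : X → ℝ} (hh : MemLp h (ENNReal.ofReal q) μ)
    (hw : ∀ ψ : V, MemLp (ι ψ) (ENNReal.ofReal p) μ → inner ℝ w ψ = ∫ x, h x * ι ψ x ∂μ)
    {φ : V} (hφ : MemLp (ι φ) (ENNReal.ofReal p) μ) (hφ0 : ∀ᵐ x ∂μ, 0 ≤ ι φ x) :
    inner ℝ (w - z) φ ≤ ∫ x in {x | l ≤ ι z x}, h x * ι φ x ∂μ := by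
  have hzm : Measurable (ι z : X → ℝ) := (Lp.stronglyMeasurable (ι z)).measurable
  have hφm : Measurable (ι φ : X → ℝ) := (Lp.stronglyMeasurable (ι φ)).measurable
  have hint : Integrable (fun x => h x * ι φ x) μ := integrable_mul_of_memLp hpq.symm hh hφ
  -- the estimate at level n
  have key : ∀ n : ℕ, inner ℝ (w - z) φ ≤
      (∫ x, h x * max (ι φ x - (n + 1) * (l - ι z x)) 0 ∂μ) + (1 / ((n:ℝ) + 1)) * ‖φ‖ ^ 2 / 4 := by
    intro n
    set ε : ℝ := 1 / ((n:ℝ) + 1) with hε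
    have hεp : 0 < ε := by positivity
    obtain ⟨ξ, hξ1, hξ2⟩ := F.markov (z + ε • φ) l hl.le
    have aeW : ∀ᵐ x ∂μ, ι (z + ε • φ) x = ι z x + ε * ι φ x := by
      filter_upwards [ι_add_ae (ι := ι) z (ε • φ), ι_smul_ae (ι := ι) ε φ] with x h1 h2
      rw [h1, h2]
    have hy : (z + ε • φ - ξ) ∈ Obs ι l := by
      filter_upwards [hz, hφ0, hξ1, aeW, ι_sub_ae (ι := ι) (z + ε • φ) ξ] with x h1 h2 h3 h4 h5
      rw [h5, h3, h4]
      have h6 : 0 ≤ ε * ι φ x := by positivity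
      rw [abs_le] at h1 ⊢
      rcases le_total (ι z x + ε * ι φ x - l) 0 with h7 | h7
      · rw [max_eq_right h7]
        constructor <;> linarith
      · rw [max_eq_left h7]
        constructor <;> linarith
    have hv := vi _ hy
    have e1 : z + ε • φ - ξ - z = ε • φ - ξ := by abel
    rw [e1, inner_sub_right, inner_smul_right] at hv
    have hξm : MemLp (ι ξ) (ENNReal.ofReal p) μ := by
      refine (hφ.const_mul ε).of_le (Lp.aestronglyMeasurable _) ?_
      filter_upwards [hz, hφ0, hξ1, aeW] with x h1 h2 h3 h4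
      rw [h3, h4, Real.norm_of_nonneg (le_max_right _ _), norm_mul, Real.norm_of_nonneg hεp.le,
        Real.norm_of_nonneg h2]
      have h6 : 0 ≤ ε * ι φ x := by positivity
      rw [abs_le] at h1
      exact max_le (by linarith) h6
    have e2 : inner ℝ (w - z) ξ = (∫ x, h x * ι ξ x ∂μ) - inner ℝ z ξ := by
      rw [inner_sub_left, hw ξ hξm]
    have e3 : - inner ℝ z ξ ≤ ε ^ 2 * ‖φ‖ ^ 2 / 4 := by
      have h8 : inner ℝ (z + ε • φ - ξ) ξ = inner ℝ z ξ + ε * inner ℝ φ ξ - ‖ξ‖ ^ 2 := by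
        rw [inner_sub_left, inner_add_left, inner_smul_left, real_inner_self_eq_norm_sq]
        rfl
      have h9 : inner ℝ φ ξ ≤ ‖φ‖ * ‖ξ‖ := real_inner_le_norm _ _
      have h10 : ε * inner ℝ φ ξ ≤ ε * (‖φ‖ * ‖ξ‖) := by gcongr
      nlinarith [sq_nonneg (ε * ‖φ‖ / 2 - ‖ξ‖)]
    have e4 : ∫ x, h x * ι ξ x ∂μ = ε * ∫ x, h x * max (ι φ x - (n + 1) * (l - ι z x)) 0 ∂μ := by
      rw [← integral_const_mul]
      apply integral_congr_ae
      filter_upwards [hξ1, aeW] with x h3 h4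
      rw [h3, h4]
      have e5 : ι z x + ε * ι φ x - l = ε * (ι φ x - (n + 1) * (l - ι z x)) := by
        rw [hε]; field_simp; ring
      rw [e5, ← mul_zero ε, ← mul_max_of_nonneg _ _ hεp.le, mul_zero]
      ring
    have e5 : ε * inner ℝ (w - z) φ ≤ ε * ((∫ x, h x * max (ι φ x - (n + 1) * (l - ι z x)) 0 ∂μ) +
        ε * ‖φ‖ ^ 2 / 4) := by
      rw [e2, e4] at hv
      nlinarith
    exact le_of_mul_le_mul_left e5 hεp
  -- pass to the limit
  have lim : Tendsto (fun n : ℕ => (∫ x, h x * max (ι φ x - (n + 1) * (l - ι z x)) 0 ∂μ) +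
      (1 / ((n:ℝ) + 1)) * ‖φ‖ ^ 2 / 4) atTop (𝓝 ((∫ x in {x | l ≤ ι z x}, h x * ι φ x ∂μ) + 0)) := by
    refine Tendsto.add ?_ ?_
    · rw [← integral_indicator (measurableSet_le measurable_const hzm)]
      refine tendsto_integral_of_dominated_convergence (fun x => ‖h x * ι φ x‖) ?_ hint.norm ?_ ?_
      · intro n
        refine hh.1.mul ?_
        exact (Measurable.max (by fun_prop) measurable_const).aestronglyMeasurable
      · intro n
        filter_upwards [hz, hφ0] with x h1 h2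
        rw [norm_mul, norm_mul]
        gcongr
        rw [Real.norm_of_nonneg (le_max_right _ _), Real.norm_of_nonneg h2]
        rw [abs_le] at h1
        refine max_le ?_ h2
        have : 0 ≤ ((n:ℝ) + 1) * (l - ι z x) := mul_nonneg (by positivity) (by linarith)
        linarith
      · filter_upwards [hz, hφ0] with x h1 h2
        rw [abs_le] at h1
        by_cases h3 : l ≤ ι z x
        · have h4 : ι z x = l := le_antisymm h1.2 h3
          rw [indicator_of_mem (show x ∈ {x | l ≤ ι z x} from h3)]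
          simp only [h4, sub_self, mul_zero, sub_zero, max_eq_left h2]
          exact tendsto_const_nhds
        · rw [indicator_of_notMem (show x ∉ {x | l ≤ ι z x} from h3)]
          push Not at h3
          have h4 : Tendsto (fun n : ℕ => ((n:ℝ) + 1) * (l - ι z x)) atTop atTop :=
            (tendsto_atTop_add_const_right _ _ tendsto_natCast_atTop_atTop).atTop_mul_const
              (by linarith)
          refine tendsto_const_nhds.congr' ?_
          filter_upwards [h4.eventually_ge_atTop (ι φ x)] with n hn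
          rw [max_eq_right (by linarith), mul_zero]
    · have : Tendsto (fun n : ℕ => (1 / ((n:ℝ) + 1))) atTop (𝓝 0) :=
        tendsto_one_div_add_atTop_nhds_zero_nat
      have h2 := (this.mul_const (‖φ‖ ^ 2)).div_const 4
      simpa using h2
  rw [add_zero] at lim
  exact ge_of_tendsto' lim key


/-- two-sided obstacle estimate -/
theorem sandwich {ρ Sob : ℝ} (F : Form ι ρ Sob) {p q : ℝ} (hpq : p.HolderConjugate q) {l : ℝ}
    (hl : 0 < l) {w z : V} (hz : z ∈ Obs ι l) (vi : ∀ y ∈ Obs ι l, inner ℝ (w - z) (y - z) ≤ 0)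
    {h : X → ℝ} (hh : MemLp h (ENNReal.ofReal q) μ)
    (hw : ∀ ψ : V, MemLp (ι ψ) (ENNReal.ofReal p) μ → inner ℝ w ψ = ∫ x, h x * ι ψ x ∂μ)
    {φ : V} (hφ : MemLp (ι φ) (ENNReal.ofReal p) μ) :
    inner ℝ (w - z) φ ≤ (∫ x in {x | l ≤ ι z x}, h x * max (ι φ x) 0 ∂μ) +
      ∫ x in {x | ι z x ≤ -l}, (- h x) * max (- ι φ x) 0 ∂μ := by
  obtain ⟨ξ, hξ1, -⟩ := F.markov φ 0 le_rfl
  have hξ1' : (ι ξ : X → ℝ) =ᵐ[μ] fun x => max (ι φ x) 0 := by
    filter_upwards [hξ1] with x hx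
    rw [hx, sub_zero]
  have hη : (ι (ξ - φ) : X → ℝ) =ᵐ[μ] fun x => max (- ι φ x) 0 := by
    filter_upwards [hξ1', ι_sub_ae (ι := ι) ξ φ] with x h1 h2
    rw [h2, h1]
    rcases le_total (ι φ x) 0 with h3 | h3
    · rw [max_eq_right h3, max_eq_left (by linarith)]; ring
    · rw [max_eq_left h3, max_eq_right (by linarith)]; ring
  have hξm : MemLp (ι ξ) (ENNReal.ofReal p) μ := by
    refine hφ.of_le (Lp.aestronglyMeasurable _) ?_
    filter_upwards [hξ1'] with x hx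
    rw [hx, Real.norm_of_nonneg (le_max_right _ _), Real.norm_eq_abs]
    exact max_le (le_abs_self _) (abs_nonneg _)
  have hηm : MemLp (ι (ξ - φ)) (ENNReal.ofReal p) μ := by
    refine hφ.of_le (Lp.aestronglyMeasurable _) ?_
    filter_upwards [hη] with x hx
    rw [hx, Real.norm_of_nonneg (le_max_right _ _), Real.norm_eq_abs]
    exact max_le (neg_le_abs _) (abs_nonneg _)
  have h1 := sandwich_nonneg F hpq hl hz vi hh hw hξm (by
    filter_upwards [hξ1'] with x hx; rw [hx]; exact le_max_right _ _)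
  have hz' : -z ∈ Obs ι l := by
    filter_upwards [hz, ι_neg_ae (ι := ι) z] with x h1 h2
    rwa [h2, abs_neg]
  have vi' : ∀ y ∈ Obs ι l, inner ℝ (-w - -z) (y - -z) ≤ 0 := by
    intro y hy
    have hy' : -y ∈ Obs ι l := by
      filter_upwards [hy, ι_neg_ae (ι := ι) y] with x h1 h2
      rwa [h2, abs_neg]
    have := vi _ hy'
    have e1 : -w - -z = -(w - z) := by abel
    have e2 : y - -z = -(-y - z) := by abel
    rw [e1, e2, inner_neg_neg]
    exact this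
  have h2 := sandwich_nonneg F hpq hl hz' vi' (h := fun x => - h x) hh.neg (by
    intro ψ hψ
    rw [inner_neg_left, hw ψ hψ, ← integral_neg]
    apply integral_congr_ae
    filter_upwards with x
    ring) hηm (by
    filter_upwards [hη] with x hx; rw [hx]; exact le_max_right _ _)
  have e1 : inner ℝ (w - z) φ = inner ℝ (w - z) ξ + inner ℝ (-w - -z) (ξ - φ) := by
    have e1 : -w - -z = -(w - z) := by abel
    rw [e1, inner_neg_left, inner_sub_right]
    ring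
  rw [e1]
  refine add_le_add (h1.trans_eq ?_) (h2.trans_eq ?_)
  · apply integral_congr_ae
    filter_upwards [ae_restrict_of_ae hξ1'] with x hx
    rw [hx]
  · have hset : ∀ᵐ x ∂μ, (x ∈ {x | l ≤ ι (-z) x} ↔ x ∈ {x | ι z x ≤ -l}) := by
      filter_upwards [ι_neg_ae (ι := ι) z] with x h2
      change l ≤ ι (-z) x ↔ ι z x ≤ -l
      rw [h2]
      constructor <;> intro h <;> linarith
    rw [setIntegral_congr_set (t := {x | ι z x ≤ -l}) (by
      filter_upwards [hset] with x hx; exact propext hx)]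
    apply integral_congr_ae
    filter_upwards [ae_restrict_of_ae hη] with x hx
    rw [hx]

end Form

end Run7.h119
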