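import Mathlib

open MeasureTheory Set Filter Topology
open scoped ENNReal

set_option linter.unusedSectionVars false
set_option linter.style.haveILetI false

namespace Run7.h119

/-- the damping nonlinearity `a |s|^(p-2) s` -/
noncomputable def gfun (a p s : ℝ) : ℝ := a * |s| ^ (p - 2) * s

theorem real_rpow_add_le {x y b : ℝ} (hx : 0 ≤ x) (hy : 0 ≤ y) (hb : 1 ≤ b) :
    (x + y) ^ b ≤ 2 ^ (b - 1) * (x ^ b + y ^ b) := by
  have := NNReal.rpow_add_le_mul_rpow_add_rpow ⟨x, hx⟩ ⟨y, hy⟩ hb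
  exact_mod_cast this

theorem real_add_rpow_le {x y b : ℝ} (hx : 0 ≤ x) (hy : 0 ≤ y) (hb : 1 ≤ b) :
    x ^ b + y ^ b ≤ (x + y) ^ b := by
  have := NNReal.add_rpow_le_rpow_add ⟨x, hx⟩ ⟨y, hy⟩ hb
  exact_mod_cast this

theorem gfun_of_nonneg {a p s : ℝ} (hp : 2 < p) (hs : 0 ≤ s) : gfun a p s = a * s ^ (p - 1) := by
  rw [gfun, abs_of_nonneg hs, mul_assoc]
  congr 1
  rcases hs.eq_or_lt with h | h
  · rw [← h, mul_zero, Real.zero_rpow (by linarith)]
  · rw [← Real.rpow_add_one h.ne']; congr 1; ring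

theorem gfun_neg {a p s : ℝ} : gfun a p (-s) = - gfun a p s := by
  rw [gfun, gfun, abs_neg]; ring

theorem abs_gfun {a p s : ℝ} (ha : 0 < a) (hp : 2 < p) : |gfun a p s| = a * |s| ^ (p - 1) := by
  rcases le_total 0 s with h | h
  · rw [gfun_of_nonneg hp h, abs_of_nonneg h, abs_of_nonneg]
    positivity
  · have h1 : s = -(-s) := by ring
    have h2 : 0 ≤ -s := by linarith
    rw [h1, gfun_neg, abs_neg, abs_neg, gfun_of_nonneg hp h2, abs_of_nonneg h2, abs_of_nonneg]
    positivity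

theorem gfun_mul_self {a p s : ℝ} (ha : 0 < a) (hp : 2 < p) : gfun a p s * s = a * |s| ^ p := by
  have key : ∀ s : ℝ, 0 ≤ s → gfun a p s * s = a * |s| ^ p := by
    intro s hs
    rw [gfun_of_nonneg hp hs, abs_of_nonneg hs, mul_assoc]
    congr 1
    rcases hs.eq_or_lt with h | h
    · rw [← h, mul_zero, Real.zero_rpow (by linarith)]
    · rw [← Real.rpow_add_one h.ne']; congr 1; ring
  rcases le_total 0 s with h | h
  · exact key s h
  · have := key (-s) (by linarith)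
    rw [gfun_neg, abs_neg] at this
    linarith

theorem measurable_gfun {a p : ℝ} : Measurable (gfun a p) := by
  unfold gfun
  fun_prop

/-- strong monotonicity of the power nonlinearity -/
theorem gfun_mono {a p : ℝ} (ha : 0 < a) (hp : 2 < p) (x y : ℝ) :
    a * 2 ^ (2 - p) * |x - y| ^ p ≤ (gfun a p x - gfun a p y) * (x - y) := by
  -- it is enough to treat `y ≤ x`
  have main : ∀ x y : ℝ, y ≤ x → a * 2 ^ (2 - p) * (x - y) ^ (p - 1) ≤ gfun a p x - gfun a p y := by
    have h2 : (2:ℝ) ^ (2 - p) ≤ 1 := by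
      rw [← Real.rpow_zero 2]
      exact Real.rpow_le_rpow_of_exponent_le (by norm_num) (by linarith)
    have h2p : (0:ℝ) < 2 ^ (2 - p) := by positivity
    -- nonneg case
    have c1 : ∀ x y : ℝ, 0 ≤ y → y ≤ x → a * 2 ^ (2 - p) * (x - y) ^ (p - 1) ≤ gfun a p x - gfun a p y := by
      intro x y hy hxy
      rw [gfun_of_nonneg hp hy, gfun_of_nonneg hp (hy.trans hxy)]
      have := real_add_rpow_le (x := x - y) (y := y) (b := p - 1) (by linarith) hy (by linarith)
      rw [sub_add_cancel] at this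
      have h3 : 0 ≤ (x - y) ^ (p - 1) := Real.rpow_nonneg (by linarith) _
      calc a * 2 ^ (2 - p) * (x - y) ^ (p - 1) ≤ a * 1 * (x - y) ^ (p - 1) := by gcongr
        _ ≤ a * (x ^ (p - 1) - y ^ (p - 1)) := by rw [mul_one]; gcongr; linarith
        _ = _ := by ring
    intro x y hxy
    rcases le_total 0 y with hy | hy
    · exact c1 x y hy hxy
    · rcases le_total 0 x with hx | hx
      · have e : y = -(-y) := by ring
        have hy' : 0 ≤ -y := by linarith
        rw [e, gfun_neg, gfun_of_nonneg hp hy', gfun_of_nonneg hp hx]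
        have := real_rpow_add_le (x := x) (y := -y) (b := p - 1) hx hy' (by linarith)
        have e2 : (2:ℝ) ^ (2 - p) * 2 ^ (p - 1 - 1) = 1 := by
          rw [← Real.rpow_add (by norm_num)]
          have : 2 - p + (p - 1 - 1) = 0 := by ring
          rw [this, Real.rpow_zero]
        have e3 : x - - -y = x + -y := by ring
        rw [e3]
        calc a * 2 ^ (2 - p) * (x + -y) ^ (p - 1)
            ≤ a * 2 ^ (2 - p) * (2 ^ (p - 1 - 1) * (x ^ (p - 1) + (-y) ^ (p - 1))) := by gcongr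
          _ = a * ((2:ℝ) ^ (2 - p) * 2 ^ (p - 1 - 1)) * (x ^ (p - 1) + (-y) ^ (p - 1)) := by ring
          _ = _ := by rw [e2]; ring
      · have := c1 (-y) (-x) (by linarith) (by linarith)
        rw [gfun_neg, gfun_neg] at this
        have e : -y - -x = x - y := by ring
        rw [e] at this
        linarith
  have fin : ∀ x y : ℝ, y ≤ x → a * 2 ^ (2 - p) * |x - y| ^ p ≤ (gfun a p x - gfun a p y) * (x - y) := by
    intro x y hxy
    have h0 : 0 ≤ x - y := by linarith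
    rw [abs_of_nonneg h0]
    have e : (x - y) ^ p = (x - y) ^ (p - 1) * (x - y) := by
      rcases h0.eq_or_lt with h | h
      · rw [← h, mul_zero, Real.zero_rpow (by linarith)]
      · rw [← Real.rpow_add_one h.ne']; congr 1; ring
    rw [e, ← mul_assoc]
    exact mul_le_mul_of_nonneg_right (main x y hxy) h0
  rcases le_total y x with h | h
  · exact fin x y h
  · have := fin y x h
    rw [abs_sub_comm]
    linarith

/-- weighted Young inequality -/
theorem young_eps {p q : ℝ} (hpq : p.HolderConjugate q) {ε : ℝ} (hε : 0 < ε) :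
    ∃ C : ℝ, 0 < C ∧ ∀ A B : ℝ, 0 ≤ A → 0 ≤ B → A * B ≤ ε * A ^ p + C * B ^ q := by
  have hp := hpq.pos
  have hq := hpq.symm.pos
  set t : ℝ := (ε * p) ^ (1 / p) with ht
  have htp : 0 < t := by positivity
  refine ⟨(t⁻¹) ^ q / q, by positivity, fun A B hA hB => ?_⟩
  have h1 := Real.young_inequality_of_nonneg (a := t * A) (b := t⁻¹ * B) (by positivity)
    (by positivity) hpq
  have e1 : t * A * (t⁻¹ * B) = A * B := by field_simp
  have e2 : (t * A) ^ p / p = ε * A ^ p := by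
    rw [Real.mul_rpow htp.le hA, ht, ← Real.rpow_mul (by positivity), one_div,
      inv_mul_cancel₀ hp.ne', Real.rpow_one]
    field_simp
  have e3 : (t⁻¹ * B) ^ q / q = (t⁻¹) ^ q / q * B ^ q := by
    rw [Real.mul_rpow (by positivity) hB]; ring
  rw [e1, e2, e3] at h1
  exact h1

/-- the algebra of the contact-set estimate -/
theorem contact_scalar {a p q : ℝ} (ha : 0 < a) (hp : 2 < p) (hpq : p.HolderConjugate q) {C₁ : ℝ}
    (hC₁ : 0 ≤ C₁) :
    ∃ C : ℝ, 0 < C ∧ ∀ W κ F E : ℝ, 0 ≤ W → 0 ≤ κ → 0 ≤ F → 0 ≤ E →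
      F * (W + κ) + C₁ * E * W * (W + κ) + a * W ^ (p - 1) * κ ≤
        a * W ^ p + C * (F ^ q + κ ^ p + E ^ (p / (p - 2))) := by
  have hq := hpq.symm.pos
  have hp0 : 0 < p := by linarith
  have hν : (p / 2).HolderConjugate (p / (p - 2)) := by
    rw [Real.holderConjugate_iff]
    constructor
    · linarith
    · field_simp; ring
  obtain ⟨A1, hA1, Y1⟩ := young_eps hpq (show 0 < a / 8 by positivity)
  obtain ⟨A2, hA2, Y2⟩ := young_eps hpq (show (0:ℝ) < 1 by norm_num)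
  obtain ⟨A3, hA3, Y3⟩ := young_eps hν (show 0 < a / 8 by positivity)
  obtain ⟨A4, hA4, Y4⟩ := young_eps hν (show (0:ℝ) < 1 by norm_num)
  obtain ⟨A5, hA5, Y5⟩ := young_eps hpq.symm (show 0 < a / 8 by positivity)
  have hνp : 0 < p / (p - 2) := div_pos hp0 (by linarith)
  refine ⟨A1 + A2 + 1 + A3 * (2 * C₁) ^ (p / (p - 2)) + A4 * C₁ ^ (p / (p - 2)) + 1 + A5 * a ^ p, by positivity,
    fun W κ F E hW hκ hF hE => ?_⟩
  have y1 := Y1 W F hW hF
  have y2 := Y2 κ F hκ hF
  have y3 := Y3 (W ^ 2) (2 * C₁ * E) (by positivity) (by positivity)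
  have y4 := Y4 (κ ^ 2) (C₁ * E) (by positivity) (by positivity)
  have y5 := Y5 (W ^ (p - 1)) (a * κ) (by positivity) (by positivity)
  have e3 : (W ^ 2) ^ (p / 2) = W ^ p := by
    rw [← Real.rpow_natCast, ← Real.rpow_mul hW]; congr 1; push_cast; ring
  have e4 : (κ ^ 2) ^ (p / 2) = κ ^ p := by
    rw [← Real.rpow_natCast, ← Real.rpow_mul hκ]; congr 1; push_cast; ring
  have e5 : (W ^ (p - 1)) ^ q = W ^ p := by
    rw [← Real.rpow_mul hW]; congr 1
    have := hpq.sub_one_mul_conj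
    exact this
  rw [e3, Real.mul_rpow (by positivity) hE] at y3
  rw [e4, Real.mul_rpow hC₁ hE] at y4
  rw [e5, Real.mul_rpow ha.le hκ] at y5
  -- C₁ E W κ ≤ C₁ E W² + C₁ E κ²
  have h6 : C₁ * E * W * κ ≤ C₁ * E * W ^ 2 + C₁ * E * κ ^ 2 := by
    have : 0 ≤ C₁ * E * (W ^ 2 + κ ^ 2 - W * κ) := by
      have : 0 ≤ W ^ 2 + κ ^ 2 - W * κ := by nlinarith [sq_nonneg (W - κ), sq_nonneg W, sq_nonneg κ]
      positivity
    linarith
  have hFq : 0 ≤ F ^ q := by positivity
  have hκp : 0 ≤ κ ^ p := by positivity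
  have hEν : 0 ≤ E ^ (p / (p - 2)) := by positivity
  have hWp : 0 ≤ W ^ p := by positivity
  have n1 : 0 ≤ (2 * C₁) ^ (p / (p - 2)) := by positivity
  have n2 : 0 ≤ C₁ ^ (p / (p - 2)) := by positivity
  have n3 : 0 ≤ a ^ p := by positivity
  have tot : F * (W + κ) + C₁ * E * W * (W + κ) + a * W ^ (p - 1) * κ ≤
      (a / 8 * W ^ p + A1 * F ^ q) + (1 * κ ^ p + A2 * F ^ q) +
      (a / 8 * W ^ p + A3 * ((2 * C₁) ^ (p / (p - 2)) * E ^ (p / (p - 2)))) +
      (1 * κ ^ p + A4 * (C₁ ^ (p / (p - 2)) * E ^ (p / (p - 2)))) +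
      (a / 8 * W ^ p + A5 * (a ^ p * κ ^ p)) := by
    have : F * (W + κ) + C₁ * E * W * (W + κ) + a * W ^ (p - 1) * κ =
      W * F + κ * F + C₁ * E * W ^ 2 + C₁ * E * W * κ + W ^ (p - 1) * (a * κ) := by ring
    rw [this]
    linarith
  have i1 : 0 ≤ (A3 * (2 * C₁) ^ (p / (p - 2)) + A4 * C₁ ^ (p / (p - 2)) + A5 * a ^ p) * F ^ q := by positivity
  have i2 : 0 ≤ (A1 + A2 + A3 * (2 * C₁) ^ (p / (p - 2)) + A4 * C₁ ^ (p / (p - 2))) * κ ^ p := by positivity
  have i3 : 0 ≤ (A1 + A2 + 2 + A5 * a ^ p) * E ^ (p / (p - 2)) := by positivity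
  have i4 : 0 ≤ 5 / 8 * a * W ^ p := by positivity
  nlinarith

end Run7.h119
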