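import Mathlib
import Pool.Agent.Run7.h119.Scalar
import Pool.Agent.Run7.h119.Lin

open MeasureTheory Set Filter Topology
open scoped ENNReal

set_option linter.unusedSectionVars false
set_option linter.style.haveILetI false
set_option linter.unusedVariables false

namespace Run7.h119

variable {P : Measure ℝ} [IsProbabilityMeasure P]

/-- covariance of two functions under `P` -/
noncomputable def cv (P : Measure ℝ) (b y : ℝ → ℝ) : ℝ :=
  ∫ s, b s * y s ∂P - (∫ s, b s ∂P) * ∫ s, y s ∂P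

theorem integrable_of_memLp_ofReal {α : Type*} [MeasurableSpace α] {ν : Measure α} [IsFiniteMeasure ν]
    {p : ℝ} (hp : 1 ≤ p) {f : α → ℝ} (hf : MemLp f (ENNReal.ofReal p) ν) : Integrable f ν :=
  hf.integrable (by rw [← ENNReal.ofReal_one]; exact ENNReal.ofReal_le_ofReal hp)

theorem cv_pairs {p q : ℝ} (hpq : p.HolderConjugate q) {b y : ℝ → ℝ}
    (hb : MemLp b (ENNReal.ofReal q) P) (hy : MemLp y (ENNReal.ofReal p) P) :
    2 * cv P b y = ∫ s, ∫ s', (b s - b s') * (y s - y s') ∂P ∂P := by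
  have ib := integrable_of_memLp_ofReal hpq.symm.lt.le hb
  have iy := integrable_of_memLp_ofReal hpq.lt.le hy
  have iby := integrable_mul_of_memLp hpq.symm hb hy
  have h1 : ∀ s, ∫ s', (b s - b s') * (y s - y s') ∂P =
      b s * y s - b s * (∫ s', y s' ∂P) - (∫ s', b s' ∂P) * y s + ∫ s', b s' * y s' ∂P := by
    intro s
    have e : ∀ s', (b s - b s') * (y s - y s') =
      b s * y s - b s * y s' - b s' * y s + b s' * y s' := fun s' => by ring
    simp_rw [e]
    have i1 : Integrable (fun s' => b s * y s - b s * y s') P := (integrable_const _).sub (iy.const_mul _)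
    have i2 : Integrable (fun s' => b s' * y s) P := ib.mul_const _
    have i12 : Integrable (fun s' => b s * y s - b s * y s' - b s' * y s) P := i1.sub i2
    rw [integral_add i12 iby, integral_sub i1 i2, integral_sub (integrable_const _) (iy.const_mul _)]
    simp [integral_const_mul, integral_mul_const]
  simp_rw [h1]
  have i1 : Integrable (fun s => b s * y s - b s * (∫ s', y s' ∂P)) P := iby.sub (ib.mul_const _)
  have i2 : Integrable (fun s => (∫ s', b s' ∂P) * y s) P := iy.const_mul _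
  have i12 : Integrable (fun s => b s * y s - b s * (∫ s', y s' ∂P) - (∫ s', b s' ∂P) * y s) P := i1.sub i2
  rw [integral_add i12 (integrable_const _), integral_sub i1 i2, integral_sub iby (ib.mul_const _),
    integral_mul_const, integral_const_mul]
  simp [cv]
  ring

theorem memLp_gfun {α : Type*} [MeasurableSpace α] {ν : Measure α} {a p q : ℝ} (ha : 0 < a)
    (hp : 2 < p) (hpq : p.HolderConjugate q) {y : α → ℝ} (hy : MemLp y (ENNReal.ofReal p) ν) :
    MemLp (fun s => gfun a p (y s)) (ENNReal.ofReal q) ν := by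
  refine memLp_of_lintegral hpq.symm.lt.le
    (measurable_gfun.comp_aemeasurable hy.1.aemeasurable).aestronglyMeasurable ?_
  have e : ∀ s, ‖gfun a p (y s)‖ₑ ^ q = ENNReal.ofReal (a ^ q) * ‖y s‖ₑ ^ p := by
    intro s
    have hq := hpq.symm.pos
    rw [← ofReal_norm, ← ofReal_norm, Real.norm_eq_abs, Real.norm_eq_abs, abs_gfun ha hp,
      ENNReal.ofReal_rpow_of_nonneg (by positivity) hq.le,
      ENNReal.ofReal_rpow_of_nonneg (by positivity) (by linarith),
      ← ENNReal.ofReal_mul (by positivity), Real.mul_rpow ha.le (by positivity), ← Real.rpow_mul (by positivity),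
      hpq.sub_one_mul_conj]
  simp_rw [e]
  rw [lintegral_const_mul' _ _ ENNReal.ofReal_ne_top]
  exact ENNReal.mul_lt_top ENNReal.ofReal_lt_top (lintegral_rpow_lt_top hpq.lt.le hy)

theorem integrable_rpow_of_memLp {α : Type*} [MeasurableSpace α] {ν : Measure α} {p : ℝ} (hp : 1 ≤ p)
    {y : α → ℝ} (hy : MemLp y (ENNReal.ofReal p) ν) : Integrable (fun s => |y s| ^ p) ν := by
  have hp0 : 0 < p := by linarith
  have := hy.integrable_norm_rpow (by simp [hp0]) ENNReal.ofReal_ne_top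
  rwa [ENNReal.toReal_ofReal hp0.le] at this

theorem cv_gfun_nonneg {a p q : ℝ} (ha : 0 < a) (hp : 2 < p) (hpq : p.HolderConjugate q) {y : ℝ → ℝ}
    (hy : MemLp y (ENNReal.ofReal p) P) : 0 ≤ cv P (fun s => gfun a p (y s)) y := by
  have h1 := cv_pairs hpq (memLp_gfun ha hp hpq hy) hy
  have h2 : 0 ≤ ∫ s, ∫ s', (gfun a p (y s) - gfun a p (y s')) * (y s - y s') ∂P ∂P :=
    integral_nonneg fun s => integral_nonneg fun s' =>
      le_trans (by positivity) (gfun_mono ha hp (y s) (y s'))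
  linarith

theorem cv_le {a p q : ℝ} (ha : 0 < a) (hp : 2 < p) (hpq : p.HolderConjugate q) :
    ∃ C : ℝ, 0 < C ∧ ∀ (P : Measure ℝ) [IsProbabilityMeasure P] (b y : ℝ → ℝ),
      MemLp b (ENNReal.ofReal q) P → MemLp y (ENNReal.ofReal p) P →
      cv P b y ≤ (1 / 2) * cv P (fun s => gfun a p (y s)) y + C * ∫ s, ∫ s', |b s - b s'| ^ q ∂P ∂P := by
  obtain ⟨c, hc, hcd⟩ : ∃ c : ℝ, 0 < c ∧ a * 2 ^ (2 - p) = c := ⟨_, by positivity, rfl⟩
  obtain ⟨C, hC, Y⟩ := young_eps hpq (show 0 < c / 2 by positivity)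
  refine ⟨C, hC, fun P _ b y hb hy => ?_⟩
  have hq1 : 1 ≤ q := hpq.symm.lt.le
  have hg := memLp_gfun ha hp hpq hy
  have h1 := cv_pairs hpq hb hy
  have h2 := cv_pairs hpq hg hy
  -- integrability on the product
  have fst_mem : ∀ {r : ℝ} {f : ℝ → ℝ}, MemLp f (ENNReal.ofReal r) P →
      MemLp (fun z : ℝ × ℝ => f z.1) (ENNReal.ofReal r) (P.prod P) := fun h => h.comp_fst P
  have snd_mem : ∀ {r : ℝ} {f : ℝ → ℝ}, MemLp f (ENNReal.ofReal r) P →
      MemLp (fun z : ℝ × ℝ => f z.2) (ENNReal.ofReal r) (P.prod P) := fun h => h.comp_snd P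
  have mb : MemLp (fun z : ℝ × ℝ => b z.1 - b z.2) (ENNReal.ofReal q) (P.prod P) := (fst_mem hb).sub (snd_mem hb)
  have my : MemLp (fun z : ℝ × ℝ => y z.1 - y z.2) (ENNReal.ofReal p) (P.prod P) := (fst_mem hy).sub (snd_mem hy)
  have mg : MemLp (fun z : ℝ × ℝ => gfun a p (y z.1) - gfun a p (y z.2)) (ENNReal.ofReal q) (P.prod P) :=
    (fst_mem hg).sub (snd_mem hg)
  have i1 : Integrable (fun z : ℝ × ℝ => (b z.1 - b z.2) * (y z.1 - y z.2)) (P.prod P) :=
    integrable_mul_of_memLp hpq.symm mb my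
  have i2 : Integrable (fun z : ℝ × ℝ => (gfun a p (y z.1) - gfun a p (y z.2)) * (y z.1 - y z.2)) (P.prod P) :=
    integrable_mul_of_memLp hpq.symm mg my
  have i3 : Integrable (fun z : ℝ × ℝ => |b z.1 - b z.2| ^ q) (P.prod P) :=
    integrable_rpow_of_memLp hq1 mb
  have e1 : ∫ s, ∫ s', (b s - b s') * (y s - y s') ∂P ∂P = ∫ z, (b z.1 - b z.2) * (y z.1 - y z.2) ∂(P.prod P) :=
    (integral_prod _ i1).symm
  have e2 : ∫ s, ∫ s', (gfun a p (y s) - gfun a p (y s')) * (y s - y s') ∂P ∂P =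
      ∫ z, (gfun a p (y z.1) - gfun a p (y z.2)) * (y z.1 - y z.2) ∂(P.prod P) :=
    (integral_prod _ i2).symm
  have e3 : ∫ s, ∫ s', |b s - b s'| ^ q ∂P ∂P = ∫ z, |b z.1 - b z.2| ^ q ∂(P.prod P) :=
    (integral_prod _ i3).symm
  rw [e1] at h1
  rw [e2] at h2
  rw [e3]
  have h3 : ∫ z, (b z.1 - b z.2) * (y z.1 - y z.2) ∂(P.prod P) ≤
      ∫ z, ((1/2) * ((gfun a p (y z.1) - gfun a p (y z.2)) * (y z.1 - y z.2)) + C * |b z.1 - b z.2| ^ q) ∂(P.prod P) := by
    have i4 : Integrable (fun z : ℝ × ℝ => (1/2) * ((gfun a p (y z.1) - gfun a p (y z.2)) * (y z.1 - y z.2)) +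
      C * |b z.1 - b z.2| ^ q) (P.prod P) := (i2.const_mul _).add (i3.const_mul _)
    refine integral_mono i1 i4 ?_
    intro z
    have g1 := gfun_mono ha hp (y z.1) (y z.2)
    have g2 := Y |y z.1 - y z.2| |b z.1 - b z.2| (abs_nonneg _) (abs_nonneg _)
    have g3 : (b z.1 - b z.2) * (y z.1 - y z.2) ≤ |y z.1 - y z.2| * |b z.1 - b z.2| := by
      rw [← abs_mul, mul_comm]; exact le_abs_self _
    rw [hcd] at g1
    simp only
    linarith
  rw [integral_add (i2.const_mul _) (i3.const_mul _), integral_const_mul, integral_const_mul] at h3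
  have h4 : 0 ≤ ∫ z, |b z.1 - b z.2| ^ q ∂(P.prod P) := integral_nonneg fun z => by positivity
  nlinarith

theorem abs_integral_le_rpow {p : ℝ} (hp : 1 ≤ p) {y : ℝ → ℝ} (hy : MemLp y (ENNReal.ofReal p) P) :
    |∫ s, y s ∂P| ^ p ≤ ∫ s, |y s| ^ p ∂P := by
  have hp0 : 0 < p := by linarith
  have h1 := enorm_integral_rpow_le hp hy.1
  have h2 : ∫⁻ s, ‖y s‖ₑ ^ p ∂P = ENNReal.ofReal (∫ s, |y s| ^ p ∂P) := by
    rw [ofReal_integral_eq_lintegral_ofReal (integrable_rpow_of_memLp hp hy)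
      (Eventually.of_forall fun _ => by positivity)]
    apply lintegral_congr
    intro s
    rw [← ofReal_norm, Real.norm_eq_abs, ENNReal.ofReal_rpow_of_nonneg (abs_nonneg _) hp0.le]
  rw [h2, ← ofReal_norm, Real.norm_eq_abs, ENNReal.ofReal_rpow_of_nonneg (abs_nonneg _) hp0.le] at h1
  exact (ENNReal.ofReal_le_ofReal_iff (integral_nonneg fun _ => by positivity)).1 h1

theorem abs_integral_le_W {p : ℝ} (hp : 1 ≤ p) {y : ℝ → ℝ} (hy : MemLp y (ENNReal.ofReal p) P) :
    |∫ s, y s ∂P| ≤ (∫ s, |y s| ^ p ∂P) ^ (1 / p) := by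
  have hp0 : 0 < p := by linarith
  have h := abs_integral_le_rpow hp hy
  calc |∫ s, y s ∂P| = (|∫ s, y s ∂P| ^ p) ^ (1 / p) := by
        rw [← Real.rpow_mul (abs_nonneg _), mul_one_div_cancel hp0.ne', Real.rpow_one]
    _ ≤ _ := by gcongr

/-- pointwise estimate on the contact set -/
theorem contact_pt {a p q : ℝ} (ha : 0 < a) (hp : 2 < p) (hpq : p.HolderConjugate q) {C₁ : ℝ}
    (hC₁ : 0 ≤ C₁) :
    ∃ C : ℝ, 0 < C ∧ ∀ (P : Measure ℝ) [IsProbabilityMeasure P] (y : ℝ → ℝ) (κ F B E : ℝ),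
      MemLp y (ENNReal.ofReal p) P → 0 ≤ κ → 0 ≤ E → |B| ≤ C₁ * (∫ s, |y s| ^ p ∂P) ^ (1 / p) →
      (F - E * B - ∫ s, gfun a p (y s) ∂P) * max ((∫ s, y s ∂P) + κ) 0 ≤
        cv P (fun s => gfun a p (y s)) y + C * (|F| ^ q + κ ^ p + E ^ (p / (p - 2))) := by
  obtain ⟨C, hC, K⟩ := contact_scalar ha hp hpq hC₁
  refine ⟨C, hC, fun P _ y κ F B E hy hκ hE hB => ?_⟩
  have hp0 : 0 < p := by linarith
  have hcv := cv_gfun_nonneg ha hp hpq hy
  have hpos : 0 ≤ C * (|F| ^ q + κ ^ p + E ^ (p / (p - 2))) := by positivity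
  rcases le_or_gt ((∫ s, y s ∂P) + κ) 0 with h | h
  · rw [max_eq_right h, mul_zero]; linarith
  · rw [max_eq_left h.le]
    set Y := ∫ s, |y s| ^ p ∂P with hY
    have hY0 : 0 ≤ Y := integral_nonneg fun _ => by positivity
    set W := Y ^ (1 / p) with hW
    have hW0 : 0 ≤ W := by positivity
    have hWp : W ^ p = Y := by
      rw [hW, ← Real.rpow_mul hY0, one_div, inv_mul_cancel₀ hp0.ne', Real.rpow_one]
    have hm : |∫ s, y s ∂P| ≤ W := abs_integral_le_W (by linarith) hy
    have hgm : |∫ s, gfun a p (y s) ∂P| ≤ a * W ^ (p - 1) := by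
      have hg := memLp_gfun ha hp hpq hy
      have h1 := abs_integral_le_W hpq.symm.lt.le hg
      refine h1.trans (le_of_eq ?_)
      have e : ∀ s, |gfun a p (y s)| ^ q = a ^ q * |y s| ^ p := by
        intro s
        rw [abs_gfun ha hp, Real.mul_rpow ha.le (by positivity), ← Real.rpow_mul (by positivity),
          hpq.sub_one_mul_conj]
      simp_rw [e]
      rw [integral_const_mul, Real.mul_rpow (by positivity) hY0, ← Real.rpow_mul ha.le,
        mul_one_div_cancel hpq.symm.pos.ne', Real.rpow_one, hW, ← Real.rpow_mul hY0]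
      congr 2
      have := hpq.inv_add_inv_eq_one
      have hq := hpq.symm.pos
      field_simp
      field_simp at this
      linarith
    have hgy : ∫ s, gfun a p (y s) * y s ∂P = a * Y := by
      rw [hY, ← integral_const_mul]
      exact integral_congr_ae (Eventually.of_forall fun s => gfun_mul_self ha hp)
    have hk := K W κ |F| E hW0 hκ (abs_nonneg _) hE
    set m := ∫ s, y s ∂P
    set gm := ∫ s, gfun a p (y s) ∂P with hgmdef
    have hcvdef : cv P (fun s => gfun a p (y s)) y = a * Y - gm * m := by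
      rw [cv, hgy]
    have hm1 : m + κ ≤ W + κ := by linarith [le_abs_self m]
    have b1 : F * (m + κ) ≤ |F| * (W + κ) :=
      mul_le_mul (le_abs_self F) hm1 h.le (abs_nonneg _)
    have b2 : - (E * B) * (m + κ) ≤ C₁ * E * W * (W + κ) := by
      have : -(E * B) ≤ C₁ * E * W := by
        have := mul_le_mul_of_nonneg_left ((neg_le_abs B).trans hB) hE
        nlinarith
      exact mul_le_mul this hm1 h.le (by positivity)
    have b3 : - gm * κ ≤ a * W ^ (p - 1) * κ :=
      mul_le_mul_of_nonneg_right ((neg_le_abs gm).trans hgm) hκ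
    rw [hcvdef, ← hWp]
    nlinarith

end Run7.h119
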