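import Mathlib
import Pool.Agent.Run7.h119.Cov
import Pool.Agent.Run7.h119.Energy

open MeasureTheory Set Filter Topology
open scoped ENNReal

set_option linter.unusedSectionVars false
set_option linter.style.haveILetI false
set_option linter.unusedVariables false

namespace Run7.h119

/-- law of the sum of two independent uniform variables on `(0,h]` -/
noncomputable def Pm (h : ℝ) : Measure ℝ := ((U h).prod (U h)).map (fun z => z.1 + z.2)

theorem isProb_Pm {h : ℝ} (hh : 0 < h) : IsProbabilityMeasure (Pm h) := by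
  haveI := isProb_U hh
  exact Measure.isProbabilityMeasure_map (by fun_prop)

instance sFinite_U (h : ℝ) : SFinite (U h) := by unfold U; infer_instance

theorem lintegral_U {h : ℝ} (φ : ℝ → ℝ≥0∞) :
    ∫⁻ s, φ s ∂(U h) = ENNReal.ofReal h⁻¹ * ∫⁻ s in Ioc 0 h, φ s := by
  unfold U
  rw [lintegral_smul_measure]; rfl

theorem lintegral_Pm {h : ℝ} {φ : ℝ → ℝ≥0∞} (hφ : Measurable φ) :
    ∫⁻ s, φ s ∂(Pm h) = ∫⁻ a, ∫⁻ b, φ (a + b) ∂(U h) ∂(U h) := by
  unfold Pm
  rw [lintegral_map hφ (by fun_prop), lintegral_prod]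
  exact (hφ.comp (by fun_prop)).aemeasurable

theorem Pm_le {h : ℝ} (hh : 0 < h) : Pm h ≤ ENNReal.ofReal h⁻¹ • volume := by
  haveI := isProb_U hh
  refine Measure.le_iff.2 fun s hs => ?_
  have h1 : Pm h s = ∫⁻ a, U h ((fun b => a + b) ⁻¹' s) ∂(U h) := by
    unfold Pm
    rw [Measure.map_apply (by fun_prop) hs, Measure.prod_apply (measurableSet_preimage (by fun_prop) hs)]
    rfl
  rw [h1]
  have h2 : ∀ a, U h ((fun b => a + b) ⁻¹' s) ≤ ENNReal.ofReal h⁻¹ * volume s := by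
    intro a
    calc U h ((fun b => a + b) ⁻¹' s) ≤ (ENNReal.ofReal h⁻¹ • volume) ((fun b => a + b) ⁻¹' s) := U_le _
      _ = ENNReal.ofReal h⁻¹ * volume ((fun b => a + b) ⁻¹' s) := rfl
      _ = _ := by rw [measure_preimage_add]
  calc ∫⁻ a, U h ((fun b => a + b) ⁻¹' s) ∂(U h) ≤ ∫⁻ a, ENNReal.ofReal h⁻¹ * volume s ∂(U h) :=
        lintegral_mono h2
    _ = (ENNReal.ofReal h⁻¹ • volume) s := by simp

theorem integral_Pm {G : Type*} [NormedAddCommGroup G] [NormedSpace ℝ G] {h : ℝ} (hh : 0 < h)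
    {F : ℝ → G} (hF : Integrable F (Pm h)) :
    ∫ s, F s ∂(Pm h) = ∫ a, ∫ b, F (a + b) ∂(U h) ∂(U h) := by
  haveI := isProb_U hh
  have h1 : Integrable (fun z : ℝ × ℝ => F (z.1 + z.2)) ((U h).prod (U h)) :=
    hF.comp_measurable (f := fun z : ℝ × ℝ => z.1 + z.2) (by fun_prop)
  unfold Pm
  rw [integral_map (by fun_prop) hF.1, integral_prod _ h1]

theorem ae_U_mem {h : ℝ} : ∀ᵐ s ∂(U h), s ∈ Ioc 0 h := by
  unfold U
  exact Measure.ae_smul_measure (ae_restrict_mem measurableSet_Ioc) _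

theorem ae_Pm_mem {h : ℝ} (hh : 0 < h) : ∀ᵐ s ∂(Pm h), s ∈ Ioc 0 (2 * h) := by
  haveI := isProb_U hh
  unfold Pm
  refine (ae_map_iff (p := fun s => s ∈ Ioc 0 (2 * h)) (by fun_prop) measurableSet_Ioc).2 ?_
  have : ∀ᵐ z ∂((U h).prod (U h)), z.1 ∈ Ioc 0 h ∧ z.2 ∈ Ioc 0 h := by
    have h1 : ∀ᵐ z ∂((U h).prod (U h)), z.1 ∈ Ioc 0 h :=
      Measure.quasiMeasurePreserving_fst.ae ae_U_mem
    have h2 : ∀ᵐ z ∂((U h).prod (U h)), z.2 ∈ Ioc 0 h :=
      Measure.quasiMeasurePreserving_snd.ae ae_U_mem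
    filter_upwards [h1, h2] with z a b using ⟨a, b⟩
  filter_upwards [this] with z hz
  exact ⟨by linarith [hz.1.1, hz.2.1], by linarith [hz.1.2, hz.2.2]⟩

theorem integrable_Pm_of_continuous {G : Type*} [NormedAddCommGroup G] {h : ℝ} (hh : 0 < h)
    {F : ℝ → G} (hF : Continuous F) : Integrable F (Pm h) := by
  haveI := isProb_Pm hh
  have h1 : Integrable F ((Pm h).restrict (Ioc 0 (2 * h))) :=
    (hF.continuousOn.integrableOn_compact (isCompact_Icc (a := 0) (b := 2 * h))).mono_set Ioc_subset_Icc_self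
  rwa [Measure.restrict_eq_self_of_ae_mem (ae_Pm_mem hh)] at h1

theorem A_eq {G : Type*} [NormedAddCommGroup G] [NormedSpace ℝ G] [CompleteSpace G] {h : ℝ}
    (hh : 0 < h) {F : ℝ → G} (hF : Continuous F) (r : ℝ) :
    S h (S h F) r = ∫ s, F (r + s) ∂(Pm h) := by
  have h1 : Continuous (fun s => F (r + s)) := hF.comp (by fun_prop)
  rw [integral_Pm hh (integrable_Pm_of_continuous hh h1), S_eq hh]
  apply integral_congr_ae
  filter_upwards with a
  rw [S_eq hh]
  simp only [add_assoc]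

/-! lower bounds for the density of `Pm` -/

theorem sq_lintegral_Pm {h : ℝ} (hh : 0 < h) {φ : ℝ → ℝ≥0∞} (hφ : Measurable φ) :
    ENNReal.ofReal (h ^ 2) * ∫⁻ s, φ s ∂(Pm h) = ∫⁻ a in Ioc 0 h, ∫⁻ b in Ioc 0 h, φ (a + b) := by
  rw [lintegral_Pm hφ, lintegral_U]
  simp_rw [lintegral_U]
  rw [lintegral_const_mul' _ _ ENNReal.ofReal_ne_top, ← mul_assoc, ← mul_assoc,
    ← ENNReal.ofReal_mul (by positivity), ← ENNReal.ofReal_mul (by positivity)]
  have : h ^ 2 * h⁻¹ * h⁻¹ = 1 := by field_simp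
  rw [this, ENNReal.ofReal_one, one_mul]

theorem Pm_lower1 {h : ℝ} (hh : 0 < h) {φ : ℝ → ℝ≥0∞} (hφ : Measurable φ) :
    ∫⁻ s in Ioc 0 h, ENNReal.ofReal s * φ s ≤ ENNReal.ofReal (h ^ 2) * ∫⁻ s, φ s ∂(Pm h) := by
  rw [sq_lintegral_Pm hh hφ]
  have hm : Measurable (fun z : ℝ × ℝ => (Ioi z.1).indicator φ z.2) := by
    have : (fun z : ℝ × ℝ => (Ioi z.1).indicator φ z.2) =
        {z : ℝ × ℝ | z.1 < z.2}.indicator (fun z => φ z.2) := by
      funext z
      by_cases hz : z.1 < z.2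
      · rw [indicator_of_mem (show z.2 ∈ Ioi z.1 from hz), indicator_of_mem (show z ∈ {z : ℝ × ℝ | z.1 < z.2} from hz)]
      · rw [indicator_of_notMem (show z.2 ∉ Ioi z.1 from hz), indicator_of_notMem (show z ∉ {z : ℝ × ℝ | z.1 < z.2} from hz)]
    rw [this]
    exact (hφ.comp measurable_snd).indicator (measurableSet_lt measurable_fst measurable_snd)
  have h1 : ∀ a ∈ Ioc 0 h, ∫⁻ s in Ioc 0 h, (Ioi a).indicator φ s ≤ ∫⁻ b in Ioc 0 h, φ (a + b) := by
    intro a ha
    have e1 : ∫⁻ b in Ioc 0 h, φ (a + b) = ∫⁻ s in Ioc a (a + h), φ s := by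
      rw [← lintegral_indicator measurableSet_Ioc, ← lintegral_indicator measurableSet_Ioc,
        ← lintegral_add_left_eq_self ((Ioc a (a + h)).indicator φ) a]
      apply lintegral_congr
      intro b
      by_cases hb : b ∈ Ioc 0 h
      · rw [indicator_of_mem hb, indicator_of_mem (show a + b ∈ Ioc a (a + h) from
          ⟨by linarith [hb.1], by linarith [hb.2]⟩)]
      · rw [indicator_of_notMem hb, indicator_of_notMem]
        intro hc
        exact hb ⟨by linarith [hc.1], by linarith [hc.2]⟩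
    rw [e1, setLIntegral_indicator measurableSet_Ioi]
    exact lintegral_mono_set (fun s hs => ⟨hs.1, by linarith [hs.2.2, ha.1]⟩)
  calc ∫⁻ s in Ioc 0 h, ENNReal.ofReal s * φ s
      = ∫⁻ s in Ioc 0 h, ∫⁻ a in Ioc 0 h, (Ioi a).indicator φ s := by
        apply setLIntegral_congr_fun measurableSet_Ioc
        intro s hs
        have : ∀ a, (Ioi a).indicator φ s = (Iio s).indicator (fun _ => φ s) a := by
          intro a
          by_cases hz : a < s
          · rw [indicator_of_mem (show s ∈ Ioi a from hz), indicator_of_mem (show a ∈ Iio s from hz)]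
          · rw [indicator_of_notMem (show s ∉ Ioi a from hz), indicator_of_notMem (show a ∉ Iio s from hz)]
        simp_rw [this]
        rw [setLIntegral_indicator measurableSet_Iio, setLIntegral_const, mul_comm]
        congr 1
        have : Iio s ∩ Ioc 0 h = Ioo 0 s := by
          ext a
          simp only [mem_inter_iff, mem_Iio, mem_Ioc, mem_Ioo]
          constructor
          · rintro ⟨h1, h2, h3⟩; exact ⟨h2, h1⟩
          · rintro ⟨h1, h2⟩; exact ⟨h2, h1, h2.le.trans hs.2⟩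
        rw [this, Real.volume_Ioo, sub_zero]
    _ = ∫⁻ a in Ioc 0 h, ∫⁻ s in Ioc 0 h, (Ioi a).indicator φ s :=
        lintegral_lintegral_swap (hm.comp measurable_swap).aemeasurable
    _ ≤ _ := setLIntegral_mono' measurableSet_Ioc h1

theorem Pm_lower2 {h : ℝ} (hh : 0 < h) {φ : ℝ → ℝ≥0∞} (hφ : Measurable φ) :
    ∫⁻ s in Ioc 0 h, ENNReal.ofReal (h - s) * φ (s + h) ≤
      ENNReal.ofReal (h ^ 2) * ∫⁻ s, φ s ∂(Pm h) := by
  rw [sq_lintegral_Pm hh hφ]
  have hm : Measurable (fun z : ℝ × ℝ => (Iio z.1).indicator (fun s => φ (s + h)) z.2) := by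
    have : (fun z : ℝ × ℝ => (Iio z.1).indicator (fun s => φ (s + h)) z.2) =
        {z : ℝ × ℝ | z.2 < z.1}.indicator (fun z => φ (z.2 + h)) := by
      funext z
      by_cases hz : z.2 < z.1
      · rw [indicator_of_mem (show z.2 ∈ Iio z.1 from hz), indicator_of_mem (show z ∈ {z : ℝ × ℝ | z.2 < z.1} from hz)]
      · rw [indicator_of_notMem (show z.2 ∉ Iio z.1 from hz), indicator_of_notMem (show z ∉ {z : ℝ × ℝ | z.2 < z.1} from hz)]
    rw [this]
    exact (hφ.comp (by fun_prop)).indicator (measurableSet_lt measurable_snd measurable_fst)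
  have h1 : ∀ a ∈ Ioc 0 h, ∫⁻ s in Ioc 0 h, (Iio a).indicator (fun s => φ (s + h)) s ≤
      ∫⁻ b in Ioc 0 h, φ (a + b) := by
    intro a ha
    have e1 : ∫⁻ b in Ioc 0 h, φ (a + b) = ∫⁻ s in Ioc (a - h) a, φ (s + h) := by
      rw [← lintegral_indicator measurableSet_Ioc, ← lintegral_indicator measurableSet_Ioc,
        ← lintegral_add_left_eq_self ((Ioc (a - h) a).indicator (fun s => φ (s + h))) (a - h)]
      apply lintegral_congr
      intro b
      by_cases hb : b ∈ Ioc 0 h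
      · rw [indicator_of_mem hb, indicator_of_mem (show a - h + b ∈ Ioc (a - h) a from
          ⟨by linarith [hb.1], by linarith [hb.2]⟩)]
        congr 1; ring
      · rw [indicator_of_notMem hb, indicator_of_notMem]
        intro hc
        exact hb ⟨by linarith [hc.1], by linarith [hc.2]⟩
    rw [e1, setLIntegral_indicator measurableSet_Iio]
    exact lintegral_mono_set (fun s hs => ⟨by linarith [hs.2.1, ha.2], (le_of_lt hs.1)⟩)
  calc ∫⁻ s in Ioc 0 h, ENNReal.ofReal (h - s) * φ (s + h)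
      = ∫⁻ s in Ioc 0 h, ∫⁻ a in Ioc 0 h, (Iio a).indicator (fun s => φ (s + h)) s := by
        apply setLIntegral_congr_fun measurableSet_Ioc
        intro s hs
        have : ∀ a, (Iio a).indicator (fun s => φ (s + h)) s = (Ioi s).indicator (fun _ => φ (s + h)) a := by
          intro a
          by_cases hz : s < a
          · rw [indicator_of_mem (show s ∈ Iio a from hz), indicator_of_mem (show a ∈ Ioi s from hz)]
          · rw [indicator_of_notMem (show s ∉ Iio a from hz), indicator_of_notMem (show a ∉ Ioi s from hz)]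
        simp_rw [this]
        rw [setLIntegral_indicator measurableSet_Ioi, setLIntegral_const, mul_comm]
        congr 1
        have : Ioi s ∩ Ioc 0 h = Ioc s h := by
          ext a
          simp only [mem_inter_iff, mem_Ioi, mem_Ioc]
          constructor
          · rintro ⟨h1, h2, h3⟩; exact ⟨h1, h3⟩
          · rintro ⟨h1, h2⟩; exact ⟨h1, lt_trans hs.1 h1, h2⟩
        rw [this, Real.volume_Ioc]
    _ = ∫⁻ a in Ioc 0 h, ∫⁻ s in Ioc 0 h, (Iio a).indicator (fun s => φ (s + h)) s :=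
        lintegral_lintegral_swap (hm.comp measurable_swap).aemeasurable
    _ ≤ _ := setLIntegral_mono' measurableSet_Ioc h1


/-- Hoelder comparison of the box average with the `Pm` average, abstract weight form -/
theorem weight_hoelder {h : ℝ} (hh : 0 < h) {p q : ℝ} (hpq : p.HolderConjugate q) (hq2 : q < 2)
    {φ : ℝ → ℝ≥0∞} (hφ : Measurable φ) {ω : ℝ → ℝ} (hω : Measurable ω) (hω0 : ∀ s ∈ Ioo 0 h, 0 < ω s)
    {Y : ℝ≥0∞} (h1 : ∫⁻ s in Ioc 0 h, ENNReal.ofReal (ω s) * φ s ^ p ≤ ENNReal.ofReal (h ^ 2) * Y)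
    (h2 : ∫⁻ s in Ioc 0 h, ENNReal.ofReal (ω s) ^ (1 - q) ≤ ENNReal.ofReal (h ^ (2 - q) / (2 - q))) :
    ∫⁻ s, φ s ∂(U h) ≤ ENNReal.ofReal ((2 - q)⁻¹ ^ (1 / q)) * Y ^ (1 / p) := by
  have hp := hpq.pos
  have hq := hpq.symm.pos
  have hpq1 := hpq.inv_add_inv_eq_one
  rw [lintegral_U]
  have e1 : ∀ᵐ s ∂(volume.restrict (Ioc 0 h)), φ s =
      (ENNReal.ofReal (ω s) ^ (1 / p) * φ s) * ENNReal.ofReal (ω s) ^ (-(1 / p)) := by
    have : ∀ᵐ s ∂(volume.restrict (Ioc 0 h)), s ∈ Ioo 0 h := by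
      rw [← restrict_Ioo_eq_restrict_Ioc]
      exact ae_restrict_mem measurableSet_Ioo
    filter_upwards [this] with s hs
    have hω1 : ENNReal.ofReal (ω s) ≠ 0 := by
      simpa using hω0 s hs
    rw [mul_comm, ← mul_assoc, ← ENNReal.rpow_add _ _ hω1 ENNReal.ofReal_ne_top, neg_add_cancel,
      ENNReal.rpow_zero, one_mul]
  rw [lintegral_congr_ae e1]
  have H := ENNReal.lintegral_mul_le_Lp_mul_Lq (volume.restrict (Ioc 0 h)) hpq
    (f := fun s => ENNReal.ofReal (ω s) ^ (1 / p) * φ s)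
    (g := fun s => ENNReal.ofReal (ω s) ^ (-(1 / p)))
    (by fun_prop) (by fun_prop)
  have e2 : ∫⁻ s in Ioc 0 h, (ENNReal.ofReal (ω s) ^ (1 / p) * φ s) ^ p =
      ∫⁻ s in Ioc 0 h, ENNReal.ofReal (ω s) * φ s ^ p := by
    apply lintegral_congr
    intro s
    rw [ENNReal.mul_rpow_of_nonneg _ _ hp.le, ← ENNReal.rpow_mul, one_div, inv_mul_cancel₀ hp.ne',
      ENNReal.rpow_one]
  have e3 : ∫⁻ s in Ioc 0 h, (ENNReal.ofReal (ω s) ^ (-(1 / p))) ^ q =
      ∫⁻ s in Ioc 0 h, ENNReal.ofReal (ω s) ^ (1 - q) := by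
    apply lintegral_congr
    intro s
    rw [← ENNReal.rpow_mul]
    congr 1
    have : q * p⁻¹ = q - 1 := by
      have : p⁻¹ = 1 - q⁻¹ := by linarith
      rw [this, mul_sub, mul_inv_cancel₀ hq.ne']; ring
    rw [one_div]; linarith
  simp only [Pi.mul_apply] at H
  rw [e2, e3] at H
  calc ENNReal.ofReal h⁻¹ * ∫⁻ s in Ioc 0 h, (ENNReal.ofReal (ω s) ^ (1 / p) * φ s) * ENNReal.ofReal (ω s) ^ (-(1 / p))
      ≤ ENNReal.ofReal h⁻¹ * ((ENNReal.ofReal (h ^ 2) * Y) ^ (1 / p) *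
        (ENNReal.ofReal (h ^ (2 - q) / (2 - q))) ^ (1 / q)) := by
        gcongr
        refine H.trans ?_
        gcongr
    _ = _ := by
      have hq2' : 0 < 2 - q := by linarith
      rw [ENNReal.mul_rpow_of_nonneg _ _ (by positivity),
        ENNReal.ofReal_rpow_of_nonneg (by positivity) (by positivity),
        ENNReal.ofReal_rpow_of_nonneg (by positivity) (by positivity)]
      have : ENNReal.ofReal h⁻¹ * (ENNReal.ofReal ((h ^ 2) ^ (1 / p)) * Y ^ (1 / p) *
          ENNReal.ofReal ((h ^ (2 - q) / (2 - q)) ^ (1 / q))) =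
          (ENNReal.ofReal h⁻¹ * ENNReal.ofReal ((h ^ 2) ^ (1 / p)) *
          ENNReal.ofReal ((h ^ (2 - q) / (2 - q)) ^ (1 / q))) * Y ^ (1 / p) := by ring
      rw [this]
      congr 1
      rw [← ENNReal.ofReal_mul (by positivity), ← ENNReal.ofReal_mul (by positivity)]
      congr 1
      rw [div_eq_mul_inv (h ^ (2 - q)) (2 - q), Real.mul_rpow (by positivity) (by positivity), ← mul_assoc,
        ← Real.rpow_natCast, ← Real.rpow_mul hh.le, ← Real.rpow_mul hh.le]
      have : h⁻¹ = h ^ (-1:ℝ) := by rw [Real.rpow_neg_one]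
      rw [this, ← Real.rpow_add hh, ← Real.rpow_add hh]
      have e4 : (-1:ℝ) + ((2:ℕ):ℝ) * (1 / p) + (2 - q) * (1 / q) = 0 := by
        push_cast
        field_simp
        field_simp at hpq1
        nlinarith
      rw [e4, Real.rpow_zero, one_mul]

theorem box_le_W {h : ℝ} (hh : 0 < h) {p q : ℝ} (hpq : p.HolderConjugate q) (hq2 : q < 2)
    {φ : ℝ → ℝ≥0∞} (hφ : Measurable φ) :
    ∫⁻ s, φ s ∂(U h) ≤ ENNReal.ofReal ((2 - q)⁻¹ ^ (1 / q)) * (∫⁻ s, φ s ^ p ∂(Pm h)) ^ (1 / p) ∧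
    ∫⁻ s, φ (s + h) ∂(U h) ≤ ENNReal.ofReal ((2 - q)⁻¹ ^ (1 / q)) * (∫⁻ s, φ s ^ p ∂(Pm h)) ^ (1 / p) := by
  have hq1 := hpq.symm.lt
  have hint : ∫⁻ s in Ioc 0 h, ENNReal.ofReal s ^ (1 - q) = ENNReal.ofReal (h ^ (2 - q) / (2 - q)) := by
    have e1 : ∫⁻ s in Ioc 0 h, ENNReal.ofReal s ^ (1 - q) = ∫⁻ s in Ioc 0 h, ENNReal.ofReal (s ^ (1 - q)) := by
      apply setLIntegral_congr_fun measurableSet_Ioc
      intro s hs
      simp only
      rw [ENNReal.ofReal_rpow_of_pos hs.1]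
    have hii : IntervalIntegrable (fun s : ℝ => s ^ (1 - q)) volume 0 h :=
      intervalIntegral.intervalIntegrable_rpow' (by linarith)
    rw [e1, ← ofReal_integral_eq_lintegral_ofReal]
    · rw [← intervalIntegral.integral_of_le hh.le, integral_rpow (Or.inl (by linarith))]
      congr 1
      have : 1 - q + 1 = 2 - q := by ring
      rw [this, Real.zero_rpow (by linarith), sub_zero]
    · exact (intervalIntegrable_iff_integrableOn_Ioc_of_le hh.le).1 hii
    · filter_upwards [ae_restrict_mem measurableSet_Ioc] with s hs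
      exact Real.rpow_nonneg hs.1.le _
  constructor
  · exact weight_hoelder hh hpq hq2 hφ (ω := fun s => s) measurable_id (fun s hs => hs.1)
      (Pm_lower1 hh (by fun_prop)) hint.le
  · refine weight_hoelder hh hpq hq2 (hφ.comp (by fun_prop : Measurable fun s : ℝ => s + h))
      (ω := fun s => h - s) (by fun_prop) (fun s hs => by linarith [hs.2])
      (Pm_lower2 hh (φ := fun s => φ s ^ p) (by fun_prop)) ?_
    have e1 : ∫⁻ s in Ioc 0 h, ENNReal.ofReal (h - s) ^ (1 - q) = ∫⁻ s in Ioc 0 h, ENNReal.ofReal s ^ (1 - q) := by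
      rw [← restrict_Ioo_eq_restrict_Ioc, ← lintegral_indicator measurableSet_Ioo, ← lintegral_indicator measurableSet_Ioo,
        ← lintegral_sub_left_eq_self _ h]
      apply lintegral_congr
      intro s
      by_cases hs : s ∈ Ioo 0 h
      · rw [indicator_of_mem hs, indicator_of_mem (show h - s ∈ Ioo 0 h from ⟨by linarith [hs.2], by linarith [hs.1]⟩)]
        congr 2; ring
      · rw [indicator_of_notMem hs, indicator_of_notMem]
        intro hc
        exact hs ⟨by linarith [hc.2], by linarith [hc.1]⟩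
    rw [e1, hint]

end Run7.h119
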