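import Mathlib
import Pool.Agent.Run7.h119.Pm

open MeasureTheory Set Filter Topology
open scoped ENNReal

set_option linter.unusedSectionVars false
set_option linter.style.haveILetI false
set_option linter.unusedVariables false

namespace Run7.h119

variable {X : Type*} [MetricSpace X] [SecondCountableTopology X] [SigmaCompactSpace X]
  [MeasurableSpace X] [BorelSpace X] {μ : Measure X} [IsFiniteMeasure μ]
  {V : Type*} [NormedAddCommGroup V] [InnerProductSpace ℝ V] [CompleteSpace V]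

theorem ae_memLp_slice {P : Measure ℝ} [IsProbabilityMeasure P] {c : ℝ≥0∞} (hc : c ≠ ∞)
    (hP : P ≤ c • volume) {p : ℝ} (hp : 1 ≤ p) {ψ : ℝ × X → ℝ} (hm : StronglyMeasurable ψ)
    (hψ : MemLp ψ (ENNReal.ofReal p) (volume.prod μ)) (r : ℝ) :
    ∀ᵐ x ∂μ, MemLp (fun s => ψ (r + s, x)) (ENNReal.ofReal p) P := by
  have h1 := lintegral_rpow_lt_top hp (memLp_slice hc hP hp hm hψ r)
  have m1 : Measurable (fun z : ℝ × X => ψ (r + z.1, z.2)) :=
    (hm.comp_measurable (by fun_prop)).measurable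
  rw [lintegral_prod_symm _ (m1.enorm.pow_const p).aemeasurable] at h1
  have h2 := ae_lt_top (Measurable.lintegral_prod_left' (m1.enorm.pow_const p)) h1.ne
  filter_upwards [h2] with x hx
  exact memLp_of_lintegral hp (hm.comp_measurable (by fun_prop)).aestronglyMeasurable hx

theorem avg_avg {h : ℝ} (hh : 0 < h) {p : ℝ} (hp : 1 ≤ p) {ψ : ℝ × X → ℝ} (hm : StronglyMeasurable ψ)
    (hψ : MemLp ψ (ENNReal.ofReal p) (volume.prod μ)) (r : ℝ) :
    ∀ᵐ x ∂μ, avg (U h) (avg (U h) ψ) (r, x) = avg (Pm h) ψ (r, x) := by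
  haveI := isProb_Pm hh
  filter_upwards [ae_memLp_slice ENNReal.ofReal_ne_top (Pm_le hh) hp hm hψ r] with x hx
  have hi := integrable_of_memLp_ofReal hp hx
  unfold avg
  rw [integral_Pm hh hi]
  simp only [add_assoc]

theorem avg_avg_P {h : ℝ} (hh : 0 < h) {R : ℝ × X → ℝ} {ψ : ℝ → ℝ} (hψ : Integrable ψ (Pm h)) :
    ∫ s, (∫ s', ψ (s + s') ∂(U h)) ∂(U h) = ∫ s, ψ s ∂(Pm h) := (integral_Pm hh hψ).symm

namespace LinSol

variable {ι : V →L[ℝ] Lp ℝ 2 μ} {p q a b : ℝ} {w : ℝ → V} {z : ℝ → Lp ℝ 2 μ}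
    {zf R : ℝ × X → ℝ}

theorem integrable_U_of_continuous {G : Type*} [NormedAddCommGroup G] {h : ℝ}
    {F : ℝ → G} (hF : Continuous F) : Integrable F (U h) := by
  unfold U
  apply Integrable.smul_measure _ ENNReal.ofReal_ne_top
  exact (hF.continuousOn.integrableOn_compact isCompact_Icc).mono_set Ioc_subset_Icc_self

/-- the twice averaged equation -/
theorem avg_eq0 (H : LinSol ι p q a b w z zf R) {h r : ℝ} (hh : 0 < h) (hr : a ≤ r)
    (hb : r + 2 * h < b) {φ : V} (hφ : MemLp (ι φ) (ENNReal.ofReal p) μ) :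
    inner ℝ (h⁻¹ • (S h z (r + h) - S h z r)) (ι φ) + inner ℝ (S h (S h w) r) φ
      = ∫ x, avg (Pm h) R (r, x) * ι φ x ∂μ := by
  haveI := isProb_U hh
  haveI := isProb_Pm hh
  have hq1 := H.hpq.symm.lt.le
  have c1 := continuous_S h H.w_cont
  have c2 := H.z_cont
  have k1 : ∫ s, (inner ℝ (h⁻¹ • (z (r + s + h) - z (r + s))) (ι φ) + inner ℝ (S h w (r + s)) φ) ∂(U h)
      = ∫ s, (∫ x, avg (U h) R (r + s, x) * ι φ x ∂μ) ∂(U h) := by
    apply integral_congr_ae
    filter_upwards [ae_U_mem] with s hs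
    exact H.weak_avg hh (by linarith [hs.1]) (by linarith [hs.2]) hφ
  have k2 := fub_avg (P := U h) ENNReal.ofReal_ne_top U_le H.hpq (stronglyMeasurable_avg H.R_meas (P := U h))
    (memLp_avg H.hpq.symm.lt.le H.R_meas H.R_mem) r hφ
  rw [k2] at k1
  have k3 : ∫ x, avg (U h) (avg (U h) R) (r, x) * ι φ x ∂μ = ∫ x, avg (Pm h) R (r, x) * ι φ x ∂μ := by
    apply integral_congr_ae
    filter_upwards [avg_avg hh H.hpq.symm.lt.le H.R_meas H.R_mem r] with x hx
    rw [hx]
  rw [k3] at k1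
  have f1 : Continuous (fun s => h⁻¹ • (z (r + s + h) - z (r + s))) := by fun_prop
  have f2 : Continuous (fun s => S h w (r + s)) := by fun_prop
  have i1 : Integrable (fun s => (inner ℝ (h⁻¹ • (z (r + s + h) - z (r + s))) (ι φ) : ℝ)) (U h) :=
    integrable_U_of_continuous (f1.inner continuous_const)
  have i2 : Integrable (fun s => (inner ℝ (S h w (r + s)) φ : ℝ)) (U h) :=
    integrable_U_of_continuous (f2.inner continuous_const)
  rw [integral_add i1 i2] at k1
  have k4 : ∫ s, (inner ℝ (h⁻¹ • (z (r + s + h) - z (r + s))) (ι φ) : ℝ) ∂(U h) =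
      inner ℝ (h⁻¹ • (S h z (r + h) - S h z r)) (ι φ) := by
    have e : ∀ s, (inner ℝ (h⁻¹ • (z (r + s + h) - z (r + s))) (ι φ) : ℝ) =
      inner ℝ (ι φ) (h⁻¹ • (z (r + s + h) - z (r + s))) := fun s => real_inner_comm _ _
    simp_rw [e]
    rw [integral_inner (integrable_U_of_continuous f1), real_inner_comm, integral_smul, S_eq hh, S_eq hh,
      ← integral_sub]
    · congr 3
      funext s
      congr 2
      ring
    · exact integrable_U_of_continuous (by fun_prop)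
    · exact integrable_U_of_continuous (by fun_prop)
  have k5 : ∫ s, (inner ℝ (S h w (r + s)) φ : ℝ) ∂(U h) = inner ℝ (S h (S h w) r) φ := by
    have e : ∀ s, (inner ℝ (S h w (r + s)) φ : ℝ) = inner ℝ φ (S h w (r + s)) := fun s => real_inner_comm _ _
    simp_rw [e]
    rw [integral_inner (integrable_U_of_continuous f2), real_inner_comm, S_eq hh (S h w)]
  rw [k4, k5] at k1
  exact k1

/-- the twice averaged equation, pointwise form -/
theorem avg_eq (H : LinSol ι p q a b w z zf R) {h r : ℝ} (hh : 0 < h) (hr : a ≤ r)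
    (hb : r + 2 * h < b) {φ : V} (hφ : MemLp (ι φ) (ENNReal.ofReal p) μ) :
    inner ℝ (S h (S h w) r) φ = ∫ x, (avg (Pm h) R (r, x) -
      h⁻¹ * (avg (U h) zf (r + h, x) - avg (U h) zf (r, x))) * ι φ x ∂μ := by
  haveI := isProb_U hh
  haveI := isProb_Pm hh
  have k1 := H.avg_eq0 hh hr hb hφ
  have k6 : (inner ℝ (h⁻¹ • (S h z (r + h) - S h z r)) (ι φ) : ℝ) =
      ∫ x, h⁻¹ * (avg (U h) zf (r + h, x) - avg (U h) zf (r, x)) * ι φ x ∂μ := by
    rw [L2.inner_def]
    apply integral_congr_ae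
    filter_upwards [Lp.coeFn_smul (h⁻¹) (S h z (r + h) - S h z r), Lp.coeFn_sub (S h z (r + h)) (S h z r),
      H.S_z_ae hh (by linarith : a ≤ r + h) (by linarith), H.S_z_ae hh hr (by linarith)] with x x1 x2 x3 x4
    rw [x1, Pi.smul_apply, x2, Pi.sub_apply, x3, x4]
    simp [mul_comm]
  have j1 : Integrable (fun x => avg (Pm h) R (r, x) * ι φ x) μ :=
    integrable_mul_of_memLp H.hpq.symm
      (memLp_avg_slice ENNReal.ofReal_ne_top (Pm_le hh) H.hpq.symm.lt.le H.R_meas H.R_mem r) hφ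
  have j2 : Integrable (fun x => h⁻¹ * (avg (U h) zf (r + h, x) - avg (U h) zf (r, x)) * ι φ x) μ := by
    have m1 : MemLp (fun x => h⁻¹ * (avg (U h) zf (r + h, x) - avg (U h) zf (r, x))) (ENNReal.ofReal 2) μ := by
      have : MemLp (h⁻¹ • (S h z (r + h) - S h z r) : Lp ℝ 2 μ) (ENNReal.ofReal 2) μ := by
        rw [ENNReal.ofReal_ofNat]; exact Lp.memLp _
      refine (memLp_congr_ae ?_).1 this
      filter_upwards [Lp.coeFn_smul (h⁻¹) (S h z (r + h) - S h z r), Lp.coeFn_sub (S h z (r + h)) (S h z r),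
        H.S_z_ae hh (by linarith : a ≤ r + h) (by linarith), H.S_z_ae hh hr (by linarith)] with x x1 x2 x3 x4
      rw [x1, Pi.smul_apply, x2, Pi.sub_apply, x3, x4]
      simp
    have m2 : MemLp (ι φ) (ENNReal.ofReal 2) μ := by
      rw [ENNReal.ofReal_ofNat]; exact Lp.memLp _
    exact integrable_mul_of_memLp (p := 2) (q := 2) (by
      rw [Real.holderConjugate_iff]; norm_num) m1 m2
  rw [k6] at k1
  have e : ∀ x, (avg (Pm h) R (r, x) - h⁻¹ * (avg (U h) zf (r + h, x) - avg (U h) zf (r, x))) * ι φ x =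
    avg (Pm h) R (r, x) * ι φ x - h⁻¹ * (avg (U h) zf (r + h, x) - avg (U h) zf (r, x)) * ι φ x := fun x => by ring
  simp_rw [e]
  rw [integral_sub j1 j2]
  linarith


theorem ι_S (ι : V →L[ℝ] Lp ℝ 2 μ) {w : ℝ → V} (hw : Continuous w) (h r : ℝ) :
    ι (S h w r) = S h (fun s => ι (w s)) r := by
  unfold S
  rw [map_smul, ContinuousLinearMap.intervalIntegral_comp_comm _ (hw.intervalIntegrable _ _)]

theorem ι_w1 (H : LinSol ι p q a b w z zf R) {h r : ℝ} (hh : 0 < h) (hr : a ≤ r)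
    (hb : r + 2 * h < b) : ι (h⁻¹ • (S h w (r + h) - S h w r)) = S h (S h z) r := by
  haveI := isProb_U hh
  have c1 := H.w_cont
  have c2 := H.z_cont
  have c3 := ι.continuous.comp c1
  rw [map_smul, map_sub, ι_S ι c1, ι_S ι c1, S_eq hh, S_eq hh, S_eq hh, ← integral_sub, ← integral_smul]
  · apply integral_congr_ae
    filter_upwards [ae_U_mem] with s hs
    have := H.ι_diff hh (by linarith [hs.1] : a ≤ r + s) (by linarith [hs.2])
    rw [← this, map_smul, map_sub]
    congr 3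
    ring_nf
  · exact integrable_U_of_continuous (ι.continuous.comp (c1.comp (by fun_prop)))
  · exact integrable_U_of_continuous (ι.continuous.comp (c1.comp (by fun_prop)))

theorem A_z_ae (H : LinSol ι p q a b w z zf R) {h r : ℝ} (hh : 0 < h) (hr : a ≤ r)
    (hb : r + 2 * h < b) :
    ((S h (S h z) r : Lp ℝ 2 μ) : X → ℝ) =ᵐ[μ] fun x => avg (Pm h) zf (r, x) := by
  haveI := isProb_Pm hh
  have c2 := H.z_cont
  rw [A_eq hh c2]
  have h1 : Continuous (fun s => z (r + s)) := c2.comp (by fun_prop)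
  have h3 : StronglyMeasurable (fun y : ℝ × X => zf (r + y.1, y.2)) :=
    H.zf_meas.comp_measurable (by fun_prop)
  refine (integral_lp2_ae (integrable_Pm_of_continuous hh h1) h3 ?_).2
  have h4 : ∀ᵐ s : ℝ, r + s ∈ Ioo a b → (fun x => zf (r + s, x)) =ᵐ[μ] z (r + s) :=
    (measurePreserving_add_left volume r).quasiMeasurePreserving.ae H.z_ae
  have h6 : Pm h ≪ volume := Measure.absolutelyContinuous_of_le_smul (Pm_le hh)
  filter_upwards [h6.ae_le h4, ae_Pm_mem hh] with s hs1 hs2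
  exact hs1 ⟨by linarith [hs2.1], by linarith [hs2.2]⟩

theorem w1_ae (H : LinSol ι p q a b w z zf R) {h r : ℝ} (hh : 0 < h) (hr : a ≤ r)
    (hb : r + 2 * h < b) :
    (ι (h⁻¹ • (S h w (r + h) - S h w r)) : X → ℝ) =ᵐ[μ] fun x => avg (Pm h) zf (r, x) := by
  rw [H.ι_w1 hh hr hb]
  exact H.A_z_ae hh hr hb

theorem w1_memLp (H : LinSol ι p q a b w z zf R) {h r : ℝ} (hh : 0 < h) (hr : a ≤ r)
    (hb : r + 2 * h < b) :
    MemLp (ι (h⁻¹ • (S h w (r + h) - S h w r))) (ENNReal.ofReal p) μ := by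
  haveI := isProb_Pm hh
  exact (memLp_congr_ae (H.w1_ae hh hr hb)).2
    (memLp_avg_slice ENNReal.ofReal_ne_top (Pm_le hh) H.hpq.lt.le H.zf_meas H.zf_mem r)

/-- time fluctuation functional -/
noncomputable def flu (h : ℝ) (w : ℝ → V) (z : ℝ → Lp ℝ 2 μ) (r : ℝ) : ℝ :=
  (S h (S h (fun t => ‖w t‖ ^ 2 + ‖z t‖ ^ 2)) r - ‖S h (S h w) r‖ ^ 2 - ‖S h (S h z) r‖ ^ 2) / 2

theorem hasDerivAt_flu (H : LinSol ι p q a b w z zf R) {h r : ℝ} (hh : 0 < h) (hr : a ≤ r)
    (hb : r + 2 * h < b) :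
    HasDerivAt (flu h w z)
      (∫ x, cv (Pm h) (fun s => R (r + s, x)) (fun s => zf (r + s, x)) ∂μ) r := by
  haveI := isProb_U hh
  haveI := isProb_Pm hh
  have c1 := H.w_cont
  have c2 := H.z_cont
  have cE : Continuous (fun t => ‖w t‖ ^ 2 + ‖z t‖ ^ 2) := by fun_prop
  have d1 := hasDerivAt_S h (continuous_S h cE) r
  have d2 := (hasDerivAt_S h (continuous_S h c1) r).norm_sq
  have d3 := (hasDerivAt_S h (continuous_S h c2) r).norm_sq
  have d4 := ((d1.sub d2).sub d3).div_const 2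
  refine d4.congr_deriv ?_
  -- integrability facts on `Pm × μ`
  have mR := memLp_slice (P := Pm h) ENNReal.ofReal_ne_top (Pm_le hh) H.hpq.symm.lt.le H.R_meas H.R_mem r
  have mz := memLp_slice (P := Pm h) ENNReal.ofReal_ne_top (Pm_le hh) H.hpq.lt.le H.zf_meas H.zf_mem r
  have iRz : Integrable (fun y : ℝ × X => R (r + y.1, y.2) * zf (r + y.1, y.2)) ((Pm h).prod μ) :=
    integrable_mul_of_memLp H.hpq.symm mR mz
  have iπ : Integrable (fun s => ∫ x, R (r + s, x) * zf (r + s, x) ∂μ) (Pm h) := iRz.integral_prod_left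
  have e1 : h⁻¹ • (S h (fun t => ‖w t‖ ^ 2 + ‖z t‖ ^ 2) (r + h) - S h (fun t => ‖w t‖ ^ 2 + ‖z t‖ ^ 2) r) =
      2 * ∫ s, (∫ x, R (r + s, x) * zf (r + s, x) ∂μ) ∂(Pm h) := by
    rw [integral_Pm hh iπ, S_eq hh, S_eq hh, ← integral_sub, ← integral_smul, ← integral_const_mul]
    · apply integral_congr_ae
      filter_upwards [ae_U_mem] with s hs
      have E := H.energy (s := r + s) (t := r + s + h) (by linarith [hs.1]) (by linarith) (by linarith [hs.2])
      rw [integral_U hh]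
      have e2 : ∫ b in (0:ℝ)..h, (∫ x, R (r + (s + b), x) * zf (r + (s + b), x) ∂μ) =
          ∫ t in (r+s)..(r+s+h), (∫ x, R (t, x) * zf (t, x) ∂μ) := by
        have := intervalIntegral.integral_comp_add_left (a := 0) (b := h)
          (fun t => ∫ x, R (t, x) * zf (t, x) ∂μ) (r + s)
        rw [add_zero] at this
        rw [← this]
        simp only [add_assoc]
      rw [e2, ← E]
      have e3 : r + h + s = r + s + h := by ring
      simp only [e3, smul_eq_mul]
      ring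
    · exact integrable_U_of_continuous (by fun_prop)
    · exact integrable_U_of_continuous (by fun_prop)
  have e4 := H.avg_eq0 hh hr hb (H.w1_memLp hh hr hb)
  rw [H.ι_w1 hh hr hb] at e4
  have e5 : ∫ x, avg (Pm h) R (r, x) * (S h (S h z) r : Lp ℝ 2 μ) x ∂μ =
      ∫ x, avg (Pm h) R (r, x) * avg (Pm h) zf (r, x) ∂μ := by
    apply integral_congr_ae
    filter_upwards [H.A_z_ae hh hr hb] with x hx
    rw [hx]
  rw [e5, real_inner_comm] at e4
  have e6 : ∫ s, (∫ x, R (r + s, x) * zf (r + s, x) ∂μ) ∂(Pm h) =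
      ∫ x, (∫ s, R (r + s, x) * zf (r + s, x) ∂(Pm h)) ∂μ :=
    integral_integral_swap (f := fun s x => R (r + s, x) * zf (r + s, x)) iRz
  have i1 : Integrable (fun x => ∫ s, R (r + s, x) * zf (r + s, x) ∂(Pm h)) μ := iRz.integral_prod_right
  have i2 : Integrable (fun x => avg (Pm h) R (r, x) * avg (Pm h) zf (r, x)) μ :=
    integrable_mul_of_memLp H.hpq.symm
      (memLp_avg_slice ENNReal.ofReal_ne_top (Pm_le hh) H.hpq.symm.lt.le H.R_meas H.R_mem r)
      (memLp_avg_slice ENNReal.ofReal_ne_top (Pm_le hh) H.hpq.lt.le H.zf_meas H.zf_mem r)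
  have e7 : ∫ x, cv (Pm h) (fun s => R (r + s, x)) (fun s => zf (r + s, x)) ∂μ =
      (∫ x, (∫ s, R (r + s, x) * zf (r + s, x) ∂(Pm h)) ∂μ) -
      ∫ x, avg (Pm h) R (r, x) * avg (Pm h) zf (r, x) ∂μ := by
    rw [← integral_sub i1 i2]
    rfl
  rw [e1, e7, ← e6, ← e4]
  ring

end LinSol

end Run7.h119
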