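import Mathlib
import Pool.Agent.Run7.h119.Smooth
import Pool.Agent.Run7.h119.Obst

open MeasureTheory Set Filter Topology
open scoped ENNReal

set_option linter.unusedSectionVars false
set_option linter.style.haveILetI false
set_option linter.unusedVariables false

namespace Run7.h119

variable {X : Type*} [MetricSpace X] [SecondCountableTopology X] [SigmaCompactSpace X]
  [MeasurableSpace X] [BorelSpace X] {μ : Measure X} [IsFiniteMeasure μ]
  {V : Type*} [NormedAddCommGroup V] [InnerProductSpace ℝ V] [CompleteSpace V]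

/-- a solution of the damped problem on `[0,b]` -/
structure Sol (ι : V →L[ℝ] Lp ℝ 2 μ) (a p q b M : ℝ) (u : ℝ → V) (v : ℝ → Lp ℝ 2 μ)
    (vf f : ℝ × X → ℝ) : Prop where
  ha : 0 < a
  hp : 2 < p
  hM : 0 ≤ M
  lin : LinSol ι p q 0 b u v vf (fun y => f y - gfun a p (vf y))
  f_meas : StronglyMeasurable f
  f_mem : MemLp f (ENNReal.ofReal 2) (volume.prod μ)
  f_bd : ∀ᵐ t : ℝ, ∫⁻ x, ‖f (t, x)‖ₑ ^ (2:ℝ) ∂μ ≤ ENNReal.ofReal (M ^ 2)

theorem conj_lt_two {p q : ℝ} (hp : 2 < p) (hpq : p.HolderConjugate q) : q < 2 := by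
  have h1 := hpq.inv_add_inv_eq_one
  have hq := hpq.symm.pos
  have h2 : p⁻¹ < 2⁻¹ := by
    apply inv_strictAnti₀ (by norm_num) hp
  have h3 : (2:ℝ)⁻¹ < q⁻¹ := by
    have : (2:ℝ)⁻¹ = 1 - 2⁻¹ := by norm_num
    linarith
  have := (inv_lt_inv₀ (by norm_num : (0:ℝ) < 2) hq).1 h3
  exact this

theorem setIntegral_rpow_le {Y : Type*} [MeasurableSpace Y] {ν : Measure Y} [IsFiniteMeasure ν] {q M : ℝ}
    (hq1 : 1 ≤ q) (hq2 : q < 2) (hM : 0 ≤ M) {F : Y → ℝ} (hF : AEStronglyMeasurable F ν)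
    (hb : ∫⁻ x, ‖F x‖ₑ ^ (2:ℝ) ∂ν ≤ ENNReal.ofReal (M ^ 2)) {A : Set Y} (hA : MeasurableSet A) :
    ∫⁻ x in A, ‖F x‖ₑ ^ q ∂ν ≤ ENNReal.ofReal (M ^ q * (ν.real A) ^ (1 - q / 2)) := by
  have hc : (2 / q).HolderConjugate (2 / (2 - q)) := by
    rw [Real.holderConjugate_iff]
    constructor
    · rw [lt_div_iff₀ (by linarith)]; linarith
    · rw [inv_div, inv_div]; ring
  have H := ENNReal.lintegral_mul_le_Lp_mul_Lq (ν.restrict A) hc (f := fun x => ‖F x‖ₑ ^ q)
    (g := fun _ => 1) ((hF.restrict.enorm).pow_const q) aemeasurable_const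
  have hq0 : 0 < q := by linarith
  simp only [Pi.mul_apply, mul_one, ENNReal.one_rpow, lintegral_const, Measure.restrict_apply,
    MeasurableSet.univ, univ_inter, one_mul] at H
  refine H.trans ?_
  have e1 : ∀ x, (‖F x‖ₑ ^ q) ^ (2 / q) = ‖F x‖ₑ ^ (2:ℝ) := by
    intro x
    rw [← ENNReal.rpow_mul]; congr 1; field_simp
  simp_rw [e1]
  have e2 : (ν A) = ENNReal.ofReal (ν.real A) := by simp [measureReal_def]
  calc (∫⁻ x in A, ‖F x‖ₑ ^ (2:ℝ) ∂ν) ^ (1 / (2 / q)) * (ν A) ^ (1 / (2 / (2 - q)))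
      ≤ (ENNReal.ofReal (M ^ 2)) ^ (1 / (2 / q)) * (ENNReal.ofReal (ν.real A)) ^ (1 / (2 / (2 - q))) := by
        rw [e2]
        gcongr
        exact (setLIntegral_le_lintegral _ _).trans hb
    _ = _ := by
        have hA0 : 0 ≤ ν.real A := measureReal_nonneg
        rw [ENNReal.ofReal_rpow_of_nonneg (by positivity) (by positivity),
          ENNReal.ofReal_rpow_of_nonneg hA0 (by
            rw [one_div_div]; exact div_nonneg (by linarith) (by norm_num)),
          ← ENNReal.ofReal_mul (by positivity)]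
        congr 2
        · rw [← Real.rpow_natCast, ← Real.rpow_mul hM]; congr 1; push_cast; field_simp
        · rw [one_div_div]; congr 1; ring

namespace Sol

variable {ι : V →L[ℝ] Lp ℝ 2 μ} {a p q b M : ℝ} {u : ℝ → V} {v : ℝ → Lp ℝ 2 μ}
    {vf f : ℝ × X → ℝ}

theorem f_memq (H : Sol ι a p q b M u v vf f) : MemLp f (ENNReal.ofReal q) (volume.prod μ) := by
  have h1 := H.lin.R_mem
  have h2 := memLp_gfun H.ha H.hp H.lin.hpq H.lin.zf_mem
  have := h1.add h2
  refine (memLp_congr_ae ?_).1 this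
  filter_upwards with y
  simp

/-- L² bound of the averaged force -/
theorem avg_f_bd (H : Sol ι a p q b M u v vf f) {P : Measure ℝ} [IsProbabilityMeasure P]
    (hP : P ≪ volume) (r : ℝ) :
    ∫⁻ x, ‖avg P f (r, x)‖ₑ ^ (2:ℝ) ∂μ ≤ ENNReal.ofReal (M ^ 2) := by
  have hm := H.f_meas
  have h1 : ∫⁻ x, ‖avg P f (r, x)‖ₑ ^ (2:ℝ) ∂μ ≤ ∫⁻ x, (∫⁻ s, ‖f (r + s, x)‖ₑ ^ (2:ℝ) ∂P) ∂μ := by
    refine lintegral_mono (fun x => ?_)
    exact enorm_integral_rpow_le (by norm_num)
      (hm.comp_measurable (by fun_prop : Measurable (fun s : ℝ => (r + s, x)))).aestronglyMeasurable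
  refine h1.trans ?_
  rw [lintegral_lintegral_swap]
  · have h4 : ∀ᵐ s : ℝ, ∫⁻ x, ‖f (r + s, x)‖ₑ ^ (2:ℝ) ∂μ ≤ ENNReal.ofReal (M ^ 2) :=
      (measurePreserving_add_left volume r).quasiMeasurePreserving.ae H.f_bd
    calc ∫⁻ s, (∫⁻ x, ‖f (r + s, x)‖ₑ ^ (2:ℝ) ∂μ) ∂P ≤ ∫⁻ s, ENNReal.ofReal (M ^ 2) ∂P :=
          lintegral_mono_ae (hP.ae_le h4)
      _ = _ := by simp
  · exact ((hm.comp_measurable (by fun_prop :
      Measurable (fun z : X × ℝ => (r + z.2, z.1)))).measurable.enorm.pow_const 2).aemeasurable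

end Sol

theorem cv_neg (P : Measure ℝ) (b y : ℝ → ℝ) : cv P (fun s => - b s) (fun s => - y s) = cv P b y := by
  unfold cv
  rw [integral_neg, integral_neg]
  simp


theorem box_diff_le {h : ℝ} (hh : 0 < h) {p q : ℝ} (hpq : p.HolderConjugate q) (hq2 : q < 2)
    {y : ℝ → ℝ} (hm : Measurable y) (hy : MemLp y (ENNReal.ofReal p) (Pm h)) :
    |(∫ s, y (h + s) ∂(U h)) - ∫ s, y s ∂(U h)| ≤
      (2 * (2 - q)⁻¹ ^ (1 / q)) * (∫ s, |y s| ^ p ∂(Pm h)) ^ (1 / p) := by
  haveI := isProb_U hh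
  haveI := isProb_Pm hh
  have hp := hpq.pos
  have hp1 := hpq.lt.le
  have hq20 : 0 < 2 - q := by linarith
  obtain ⟨b1, b2⟩ := box_le_W hh hpq hq2 (φ := fun s => ‖y s‖ₑ) (by fun_prop)
  set Y := ∫ s, |y s| ^ p ∂(Pm h) with hY
  have hY0 : 0 ≤ Y := integral_nonneg fun _ => by positivity
  have e1 : ∫⁻ s, ‖y s‖ₑ ^ p ∂(Pm h) = ENNReal.ofReal Y := by
    rw [hY, ofReal_integral_eq_lintegral_ofReal (integrable_rpow_of_memLp hp1 hy)
      (Eventually.of_forall fun _ => by positivity)]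
    apply lintegral_congr
    intro s
    rw [← ofReal_norm, Real.norm_eq_abs, ENNReal.ofReal_rpow_of_nonneg (abs_nonneg _) hp.le]
  rw [e1, ENNReal.ofReal_rpow_of_nonneg hY0 (by positivity), ← ENNReal.ofReal_mul (by positivity)] at b1 b2
  have c1 : |∫ s, y s ∂(U h)| ≤ (2 - q)⁻¹ ^ (1 / q) * Y ^ (1 / p) := by
    have := (enorm_integral_le_lintegral_enorm (μ := U h) y).trans b1
    rw [← ofReal_norm, Real.norm_eq_abs] at this
    exact (ENNReal.ofReal_le_ofReal_iff (by positivity)).1 this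
  have c2 : |∫ s, y (h + s) ∂(U h)| ≤ (2 - q)⁻¹ ^ (1 / q) * Y ^ (1 / p) := by
    have e : ∀ s, ‖y (h + s)‖ₑ = ‖y (s + h)‖ₑ := fun s => by rw [add_comm]
    have h1 := enorm_integral_le_lintegral_enorm (μ := U h) (fun s => y (h + s))
    simp_rw [e] at h1
    have := h1.trans b2
    rw [← ofReal_norm, Real.norm_eq_abs] at this
    exact (ENNReal.ofReal_le_ofReal_iff (by positivity)).1 this
  calc _ ≤ |∫ s, y (h + s) ∂(U h)| + |∫ s, y s ∂(U h)| := abs_sub _ _
    _ ≤ _ := by linarith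

theorem contact_int (ι : V →L[ℝ] Lp ℝ 2 μ) {ρ Sob : ℝ} (F : Form ι ρ Sob) {a p q : ℝ} (ha : 0 < a)
    (hp : 2 < p) (hpq : p.HolderConjugate q) :
    ∃ C : ℝ, 0 < C ∧ ∀ (b M : ℝ) (u : ℝ → V) (v : ℝ → Lp ℝ 2 μ) (vf f : ℝ × X → ℝ),
      Sol ι a p q b M u v vf f → ∀ h r l κ : ℝ, 0 < h → 0 ≤ r → r + 2 * h < b → 0 < l → 0 ≤ κ →
      ∀ z ∈ Obs ι l, (∀ y ∈ Obs ι l, inner ℝ (S h (S h u) r - z) (y - z) ≤ 0) →
      inner ℝ (S h (S h u) r - z) (h⁻¹ • (S h u (r + h) - S h u r) + (κ / l) • z) ≤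
        (∫ x, cv (Pm h) (fun s => gfun a p (vf (r + s, x))) (fun s => vf (r + s, x)) ∂μ) +
        C * (M ^ q * (μ.real {x | l ≤ |ι z x|}) ^ (1 - q / 2) +
          (κ ^ p + h⁻¹ ^ (p / (p - 2))) * μ.real {x | l ≤ |ι z x|}) := by
  have hq2 := conj_lt_two hp hpq
  have hq1 := hpq.symm.lt.le
  have hp1 := hpq.lt.le
  have hC₁ : 0 ≤ 2 * (2 - q)⁻¹ ^ (1 / q) := by
    have : 0 < 2 - q := by linarith
    positivity
  obtain ⟨C, hC, K⟩ := contact_pt ha hp hpq hC₁
  refine ⟨C, hC, fun b M u v vf f H h r l κ hh hr hrb hl hκ z hz vi => ?_⟩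
  haveI := isProb_U hh
  haveI := isProb_Pm hh
  have L := H.lin
  set φ : V := h⁻¹ • (S h u (r + h) - S h u r) + (κ / l) • z with hφ
  set G : X → ℝ := fun x => avg (Pm h) (fun y => f y - gfun a p (vf y)) (r, x) -
      h⁻¹ * (avg (U h) vf (r + h, x) - avg (U h) vf (r, x)) with hG
  have mz : MemLp (ι z) (ENNReal.ofReal p) μ := by
    refine (memLp_const l).of_le (Lp.aestronglyMeasurable _) ?_
    filter_upwards [hz] with x hx
    rw [Real.norm_eq_abs, Real.norm_of_nonneg hl.le]; exact hx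
  have aeφ : ∀ᵐ x ∂μ, ι φ x = avg (Pm h) vf (r, x) + (κ / l) * ι z x := by
    filter_upwards [ι_add_ae (ι := ι) (h⁻¹ • (S h u (r + h) - S h u r)) ((κ / l) • z),
      ι_smul_ae (ι := ι) (κ / l) z, L.w1_ae hh hr hrb] with x x1 x2 x3
    rw [x1, x2, x3]
  have mφ : MemLp (ι φ) (ENNReal.ofReal p) μ := by
    refine (memLp_congr_ae aeφ).2 (MemLp.add ?_ (mz.const_mul _))
    exact memLp_avg_slice ENNReal.ofReal_ne_top (Pm_le hh) hp1 L.zf_meas L.zf_mem r
  have mU : ∀ r', MemLp (fun x => avg (U h) vf (r', x)) (ENNReal.ofReal q) μ := by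
    intro r'
    exact (memLp_avg_slice ENNReal.ofReal_ne_top U_le hp1 L.zf_meas L.zf_mem r').mono_exponent
      (ENNReal.ofReal_le_ofReal (by linarith))
  have mG : MemLp G (ENNReal.ofReal q) μ := by
    refine MemLp.sub ?_ (((mU _).sub (mU _)).const_mul _)
    exact memLp_avg_slice ENNReal.ofReal_ne_top (Pm_le hh) hq1 L.R_meas L.R_mem r
  have hw : ∀ ψ : V, MemLp (ι ψ) (ENNReal.ofReal p) μ →
      inner ℝ (S h (S h u) r) ψ = ∫ x, G x * ι ψ x ∂μ := fun ψ hψ => L.avg_eq hh hr hrb hψ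
  have sw := sandwich F hpq hl hz vi mG hw mφ
  refine sw.trans ?_
  -- pointwise bounds
  set cvx : X → ℝ := fun x => cv (Pm h) (fun s => gfun a p (vf (r + s, x))) (fun s => vf (r + s, x)) with hcvx
  set Q : X → ℝ := fun x => C * (|avg (Pm h) f (r, x)| ^ q + κ ^ p + h⁻¹ ^ (p / (p - 2))) with hQ
  have fq := H.f_memq
  have sl1 := ae_memLp_slice (P := Pm h) ENNReal.ofReal_ne_top (Pm_le hh) hp1 L.zf_meas L.zf_mem r
  have sl2 := ae_memLp_slice (P := Pm h) ENNReal.ofReal_ne_top (Pm_le hh) hq1 H.f_meas fq r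
  have pw : ∀ᵐ x ∂μ, 0 ≤ cvx x ∧ G x * max (avg (Pm h) vf (r, x) + κ) 0 ≤ cvx x + Q x ∧
      (- G x) * max (- avg (Pm h) vf (r, x) + κ) 0 ≤ cvx x + Q x := by
    filter_upwards [sl1, sl2] with x hx1 hx2
    have mm : Measurable (fun s => vf (r + s, x)) :=
      (L.zf_meas.comp_measurable (by fun_prop : Measurable (fun s : ℝ => (r + s, x)))).measurable
    have hB := box_diff_le hh hpq hq2 mm hx1
    have hg := memLp_gfun ha hp hpq hx1
    have eB : (avg (U h) vf (r + h, x) - avg (U h) vf (r, x)) =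
        (∫ s, vf (r + (h + s), x) ∂(U h)) - ∫ s, vf (r + s, x) ∂(U h) := by
      unfold avg; simp only [add_assoc]
    have eG : G x = avg (Pm h) f (r, x) - h⁻¹ * (avg (U h) vf (r + h, x) - avg (U h) vf (r, x)) -
        ∫ s, gfun a p (vf (r + s, x)) ∂(Pm h) := by
      rw [hG]
      have : avg (Pm h) (fun y => f y - gfun a p (vf y)) (r, x) = avg (Pm h) f (r, x) -
          ∫ s, gfun a p (vf (r + s, x)) ∂(Pm h) := by
        unfold avg
        rw [integral_sub (integrable_of_memLp_ofReal hq1 hx2) (integrable_of_memLp_ofReal hq1 hg)]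
      simp only [this]; ring
    refine ⟨cv_gfun_nonneg ha hp hpq hx1, ?_, ?_⟩
    · have k := K (Pm h) (fun s => vf (r + s, x)) κ (avg (Pm h) f (r, x))
        (avg (U h) vf (r + h, x) - avg (U h) vf (r, x)) h⁻¹ hx1 hκ (by positivity) (by rw [eB]; exact hB)
      rw [eG]
      exact k
    · have k := K (Pm h) (fun s => - vf (r + s, x)) κ (- avg (Pm h) f (r, x))
        (-(avg (U h) vf (r + h, x) - avg (U h) vf (r, x))) h⁻¹ hx1.neg hκ (by positivity) (by
          rw [abs_neg, eB]; simp only [abs_neg]; exact hB)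
      have e1 : ∀ s, gfun a p (- vf (r + s, x)) = - gfun a p (vf (r + s, x)) := fun s => gfun_neg
      simp only [e1, integral_neg] at k
      rw [cv_neg, abs_neg] at k
      have e2 : avg (Pm h) vf (r, x) = ∫ s, vf (r + s, x) ∂(Pm h) := rfl
      rw [eG, e2]
      refine le_trans (le_of_eq ?_) k
      ring
  have iQ : Integrable Q μ := by
    have m1 : MemLp (fun x => avg (Pm h) f (r, x)) (ENNReal.ofReal q) μ :=
      memLp_avg_slice ENNReal.ofReal_ne_top (Pm_le hh) hq1 H.f_meas fq r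
    exact (((integrable_rpow_of_memLp hq1 m1).add (integrable_const _)).add (integrable_const _)).const_mul C
  have icv : Integrable cvx μ := by
    have mg := memLp_gfun ha hp hpq L.zf_mem
    have mgm : StronglyMeasurable (fun y => gfun a p (vf y)) :=
      (measurable_gfun.comp L.zf_meas.measurable).stronglyMeasurable
    have n1 := memLp_slice (P := Pm h) ENNReal.ofReal_ne_top (Pm_le hh) hq1 mgm mg r
    have n2 := memLp_slice (P := Pm h) ENNReal.ofReal_ne_top (Pm_le hh) hp1 L.zf_meas L.zf_mem r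
    have i1 : Integrable (fun y : ℝ × X => gfun a p (vf (r + y.1, y.2)) * vf (r + y.1, y.2)) ((Pm h).prod μ) :=
      integrable_mul_of_memLp hpq.symm n1 n2
    have i2 : Integrable (fun x => avg (Pm h) (fun y => gfun a p (vf y)) (r, x) * avg (Pm h) vf (r, x)) μ :=
      integrable_mul_of_memLp hpq.symm
        (memLp_avg_slice ENNReal.ofReal_ne_top (Pm_le hh) hq1 mgm mg r)
        (memLp_avg_slice ENNReal.ofReal_ne_top (Pm_le hh) hp1 L.zf_meas L.zf_mem r)
    exact i1.integral_prod_right.sub i2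
  have hzm : Measurable (ι z : X → ℝ) := (Lp.stronglyMeasurable (ι z)).measurable
  have iG : ∀ {ψ : X → ℝ}, MemLp ψ (ENNReal.ofReal p) μ → Integrable (fun x => G x * ψ x) μ :=
    fun hψ => integrable_mul_of_memLp hpq.symm mG hψ
  have mmax : MemLp (fun x => max (ι φ x) 0) (ENNReal.ofReal p) μ := by
    refine mφ.of_le (AEStronglyMeasurable.sup (Lp.aestronglyMeasurable _) aestronglyMeasurable_const) ?_
    filter_upwards with x
    rw [Real.norm_of_nonneg (le_max_right _ _), Real.norm_eq_abs]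
    exact max_le (le_abs_self _) (abs_nonneg _)
  have mmax' : MemLp (fun x => max (- ι φ x) 0) (ENNReal.ofReal p) μ := by
    refine mφ.of_le (AEStronglyMeasurable.sup (Lp.aestronglyMeasurable _).neg aestronglyMeasurable_const) ?_
    filter_upwards with x
    rw [Real.norm_of_nonneg (le_max_right _ _), Real.norm_eq_abs]
    exact max_le (neg_le_abs _) (abs_nonneg _)
  set A1 : Set X := {x | l ≤ ι z x} with hA1
  set A2 : Set X := {x | ι z x ≤ -l} with hA2
  have mA1 : MeasurableSet A1 := measurableSet_le measurable_const hzm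
  have mA2 : MeasurableSet A2 := measurableSet_le hzm measurable_const
  have s1 : ∫ x in A1, G x * max (ι φ x) 0 ∂μ ≤ ∫ x in A1, (cvx x + Q x) ∂μ := by
    refine setIntegral_mono_on_ae (iG mmax).integrableOn (icv.add iQ).integrableOn mA1 ?_
    filter_upwards [pw, aeφ, hz] with x x1 x2 x3 hx
    have e : ι z x = l := le_antisymm (abs_le.1 x3).2 hx
    rw [x2, e, div_mul_cancel₀ _ hl.ne']
    exact x1.2.1
  have s2 : ∫ x in A2, (- G x) * max (- ι φ x) 0 ∂μ ≤ ∫ x in A2, (cvx x + Q x) ∂μ := by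
    have i3 : Integrable (fun x => (- G x) * max (- ι φ x) 0) μ := by
      have := (iG mmax').neg
      refine this.congr (Eventually.of_forall fun x => ?_)
      simp
    refine setIntegral_mono_on_ae i3.integrableOn (icv.add iQ).integrableOn mA2 ?_
    filter_upwards [pw, aeφ, hz] with x x1 x2 x3 hx
    have e : ι z x = -l := le_antisymm hx (abs_le.1 x3).1
    have e2 : -(avg (Pm h) vf (r, x) + κ / l * -l) = - avg (Pm h) vf (r, x) + κ := by
      field_simp; ring
    rw [x2, e, e2]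
    exact x1.2.2
  have disj : Disjoint A1 A2 := by
    rw [Set.disjoint_left]
    intro x h1 h2
    have h1' : l ≤ ι z x := h1
    have h2' : ι z x ≤ -l := h2
    linarith
  have hunion : A1 ∪ A2 = {x | l ≤ |ι z x|} := by
    ext x
    constructor
    · rintro (h1 | h1)
      · have h1' : l ≤ ι z x := h1
        have : l ≤ |ι z x| := le_trans h1' (le_abs_self _)
        exact this
      · have h1' : ι z x ≤ -l := h1
        have : l ≤ |ι z x| := le_trans (by linarith : l ≤ -(ι z x)) (neg_le_abs _)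
        exact this
    · intro h1
      have h1' : l ≤ |ι z x| := h1
      rcases le_abs.1 h1' with h2 | h2
      · exact Or.inl h2
      · exact Or.inr (show ι z x ≤ -l by linarith)
  have s3 : (∫ x in A1, (cvx x + Q x) ∂μ) + (∫ x in A2, (cvx x + Q x) ∂μ) =
      ∫ x in {x | l ≤ |ι z x|}, (cvx x + Q x) ∂μ := by
    rw [← hunion]
    exact (setIntegral_union disj mA2 (icv.add iQ).integrableOn (icv.add iQ).integrableOn).symm
  set A : Set X := {x | l ≤ |ι z x|} with hA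
  have mA : MeasurableSet A := measurableSet_le measurable_const (by fun_prop)
  have s4 : ∫ x in A, (cvx x + Q x) ∂μ ≤ (∫ x, cvx x ∂μ) + ∫ x in A, Q x ∂μ := by
    rw [integral_add icv.integrableOn iQ.integrableOn]
    have := setIntegral_le_integral (s := A) icv (by
      filter_upwards [pw] with x hx using hx.1)
    linarith
  have s5 : ∫ x in A, Q x ∂μ ≤ C * (M ^ q * (μ.real A) ^ (1 - q / 2) +
      (κ ^ p + h⁻¹ ^ (p / (p - 2))) * μ.real A) := by
    have m1 : MemLp (fun x => avg (Pm h) f (r, x)) (ENNReal.ofReal q) μ :=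
      memLp_avg_slice ENNReal.ofReal_ne_top (Pm_le hh) hq1 H.f_meas fq r
    have i1 := integrable_rpow_of_memLp hq1 m1
    have t1 : ∫ x in A, |avg (Pm h) f (r, x)| ^ q ∂μ ≤ M ^ q * (μ.real A) ^ (1 - q / 2) := by
      have hM := H.hM
      have b0 : 0 ≤ M ^ q * (μ.real A) ^ (1 - q / 2) := by positivity
      rw [← ENNReal.ofReal_le_ofReal_iff b0,
        ofReal_integral_eq_lintegral_ofReal i1.integrableOn (Eventually.of_forall fun _ => by positivity)]
      have := setIntegral_rpow_le hq1 hq2 hM m1.1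
        (H.avg_f_bd (P := Pm h) (Measure.absolutelyContinuous_of_le_smul (Pm_le hh)) r) mA
      refine le_trans (le_of_eq ?_) this
      apply lintegral_congr
      intro x
      rw [← ofReal_norm, Real.norm_eq_abs, ENNReal.ofReal_rpow_of_nonneg (abs_nonneg _) (by linarith)]
    have e : ∀ x, Q x = C * (|avg (Pm h) f (r, x)| ^ q + (κ ^ p + h⁻¹ ^ (p / (p - 2)))) := by
      intro x; rw [hQ]; ring
    simp_rw [e]
    rw [integral_const_mul, integral_add i1.integrableOn (integrable_const _)]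
    have : ∫ x in A, (κ ^ p + h⁻¹ ^ (p / (p - 2))) ∂μ = (κ ^ p + h⁻¹ ^ (p / (p - 2))) * μ.real A := by
      rw [setIntegral_const, smul_eq_mul, mul_comm]
    rw [this]
    gcongr
  calc _ ≤ (∫ x in A1, (cvx x + Q x) ∂μ) + (∫ x in A2, (cvx x + Q x) ∂μ) := add_le_add s1 s2
    _ = ∫ x in A, (cvx x + Q x) ∂μ := s3
    _ ≤ (∫ x, cvx x ∂μ) + ∫ x in A, Q x ∂μ := s4
    _ ≤ _ := by gcongr

end Run7.h119
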