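import Mathlib
import Pool.Agent.Run7.h119.Contact

open MeasureTheory Set Filter Topology
open scoped ENNReal

set_option linter.unusedSectionVars false
set_option linter.style.haveILetI false
set_option linter.unusedVariables false

namespace Run7.h119

variable {X : Type*} [MetricSpace X] [SecondCountableTopology X] [SigmaCompactSpace X]
  [MeasurableSpace X] [BorelSpace X] {μ : Measure X} [IsFiniteMeasure μ]
  {V : Type*} [NormedAddCommGroup V] [InnerProductSpace ℝ V] [CompleteSpace V]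

/-- scaled projection -/
noncomputable def zl (P : V → V) (l : ℝ) (w : V) : V := l • P (l⁻¹ • w)

/-- obstacle functional -/
noncomputable def Dl (P : V → V) (l : ℝ) (w : V) : ℝ := ‖w - zl P l w‖ ^ 2 / 2

variable {ι : V →L[ℝ] Lp ℝ 2 μ} {P : V → V}

theorem smul_mem_Obs {l c : ℝ} (hc : 0 ≤ c) {y : V} (hy : y ∈ Obs ι l) : c • y ∈ Obs ι (c * l) := by
  filter_upwards [hy, ι_smul_ae (ι := ι) c y] with x h1 h2
  rw [h2, abs_mul, abs_of_nonneg hc]
  gcongr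

theorem zl_mem (hP : IsProj (Obs ι 1) P) {l : ℝ} (hl : 0 < l) (w : V) : zl P l w ∈ Obs ι l := by
  have := smul_mem_Obs hl.le (hP.mem (l⁻¹ • w))
  rwa [mul_one] at this

theorem zl_vi (hP : IsProj (Obs ι 1) P) {l : ℝ} (hl : 0 < l) (w : V) :
    ∀ y ∈ Obs ι l, inner ℝ (w - zl P l w) (y - zl P l w) ≤ 0 := by
  intro y hy
  have h1 : l⁻¹ • y ∈ Obs ι 1 := by
    have := smul_mem_Obs (inv_nonneg.2 hl.le) hy
    rwa [inv_mul_cancel₀ hl.ne'] at this
  have h2 := hP.vi (l⁻¹ • w) _ h1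
  have e1 : w - zl P l w = l • (l⁻¹ • w - P (l⁻¹ • w)) := by
    rw [zl, smul_sub, smul_inv_smul₀ hl.ne']
  have e2 : y - zl P l w = l • (l⁻¹ • y - P (l⁻¹ • w)) := by
    rw [zl, smul_sub, smul_inv_smul₀ hl.ne']
  rw [e1, e2, inner_smul_left, inner_smul_right]
  have : 0 ≤ l * l := by positivity
  calc (starRingEnd ℝ) l * (l * inner ℝ (l⁻¹ • w - P (l⁻¹ • w)) (l⁻¹ • y - P (l⁻¹ • w)))
      = (l * l) * inner ℝ (l⁻¹ • w - P (l⁻¹ • w)) (l⁻¹ • y - P (l⁻¹ • w)) := by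
        simp only [conj_trivial]; ring
    _ ≤ 0 := mul_nonpos_of_nonneg_of_nonpos this h2

theorem Dl_le (hP : IsProj (Obs ι 1) P) {l : ℝ} (hl : 0 < l) {w y : V} (hy : y ∈ Obs ι l) :
    Dl P l w ≤ ‖w - y‖ ^ 2 / 2 := by
  have h := zl_vi hP hl w y hy
  have e : w - y = (w - zl P l w) - (y - zl P l w) := by abel
  have e2 : ‖w - y‖ ^ 2 = ‖w - zl P l w‖ ^ 2 - 2 * inner ℝ (w - zl P l w) (y - zl P l w) +
      ‖y - zl P l w‖ ^ 2 := by rw [e, norm_sub_sq_real]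
  unfold Dl
  rw [e2]
  nlinarith [sq_nonneg ‖y - zl P l w‖]

theorem Dl_nonneg {l : ℝ} {w : V} : 0 ≤ Dl P l w := by unfold Dl; positivity

theorem Dl_anti (hP : IsProj (Obs ι 1) P) {l l' : ℝ} (hl : 0 < l) (hll : l ≤ l') (w : V) :
    Dl P l' w ≤ Dl P l w := by
  have h0 : ∀ᵐ x ∂μ, |ι (zl P l w) x| ≤ l := zl_mem hP hl w
  have hm : ∀ᵐ x ∂μ, |ι (zl P l w) x| ≤ l' := by
    filter_upwards [h0] with x hx
    exact hx.trans hll
  exact Dl_le hP (lt_of_lt_of_le hl hll) hm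

theorem Dl_le_norm (hP : IsProj (Obs ι 1) P) {l : ℝ} (hl : 0 < l) (w : V) : Dl P l w ≤ ‖w‖ ^ 2 / 2 := by
  have := Dl_le hP hl (w := w) (zero_mem_Obs (ι := ι) hl.le)
  rwa [sub_zero] at this

/-- convexity of the obstacle functional for the three point average -/
theorem Dl_conv (hP : IsProj (Obs ι 1) P) {l : ℝ} (hl : 0 < l) {w₁ w₂ w₃ : V} {B : ℝ}
    (h1 : Dl P l w₁ ≤ B) (h2 : Dl P l w₂ ≤ B) (h3 : Dl P l w₃ ≤ B) :
    Dl P l ((1/4:ℝ) • w₁ + (1/2:ℝ) • w₂ + (1/4:ℝ) • w₃) ≤ B := by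
  have hB : 0 ≤ B := Dl_nonneg.trans h1
  have hmem : (1/4:ℝ) • zl P l w₁ + (1/2:ℝ) • zl P l w₂ + (1/4:ℝ) • zl P l w₃ ∈ Obs ι l := by
    filter_upwards [zl_mem hP hl w₁, zl_mem hP hl w₂, zl_mem hP hl w₃,
      ι_add_ae (ι := ι) ((1/4:ℝ) • zl P l w₁ + (1/2:ℝ) • zl P l w₂) ((1/4:ℝ) • zl P l w₃),
      ι_add_ae (ι := ι) ((1/4:ℝ) • zl P l w₁) ((1/2:ℝ) • zl P l w₂),
      ι_smul_ae (ι := ι) (1/4) (zl P l w₁), ι_smul_ae (ι := ι) (1/2) (zl P l w₂),
      ι_smul_ae (ι := ι) (1/4) (zl P l w₃)] with x x1 x2 x3 x4 x5 x6 x7 x8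
    rw [x4, x5, x6, x7, x8]
    rw [abs_le] at *
    constructor <;> linarith [x1.1, x1.2, x2.1, x2.2, x3.1, x3.2]
  refine (Dl_le hP hl hmem).trans ?_
  have e : (1/4:ℝ) • w₁ + (1/2:ℝ) • w₂ + (1/4:ℝ) • w₃ -
      ((1/4:ℝ) • zl P l w₁ + (1/2:ℝ) • zl P l w₂ + (1/4:ℝ) • zl P l w₃) =
      (1/4:ℝ) • (w₁ - zl P l w₁) + (1/2:ℝ) • (w₂ - zl P l w₂) + (1/4:ℝ) • (w₃ - zl P l w₃) := by
    simp only [smul_sub]; abel
  rw [e]
  have n : ∀ w, Dl P l w ≤ B → ‖w - zl P l w‖ ≤ Real.sqrt (2 * B) := by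
    intro w hw
    apply Real.le_sqrt_of_sq_le
    unfold Dl at hw
    linarith
  have n1 := n _ h1
  have n2 := n _ h2
  have n3 := n _ h3
  have tot : ‖(1/4:ℝ) • (w₁ - zl P l w₁) + (1/2:ℝ) • (w₂ - zl P l w₂) + (1/4:ℝ) • (w₃ - zl P l w₃)‖ ≤
      Real.sqrt (2 * B) := by
    calc _ ≤ ‖(1/4:ℝ) • (w₁ - zl P l w₁)‖ + ‖(1/2:ℝ) • (w₂ - zl P l w₂)‖ + ‖(1/4:ℝ) • (w₃ - zl P l w₃)‖ :=
          norm_add₃_le
      _ = (1/4) * ‖w₁ - zl P l w₁‖ + (1/2) * ‖w₂ - zl P l w₂‖ + (1/4) * ‖w₃ - zl P l w₃‖ := by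
          rw [norm_smul, norm_smul, norm_smul]; norm_num
      _ ≤ _ := by linarith
  have h5 : ‖(1/4:ℝ) • (w₁ - zl P l w₁) + (1/2:ℝ) • (w₂ - zl P l w₂) + (1/4:ℝ) • (w₃ - zl P l w₃)‖ ^ 2 ≤ 2 * B := by
    calc _ ≤ (Real.sqrt (2 * B)) ^ 2 := by gcongr
      _ = 2 * B := Real.sq_sqrt (by positivity)
  linarith

theorem zl_norm_le (hP : IsProj (Obs ι 1) P) {l : ℝ} (hl : 0 < l) (w : V) : ‖zl P l w‖ ≤ ‖w‖ := by
  have h := zl_vi hP hl w 0 (zero_mem_Obs (ι := ι) hl.le)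
  rw [zero_sub, inner_neg_right, inner_sub_left, real_inner_self_eq_norm_sq] at h
  have h2 := real_inner_le_norm w (zl P l w)
  by_cases h0 : ‖zl P l w‖ = 0
  · rw [h0]; exact norm_nonneg _
  · have h3 : 0 < ‖zl P l w‖ := lt_of_le_of_ne (norm_nonneg _) (Ne.symm h0)
    have h4 : ‖zl P l w‖ * ‖zl P l w‖ ≤ ‖w‖ * ‖zl P l w‖ := by nlinarith
    exact le_of_mul_le_mul_right h4 h3

theorem norm_sq_le_Dl (hP : IsProj (Obs ι 1) P) {l : ℝ} (hl : 0 < l) (w : V) :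
    ‖w‖ ^ 2 ≤ 4 * Dl P l w + 2 * inner ℝ w (zl P l w) := by
  have h := zl_vi hP hl w 0 (zero_mem_Obs (ι := ι) hl.le)
  rw [zero_sub, inner_neg_right, inner_sub_left, real_inner_self_eq_norm_sq] at h
  unfold Dl
  have e : w = (w - zl P l w) + zl P l w := by abel
  have h1 : ‖w‖ ^ 2 ≤ 2 * ‖w - zl P l w‖ ^ 2 + 2 * ‖zl P l w‖ ^ 2 := by
    have h2 : ‖w‖ ≤ ‖w - zl P l w‖ + ‖zl P l w‖ := by
      conv_lhs => rw [e]
      exact norm_add_le _ _
    have h3 : ‖w‖ ^ 2 ≤ (‖w - zl P l w‖ + ‖zl P l w‖) ^ 2 := by gcongr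
    nlinarith [sq_nonneg (‖w - zl P l w‖ - ‖zl P l w‖)]
  linarith

/-- derivative of the obstacle functional along a moving level -/
theorem hasDerivAt_Dl (hP : IsProj (Obs ι 1) P) {lam : ℝ → ℝ} {W : ℝ → V} {κ : ℝ} {W' : V} {t : ℝ}
    (hl : 0 < lam t) (hlam : HasDerivAt lam (-κ) t) (hW : HasDerivAt W W' t) :
    HasDerivAt (fun t => Dl P (lam t) (W t))
      (inner ℝ (W t - zl P (lam t) (W t)) (W' + (κ / lam t) • zl P (lam t) (W t))) t := by
  have ev : (fun t => Dl P (lam t) (W t)) =ᶠ[𝓝 t] fun t => lam t ^ 2 *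
      (‖(lam t)⁻¹ • W t - P ((lam t)⁻¹ • W t)‖ ^ 2 / 2) := by
    have : ∀ᶠ s in 𝓝 t, 0 < lam s := hlam.continuousAt.eventually (lt_mem_nhds hl)
    filter_upwards [this] with s hs
    unfold Dl zl
    have e : W s - lam s • P ((lam s)⁻¹ • W s) = lam s • ((lam s)⁻¹ • W s - P ((lam s)⁻¹ • W s)) := by
      rw [smul_sub, smul_inv_smul₀ hs.ne']
    rw [e, norm_smul, Real.norm_of_nonneg hs.le]
    ring
  have d1 : HasDerivAt (fun t => (lam t)⁻¹ • W t) ((lam t)⁻¹ • W' + (-(-κ) / lam t ^ 2) • W t) t :=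
    (hlam.inv hl.ne').smul hW
  have d2 := (hP.hasFDerivAt ((lam t)⁻¹ • W t)).comp_hasDerivAt t d1
  have d3 := (hlam.pow 2).mul d2
  refine (d3.congr_of_eventuallyEq ev).congr_deriv ?_
  set x₁ := (lam t)⁻¹ • W t - P ((lam t)⁻¹ • W t) with hx1
  have e1 : W t - zl P (lam t) (W t) = lam t • x₁ := by
    rw [hx1, zl, smul_sub, smul_inv_smul₀ hl.ne']
  have e2 : zl P (lam t) (W t) = W t - lam t • x₁ := by rw [← e1]; abel
  rw [e1, e2]
  simp only [innerSL_apply_apply, Function.comp_apply, inner_add_right, inner_smul_right, inner_smul_left,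
    inner_sub_right, real_inner_self_eq_norm_sq, conj_trivial, Pi.pow_apply]
  rw [← hx1]
  field_simp
  ring


/-- Bochner form of the local oscillation of the force -/
noncomputable def Osc (μ : Measure X) (q h : ℝ) (f : ℝ × X → ℝ) (t : ℝ) : ℝ≥0∞ :=
  ∫⁻ x, ∫⁻ s, ∫⁻ s', ‖f (t + s, x) - f (t + s', x)‖ₑ ^ q ∂(Pm h) ∂(Pm h) ∂μ

theorem measurable_Osc {q h : ℝ} (hh : 0 < h) {f : ℝ × X → ℝ} (hf : StronglyMeasurable f) :
    Measurable (Osc μ q h f) := by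
  haveI := isProb_Pm hh
  have m0 : Measurable (fun y : ((ℝ × X) × ℝ) × ℝ => ‖f (y.1.1.1 + y.1.2, y.1.1.2) -
      f (y.1.1.1 + y.2, y.1.1.2)‖ₑ ^ q) := by
    have n1 : Measurable (fun y : ((ℝ × X) × ℝ) × ℝ => f (y.1.1.1 + y.1.2, y.1.1.2)) :=
      hf.measurable.comp (by fun_prop)
    have n2 : Measurable (fun y : ((ℝ × X) × ℝ) × ℝ => f (y.1.1.1 + y.2, y.1.1.2)) :=
      hf.measurable.comp (by fun_prop)
    exact (n1.sub n2).enorm.pow_const q
  have m1 := m0.lintegral_prod_right' (ν := Pm h)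
  have m2 := m1.lintegral_prod_right' (ν := Pm h)
  exact m2.lintegral_prod_right' (ν := μ)

theorem integral_cv_le {a p q : ℝ} (ha : 0 < a) (hp : 2 < p) (hpq : p.HolderConjugate q)
    (ι : V →L[ℝ] Lp ℝ 2 μ) :
    ∃ C : ℝ, 0 < C ∧ ∀ (b M : ℝ) (u : ℝ → V) (v : ℝ → Lp ℝ 2 μ) (vf f : ℝ × X → ℝ),
      Sol ι a p q b M u v vf f → ∀ h r : ℝ, 0 < h →
      Osc μ q h f r < ∞ ∧
      (∫ x, cv (Pm h) (fun s => f (r + s, x) - gfun a p (vf (r + s, x))) (fun s => vf (r + s, x)) ∂μ) ≤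
        - (1 / 2) * (∫ x, cv (Pm h) (fun s => gfun a p (vf (r + s, x))) (fun s => vf (r + s, x)) ∂μ) +
        C * (Osc μ q h f r).toReal := by
  obtain ⟨C, hC, K⟩ := cv_le ha hp hpq
  refine ⟨C, hC, fun b M u v vf f H h r hh => ?_⟩
  haveI := isProb_Pm hh
  have hq1 := hpq.symm.lt.le
  have hp1 := hpq.lt.le
  have L := H.lin
  have fq := H.f_memq
  have mgm : StronglyMeasurable (fun y => gfun a p (vf y)) :=
    (measurable_gfun.comp L.zf_meas.measurable).stronglyMeasurable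
  have mg := memLp_gfun ha hp hpq L.zf_mem
  have sl1 := ae_memLp_slice (P := Pm h) ENNReal.ofReal_ne_top (Pm_le hh) hp1 L.zf_meas L.zf_mem r
  have sl2 := ae_memLp_slice (P := Pm h) ENNReal.ofReal_ne_top (Pm_le hh) hq1 H.f_meas fq r
  have icv : ∀ {B : ℝ × X → ℝ}, StronglyMeasurable B → MemLp B (ENNReal.ofReal q) (volume.prod μ) →
      Integrable (fun x => cv (Pm h) (fun s => B (r + s, x)) (fun s => vf (r + s, x))) μ := by
    intro B hB hBm
    have n1 := memLp_slice (P := Pm h) ENNReal.ofReal_ne_top (Pm_le hh) hq1 hB hBm r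
    have n2 := memLp_slice (P := Pm h) ENNReal.ofReal_ne_top (Pm_le hh) hp1 L.zf_meas L.zf_mem r
    have i1 : Integrable (fun y : ℝ × X => B (r + y.1, y.2) * vf (r + y.1, y.2)) ((Pm h).prod μ) :=
      integrable_mul_of_memLp hpq.symm n1 n2
    have i2 : Integrable (fun x => avg (Pm h) B (r, x) * avg (Pm h) vf (r, x)) μ :=
      integrable_mul_of_memLp hpq.symm
        (memLp_avg_slice ENNReal.ofReal_ne_top (Pm_le hh) hq1 hB hBm r)
        (memLp_avg_slice ENNReal.ofReal_ne_top (Pm_le hh) hp1 L.zf_meas L.zf_mem r)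
    exact i1.integral_prod_right.sub i2
  -- the oscillation as a real integral
  set F : (X × ℝ) × ℝ → ℝ := fun y => f (r + y.1.2, y.1.1) - f (r + y.2, y.1.1) with hF
  have mf2 := memLp_slice (P := Pm h) ENNReal.ofReal_ne_top (Pm_le hh) hq1 H.f_meas fq r
  have mF1 : MemLp (fun y : (X × ℝ) × ℝ => f (r + y.1.2, y.1.1)) (ENNReal.ofReal q) ((μ.prod (Pm h)).prod (Pm h)) := by
    have t1 : MemLp (fun y : X × ℝ => f (r + y.2, y.1)) (ENNReal.ofReal q) (μ.prod (Pm h)) :=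
      mf2.comp_measurePreserving Measure.measurePreserving_swap
    exact t1.comp_fst (Pm h)
  have mF2 : MemLp (fun y : (X × ℝ) × ℝ => f (r + y.2, y.1.1)) (ENNReal.ofReal q) ((μ.prod (Pm h)).prod (Pm h)) := by
    refine memLp_of_lintegral hq1 (H.f_meas.comp_measurable (by fun_prop)).aestronglyMeasurable ?_
    have mm : Measurable (fun y : (X × ℝ) × ℝ => ‖f (r + y.2, y.1.1)‖ₑ ^ q) :=
      (H.f_meas.measurable.comp (by fun_prop)).enorm.pow_const q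
    rw [lintegral_prod _ mm.aemeasurable]
    have mm1 : Measurable (fun y : X × ℝ => ∫⁻ s, ‖f (r + s, y.1)‖ₑ ^ q ∂(Pm h)) := mm.lintegral_prod_right'
    rw [lintegral_prod _ mm1.aemeasurable]
    simp only [lintegral_const, measure_univ, mul_one]
    have := lintegral_rpow_lt_top hq1 mf2
    have mm3 : Measurable (fun z : ℝ × X => ‖f (r + z.1, z.2)‖ₑ ^ q) :=
      (H.f_meas.measurable.comp (by fun_prop)).enorm.pow_const q
    rw [lintegral_prod_symm _ mm3.aemeasurable] at this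
    exact this
  have mF : MemLp F (ENNReal.ofReal q) ((μ.prod (Pm h)).prod (Pm h)) := mF1.sub mF2
  have iF := integrable_rpow_of_memLp hq1 mF
  have i1 : Integrable (fun y : X × ℝ => ∫ s', |F (y, s')| ^ q ∂(Pm h)) (μ.prod (Pm h)) := iF.integral_prod_left
  have i2 : Integrable (fun x : X => ∫ s, ∫ s', |F ((x, s), s')| ^ q ∂(Pm h) ∂(Pm h)) μ := i1.integral_prod_left
  have mOsc : Osc μ q h f r = ∫⁻ y, ‖F y‖ₑ ^ q ∂((μ.prod (Pm h)).prod (Pm h)) := by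
    have mm : Measurable (fun y : (X × ℝ) × ℝ => ‖F y‖ₑ ^ q) := by
      have n1 : Measurable (fun y : (X × ℝ) × ℝ => f (r + y.1.2, y.1.1)) := H.f_meas.measurable.comp (by fun_prop)
      have n2 : Measurable (fun y : (X × ℝ) × ℝ => f (r + y.2, y.1.1)) := H.f_meas.measurable.comp (by fun_prop)
      exact (n1.sub n2).enorm.pow_const q
    rw [lintegral_prod _ mm.aemeasurable, lintegral_prod _ mm.lintegral_prod_right'.aemeasurable]
    rfl
  have hlt : Osc μ q h f r < ∞ := by rw [mOsc]; exact lintegral_rpow_lt_top hq1 mF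
  have hval : ∫ x, ∫ s, ∫ s', |F ((x, s), s')| ^ q ∂(Pm h) ∂(Pm h) ∂μ = (Osc μ q h f r).toReal := by
    have e1 : ∫ x, ∫ s, ∫ s', |F ((x, s), s')| ^ q ∂(Pm h) ∂(Pm h) ∂μ =
        ∫ y, |F y| ^ q ∂((μ.prod (Pm h)).prod (Pm h)) := by
      rw [integral_prod _ iF, integral_prod _ i1]
    rw [e1, mOsc, ← integral_toReal]
    · apply integral_congr_ae
      filter_upwards with y
      rw [← ofReal_norm, Real.norm_eq_abs, ENNReal.ofReal_rpow_of_nonneg (abs_nonneg _) (by linarith),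
        ENNReal.toReal_ofReal (by positivity)]
    · exact (mF.1.enorm.pow_const q)
    · filter_upwards with y
      exact ENNReal.rpow_lt_top_of_nonneg (by linarith) enorm_ne_top
  refine ⟨hlt, ?_⟩
  rw [← hval, ← integral_const_mul, ← integral_const_mul, ← integral_add ((icv mgm mg).const_mul _) (i2.const_mul _)]
  refine integral_mono_ae (icv (H.f_meas.sub mgm) (fq.sub mg)) (((icv mgm mg).const_mul _).add (i2.const_mul _)) ?_
  filter_upwards [sl1, sl2] with x x1 x2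
  have hg := memLp_gfun ha hp hpq x1
  have k := K (Pm h) (fun s => f (r + s, x)) (fun s => vf (r + s, x)) x2 x1
  have e : cv (Pm h) (fun s => f (r + s, x) - gfun a p (vf (r + s, x))) (fun s => vf (r + s, x)) =
      cv (Pm h) (fun s => f (r + s, x)) (fun s => vf (r + s, x)) -
      cv (Pm h) (fun s => gfun a p (vf (r + s, x))) (fun s => vf (r + s, x)) := by
    unfold cv
    have j1 := integrable_mul_of_memLp hpq.symm x2 x1
    have j2 := integrable_mul_of_memLp hpq.symm hg x1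
    simp only [sub_mul]
    rw [integral_sub j1 j2, integral_sub (integrable_of_memLp_ofReal hq1 x2) (integrable_of_memLp_ofReal hq1 hg)]
    ring
  rw [e]
  have k' : cv (Pm h) (fun s => f (r + s, x)) (fun s => vf (r + s, x)) ≤
      1 / 2 * cv (Pm h) (fun s => gfun a p (vf (r + s, x))) (fun s => vf (r + s, x)) +
      C * ∫ s, ∫ s', |F ((x, s), s')| ^ q ∂(Pm h) ∂(Pm h) := k
  linarith

end Run7.h119
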