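import Mathlib
import Pool.Agent.Run7.h119.Block

open MeasureTheory Set Filter Topology
open scoped ENNReal

set_option linter.unusedSectionVars false
set_option linter.style.haveILetI false
set_option linter.unusedVariables false

namespace Run7.h119

variable {X : Type*} [MetricSpace X] [SecondCountableTopology X] [SigmaCompactSpace X]
  [MeasurableSpace X] [BorelSpace X] {μ : Measure X} [IsFiniteMeasure μ]
  {V : Type*} [NormedAddCommGroup V] [InnerProductSpace ℝ V] [CompleteSpace V]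

/-- modulus of continuity in time of the force -/
def TimeMod (μ : Measure X) (q θ L b : ℝ) (f : ℝ × X → ℝ) : Prop :=
  ∀ σ t1 t2 : ℝ, 0 ≤ σ → σ ≤ 1 → 0 ≤ t1 → t1 ≤ t2 → t2 + σ ≤ b →
    ∫⁻ t in Ioc t1 t2, ∫⁻ x, ‖f (t + σ, x) - f (t, x)‖ₑ ^ q ∂μ ≤
      ENNReal.ofReal (L * σ ^ θ * (t2 - t1 + 1))

theorem int_Osc_le {q θ L b : ℝ} (hθ : 0 < θ) (hL : 0 ≤ L) {f : ℝ × X → ℝ} (hf : StronglyMeasurable f)
    (hmod : TimeMod μ q θ L b f) {h t1 t2 : ℝ} (hh : 0 < h) (hh1 : 2 * h ≤ 1) (ht1 : 0 ≤ t1)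
    (ht : t1 ≤ t2) (htb : t2 + 2 * h ≤ b) :
    ∫⁻ t in Ioc t1 t2, Osc μ q h f t ≤ ENNReal.ofReal (L * (2 * h) ^ θ * (t2 - t1 + 1)) := by
  haveI := isProb_Pm hh
  -- the four variable function
  have m0 : Measurable (fun y : ((ℝ × X) × ℝ) × ℝ => ‖f (y.1.1.1 + y.1.2, y.1.1.2) -
      f (y.1.1.1 + y.2, y.1.1.2)‖ₑ ^ q) := by
    have n1 : Measurable (fun y : ((ℝ × X) × ℝ) × ℝ => f (y.1.1.1 + y.1.2, y.1.1.2)) :=
      hf.measurable.comp (by fun_prop)
    have n2 : Measurable (fun y : ((ℝ × X) × ℝ) × ℝ => f (y.1.1.1 + y.2, y.1.1.2)) :=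
      hf.measurable.comp (by fun_prop)
    exact (n1.sub n2).enorm.pow_const q
  have m1 : Measurable (fun y : (ℝ × X) × ℝ => ∫⁻ s', ‖f (y.1.1 + y.2, y.1.2) - f (y.1.1 + s', y.1.2)‖ₑ ^ q ∂(Pm h)) :=
    m0.lintegral_prod_right'
  -- pointwise in (s,s')
  have key : ∀ s ∈ Ioc 0 (2 * h), ∀ s' ∈ Ioc 0 (2 * h),
      ∫⁻ t in Ioc t1 t2, ∫⁻ x, ‖f (t + s, x) - f (t + s', x)‖ₑ ^ q ∂μ ≤
        ENNReal.ofReal (L * (2 * h) ^ θ * (t2 - t1 + 1)) := by
    have main : ∀ s ∈ Ioc 0 (2 * h), ∀ s' ∈ Ioc 0 (2 * h), s' ≤ s →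
      ∫⁻ t in Ioc t1 t2, ∫⁻ x, ‖f (t + s, x) - f (t + s', x)‖ₑ ^ q ∂μ ≤
        ENNReal.ofReal (L * (2 * h) ^ θ * (t2 - t1 + 1)) := by
      intro s hs s' hs' hss
      have e1 : ∫⁻ t in Ioc t1 t2, ∫⁻ x, ‖f (t + s, x) - f (t + s', x)‖ₑ ^ q ∂μ =
          ∫⁻ t in Ioc (t1 + s') (t2 + s'), ∫⁻ x, ‖f (t + (s - s'), x) - f (t, x)‖ₑ ^ q ∂μ := by
        rw [← lintegral_indicator measurableSet_Ioc, ← lintegral_indicator measurableSet_Ioc,
          ← lintegral_add_right_eq_self ((Ioc (t1 + s') (t2 + s')).indicator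
            (fun t => ∫⁻ x, ‖f (t + (s - s'), x) - f (t, x)‖ₑ ^ q ∂μ)) s']
        apply lintegral_congr
        intro t
        by_cases hc : t ∈ Ioc t1 t2
        · rw [indicator_of_mem hc, indicator_of_mem (show t + s' ∈ Ioc (t1 + s') (t2 + s') from
            ⟨by linarith [hc.1], by linarith [hc.2]⟩)]
          have : t + s' + (s - s') = t + s := by ring
          rw [this]
        · rw [indicator_of_notMem hc, indicator_of_notMem]
          intro hd
          exact hc ⟨by linarith [hd.1], by linarith [hd.2]⟩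
      rw [e1]
      refine (hmod (s - s') (t1 + s') (t2 + s') (by linarith) (by linarith [hs.2, hs'.1])
        (by linarith [hs'.1]) (by linarith) (by linarith [hs.2])).trans ?_
      apply ENNReal.ofReal_le_ofReal
      have e2 : t2 + s' - (t1 + s') + 1 = t2 - t1 + 1 := by ring
      rw [e2]
      have h3 : (s - s') ^ θ ≤ (2 * h) ^ θ :=
        Real.rpow_le_rpow (by linarith) (by linarith [hs.2, hs'.1]) hθ.le
      have h4 : 0 ≤ t2 - t1 + 1 := by linarith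
      gcongr
    intro s hs s' hs'
    rcases le_total s' s with hss | hss
    · exact main s hs s' hs' hss
    · have := main s' hs' s hs hss
      refine le_trans (le_of_eq ?_) this
      apply lintegral_congr
      intro t
      apply lintegral_congr
      intro x
      rw [← enorm_neg]; congr 2; ring
  calc ∫⁻ t in Ioc t1 t2, Osc μ q h f t
      = ∫⁻ t in Ioc t1 t2, ∫⁻ s, ∫⁻ x, ∫⁻ s', ‖f (t + s, x) - f (t + s', x)‖ₑ ^ q ∂(Pm h) ∂μ ∂(Pm h) := by
        apply lintegral_congr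
        intro t
        unfold Osc
        refine lintegral_lintegral_swap ?_
        exact (m1.comp (by fun_prop : Measurable (fun y : X × ℝ => ((t, y.1), y.2)))).aemeasurable
    _ = ∫⁻ s, (∫⁻ t in Ioc t1 t2, ∫⁻ x, ∫⁻ s', ‖f (t + s, x) - f (t + s', x)‖ₑ ^ q ∂(Pm h) ∂μ) ∂(Pm h) := by
        refine lintegral_lintegral_swap ?_
        have : Measurable (fun y : (ℝ × ℝ) × X => ∫⁻ s', ‖f (y.1.1 + y.1.2, y.2) - f (y.1.1 + s', y.2)‖ₑ ^ q ∂(Pm h)) :=
          m1.comp (by fun_prop : Measurable (fun y : (ℝ × ℝ) × X => ((y.1.1, y.2), y.1.2)))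
        exact this.lintegral_prod_right'.aemeasurable
    _ = ∫⁻ s, (∫⁻ s', (∫⁻ t in Ioc t1 t2, ∫⁻ x, ‖f (t + s, x) - f (t + s', x)‖ₑ ^ q ∂μ) ∂(Pm h)) ∂(Pm h) := by
        apply lintegral_congr
        intro s
        have e1 : ∫⁻ t in Ioc t1 t2, ∫⁻ x, ∫⁻ s', ‖f (t + s, x) - f (t + s', x)‖ₑ ^ q ∂(Pm h) ∂μ =
            ∫⁻ t in Ioc t1 t2, ∫⁻ s', ∫⁻ x, ‖f (t + s, x) - f (t + s', x)‖ₑ ^ q ∂μ ∂(Pm h) := by
          apply lintegral_congr
          intro t
          refine lintegral_lintegral_swap ?_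
          exact (m0.comp (by fun_prop : Measurable (fun y : X × ℝ => (((t, y.1), s), y.2)))).aemeasurable
        rw [e1]
        refine lintegral_lintegral_swap ?_
        have : Measurable (fun y : (ℝ × ℝ) × X => ‖f (y.1.1 + s, y.2) - f (y.1.1 + y.1.2, y.2)‖ₑ ^ q) :=
          m0.comp (by fun_prop : Measurable (fun y : (ℝ × ℝ) × X => (((y.1.1, y.2), s), y.1.2)))
        exact this.lintegral_prod_right'.aemeasurable
    _ ≤ ∫⁻ s, ∫⁻ s', ENNReal.ofReal (L * (2 * h) ^ θ * (t2 - t1 + 1)) ∂(Pm h) ∂(Pm h) := by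
        apply lintegral_mono_ae
        filter_upwards [ae_Pm_mem hh] with s hs
        apply lintegral_mono_ae
        filter_upwards [ae_Pm_mem hh] with s' hs'
        exact key s hs s' hs'
    _ = _ := by simp

theorem norm_A_le {G : Type*} [NormedAddCommGroup G] [NormedSpace ℝ G] [CompleteSpace G] {h : ℝ}
    (hh : 0 < h) {F : ℝ → G} {r C : ℝ} (hC : ∀ s ∈ Icc r (r + 2 * h), ‖F s‖ ≤ C) :
    ‖S h (S h F) r‖ ≤ C :=
  norm_S_le hh fun s hs => norm_S_le hh fun s' hs' => hC s' ⟨by linarith [hs.1, hs'.1], by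
    linarith [hs.2, hs'.2]⟩

theorem block (ι : V →L[ℝ] Lp ℝ 2 μ) {ρ Sob : ℝ} (F : Form ι ρ Sob) (hρ : 0 < ρ) (hSob : 0 ≤ Sob)
    {P : V → V} (hP : IsProj (Obs ι 1) P) {a p q θ L : ℝ} (ha : 0 < a) (hp : 2 < p)
    (hpq : p.HolderConjugate q) (hθ : 0 < θ) (hL : 0 ≤ L) :
    ∃ C : ℝ, 0 < C ∧ ∀ (b M K : ℝ) (u : ℝ → V) (v : ℝ → Lp ℝ 2 μ) (vf f : ℝ × X → ℝ),
      Sol ι a p q b M u v vf f → TimeMod μ q θ L b f → ∀ h t1 t2 l κ : ℝ, 0 < h → 2 * h ≤ 1 →
      0 ≤ t1 → t1 ≤ t2 → t2 + 2 * h < b → (∀ t ∈ Icc 0 (t2 + 2 * h), ‖u t‖ ^ 2 ≤ K) → 0 < l → 0 ≤ κ →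
      Dl P l (S h (S h u) t2) + 2 * LinSol.flu h u v t2 ≤
        Dl P (l + κ * (t2 - t1)) (S h (S h u) t1) + 2 * LinSol.flu h u v t1 +
        C * ((t2 - t1) * (M ^ q * (Sob * (Real.sqrt K / l) ^ ρ) ^ (1 - q / 2) +
          (κ ^ p + h⁻¹ ^ (p / (p - 2))) * (Sob * (Real.sqrt K / l) ^ ρ)) +
          L * (2 * h) ^ θ * (t2 - t1 + 1)) := by
  obtain ⟨C1, hC1, K1⟩ := contact_int ι F ha hp hpq
  obtain ⟨C2, hC2, K2⟩ := integral_cv_le ha hp hpq ι
  refine ⟨C1 + 2 * C2, by positivity, fun b M K u v vf f H hmod h t1 t2 l κ hh hh1 ht1 ht htb hK hl hκ => ?_⟩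
  have Ln := H.lin
  have hM := H.hM
  have hq1 := hpq.symm.lt.le
  have hq2 := conj_lt_two hp hpq
  have hpp : 0 < p / (p - 2) := div_pos (by linarith) (by linarith)
  set m := Sob * (Real.sqrt K / l) ^ ρ with hm
  have hm0 : 0 ≤ m := by positivity
  set lam : ℝ → ℝ := fun t => l + κ * (t2 - t) with hlam
  have hlampos : ∀ t, t ≤ t2 → l ≤ lam t := by
    intro t ht'
    have : 0 ≤ κ * (t2 - t) := mul_nonneg hκ (by linarith)
    simp only [hlam]; linarith
  have hlamd : ∀ t, HasDerivAt lam (-κ) t := by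
    intro t
    have := (((hasDerivAt_id t).const_sub t2).const_mul κ).const_add l
    refine this.congr_deriv ?_
    ring
  set I0 := M ^ q * m ^ (1 - q / 2) + (κ ^ p + h⁻¹ ^ (p / (p - 2))) * m with hI0
  have hI00 : 0 ≤ I0 := by positivity
  set g : ℝ → ℝ := fun t => Dl P (lam t) (S h (S h u) t) + 2 * LinSol.flu h u v t with hg
  set cvx : ℝ → ℝ := fun r => ∫ x, cv (Pm h) (fun s => f (r + s, x) - gfun a p (vf (r + s, x))) (fun s => vf (r + s, x)) ∂μ
  set g' : ℝ → ℝ := fun t => inner ℝ (S h (S h u) t - zl P (lam t) (S h (S h u) t))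
    (h⁻¹ • (S h u (t + h) - S h u t) + (κ / lam t) • zl P (lam t) (S h (S h u) t)) + 2 * cvx t with hg'
  have hder : ∀ t, 0 ≤ t → t ≤ t2 → HasDerivAt g (g' t) t := by
    intro t h0 h2
    have d1 := hasDerivAt_Dl (lam := lam) (W := fun t => S h (S h u) t) hP
      (lt_of_lt_of_le hl (hlampos t h2)) (hlamd t)
      (hasDerivAt_S h (continuous_S h Ln.w_cont) t)
    have d2 := (Ln.hasDerivAt_flu hh h0 (by linarith)).const_mul 2
    exact d1.add d2
  have hbound : ∀ t, 0 ≤ t → t ≤ t2 → g' t ≤ C1 * I0 + 2 * C2 * (Osc μ q h f t).toReal := by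
    intro t h0 h2
    have hlt := lt_of_lt_of_le hl (hlampos t h2)
    have k1 := K1 b M u v vf f H h t (lam t) κ hh h0 (by linarith) hlt hκ
      (zl P (lam t) (S h (S h u) t)) (zl_mem hP hlt _) (zl_vi hP hlt _)
    obtain ⟨-, k2⟩ := K2 b M u v vf f H h t hh
    have hnorm : ‖zl P (lam t) (S h (S h u) t)‖ ≤ Real.sqrt K := by
      refine (zl_norm_le hP hlt _).trans (norm_A_le hh fun s hs => ?_)
      exact Real.le_sqrt_of_sq_le (hK s ⟨by linarith [hs.1], by linarith [hs.2]⟩)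
    have hmeas : μ.real {x | lam t ≤ |ι (zl P (lam t) (S h (S h u) t)) x|} ≤ m := by
      refine (F.sob _ _ hlt).trans ?_
      rw [hm]
      have : ‖zl P (lam t) (S h (S h u) t)‖ / lam t ≤ Real.sqrt K / l :=
        div_le_div₀ (Real.sqrt_nonneg _) hnorm hl (hlampos t h2)
      gcongr
    have hI : M ^ q * (μ.real {x | lam t ≤ |ι (zl P (lam t) (S h (S h u) t)) x|}) ^ (1 - q / 2) +
        (κ ^ p + h⁻¹ ^ (p / (p - 2))) * μ.real {x | lam t ≤ |ι (zl P (lam t) (S h (S h u) t)) x|} ≤ I0 := by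
      rw [hI0]
      have h5 : 0 ≤ 1 - q / 2 := by linarith
      gcongr
    have k3 : C1 * (M ^ q * (μ.real {x | lam t ≤ |ι (zl P (lam t) (S h (S h u) t)) x|}) ^ (1 - q / 2) +
        (κ ^ p + h⁻¹ ^ (p / (p - 2))) * μ.real {x | lam t ≤ |ι (zl P (lam t) (S h (S h u) t)) x|}) ≤ C1 * I0 := by
      gcongr
    simp only [hg', cvx]
    linarith
  have hOm : Measurable (Osc μ q h f) := measurable_Osc hh H.f_meas
  have hOint := int_Osc_le hθ hL H.f_meas hmod hh hh1 ht1 ht htb.le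
  have hOi : IntegrableOn (fun t => (Osc μ q h f t).toReal) (Ioc t1 t2) := by
    apply integrable_toReal_of_lintegral_ne_top hOm.aemeasurable
    exact (hOint.trans_lt ENNReal.ofReal_lt_top).ne
  have hφ : IntegrableOn (fun t => C1 * I0 + 2 * C2 * (Osc μ q h f t).toReal) (Icc t1 t2) := by
    rw [integrableOn_Icc_iff_integrableOn_Ioc]
    exact (integrable_const _).add (hOi.const_mul _)
  have hfin := intervalIntegral.sub_le_integral_of_hasDeriv_right_of_le (g := g) (g' := g') ht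
    (fun t ht' => (hder t (ht1.trans ht'.1) ht'.2).continuousAt.continuousWithinAt)
    (fun t ht' => (hder t (ht1.trans ht'.1.le) ht'.2.le).hasDerivWithinAt) hφ
    (fun t ht' => hbound t (ht1.trans ht'.1.le) ht'.2.le)
  have hval : ∫ t in t1..t2, (C1 * I0 + 2 * C2 * (Osc μ q h f t).toReal) ≤
      (t2 - t1) * (C1 * I0) + 2 * C2 * (L * (2 * h) ^ θ * (t2 - t1 + 1)) := by
    have h4 : 0 ≤ t2 - t1 + 1 := by linarith
    rw [intervalIntegral.integral_of_le ht, integral_add (integrable_const _) (hOi.const_mul _),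
      integral_const_mul (2 * C2), setIntegral_const]
    have e1 : volume.real (Ioc t1 t2) = t2 - t1 := by
      rw [measureReal_def, Real.volume_Ioc, ENNReal.toReal_ofReal (by linarith)]
    have e2 : ∫ t in Ioc t1 t2, (Osc μ q h f t).toReal ≤ L * (2 * h) ^ θ * (t2 - t1 + 1) := by
      rw [integral_toReal hOm.aemeasurable]
      · refine ENNReal.toReal_le_of_le_ofReal (by positivity) hOint
      · exact ae_lt_top hOm (hOint.trans_lt ENNReal.ofReal_lt_top).ne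
    rw [e1, smul_eq_mul]
    have : 2 * C2 * ∫ t in Ioc t1 t2, (Osc μ q h f t).toReal ≤ 2 * C2 * (L * (2 * h) ^ θ * (t2 - t1 + 1)) :=
      mul_le_mul_of_nonneg_left e2 (by positivity)
    linarith
  have e0 : lam t2 = l := by simp [hlam]
  have e1 : lam t1 = l + κ * (t2 - t1) := rfl
  simp only [hg] at hfin
  rw [e0, e1] at hfin
  have h6 : 0 ≤ (t2 - t1) * I0 := mul_nonneg (by linarith) hI00
  have h7 : 0 ≤ L * (2 * h) ^ θ * (t2 - t1 + 1) := by
    have : 0 ≤ t2 - t1 + 1 := by linarith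
    positivity
  nlinarith [mul_nonneg hC2.le h6, mul_nonneg hC1.le h7]

end Run7.h119
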