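import Mathlib
import Pool.Agent.Run7.h119.Contact

open MeasureTheory Set Filter Topology
open scoped ENNReal

set_option linter.unusedSectionVars false
set_option linter.style.haveILetI false
set_option linter.unusedVariables false

namespace Run7.h119

variable {X : Type*} [MeasurableSpace X] {μ : Measure X} [IsFiniteMeasure μ]

/-- space-time integral over `(s,t] × X` -/
noncomputable def I2 (μ : Measure X) (s t : ℝ) (F : ℝ × X → ℝ) : ℝ := ∫ r in s..t, ∫ x, F (r, x) ∂μ

variable {F G : ℝ × X → ℝ} {s t : ℝ}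

theorem integrable_time (hF : Integrable F (volume.prod μ)) :
    Integrable (fun r => ∫ x, F (r, x) ∂μ) := hF.integral_prod_left

theorem I2_add (hF : Integrable F (volume.prod μ)) (hG : Integrable G (volume.prod μ)) :
    I2 μ s t (fun y => F y + G y) = I2 μ s t F + I2 μ s t G := by
  unfold I2
  rw [← intervalIntegral.integral_add (integrable_time hF).intervalIntegrable
    (integrable_time hG).intervalIntegrable]
  apply intervalIntegral.integral_congr_ae
  filter_upwards [hF.prod_right_ae, hG.prod_right_ae] with r h1 h2 _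
  exact integral_add h1 h2

theorem I2_const_mul (c : ℝ) : I2 μ s t (fun y => c * F y) = c * I2 μ s t F := by
  unfold I2
  rw [← intervalIntegral.integral_const_mul]
  apply intervalIntegral.integral_congr
  intro r _
  exact integral_const_mul _ _

theorem I2_mono (hst : s ≤ t) (hF : Integrable F (volume.prod μ)) (hG : Integrable G (volume.prod μ))
    (h : ∀ y, F y ≤ G y) : I2 μ s t F ≤ I2 μ s t G := by
  unfold I2
  apply intervalIntegral.integral_mono_ae_restrict hst (integrable_time hF).intervalIntegrable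
    (integrable_time hG).intervalIntegrable
  apply ae_restrict_of_ae
  filter_upwards [hF.prod_right_ae, hG.prod_right_ae] with r h1 h2
  exact integral_mono h1 h2 fun x => h _

theorem I2_nonneg (hst : s ≤ t) (h : ∀ y, 0 ≤ F y) : 0 ≤ I2 μ s t F :=
  intervalIntegral.integral_nonneg hst fun r _ => integral_nonneg fun x => h _

theorem I2_mono_set {s' t' : ℝ} (hF : Integrable F (volume.prod μ)) (h : ∀ y, 0 ≤ F y)
    (h1 : s' ≤ s) (h2 : s ≤ t) (h3 : t ≤ t') : I2 μ s t F ≤ I2 μ s' t' F := by
  unfold I2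
  exact intervalIntegral.integral_mono_interval h1 h2 h3
    (Eventually.of_forall fun r => integral_nonneg fun x => h _) (integrable_time hF).intervalIntegrable

theorem I2_shift (σ : ℝ) : I2 μ s t (fun y => F (y.1 + σ, y.2)) = I2 μ (s + σ) (t + σ) F := by
  unfold I2
  exact intervalIntegral.integral_comp_add_right (fun r => ∫ x, F (r, x) ∂μ) σ

theorem integrable_shift (hF : Integrable F (volume.prod μ)) (σ : ℝ) :
    Integrable (fun y : ℝ × X => F (y.1 + σ, y.2)) (volume.prod μ) := by
  have : MeasurePreserving (fun q : ℝ × X => (q.1 + σ, q.2)) (volume.prod μ) (volume.prod μ) :=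
    (measurePreserving_add_right (volume : Measure ℝ) σ).prod (MeasurePreserving.id μ)
  exact this.integrable_comp_of_integrable hF

theorem memLp_shift {p : ℝ≥0∞} (hF : MemLp F p (volume.prod μ)) (σ : ℝ) :
    MemLp (fun y : ℝ × X => F (y.1 + σ, y.2)) p (volume.prod μ) := by
  have : MeasurePreserving (fun q : ℝ × X => (q.1 + σ, q.2)) (volume.prod μ) (volume.prod μ) :=
    (measurePreserving_add_right (volume : Measure ℝ) σ).prod (MeasurePreserving.id μ)
  exact hF.comp_measurePreserving this

theorem ofReal_I2 (hst : s ≤ t) (hF : Integrable F (volume.prod μ)) (h : ∀ y, 0 ≤ F y) :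
    ENNReal.ofReal (I2 μ s t F) = ∫⁻ r in Ioc s t, ∫⁻ x, ENNReal.ofReal (F (r, x)) ∂μ := by
  unfold I2
  rw [intervalIntegral.integral_of_le hst,
    ofReal_integral_eq_lintegral_ofReal (integrable_time hF).integrableOn
      (Eventually.of_forall fun r => integral_nonneg fun x => h _)]
  apply setLIntegral_congr_fun_ae measurableSet_Ioc
  filter_upwards [hF.prod_right_ae] with r h1 _
  rw [ofReal_integral_eq_lintegral_ofReal h1 (Eventually.of_forall fun x => h _)]

/-- averaging in time does not increase the p-th power integral, up to enlarging the interval -/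
theorem I2_avg_le {p : ℝ} (hp : 1 ≤ p) {ψ : ℝ × X → ℝ} (hm : StronglyMeasurable ψ)
    (hψ : MemLp ψ (ENNReal.ofReal p) (volume.prod μ)) {σ : ℝ} (hσ : 0 < σ) (hst : s ≤ t) :
    I2 μ s t (fun y => |avg (U σ) ψ y| ^ p) ≤ I2 μ s (t + σ) (fun y => |ψ y| ^ p) := by
  haveI := isProb_U hσ
  have hp0 : 0 < p := by linarith
  have i1 := integrable_rpow_of_memLp hp (memLp_avg (P := U σ) hp hm hψ)
  have i2 := integrable_rpow_of_memLp hp hψ
  have nn : 0 ≤ I2 μ s (t + σ) (fun y => |ψ y| ^ p) := I2_nonneg (by linarith) fun y => by positivity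
  rw [← ENNReal.ofReal_le_ofReal_iff nn, ofReal_I2 hst i1 (fun y => by positivity),
    ofReal_I2 (by linarith) i2 (fun y => by positivity)]
  have hmm : Measurable (fun y : ℝ × X => ENNReal.ofReal (|ψ y| ^ p)) := by
    have := hm.measurable; fun_prop
  have e1 : ∀ y : ℝ × X, ENNReal.ofReal (|avg (U σ) ψ y| ^ p) ≤ ∫⁻ τ, ENNReal.ofReal (|ψ (y.1 + τ, y.2)| ^ p) ∂(U σ) := by
    intro y
    have := enorm_integral_rpow_le (P := U σ) hp
      (hm.comp_measurable (by fun_prop : Measurable (fun s : ℝ => (y.1 + s, y.2)))).aestronglyMeasurable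
    rw [← ofReal_norm, Real.norm_eq_abs, ENNReal.ofReal_rpow_of_nonneg (abs_nonneg _) hp0.le] at this
    refine this.trans (le_of_eq ?_)
    apply lintegral_congr
    intro τ
    rw [← ofReal_norm, Real.norm_eq_abs, ENNReal.ofReal_rpow_of_nonneg (abs_nonneg _) hp0.le]
    rfl
  calc ∫⁻ r in Ioc s t, ∫⁻ x, ENNReal.ofReal (|avg (U σ) ψ (r, x)| ^ p) ∂μ
      ≤ ∫⁻ r in Ioc s t, ∫⁻ x, ∫⁻ τ, ENNReal.ofReal (|ψ (r + τ, x)| ^ p) ∂(U σ) ∂μ := by
        gcongr with r x
        exact e1 (r, x)
    _ = ∫⁻ r in Ioc s t, ∫⁻ τ, ∫⁻ x, ENNReal.ofReal (|ψ (r + τ, x)| ^ p) ∂μ ∂(U σ) := by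
        apply lintegral_congr
        intro r
        refine lintegral_lintegral_swap ?_
        exact (hmm.comp (by fun_prop : Measurable (fun y : X × ℝ => (r + y.2, y.1)))).aemeasurable
    _ = ∫⁻ τ, (∫⁻ r in Ioc s t, ∫⁻ x, ENNReal.ofReal (|ψ (r + τ, x)| ^ p) ∂μ) ∂(U σ) := by
        refine lintegral_lintegral_swap ?_
        have : Measurable (fun y : (ℝ × ℝ) × X => ENNReal.ofReal (|ψ (y.1.1 + y.1.2, y.2)| ^ p)) :=
          hmm.comp (by fun_prop : Measurable (fun y : (ℝ × ℝ) × X => (y.1.1 + y.1.2, y.2)))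
        exact this.lintegral_prod_right'.aemeasurable
    _ ≤ ∫⁻ τ, (∫⁻ r in Ioc s (t + σ), ∫⁻ x, ENNReal.ofReal (|ψ (r, x)| ^ p) ∂μ) ∂(U σ) := by
        apply lintegral_mono_ae
        filter_upwards [ae_U_mem] with τ hτ
        have e2 : ∫⁻ r in Ioc s t, ∫⁻ x, ENNReal.ofReal (|ψ (r + τ, x)| ^ p) ∂μ =
            ∫⁻ r in Ioc (s + τ) (t + τ), ∫⁻ x, ENNReal.ofReal (|ψ (r, x)| ^ p) ∂μ := by
          rw [← lintegral_indicator measurableSet_Ioc, ← lintegral_indicator measurableSet_Ioc,
            ← lintegral_add_right_eq_self ((Ioc (s + τ) (t + τ)).indicator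
              (fun r => ∫⁻ x, ENNReal.ofReal (|ψ (r, x)| ^ p) ∂μ)) τ]
          apply lintegral_congr
          intro r
          by_cases hc : r ∈ Ioc s t
          · rw [indicator_of_mem hc, indicator_of_mem (show r + τ ∈ Ioc (s + τ) (t + τ) from
              ⟨by linarith [hc.1], by linarith [hc.2]⟩)]
          · rw [indicator_of_notMem hc, indicator_of_notMem]
            intro hd
            exact hc ⟨by linarith [hd.1], by linarith [hd.2]⟩
        rw [e2]
        exact lintegral_mono_set (fun r hr => ⟨by linarith [hr.1, hτ.1], by linarith [hr.2, hτ.2]⟩)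
    _ = _ := by simp

end Run7.h119
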