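import Mathlib
import Pool.Agent.Run7.h119.I2
import Pool.Agent.Run7.h119.Block2

open MeasureTheory Set Filter Topology
open scoped ENNReal

set_option linter.unusedSectionVars false
set_option linter.style.haveILetI false
set_option linter.unusedVariables false

namespace Run7.h119

variable {X : Type*} [MetricSpace X] [SecondCountableTopology X] [SigmaCompactSpace X]
  [MeasurableSpace X] [BorelSpace X] {μ : Measure X} [IsFiniteMeasure μ]
  {V : Type*} [NormedAddCommGroup V] [InnerProductSpace ℝ V] [CompleteSpace V]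

namespace LinSol

variable {ι : V →L[ℝ] Lp ℝ 2 μ} {p q a b : ℝ} {w w' : ℝ → V} {z z' : ℝ → Lp ℝ 2 μ}
    {zf zf' R R' : ℝ × X → ℝ}

theorem intervalIntegrable_R (H : LinSol ι p q a b w z zf R) {φ : V}
    (hφ : MemLp (ι φ) (ENNReal.ofReal p) μ) (s t : ℝ) :
    IntervalIntegrable (fun r => ∫ x, R (r, x) * ι φ x ∂μ) volume s t := by
  have hle : ((volume.restrict (uIoc s t)).prod μ : Measure (ℝ × X)) ≤ volume.prod μ := by
    have : (volume.restrict (uIoc s t)).prod μ = (volume.prod μ).restrict (uIoc s t ×ˢ univ) := by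
      rw [← Measure.prod_restrict, Measure.restrict_univ]
    rw [this]
    exact Measure.restrict_le_self
  haveI : IsFiniteMeasure (volume.restrict (uIoc s t) : Measure ℝ) := by
    rw [isFiniteMeasure_restrict]
    exact ((measure_mono Set.uIoc_subset_uIcc).trans_lt (by
      rw [uIcc, Real.volume_Icc]; exact ENNReal.ofReal_lt_top)).ne
  have h1 := H.R_mem.mono_measure hle
  have h2 : MemLp (fun y : ℝ × X => ι φ y.2) (ENNReal.ofReal p) ((volume.restrict (uIoc s t)).prod μ) :=
    hφ.comp_snd _
  rw [intervalIntegrable_iff]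
  exact (integrable_mul_of_memLp H.hpq.symm h1 h2).integral_prod_left

/-- translation in time and restriction of the interval -/
theorem shift (H : LinSol ι p q a b w z zf R) {σ a' b' : ℝ} (ha : a ≤ a' + σ) (hb : b' + σ ≤ b) :
    LinSol ι p q a' b' (fun t => w (t + σ)) (fun t => z (t + σ)) (fun y => zf (y.1 + σ, y.2))
      (fun y => R (y.1 + σ, y.2)) where
  hpq := H.hpq
  w_cont := H.w_cont.comp (by fun_prop)
  z_cont := H.z_cont.comp (by fun_prop)
  zf_meas := H.zf_meas.comp_measurable (by fun_prop)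
  R_meas := H.R_meas.comp_measurable (by fun_prop)
  zf_mem := memLp_shift H.zf_mem σ
  R_mem := memLp_shift H.R_mem σ
  z_ae := by
    have h4 : ∀ᵐ s : ℝ, s + σ ∈ Ioo a b → (fun x => zf (s + σ, x)) =ᵐ[μ] z (s + σ) :=
      (measurePreserving_add_right volume σ).quasiMeasurePreserving.ae H.z_ae
    filter_upwards [h4] with t ht ht'
    exact ht ⟨by linarith [ht'.1], by linarith [ht'.2]⟩
  w_deriv := by
    intro s t hs hst ht
    rw [H.w_deriv (s + σ) (t + σ) (by linarith) (by linarith) (by linarith),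
      intervalIntegral.integral_comp_add_right (fun r => z r) σ]
  weak := by
    intro φ hφ s t hs hst ht
    have := H.weak φ hφ (s + σ) (t + σ) (by linarith) (by linarith) (by linarith)
    rw [intervalIntegral.integral_comp_add_right (fun r => inner ℝ (w r) φ) σ,
      intervalIntegral.integral_comp_add_right (fun r => ∫ x, R (r, x) * ι φ x ∂μ) σ]
    exact this

theorem sub (H : LinSol ι p q a b w z zf R) (H' : LinSol ι p q a b w' z' zf' R') :
    LinSol ι p q a b (fun t => w t - w' t) (fun t => z t - z' t) (fun y => zf y - zf' y)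
      (fun y => R y - R' y) where
  hpq := H.hpq
  w_cont := H.w_cont.sub H'.w_cont
  z_cont := H.z_cont.sub H'.z_cont
  zf_meas := H.zf_meas.sub H'.zf_meas
  R_meas := H.R_meas.sub H'.R_meas
  zf_mem := H.zf_mem.sub H'.zf_mem
  R_mem := H.R_mem.sub H'.R_mem
  z_ae := by
    filter_upwards [H.z_ae, H'.z_ae] with t h1 h2 ht
    filter_upwards [h1 ht, h2 ht, Lp.coeFn_sub (z t) (z' t)] with x x1 x2 x3
    rw [x1, x2, x3]; rfl
  w_deriv := by
    intro s t hs hst ht
    rw [intervalIntegral.integral_sub (H.z_cont.intervalIntegrable _ _) (H'.z_cont.intervalIntegrable _ _),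
      ← H.w_deriv s t hs hst ht, ← H'.w_deriv s t hs hst ht, map_sub, map_sub]
    abel
  weak := by
    intro φ hφ s t hs hst ht
    have h1 := H.weak φ hφ s t hs hst ht
    have h2 := H'.weak φ hφ s t hs hst ht
    have i1 : IntervalIntegrable (fun r => (inner ℝ (w r) φ : ℝ)) volume s t :=
      (H.w_cont.inner continuous_const).intervalIntegrable _ _
    have i2 : IntervalIntegrable (fun r => (inner ℝ (w' r) φ : ℝ)) volume s t :=
      (H'.w_cont.inner continuous_const).intervalIntegrable _ _
    have e1 : ∫ r in s..t, inner ℝ (w r - w' r) φ = (∫ r in s..t, inner ℝ (w r) φ) - ∫ r in s..t, inner ℝ (w' r) φ := by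
      rw [← intervalIntegral.integral_sub i1 i2]
      apply intervalIntegral.integral_congr
      intro r _
      exact inner_sub_left _ _ _
    have e2 : ∫ r in s..t, ∫ x, (R (r, x) - R' (r, x)) * ι φ x ∂μ =
        (∫ r in s..t, ∫ x, R (r, x) * ι φ x ∂μ) - ∫ r in s..t, ∫ x, R' (r, x) * ι φ x ∂μ := by
      rw [← intervalIntegral.integral_sub (H.intervalIntegrable_R hφ s t) (H'.intervalIntegrable_R hφ s t)]
      apply intervalIntegral.integral_congr_ae
      have sl : ∀ {B : ℝ × X → ℝ}, StronglyMeasurable B → MemLp B (ENNReal.ofReal q) (volume.prod μ) →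
          ∀ᵐ r : ℝ, MemLp (fun x => B (r, x)) (ENNReal.ofReal q) μ := by
        intro B hB hBm
        have h1 := lintegral_rpow_lt_top H.hpq.symm.lt.le hBm
        rw [lintegral_prod _ (hB.measurable.enorm.pow_const q).aemeasurable] at h1
        have h2 := ae_lt_top (Measurable.lintegral_prod_right' (hB.measurable.enorm.pow_const q)) h1.ne
        filter_upwards [h2] with r hr
        exact memLp_of_lintegral H.hpq.symm.lt.le (hB.comp_measurable (by fun_prop)).aestronglyMeasurable hr
      filter_upwards [sl H.R_meas H.R_mem, sl H'.R_meas H'.R_mem] with r r1 r2 _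
      simp only [sub_mul]
      exact integral_sub (integrable_mul_of_memLp H.hpq.symm r1 hφ) (integrable_mul_of_memLp H.hpq.symm r2 hφ)
    rw [e1, e2, ← h1, ← h2]
    have e3 : z t - z' t - (z s - z' s) = (z t - z s) - (z' t - z' s) := by abel
    rw [e3, inner_sub_left]
    ring

/-- restriction of the interval -/
theorem mono (H : LinSol ι p q a b w z zf R) {a' b' : ℝ} (ha : a ≤ a') (hb : b' ≤ b) :
    LinSol ι p q a' b' w z zf R where
  hpq := H.hpq
  w_cont := H.w_cont
  z_cont := H.z_cont
  zf_meas := H.zf_meas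
  R_meas := H.R_meas
  zf_mem := H.zf_mem
  R_mem := H.R_mem
  z_ae := by
    filter_upwards [H.z_ae] with t h ht
    exact h ⟨by linarith [ht.1], by linarith [ht.2]⟩
  w_deriv := fun s t hs hst ht => H.w_deriv s t (ha.trans hs) hst (ht.trans hb)
  weak := fun φ hφ s t hs hst ht => H.weak φ hφ s t (ha.trans hs) hst (ht.trans hb)

/-- pointwise representative of the displacement increment -/
theorem incr_ae (H : LinSol ι p q a b w z zf R) {σ r : ℝ} (hσ : 0 < σ) (hr : a ≤ r) (hb : r + σ < b) :
    (fun x => σ * avg (U σ) zf (r, x)) =ᵐ[μ] ι (w (r + σ) - w r) := by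
  have h1 := H.ι_diff hσ hr hb.le
  have h2 := H.S_z_ae hσ hr hb
  have e : ι (w (r + σ) - w r) = σ • S σ z r := by
    rw [← h1, map_smul, smul_inv_smul₀ hσ.ne']
  rw [e]
  filter_upwards [h2, Lp.coeFn_smul σ (S σ z r)] with x x1 x2
  rw [x2, Pi.smul_apply, x1, smul_eq_mul]

end LinSol

theorem rpow_add_le_two {A B p : ℝ} (hA : 0 ≤ A) (hB : 0 ≤ B) (hp : 1 ≤ p) :
    (A + B) ^ p ≤ 2 ^ p * (A ^ p + B ^ p) := by
  refine (real_rpow_add_le hA hB hp).trans ?_
  have : (2:ℝ) ^ (p - 1) ≤ 2 ^ p := Real.rpow_le_rpow_of_exponent_le (by norm_num) (by linarith)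
  gcongr

theorem abs_sub_rpow_le {x y p : ℝ} (hp : 1 ≤ p) : |x - y| ^ p ≤ 2 ^ p * (|x| ^ p + |y| ^ p) := by
  calc |x - y| ^ p ≤ (|x| + |y|) ^ p := by
        gcongr
        exact abs_sub _ _
    _ ≤ _ := rpow_add_le_two (abs_nonneg _) (abs_nonneg _) hp

end Run7.h119
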