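import Mathlib
import Pool.Agent.Run7.h119.Fluct

open MeasureTheory Set Filter Topology
open scoped ENNReal

set_option linter.unusedSectionVars false
set_option linter.style.haveILetI false
set_option linter.unusedVariables false

namespace Run7.h119

variable {X : Type*} [MetricSpace X] [SecondCountableTopology X] [SigmaCompactSpace X]
  [MeasurableSpace X] [BorelSpace X] {μ : Measure X} [IsFiniteMeasure μ]
  {V : Type*} [NormedAddCommGroup V] [InnerProductSpace ℝ V] [CompleteSpace V]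

theorem sq_le_split {A d p : ℝ} (hA : 0 ≤ A) (hd : 0 < d) (hp : 2 < p) :
    A ^ 2 ≤ d ^ (2 / p) + d ^ (2 / p - 1) * A ^ p := by
  have hp0 : 0 < p := by linarith
  rcases le_total (A ^ p) d with h | h
  · have h1 : A ^ 2 ≤ d ^ (2 / p) := by
      have : A ^ 2 = (A ^ p) ^ (2 / p) := by
        rw [← Real.rpow_mul hA, mul_div_cancel₀ _ hp0.ne']
        norm_num
      rw [this]
      gcongr
    have h2 : 0 ≤ d ^ (2 / p - 1) * A ^ p := by positivity
    linarith
  · have h3 : A ^ 2 ≤ d ^ (2 / p - 1) * A ^ p := by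
      have hAp : 0 < A ^ p := lt_of_lt_of_le hd h
      have e : A ^ 2 = (A ^ p) ^ (2 / p - 1) * A ^ p := by
        rw [← Real.rpow_add_one hAp.ne', sub_add_cancel, ← Real.rpow_mul hA, mul_div_cancel₀ _ hp0.ne']
        norm_num
      rw [e]
      have h4 : 2 / p - 1 ≤ 0 := by
        rw [sub_nonpos, div_le_one hp0]; linarith
      have := Real.rpow_le_rpow_of_nonpos hd h h4
      gcongr
    have h2 : 0 ≤ d ^ (2 / p) := by positivity
    linarith

theorem norm_sq_lp2 (y : Lp ℝ 2 μ) : ‖y‖ ^ 2 = ∫ x, |y x| ^ 2 ∂μ := by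
  rw [← real_inner_self_eq_norm_sq, L2.inner_def]
  apply integral_congr_ae
  filter_upwards with x
  simp [pow_two]

theorem norm_sq_le_split {p d : ℝ} (hp : 2 < p) (hd : 0 < d) {y : Lp ℝ 2 μ} {ψ : X → ℝ}
    (hψ : ψ =ᵐ[μ] y) (hm : MemLp ψ (ENNReal.ofReal p) μ) :
    ‖y‖ ^ 2 ≤ d ^ (2 / p) * μ.real univ + d ^ (2 / p - 1) * ∫ x, |ψ x| ^ p ∂μ := by
  have i1 := integrable_rpow_of_memLp (by linarith) hm
  have i2 : Integrable (fun x => |y x| ^ 2) μ := by
    have := (Lp.memLp y).integrable_sq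
    simpa using this
  calc ‖y‖ ^ 2 = ∫ x, |y x| ^ 2 ∂μ := norm_sq_lp2 y
    _ ≤ ∫ x, (d ^ (2 / p) + d ^ (2 / p - 1) * |ψ x| ^ p) ∂μ := by
        refine integral_mono_ae i2 ((integrable_const _).add (i1.const_mul _)) ?_
        filter_upwards [hψ] with x hx
        rw [← hx]
        exact sq_le_split (abs_nonneg _) hd hp
    _ = _ := by
        rw [integral_add (integrable_const _) (i1.const_mul _), integral_const_mul, integral_const, smul_eq_mul]
        ring

namespace Sol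

variable {ι : V →L[ℝ] Lp ℝ 2 μ} {a p q b M : ℝ} {u : ℝ → V} {v : ℝ → Lp ℝ 2 μ}
    {vf f : ℝ × X → ℝ}

theorem f_int (H : Sol ι a p q b M u v vf f) {s t : ℝ} (hst : s ≤ t) :
    I2 μ s t (fun y => |f y| ^ q) ≤ M ^ q * (μ.real univ) ^ (1 - q / 2) * (t - s) := by
  have hq1 := H.lin.hpq.symm.lt.le
  have hq2 := conj_lt_two H.hp H.lin.hpq
  have i1 := integrable_rpow_of_memLp hq1 H.f_memq
  have hM := H.hM
  have h0 : 0 ≤ M ^ q * (μ.real univ) ^ (1 - q / 2) := by positivity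
  unfold I2
  calc ∫ r in s..t, ∫ x, |f (r, x)| ^ q ∂μ ≤ ∫ r in s..t, M ^ q * (μ.real univ) ^ (1 - q / 2) := by
        apply intervalIntegral.integral_mono_ae_restrict hst (integrable_time i1).intervalIntegrable
          intervalIntegrable_const
        apply ae_restrict_of_ae
        filter_upwards [H.f_bd, i1.prod_right_ae] with r hr hi
        have hi' : Integrable (fun x => |f (r, x)| ^ q) μ := hi
        have := setIntegral_rpow_le (ν := μ) hq1 hq2 hM
          (H.f_meas.comp_measurable (by fun_prop : Measurable (fun x : X => (r, x)))).aestronglyMeasurable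
          hr MeasurableSet.univ
        rw [← ENNReal.ofReal_le_ofReal_iff h0,
          ofReal_integral_eq_lintegral_ofReal hi' (Eventually.of_forall fun _ => by positivity)]
        rw [Measure.restrict_univ] at this
        refine le_trans (le_of_eq ?_) this
        apply lintegral_congr
        intro x
        simp only [Function.comp]
        rw [← ofReal_norm, Real.norm_eq_abs, ENNReal.ofReal_rpow_of_nonneg (abs_nonneg _) (by linarith)]
    _ = _ := by rw [intervalIntegral.integral_const, smul_eq_mul]; ring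

/-- dissipation estimate -/
theorem diss (ι : V →L[ℝ] Lp ℝ 2 μ) {a p q M : ℝ} (ha : 0 < a) (hp : 2 < p) (hpq : p.HolderConjugate q)
    (hM : 0 ≤ M) :
    ∃ C : ℝ, 0 < C ∧ ∀ (b : ℝ) (u : ℝ → V) (v : ℝ → Lp ℝ 2 μ) (vf f : ℝ × X → ℝ),
      Sol ι a p q b M u v vf f → ∀ s t : ℝ, 0 ≤ s → s ≤ t → t < b →
      I2 μ s t (fun y => |vf y| ^ p) ≤ (1 / a) * ((‖u s‖ ^ 2 + ‖v s‖ ^ 2) - (‖u t‖ ^ 2 + ‖v t‖ ^ 2)) +
        C * (t - s) := by
  obtain ⟨C, hC, Y⟩ := young_eps hpq (show 0 < a / 2 by positivity)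
  refine ⟨2 / a * C * (M ^ q * (μ.real univ) ^ (1 - q / 2)) + 1, by positivity, fun b u v vf f H s t hs hst ht => ?_⟩
  have L := H.lin
  have E := L.energy hs hst ht
  have iv := integrable_rpow_of_memLp hpq.lt.le L.zf_mem
  have iff' := integrable_rpow_of_memLp hpq.symm.lt.le H.f_memq
  have iR := integrable_mul_of_memLp hpq.symm L.R_mem L.zf_mem
  have h1 : ∫ r in s..t, ∫ x, (f (r, x) - gfun a p (vf (r, x))) * vf (r, x) ∂μ ≤
      I2 μ s t (fun y => C * |f y| ^ q + (-(a / 2)) * |vf y| ^ p) := by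
    refine I2_mono (F := fun y => (f y - gfun a p (vf y)) * vf y) hst iR
      ((iff'.const_mul _).add (iv.const_mul _)) fun y => ?_
    have g1 := gfun_mul_self (s := vf y) ha hp
    have g2 := Y |vf y| |f y| (abs_nonneg _) (abs_nonneg _)
    have g3 : f y * vf y ≤ |vf y| * |f y| := by rw [← abs_mul, mul_comm]; exact le_abs_self _
    rw [sub_mul, g1]
    linarith
  have h2 : I2 μ s t (fun y => C * |f y| ^ q + (-(a / 2)) * |vf y| ^ p) =
      C * I2 μ s t (fun y => |f y| ^ q) + (-(a / 2)) * I2 μ s t (fun y => |vf y| ^ p) := by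
    rw [I2_add (iff'.const_mul _) (iv.const_mul _), I2_const_mul, I2_const_mul]
  have h3 := H.f_int hst
  rw [h2, ← E] at h1
  have h4 : C * I2 μ s t (fun y => |f y| ^ q) ≤ C * (M ^ q * (μ.real univ) ^ (1 - q / 2) * (t - s)) := by gcongr
  have h5 : (a / 2) * I2 μ s t (fun y => |vf y| ^ p) ≤ (1 / 2) * ((‖u s‖ ^ 2 + ‖v s‖ ^ 2) - (‖u t‖ ^ 2 + ‖v t‖ ^ 2)) +
      C * (M ^ q * (μ.real univ) ^ (1 - q / 2) * (t - s)) := by linarith
  have h6 : I2 μ s t (fun y => |vf y| ^ p) = (2 / a) * ((a / 2) * I2 μ s t (fun y => |vf y| ^ p)) := by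
    field_simp
  rw [h6]
  calc (2 / a) * ((a / 2) * I2 μ s t (fun y => |vf y| ^ p)) ≤ (2 / a) * ((1 / 2) * ((‖u s‖ ^ 2 + ‖v s‖ ^ 2) - (‖u t‖ ^ 2 + ‖v t‖ ^ 2)) +
      C * (M ^ q * (μ.real univ) ^ (1 - q / 2) * (t - s))) := by gcongr
    _ = (1 / a) * ((‖u s‖ ^ 2 + ‖v s‖ ^ 2) - (‖u t‖ ^ 2 + ‖v t‖ ^ 2)) +
      (2 / a * C * (M ^ q * (μ.real univ) ^ (1 - q / 2))) * (t - s) := by ring
    _ ≤ _ := by
      have : 0 ≤ t - s := by linarith
      nlinarith

end Sol

end Run7.h119
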