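import Mathlib
import Pool.Agent.Run7.h119.Fluct2

open MeasureTheory Set Filter Topology
open scoped ENNReal

set_option linter.unusedSectionVars false
set_option linter.style.haveILetI false
set_option linter.unusedVariables false

namespace Run7.h119

variable {X : Type*} [MetricSpace X] [SecondCountableTopology X] [SigmaCompactSpace X]
  [MeasurableSpace X] [BorelSpace X] {μ : Measure X} [IsFiniteMeasure μ]
  {V : Type*} [NormedAddCommGroup V] [InnerProductSpace ℝ V] [CompleteSpace V]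

/-- squared energy distance between time shifts -/
noncomputable def om (u : ℝ → V) (v : ℝ → Lp ℝ 2 μ) (σ t : ℝ) : ℝ :=
  ‖u (t + σ) - u t‖ ^ 2 + ‖v (t + σ) - v t‖ ^ 2

theorem I2_df_le {q θ L b : ℝ} (hq : 1 ≤ q) (hL : 0 ≤ L) {f : ℝ × X → ℝ}
    (hfm : MemLp f (ENNReal.ofReal q) (volume.prod μ))
    (hmod : TimeMod μ q θ L b f) {σ s t : ℝ} (hσ : 0 < σ) (hσ1 : σ ≤ 1) (hs : 0 ≤ s) (hst : s ≤ t)
    (ht : t + σ ≤ b) :
    I2 μ s t (fun y => |f (y.1 + σ, y.2) - f y| ^ q) ≤ L * σ ^ θ * (t - s + 1) := by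
  have h0 : 0 ≤ L * σ ^ θ * (t - s + 1) := by
    have : 0 ≤ t - s + 1 := by linarith
    positivity
  have i1 := integrable_rpow_of_memLp hq ((memLp_shift hfm σ).sub hfm)
  rw [← ENNReal.ofReal_le_ofReal_iff h0]
  refine le_trans (le_of_eq ?_) (hmod σ s t hσ.le hσ1 hs hst ht)
  have e := ofReal_I2 hst i1 (fun y => by positivity)
  refine e.trans ?_
  apply lintegral_congr
  intro r
  apply lintegral_congr
  intro x
  rw [← ofReal_norm, Real.norm_eq_abs, ENNReal.ofReal_rpow_of_nonneg (abs_nonneg _) (by linarith)]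
  rfl

namespace Sol

variable {ι : V →L[ℝ] Lp ℝ 2 μ} {a p q b M : ℝ} {u : ℝ → V} {v : ℝ → Lp ℝ 2 μ}
    {vf f : ℝ × X → ℝ}

theorem diffLin (H : Sol ι a p q b M u v vf f) {σ : ℝ} (hσ : 0 < σ) :
    LinSol ι p q 0 (b - σ) (fun t => u (t + σ) - u t) (fun t => v (t + σ) - v t)
      (fun y => vf (y.1 + σ, y.2) - vf y)
      (fun y => (f (y.1 + σ, y.2) - gfun a p (vf (y.1 + σ, y.2))) - (f y - gfun a p (vf y))) :=
  (H.lin.shift (σ := σ) (a' := 0) (b' := b - σ) (by linarith) (by linarith)).sub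
    (H.lin.mono le_rfl (by linarith))

/-- monotonicity of the distance between time shifts -/
theorem om_mono (ι : V →L[ℝ] Lp ℝ 2 μ) {a p q : ℝ} (ha : 0 < a) (hp : 2 < p)
    (hpq : p.HolderConjugate q) :
    ∃ C : ℝ, 0 < C ∧ ∀ (b M θ L : ℝ) (u : ℝ → V) (v : ℝ → Lp ℝ 2 μ) (vf f : ℝ × X → ℝ), 0 ≤ L →
      Sol ι a p q b M u v vf f → TimeMod μ q θ L b f → ∀ σ s t : ℝ, 0 < σ → σ ≤ 1 → 0 ≤ s →
      s ≤ t → t + σ < b →
      om u v σ t + (a * 2 ^ (2 - p)) * I2 μ s t (fun y => |vf (y.1 + σ, y.2) - vf y| ^ p) ≤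
        om u v σ s + C * (L * σ ^ θ * (t - s + 1)) := by
  obtain ⟨c, hc, hcd⟩ : ∃ c : ℝ, 0 < c ∧ a * 2 ^ (2 - p) = c := ⟨_, by positivity, rfl⟩
  obtain ⟨C1, hC1, Y⟩ := young_eps hpq (show 0 < c / 2 by positivity)
  refine ⟨2 * C1, by positivity, fun b M θ L u v vf f hL H hmod σ s t hσ hσ1 hs hst ht => ?_⟩
  have D := H.diffLin hσ
  have E := D.energy hs hst (by linarith)
  have hq1 := hpq.symm.lt.le
  have idf := integrable_rpow_of_memLp hq1 ((memLp_shift H.f_memq σ).sub H.f_memq)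
  have idv := integrable_rpow_of_memLp hpq.lt.le D.zf_mem
  have iR := integrable_mul_of_memLp hpq.symm D.R_mem D.zf_mem
  have h1 : ∫ r in s..t, ∫ x, ((f (r + σ, x) - gfun a p (vf (r + σ, x))) - (f (r, x) - gfun a p (vf (r, x)))) *
      (vf (r + σ, x) - vf (r, x)) ∂μ ≤
      I2 μ s t (fun y => C1 * |f (y.1 + σ, y.2) - f y| ^ q + (-(c / 2)) * |vf (y.1 + σ, y.2) - vf y| ^ p) := by
    refine I2_mono (F := fun y => ((f (y.1 + σ, y.2) - gfun a p (vf (y.1 + σ, y.2))) - (f y - gfun a p (vf y))) *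
      (vf (y.1 + σ, y.2) - vf y)) hst iR ((idf.const_mul _).add (idv.const_mul _)) fun y => ?_
    have g1 := gfun_mono ha hp (vf (y.1 + σ, y.2)) (vf y)
    rw [hcd] at g1
    have g2 := Y |vf (y.1 + σ, y.2) - vf y| |f (y.1 + σ, y.2) - f y| (abs_nonneg _) (abs_nonneg _)
    have g3 : (f (y.1 + σ, y.2) - f y) * (vf (y.1 + σ, y.2) - vf y) ≤
        |vf (y.1 + σ, y.2) - vf y| * |f (y.1 + σ, y.2) - f y| := by
      rw [← abs_mul, mul_comm]; exact le_abs_self _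
    linarith
  have h2 : I2 μ s t (fun y => C1 * |f (y.1 + σ, y.2) - f y| ^ q + (-(c / 2)) * |vf (y.1 + σ, y.2) - vf y| ^ p) =
      C1 * I2 μ s t (fun y => |f (y.1 + σ, y.2) - f y| ^ q) +
      (-(c / 2)) * I2 μ s t (fun y => |vf (y.1 + σ, y.2) - vf y| ^ p) := by
    have := I2_add (s := s) (t := t) (idf.const_mul C1) (idv.const_mul (-(c / 2)))
    rw [I2_const_mul, I2_const_mul] at this
    exact this
  have h3 := I2_df_le hq1 hL H.f_memq hmod hσ hσ1 hs hst ht.le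
  rw [h2] at h1
  have E' : (‖v (t + σ) - v t‖ ^ 2 + ‖u (t + σ) - u t‖ ^ 2) / 2 - (‖v (s + σ) - v s‖ ^ 2 + ‖u (s + σ) - u s‖ ^ 2) / 2 =
    ∫ r in s..t, ∫ x, ((f (r + σ, x) - gfun a p (vf (r + σ, x))) - (f (r, x) - gfun a p (vf (r, x)))) *
      (vf (r + σ, x) - vf (r, x)) ∂μ := E
  rw [← E'] at h1
  have h4 : C1 * I2 μ s t (fun y => |f (y.1 + σ, y.2) - f y| ^ q) ≤ C1 * (L * σ ^ θ * (t - s + 1)) := by gcongr
  rw [hcd]
  unfold om
  linarith

end Sol

theorem exists_le_integral_unit {F : ℝ → ℝ} (hF : Continuous F) (c : ℝ) :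
    ∃ s ∈ Icc c (c + 1), F s ≤ ∫ r in c..(c + 1), F r := by
  by_contra hcon
  push Not at hcon
  obtain ⟨s, hs, hmin⟩ := (isCompact_Icc (a := c) (b := c + 1)).exists_isMinOn ⟨c, by simp⟩ hF.continuousOn
  have h1 := hcon s hs
  have h2 : ∫ r in c..(c + 1), F s ≤ ∫ r in c..(c + 1), F r := by
    apply intervalIntegral.integral_mono_on (by linarith) intervalIntegrable_const (hF.intervalIntegrable _ _)
    intro x hx
    exact hmin hx
  rw [intervalIntegral.integral_const, add_sub_cancel_left, one_smul] at h2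
  linarith

end Run7.h119
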