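import Mathlib
import Pool.Agent.Run7.h119.Fluct3

open MeasureTheory Set Filter Topology
open scoped ENNReal

set_option linter.unusedSectionVars false
set_option linter.style.haveILetI false
set_option linter.unusedVariables false

namespace Run7.h119

variable {X : Type*} [MetricSpace X] [SecondCountableTopology X] [SigmaCompactSpace X]
  [MeasurableSpace X] [BorelSpace X] {μ : Measure X} [IsFiniteMeasure μ]
  {V : Type*} [NormedAddCommGroup V] [InnerProductSpace ℝ V] [CompleteSpace V]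

theorem ae_slice_memLp {p : ℝ} (hp : 1 ≤ p) {ψ : ℝ × X → ℝ} (hm : StronglyMeasurable ψ)
    (hψ : MemLp ψ (ENNReal.ofReal p) (volume.prod μ)) :
    ∀ᵐ r : ℝ, MemLp (fun x => ψ (r, x)) (ENNReal.ofReal p) μ := by
  have h1 := lintegral_rpow_lt_top hp hψ
  rw [lintegral_prod _ (hm.measurable.enorm.pow_const p).aemeasurable] at h1
  have h2 := ae_lt_top (Measurable.lintegral_prod_right' (hm.measurable.enorm.pow_const p)) h1.ne
  filter_upwards [h2] with r hr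
  exact memLp_of_lintegral hp (hm.comp_measurable (by fun_prop)).aestronglyMeasurable hr

/-- time integral of the squared L² norm in terms of the p-th power -/
theorem int_normsq_le {p d : ℝ} (hp : 2 < p) (hd : 0 < d) {z : ℝ → Lp ℝ 2 μ} (hz : Continuous z)
    {ψ : ℝ × X → ℝ} (hm : StronglyMeasurable ψ) (hψ : MemLp ψ (ENNReal.ofReal p) (volume.prod μ))
    {s t : ℝ} (hst : s ≤ t) (hae : ∀ᵐ r : ℝ, r ∈ Ioo s t → (fun x => ψ (r, x)) =ᵐ[μ] z r) :
    ∫ r in s..t, ‖z r‖ ^ 2 ≤ d ^ (2 / p) * μ.real univ * (t - s) +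
      d ^ (2 / p - 1) * I2 μ s t (fun y => |ψ y| ^ p) := by
  have i1 := integrable_rpow_of_memLp (by linarith : 1 ≤ p) hψ
  have hi : IntervalIntegrable (fun r => ∫ x, |ψ (r, x)| ^ p ∂μ) volume s t :=
    (integrable_time i1).intervalIntegrable
  have h1 : ∫ r in s..t, ‖z r‖ ^ 2 ≤ ∫ r in s..t, (d ^ (2 / p) * μ.real univ +
      d ^ (2 / p - 1) * ∫ x, |ψ (r, x)| ^ p ∂μ) := by
    apply intervalIntegral.integral_mono_ae_restrict hst
      ((hz.norm.pow 2).intervalIntegrable _ _) (intervalIntegrable_const.add (hi.const_mul _))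
    rw [← restrict_Ioo_eq_restrict_Icc]
    filter_upwards [ae_restrict_of_ae hae, ae_restrict_mem measurableSet_Ioo,
      ae_restrict_of_ae (ae_slice_memLp (by linarith) hm hψ)] with r h1 h2 h3
    exact norm_sq_le_split hp hd (h1 h2) h3
  refine h1.trans (le_of_eq ?_)
  rw [intervalIntegral.integral_add intervalIntegrable_const (hi.const_mul _),
    intervalIntegral.integral_const, intervalIntegral.integral_const_mul, smul_eq_mul]
  unfold I2
  ring

/-- virial bound for the difference of time shifts -/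
theorem virial_bound (ι : V →L[ℝ] Lp ℝ 2 μ) {a p q M : ℝ} (ha : 0 < a) (hp : 2 < p)
    (hpq : p.HolderConjugate q) (hM : 0 ≤ M) :
    ∃ C : ℝ, 0 < C ∧ ∀ (b : ℝ) (u : ℝ → V) (v : ℝ → Lp ℝ 2 μ) (vf f : ℝ × X → ℝ),
      Sol ι a p q b M u v vf f → ∀ σ s1 s2 : ℝ, 0 < σ → σ ≤ 1 → 0 ≤ s1 →
      s1 ≤ s2 → s2 + σ < b →
      ∫ r in s1..s2, ‖u (r + σ) - u r‖ ^ 2 ≤ (∫ r in s1..s2, ‖v (r + σ) - v r‖ ^ 2) +
        (‖v (s1 + σ) - v s1‖ ^ 2 + ‖ι (u (s1 + σ) - u s1)‖ ^ 2) +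
        (‖v (s2 + σ) - v s2‖ ^ 2 + ‖ι (u (s2 + σ) - u s2)‖ ^ 2) +
        C * σ * ((s2 - s1) + 1 + I2 μ s1 (s2 + σ) (fun y => |vf y| ^ p)) := by
  set Cf := M ^ q * (μ.real univ) ^ (1 - q / 2) with hCf
  have hCf0 : 0 ≤ Cf := by positivity
  have hq0 : 0 < q := hpq.symm.pos
  refine ⟨2 ^ q * (2 ^ q * (2 * Cf)) + 2 ^ q * (2 ^ q * (2 * a ^ q)) + 1, by positivity, fun b u v vf f H σ s1 s2 hσ hσ1 hs hst ht => ?_⟩
  have D := H.diffLin hσ
  have L := H.lin
  have hq1 := hpq.symm.lt.le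
  have hp1 := hpq.lt.le
  haveI := isProb_U hσ
  have hyae : ∀ᵐ r : ℝ, r ∈ Ioo 0 (b - σ) → (fun x => σ * avg (U σ) vf (r, x)) =ᵐ[μ] ι (u (r + σ) - u r) := by
    refine Eventually.of_forall fun r hr => ?_
    exact L.incr_ae hσ hr.1.le (by linarith [hr.2])
  have hym : StronglyMeasurable (fun y : ℝ × X => σ * avg (U σ) vf y) :=
    (stronglyMeasurable_avg L.zf_meas).const_mul σ
  have hyL : MemLp (fun y : ℝ × X => σ * avg (U σ) vf y) (ENNReal.ofReal p) (volume.prod μ) :=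
    (memLp_avg hp1 L.zf_meas L.zf_mem).const_mul σ
  have W := D.virial hym hyL hyae hs hst (by linarith)
  -- bound of the right-hand side
  have ia := integrable_rpow_of_memLp hp1 (memLp_avg (P := U σ) hp1 L.zf_meas L.zf_mem)
  have iv := integrable_rpow_of_memLp hp1 L.zf_mem
  have iff' := integrable_rpow_of_memLp hq1 H.f_memq
  have iv' := integrable_shift iv σ
  have if'' := integrable_shift iff' σ
  have iR := integrable_mul_of_memLp hpq.symm D.R_mem hyL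
  have pt : ∀ y : ℝ × X, ((f (y.1 + σ, y.2) - gfun a p (vf (y.1 + σ, y.2))) - (f y - gfun a p (vf y))) *
      (σ * avg (U σ) vf y) ≤ σ * (2 ^ q * (2 ^ q * (|f (y.1 + σ, y.2)| ^ q + |f y| ^ q)) +
        2 ^ q * (2 ^ q * a ^ q * (|vf (y.1 + σ, y.2)| ^ p + |vf y| ^ p)) + |avg (U σ) vf y| ^ p) := by
    intro y
    set A := (f (y.1 + σ, y.2) - f y) with hA
    set B := (gfun a p (vf (y.1 + σ, y.2)) - gfun a p (vf y)) with hB
    set Z := avg (U σ) vf y with hZ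
    have e0 : (f (y.1 + σ, y.2) - gfun a p (vf (y.1 + σ, y.2))) - (f y - gfun a p (vf y)) = A - B := by
      rw [hA, hB]; ring
    rw [e0]
    have y1 : |A - B| * |Z| ≤ |A - B| ^ q + |Z| ^ p := by
      have := Real.young_inequality_of_nonneg (abs_nonneg (A - B)) (abs_nonneg Z) hpq.symm
      have h1 : |A - B| ^ q / q ≤ |A - B| ^ q := div_le_self (by positivity) hq1
      have h2 : |Z| ^ p / p ≤ |Z| ^ p := div_le_self (by positivity) hp1
      linarith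
    have y2 : |A - B| ^ q ≤ 2 ^ q * (|A| ^ q + |B| ^ q) := abs_sub_rpow_le hq1
    have y3 : |A| ^ q ≤ 2 ^ q * (|f (y.1 + σ, y.2)| ^ q + |f y| ^ q) := abs_sub_rpow_le hq1
    have y4 : |B| ^ q ≤ 2 ^ q * a ^ q * (|vf (y.1 + σ, y.2)| ^ p + |vf y| ^ p) := by
      have := abs_sub_rpow_le (x := gfun a p (vf (y.1 + σ, y.2))) (y := gfun a p (vf y)) hq1
      have e : ∀ s : ℝ, |gfun a p s| ^ q = a ^ q * |s| ^ p := by
        intro s
        rw [abs_gfun ha hp, Real.mul_rpow ha.le (by positivity), ← Real.rpow_mul (abs_nonneg _),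
          hpq.sub_one_mul_conj]
      rw [e, e] at this
      refine this.trans (le_of_eq ?_)
      ring
    have y5 : (A - B) * (σ * Z) ≤ σ * (|A - B| * |Z|) := by
      rw [← abs_mul]
      have : (A - B) * (σ * Z) = σ * ((A - B) * Z) := by ring
      rw [this]
      gcongr
      exact le_abs_self _
    refine y5.trans ?_
    have h2q : (0:ℝ) < 2 ^ q := by positivity
    have y6 : 2 ^ q * (|A| ^ q + |B| ^ q) ≤ 2 ^ q * (2 ^ q * (|f (y.1 + σ, y.2)| ^ q + |f y| ^ q) +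
        2 ^ q * a ^ q * (|vf (y.1 + σ, y.2)| ^ p + |vf y| ^ p)) := by gcongr
    apply mul_le_mul_of_nonneg_left _ hσ.le
    linarith
  have j1 : Integrable (fun y : ℝ × X => |f (y.1 + σ, y.2)| ^ q + |f y| ^ q) (volume.prod μ) := if''.add iff'
  have j2 : Integrable (fun y : ℝ × X => |vf (y.1 + σ, y.2)| ^ p + |vf y| ^ p) (volume.prod μ) := iv'.add iv
  have j3 : Integrable (fun y : ℝ × X => 2 ^ q * (2 ^ q * (|f (y.1 + σ, y.2)| ^ q + |f y| ^ q))) (volume.prod μ) :=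
    (j1.const_mul _).const_mul _
  have j4 : Integrable (fun y : ℝ × X => 2 ^ q * (2 ^ q * a ^ q * (|vf (y.1 + σ, y.2)| ^ p + |vf y| ^ p))) (volume.prod μ) :=
    (j2.const_mul _).const_mul _
  have j34 : Integrable (fun y : ℝ × X => 2 ^ q * (2 ^ q * (|f (y.1 + σ, y.2)| ^ q + |f y| ^ q)) +
        2 ^ q * (2 ^ q * a ^ q * (|vf (y.1 + σ, y.2)| ^ p + |vf y| ^ p))) (volume.prod μ) := j3.add j4
  have h1 : I2 μ s1 s2 (fun y => ((f (y.1 + σ, y.2) - gfun a p (vf (y.1 + σ, y.2))) - (f y - gfun a p (vf y))) *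
      (σ * avg (U σ) vf y)) ≤ I2 μ s1 s2 (fun y => σ * (2 ^ q * (2 ^ q * (|f (y.1 + σ, y.2)| ^ q + |f y| ^ q)) +
        2 ^ q * (2 ^ q * a ^ q * (|vf (y.1 + σ, y.2)| ^ p + |vf y| ^ p)) + |avg (U σ) vf y| ^ p)) :=
    I2_mono hst iR ((j34.add ia).const_mul σ) pt
  rw [I2_const_mul, I2_add j34 ia, I2_add j3 j4, I2_const_mul, I2_const_mul, I2_const_mul,
    I2_const_mul, I2_add if'' iff', I2_add iv' iv,
    I2_shift (F := fun y => |f y| ^ q), I2_shift (F := fun y => |vf y| ^ p)] at h1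
  set Q := I2 μ s1 (s2 + σ) (fun y => |vf y| ^ p) with hQ
  have hQ0 : 0 ≤ Q := I2_nonneg (by linarith) fun y => by positivity
  have b1 : I2 μ s1 s2 (fun y => |avg (U σ) vf y| ^ p) ≤ Q := I2_avg_le hp1 L.zf_meas L.zf_mem hσ hst
  have b2 : I2 μ (s1 + σ) (s2 + σ) (fun y => |vf y| ^ p) ≤ Q :=
    I2_mono_set iv (fun y => by positivity) (by linarith) (by linarith) le_rfl
  have b3 : I2 μ s1 s2 (fun y => |vf y| ^ p) ≤ Q :=
    I2_mono_set iv (fun y => by positivity) le_rfl hst (by linarith)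
  have b4 : I2 μ (s1 + σ) (s2 + σ) (fun y => |f y| ^ q) ≤ Cf * (s2 - s1) := by
    have := H.f_int (s := s1 + σ) (t := s2 + σ) (by linarith)
    rw [hCf]; refine this.trans (le_of_eq ?_); ring
  have b5 : I2 μ s1 s2 (fun y => |f y| ^ q) ≤ Cf * (s2 - s1) := H.f_int hst
  have h2q : (0:ℝ) < 2 ^ q := by positivity
  have haq : (0:ℝ) < a ^ q := by positivity
  have c1 : 2 ^ q * (2 ^ q * (I2 μ (s1 + σ) (s2 + σ) (fun y => |f y| ^ q) + I2 μ s1 s2 (fun y => |f y| ^ q))) ≤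
      2 ^ q * (2 ^ q * (2 * Cf)) * (s2 - s1) := by
    have : 2 ^ q * (2 ^ q * (2 * Cf)) * (s2 - s1) = 2 ^ q * (2 ^ q * (Cf * (s2 - s1) + Cf * (s2 - s1))) := by ring
    rw [this]
    gcongr
  have c2 : 2 ^ q * (2 ^ q * a ^ q * (I2 μ (s1 + σ) (s2 + σ) (fun y => |vf y| ^ p) + I2 μ s1 s2 (fun y => |vf y| ^ p))) ≤
      2 ^ q * (2 ^ q * (2 * a ^ q)) * Q := by
    have : 2 ^ q * (2 ^ q * (2 * a ^ q)) * Q = 2 ^ q * (2 ^ q * a ^ q * (Q + Q)) := by ring
    rw [this]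
    gcongr
  set c3 := 2 ^ q * (2 ^ q * (2 * Cf)) with hc3
  set c4 := 2 ^ q * (2 ^ q * (2 * a ^ q)) with hc4
  have hc30 : 0 ≤ c3 := by positivity
  have hc40 : 0 ≤ c4 := by positivity
  have h2 : I2 μ s1 s2 (fun y => ((f (y.1 + σ, y.2) - gfun a p (vf (y.1 + σ, y.2))) - (f y - gfun a p (vf y))) *
      (σ * avg (U σ) vf y)) ≤ (c3 + c4 + 1) * σ * ((s2 - s1) + 1 + Q) := by
    refine h1.trans ?_
    have hd : 0 ≤ s2 - s1 := by linarith
    calc _ ≤ σ * (c3 * (s2 - s1) + c4 * Q + Q) := by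
          apply mul_le_mul_of_nonneg_left _ hσ.le
          linarith
      _ ≤ (c3 + c4 + 1) * σ * ((s2 - s1) + 1 + Q) := by
          have e : (c3 + c4 + 1) * σ * ((s2 - s1) + 1 + Q) - σ * (c3 * (s2 - s1) + c4 * Q + Q) =
            σ * (c3 * (1 + Q) + c4 * ((s2 - s1) + 1) + ((s2 - s1) + 1)) := by ring
          have : 0 ≤ σ * (c3 * (1 + Q) + c4 * ((s2 - s1) + 1) + ((s2 - s1) + 1)) := by positivity
          linarith
  -- boundary terms
  have bd : ∀ r, |(inner ℝ (v (r + σ) - v r) (ι (u (r + σ) - u r)) : ℝ)| ≤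
      ‖v (r + σ) - v r‖ ^ 2 + ‖ι (u (r + σ) - u r)‖ ^ 2 := by
    intro r
    refine (abs_real_inner_le_norm _ _).trans ?_
    nlinarith [sq_nonneg (‖v (r + σ) - v r‖ - ‖ι (u (r + σ) - u r)‖), sq_nonneg (‖v (r + σ) - v r‖),
      sq_nonneg (‖ι (u (r + σ) - u r)‖)]
  have bd1 := abs_le.1 (bd s1)
  have bd2 := abs_le.1 (bd s2)
  have k1 : IntervalIntegrable (fun r => ‖u (r + σ) - u r‖ ^ 2) volume s1 s2 :=
    (D.w_cont.norm.pow 2).intervalIntegrable _ _
  have k2 : IntervalIntegrable (fun r => ‖v (r + σ) - v r‖ ^ 2) volume s1 s2 :=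
    (D.z_cont.norm.pow 2).intervalIntegrable _ _
  rw [intervalIntegral.integral_sub k1 k2] at W
  have W' : inner ℝ (v (s2 + σ) - v s2) (ι (u (s2 + σ) - u s2)) - inner ℝ (v (s1 + σ) - v s1) (ι (u (s1 + σ) - u s1)) +
      ((∫ r in s1..s2, ‖u (r + σ) - u r‖ ^ 2) - ∫ r in s1..s2, ‖v (r + σ) - v r‖ ^ 2) ≤
      (c3 + c4 + 1) * σ * ((s2 - s1) + 1 + Q) := W.trans_le h2
  linarith [bd1.1, bd1.2, bd2.1, bd2.2]


/-- fluctuation estimate -/
theorem fluct (ι : V →L[ℝ] Lp ℝ 2 μ) {a p q M : ℝ} (ha : 0 < a) (hp : 2 < p)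
    (hpq : p.HolderConjugate q) (hM : 0 ≤ M) :
    ∃ C : ℝ, 0 < C ∧ ∀ (b θ L : ℝ) (u : ℝ → V) (v : ℝ → Lp ℝ 2 μ) (vf f : ℝ × X → ℝ), 0 ≤ L →
      Sol ι a p q b M u v vf f → TimeMod μ q θ L b f → ∀ σ τ t d : ℝ, 0 < σ → σ ≤ 1 → 1 ≤ τ → 0 < d →
      0 ≤ t - τ - 1 → t + 1 + σ < b →
      om u v σ t ≤ C * (d ^ (2 / p) +
        d ^ (2 / p - 1) * (I2 μ (t - τ - 1) (t + 1) (fun y => |vf (y.1 + σ, y.2) - vf y| ^ p) / τ) +
        σ * (1 + I2 μ (t - τ - 1) (t + 1 + σ) (fun y => |vf y| ^ p) / τ) + L * σ ^ θ * (τ + 1)) := by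
  obtain ⟨C1, hC1, K1⟩ := virial_bound (μ := μ) ι ha hp hpq hM
  obtain ⟨C2, hC2, K2⟩ := Sol.om_mono (μ := μ) ι ha hp hpq
  set m := μ.real univ with hm
  have hm0 : 0 ≤ m := measureReal_nonneg
  refine ⟨18 * m + 6 + 4 * C1 + C2, by positivity, fun b θ L u v vf f hL H hmod σ τ t d hσ hσ1 hτ hd ht1 ht2 => ?_⟩
  have D := H.diffLin hσ
  have Ln := H.lin
  have hq1 := hpq.symm.lt.le
  have hp1 := hpq.lt.le
  haveI := isProb_U hσ
  set Z := I2 μ (t - τ - 1) (t + 1) (fun y => |vf (y.1 + σ, y.2) - vf y| ^ p) with hZ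
  set Q := I2 μ (t - τ - 1) (t + 1 + σ) (fun y => |vf y| ^ p) with hQ
  have iv := integrable_rpow_of_memLp hp1 Ln.zf_mem
  have hZ0 : 0 ≤ Z := I2_nonneg (by linarith) fun y => by positivity
  have hQ0 : 0 ≤ Q := I2_nonneg (by linarith) fun y => by positivity
  set Jv : ℝ → ℝ := fun r => ‖v (r + σ) - v r‖ ^ 2 with hJv
  set Ju : ℝ → ℝ := fun r => ‖ι (u (r + σ) - u r)‖ ^ 2 with hJu
  set Jw : ℝ → ℝ := fun r => ‖u (r + σ) - u r‖ ^ 2 with hJw
  have cJv : Continuous Jv := D.z_cont.norm.pow 2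
  have cJu : Continuous Ju := (ι.continuous.comp D.w_cont).norm.pow 2
  have cJw : Continuous Jw := D.w_cont.norm.pow 2
  have nJv : ∀ r, 0 ≤ Jv r := fun r => sq_nonneg _
  have nJu : ∀ r, 0 ≤ Ju r := fun r => sq_nonneg _
  have nJw : ∀ r, 0 ≤ Jw r := fun r => sq_nonneg _
  set J := ∫ r in (t - τ - 1)..(t + 1), Jv r with hJ
  set Y := ∫ r in (t - τ - 1)..(t + 1), Ju r with hY
  have hJle : J ≤ d ^ (2 / p) * m * (τ + 2) + d ^ (2 / p - 1) * Z := by
    have := int_normsq_le (μ := μ) hp hd D.z_cont D.zf_meas D.zf_mem (s := t - τ - 1) (t := t + 1) (by linarith) (by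
      filter_upwards [D.z_ae] with r hr hr'
      exact hr ⟨by linarith [hr'.1], by linarith [hr'.2]⟩)
    refine this.trans (le_of_eq ?_)
    rw [hm, hZ]; ring
  have hYle : Y ≤ σ * (m * (τ + 2) + Q) := by
    have cc0 : Continuous (fun r => ι (u (r + σ) - u r)) := ι.continuous.comp D.w_cont
    have cc : Continuous (fun r => σ⁻¹ • ι (u (r + σ) - u r)) :=
      (continuous_const_smul σ⁻¹).comp cc0
    have := int_normsq_le (μ := μ) hp one_pos cc (stronglyMeasurable_avg (P := U σ) Ln.zf_meas)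
      (memLp_avg (P := U σ) hp1 Ln.zf_meas Ln.zf_mem) (s := t - τ - 1) (t := t + 1) (by linarith) (by
      refine Eventually.of_forall fun r hr => ?_
      have h1 := Ln.incr_ae hσ (r := r) (by linarith [hr.1]) (by linarith [hr.2])
      filter_upwards [h1, Lp.coeFn_smul σ⁻¹ (ι (u (r + σ) - u r))] with x x1 x2
      rw [x2, Pi.smul_apply, ← x1, smul_eq_mul, inv_mul_cancel_left₀ hσ.ne'])
    rw [Real.one_rpow, Real.one_rpow, one_mul, one_mul] at this
    have h2 : I2 μ (t - τ - 1) (t + 1) (fun y => |avg (U σ) vf y| ^ p) ≤ Q :=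
      I2_avg_le hp1 Ln.zf_meas Ln.zf_mem hσ (by linarith)
    have h3 : Y = σ ^ 2 * ∫ r in (t - τ - 1)..(t + 1), ‖σ⁻¹ • ι (u (r + σ) - u r)‖ ^ 2 := by
      rw [← intervalIntegral.integral_const_mul, hY]
      apply intervalIntegral.integral_congr
      intro r _
      simp only [hJu]
      rw [norm_smul, Real.norm_of_nonneg (inv_nonneg.2 hσ.le)]
      field_simp
    rw [h3]
    have h4 : (∫ r in (t - τ - 1)..(t + 1), ‖σ⁻¹ • ι (u (r + σ) - u r)‖ ^ 2) ≤ m * (τ + 2) + Q := by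
      refine this.trans ?_
      have : m * (t + 1 - (t - τ - 1)) = m * (τ + 2) := by ring
      rw [← hm, this]
      linarith
    have h5 : 0 ≤ m * (τ + 2) + Q := by positivity
    calc σ ^ 2 * ∫ r in (t - τ - 1)..(t + 1), ‖σ⁻¹ • ι (u (r + σ) - u r)‖ ^ 2
        ≤ σ ^ 2 * (m * (τ + 2) + Q) := by gcongr
      _ ≤ σ * (m * (τ + 2) + Q) := by
          apply mul_le_mul_of_nonneg_right _ h5
          nlinarith
  have hY0 : 0 ≤ Y := intervalIntegral.integral_nonneg (by linarith) fun r _ => nJu r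
  have hJ0 : 0 ≤ J := intervalIntegral.integral_nonneg (by linarith) fun r _ => nJv r
  -- good endpoints
  obtain ⟨s1, hs1, g1⟩ := exists_le_integral_unit (cJv.add cJu) (t - τ - 1)
  obtain ⟨s2, hs2, g2⟩ := exists_le_integral_unit (cJv.add cJu) t
  have e1 : t - τ - 1 + 1 = t - τ := by ring
  rw [e1] at hs1 g1
  have hN : (∫ r in (t - τ - 1)..(t - τ), (Jv r + Ju r)) + (∫ r in t..(t + 1), (Jv r + Ju r)) ≤ J + Y := by
    have ii : ∀ x y, IntervalIntegrable (fun r => Jv r + Ju r) volume x y := fun x y =>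
      (cJv.add cJu).intervalIntegrable _ _
    have a1 : (∫ r in (t - τ - 1)..(t - τ), (Jv r + Ju r)) + (∫ r in (t - τ)..t, (Jv r + Ju r)) +
        (∫ r in t..(t + 1), (Jv r + Ju r)) = ∫ r in (t - τ - 1)..(t + 1), (Jv r + Ju r) := by
      rw [intervalIntegral.integral_add_adjacent_intervals (ii _ _) (ii _ _),
        intervalIntegral.integral_add_adjacent_intervals (ii _ _) (ii _ _)]
    have a2 : 0 ≤ ∫ r in (t - τ)..t, (Jv r + Ju r) :=
      intervalIntegral.integral_nonneg (by linarith) fun r _ => add_nonneg (nJv r) (nJu r)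
    have a3 : ∫ r in (t - τ - 1)..(t + 1), (Jv r + Ju r) = J + Y :=
      intervalIntegral.integral_add (cJv.intervalIntegrable _ _) (cJu.intervalIntegrable _ _)
    linarith
  have VB := K1 b u v vf f H σ s1 s2 hσ hσ1 (by linarith [hs1.1]) (by linarith [hs1.2, hs2.1]) (by linarith [hs2.2])
  have VB' : (∫ r in s1..s2, Jw r) ≤ (∫ r in s1..s2, Jv r) + (Jv s1 + Ju s1) + (Jv s2 + Ju s2) +
      C1 * σ * ((s2 - s1) + 1 + I2 μ s1 (s2 + σ) (fun y => |vf y| ^ p)) := VB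
  have q1 : I2 μ s1 (s2 + σ) (fun y => |vf y| ^ p) ≤ Q :=
    I2_mono_set iv (fun y => by positivity) hs1.1 (by linarith [hs1.2, hs2.1]) (by linarith [hs2.2])
  have q2 : (∫ r in s1..s2, Jv r) ≤ J :=
    intervalIntegral.integral_mono_interval hs1.1 (by linarith [hs1.2, hs2.1]) (by linarith [hs2.2])
      (Eventually.of_forall nJv) (cJv.intervalIntegrable _ _)
  have q3 : (∫ r in (t - τ)..t, Jw r) ≤ ∫ r in s1..s2, Jw r :=
    intervalIntegral.integral_mono_interval hs1.2 (by linarith) hs2.1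
      (Eventually.of_forall nJw) (cJw.intervalIntegrable _ _)
  have q4 : (∫ r in (t - τ)..t, Jv r) ≤ J :=
    intervalIntegral.integral_mono_interval (by linarith) (by linarith) (by linarith)
      (Eventually.of_forall nJv) (cJv.intervalIntegrable _ _)
  have q5 : C1 * σ * ((s2 - s1) + 1 + I2 μ s1 (s2 + σ) (fun y => |vf y| ^ p)) ≤ C1 * σ * (τ + 3 + Q) := by
    have : (s2 - s1) + 1 + I2 μ s1 (s2 + σ) (fun y => |vf y| ^ p) ≤ τ + 3 + Q := by
      linarith [hs1.1, hs2.2]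
    gcongr
  have tot : (∫ r in (t - τ)..t, (Jw r + Jv r)) ≤ 3 * J + Y + C1 * σ * (τ + 3 + Q) := by
    rw [intervalIntegral.integral_add (cJw.intervalIntegrable _ _) (cJv.intervalIntegrable _ _)]
    have g1' : Jv s1 + Ju s1 ≤ ∫ r in (t - τ - 1)..(t - τ), (Jv r + Ju r) := g1
    have g2' : Jv s2 + Ju s2 ≤ ∫ r in t..(t + 1), (Jv r + Ju r) := g2
    linarith
  -- monotonicity
  have mon : ∀ r ∈ Icc (t - τ) t, om u v σ t - C2 * (L * σ ^ θ * (τ + 1)) ≤ Jw r + Jv r := by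
    intro r hr
    have := K2 b M θ L u v vf f hL H hmod σ r t hσ hσ1 (by linarith [hr.1]) hr.2 (by linarith)
    have h1 : 0 ≤ (a * 2 ^ (2 - p)) * I2 μ r t (fun y => |vf (y.1 + σ, y.2) - vf y| ^ p) :=
      mul_nonneg (by positivity) (I2_nonneg hr.2 fun y => by positivity)
    have h2 : C2 * (L * σ ^ θ * (t - r + 1)) ≤ C2 * (L * σ ^ θ * (τ + 1)) := by
      have : t - r + 1 ≤ τ + 1 := by linarith [hr.1]
      gcongr
    have h3 : om u v σ r = Jw r + Jv r := rfl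
    linarith
  have mon2 : τ * (om u v σ t - C2 * (L * σ ^ θ * (τ + 1))) ≤ ∫ r in (t - τ)..t, (Jw r + Jv r) := by
    have := intervalIntegral.integral_mono_on (μ := volume) (a := t - τ) (b := t) (by linarith) intervalIntegrable_const
      ((cJw.add cJv).intervalIntegrable _ _) mon
    rw [intervalIntegral.integral_const, smul_eq_mul] at this
    have e : t - (t - τ) = τ := by ring
    rw [e] at this
    exact this
  have hτ0 : 0 < τ := by linarith
  have fin1 : om u v σ t ≤ (3 * J + Y + C1 * σ * (τ + 3 + Q)) / τ + C2 * (L * σ ^ θ * (τ + 1)) := by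
    rw [← sub_le_iff_le_add, le_div_iff₀ hτ0]
    linarith [mul_comm τ (om u v σ t - C2 * (L * σ ^ θ * (τ + 1)))]
  refine fin1.trans ?_
  have hdp : 0 ≤ d ^ (2 / p) := by positivity
  have hdp' : 0 ≤ d ^ (2 / p - 1) := by positivity
  have hLs : 0 ≤ L * σ ^ θ * (τ + 1) := by positivity
  have r1 : (3 * J + Y + C1 * σ * (τ + 3 + Q)) / τ ≤ 9 * m * d ^ (2 / p) + 3 * (d ^ (2 / p - 1) * (Z / τ)) +
      σ * (3 * m + Q / τ) + C1 * σ * (4 + Q / τ) := by
    rw [div_le_iff₀ hτ0]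
    have e2 : (9 * m * d ^ (2 / p) + 3 * (d ^ (2 / p - 1) * (Z / τ)) +
      σ * (3 * m + Q / τ) + C1 * σ * (4 + Q / τ)) * τ = 3 * (d ^ (2 / p) * m * (3 * τ) + d ^ (2 / p - 1) * Z) +
      σ * (m * (3 * τ) + Q) + C1 * σ * (4 * τ + Q) := by field_simp; ring
    rw [e2]
    have e3 : τ + 2 ≤ 3 * τ := by linarith
    have e4 : τ + 3 ≤ 4 * τ := by linarith
    have a1 : d ^ (2 / p) * m * (τ + 2) ≤ d ^ (2 / p) * m * (3 * τ) := by gcongr
    have a2 : σ * (m * (τ + 2) + Q) ≤ σ * (m * (3 * τ) + Q) := by gcongr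
    have a3 : C1 * σ * (τ + 3 + Q) ≤ C1 * σ * (4 * τ + Q) := by gcongr
    linarith
  have hQτ : 0 ≤ Q / τ := by positivity
  have hZτ : 0 ≤ d ^ (2 / p - 1) * (Z / τ) := by positivity
  have b1 : 0 ≤ (9 * m + 6 + 4 * C1 + C2) * d ^ (2 / p) := by positivity
  have b2 : 0 ≤ (18 * m + 3 + 4 * C1 + C2) * (d ^ (2 / p - 1) * (Z / τ)) := by positivity
  have b3 : 0 ≤ σ * (15 * m + 6 + C2) := by positivity
  have b4 : 0 ≤ σ * ((18 * m + 5 + 3 * C1 + C2) * (Q / τ)) := by positivity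
  have b5 : 0 ≤ (18 * m + 6 + 4 * C1) * (L * σ ^ θ * (τ + 1)) := by positivity
  nlinarith

end Run7.h119
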