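import Mathlib
import Pool.Agent.Run7.h119.Fluct4

open MeasureTheory Set Filter Topology
open scoped ENNReal

set_option linter.unusedSectionVars false
set_option linter.style.haveILetI false
set_option linter.unusedVariables false

namespace Run7.h119

variable {X : Type*} [MetricSpace X] [SecondCountableTopology X] [SigmaCompactSpace X]
  [MeasurableSpace X] [BorelSpace X] {μ : Measure X} [IsFiniteMeasure μ]
  {V : Type*} [NormedAddCommGroup V] [InnerProductSpace ℝ V] [CompleteSpace V]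

/-! variance identity -/

theorem var_id {G : Type*} [NormedAddCommGroup G] [InnerProductSpace ℝ G] [CompleteSpace G] {h : ℝ}
    (hh : 0 < h) {F : ℝ → G} (hF : Continuous F) (t : ℝ) (c : G) :
    S h (S h (fun r => ‖F r‖ ^ 2)) t - ‖S h (S h F) t‖ ^ 2 =
      (∫ s, ‖F (t + s) - c‖ ^ 2 ∂(Pm h)) - ‖S h (S h F) t - c‖ ^ 2 := by
  haveI := isProb_Pm hh
  have cF : Continuous (fun s => F (t + s)) := hF.comp (by fun_prop)
  have cN : Continuous (fun r => ‖F r‖ ^ 2) := hF.norm.pow 2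
  rw [A_eq hh cN, A_eq hh hF]
  have e : ∀ s, ‖F (t + s) - c‖ ^ 2 = ‖F (t + s)‖ ^ 2 - 2 * inner ℝ c (F (t + s)) + ‖c‖ ^ 2 := by
    intro s
    rw [norm_sub_sq_real, real_inner_comm]
  simp_rw [e]
  have i1 : Integrable (fun s => ‖F (t + s)‖ ^ 2) (Pm h) :=
    integrable_Pm_of_continuous hh (cF.norm.pow 2)
  have i2 : Integrable (fun s => 2 * (inner ℝ c (F (t + s)) : ℝ)) (Pm h) :=
    integrable_Pm_of_continuous hh (continuous_const.mul (continuous_const.inner cF))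
  have i3 : Integrable (fun s => F (t + s)) (Pm h) := integrable_Pm_of_continuous hh cF
  have i12 : Integrable (fun s => ‖F (t + s)‖ ^ 2 - 2 * (inner ℝ c (F (t + s)) : ℝ)) (Pm h) := i1.sub i2
  rw [integral_add i12 (integrable_const _), integral_sub i1 i2, integral_const_mul, integral_inner i3,
    norm_sub_sq_real, real_inner_comm]
  simp

theorem flu_nonneg {h : ℝ} (hh : 0 < h) {u : ℝ → V} {v : ℝ → Lp ℝ 2 μ} (hu : Continuous u)
    (hv : Continuous v) (t : ℝ) : 0 ≤ LinSol.flu h u v t := by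
  have e1 : S h (S h (fun t => ‖u t‖ ^ 2 + ‖v t‖ ^ 2)) t =
      S h (S h (fun t => ‖u t‖ ^ 2)) t + S h (S h (fun t => ‖v t‖ ^ 2)) t := by
    have c1 : Continuous (fun t => ‖u t‖ ^ 2) := hu.norm.pow 2
    have c2 : Continuous (fun t => ‖v t‖ ^ 2) := hv.norm.pow 2
    have c12 : Continuous (fun t => ‖u t‖ ^ 2 + ‖v t‖ ^ 2) := c1.add c2
    rw [A_eq hh c12, A_eq hh c1, A_eq hh c2, integral_add]
    · exact integrable_Pm_of_continuous hh (c1.comp (by fun_prop))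
    · exact integrable_Pm_of_continuous hh (c2.comp (by fun_prop))
  have h1 := var_id hh hu t (S h (S h u) t)
  have h2 := var_id hh hv t (S h (S h v) t)
  rw [sub_self, norm_zero] at h1 h2
  have n1 : 0 ≤ ∫ s, ‖u (t + s) - S h (S h u) t‖ ^ 2 ∂(Pm h) := integral_nonneg fun s => by positivity
  have n2 : 0 ≤ ∫ s, ‖v (t + s) - S h (S h v) t‖ ^ 2 ∂(Pm h) := integral_nonneg fun s => by positivity
  unfold LinSol.flu
  rw [e1]
  have : (0:ℝ) ^ 2 = 0 := by norm_num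
  rw [this] at h1 h2
  linarith

theorem flu_le_om {h : ℝ} (hh : 0 < h) {u : ℝ → V} {v : ℝ → Lp ℝ 2 μ} (hu : Continuous u)
    (hv : Continuous v) {t B : ℝ} (hB : ∀ σ ∈ Ioc 0 (2 * h), om u v σ t ≤ B) :
    LinSol.flu h u v t ≤ B / 2 := by
  haveI := isProb_Pm hh
  have e1 : S h (S h (fun t => ‖u t‖ ^ 2 + ‖v t‖ ^ 2)) t =
      S h (S h (fun t => ‖u t‖ ^ 2)) t + S h (S h (fun t => ‖v t‖ ^ 2)) t := by
    have c1 : Continuous (fun t => ‖u t‖ ^ 2) := hu.norm.pow 2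
    have c2 : Continuous (fun t => ‖v t‖ ^ 2) := hv.norm.pow 2
    have c12 : Continuous (fun t => ‖u t‖ ^ 2 + ‖v t‖ ^ 2) := c1.add c2
    rw [A_eq hh c12, A_eq hh c1, A_eq hh c2, integral_add]
    · exact integrable_Pm_of_continuous hh (c1.comp (by fun_prop))
    · exact integrable_Pm_of_continuous hh (c2.comp (by fun_prop))
  have h1 := var_id hh hu t (u t)
  have h2 := var_id hh hv t (v t)
  have cu : Continuous (fun s => ‖u (t + s) - u t‖ ^ 2) := by fun_prop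
  have cv' : Continuous (fun s => ‖v (t + s) - v t‖ ^ 2) := by fun_prop
  have i1 := integrable_Pm_of_continuous hh cu
  have i2 := integrable_Pm_of_continuous hh cv'
  have h3 : (∫ s, ‖u (t + s) - u t‖ ^ 2 ∂(Pm h)) + (∫ s, ‖v (t + s) - v t‖ ^ 2 ∂(Pm h)) ≤ B := by
    rw [← integral_add i1 i2]
    calc ∫ s, (‖u (t + s) - u t‖ ^ 2 + ‖v (t + s) - v t‖ ^ 2) ∂(Pm h) ≤ ∫ s, B ∂(Pm h) := by
          refine integral_mono_ae (i1.add i2) (integrable_const _) ?_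
          filter_upwards [ae_Pm_mem hh] with s hs
          exact hB s hs
      _ = B := by simp
  unfold LinSol.flu
  rw [e1]
  have n1 : 0 ≤ ‖S h (S h u) t - u t‖ ^ 2 := sq_nonneg _
  have n2 : 0 ≤ ‖S h (S h v) t - v t‖ ^ 2 := sq_nonneg _
  linarith

theorem om_le_four {u : ℝ → V} {v : ℝ → Lp ℝ 2 μ} {σ t K : ℝ}
    (h1 : ‖u (t + σ)‖ ^ 2 + ‖v (t + σ)‖ ^ 2 ≤ K) (h2 : ‖u t‖ ^ 2 + ‖v t‖ ^ 2 ≤ K) :
    om u v σ t ≤ 4 * K := by
  have k1 : ‖u (t + σ) - u t‖ ^ 2 ≤ 2 * ‖u (t + σ)‖ ^ 2 + 2 * ‖u t‖ ^ 2 := by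
    have := norm_sub_le (u (t + σ)) (u t)
    nlinarith [sq_nonneg (‖u (t + σ)‖ - ‖u t‖), norm_nonneg (u (t + σ) - u t), norm_nonneg (u (t + σ)), norm_nonneg (u t)]
  have k2 : ‖v (t + σ) - v t‖ ^ 2 ≤ 2 * ‖v (t + σ)‖ ^ 2 + 2 * ‖v t‖ ^ 2 := by
    have := norm_sub_le (v (t + σ)) (v t)
    nlinarith [sq_nonneg (‖v (t + σ)‖ - ‖v t‖), norm_nonneg (v (t + σ) - v t), norm_nonneg (v (t + σ)), norm_nonneg (v t)]
  unfold om
  linarith

/-- small fluctuations after a long time -/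
theorem fluct_late (ι : V →L[ℝ] Lp ℝ 2 μ) {a p q M L : ℝ} (ha : 0 < a) (hp : 2 < p)
    (hpq : p.HolderConjugate q) (hM : 0 ≤ M) (hL : 0 ≤ L) :
    ∃ C : ℝ, 0 < C ∧ ∀ (b θ : ℝ) (u : ℝ → V) (v : ℝ → Lp ℝ 2 μ) (vf f : ℝ × X → ℝ),
      Sol ι a p q b M u v vf f → TimeMod μ q θ L b f → ∀ K T : ℝ, 1 ≤ K → T < b →
      (∀ r ∈ Icc 0 T, ‖u r‖ ^ 2 + ‖v r‖ ^ 2 ≤ K) →
      ∀ σ τ t : ℝ, 0 < σ → σ ≤ 1 → 1 ≤ τ → 0 ≤ t - τ - 1 → t + 1 + σ ≤ T →
      om u v σ t ≤ C * ((K / τ + σ ^ θ) ^ (2 / p) + σ * (1 + K / τ) + σ ^ θ * (τ + 1)) := by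
  obtain ⟨C1, hC1, K1⟩ := fluct (μ := μ) ι ha hp hpq hM
  obtain ⟨C2, hC2, K2⟩ := Sol.om_mono (μ := μ) ι ha hp hpq
  obtain ⟨C3, hC3, K3⟩ := Sol.diss (μ := μ) ι ha hp hpq hM
  obtain ⟨c, hc, hcd⟩ : ∃ c : ℝ, 0 < c ∧ a * 2 ^ (2 - p) = c := ⟨_, by positivity, rfl⟩
  refine ⟨C1 * (1 + (4 + 4 * C2 * L) / c + (1 + 1 / a + 4 * C3) + L), by positivity,
    fun b θ u v vf f H hmod K T hK hT hE σ τ t hσ hσ1 hτ ht1 ht2 => ?_⟩
  have hτ0 : 0 < τ := by linarith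
  have hσθ : 0 < σ ^ θ := by positivity
  set d := K / τ + σ ^ θ with hd
  have hdp : 0 < d := by positivity
  have k1 := K1 b θ L u v vf f hL H hmod σ τ t d hσ hσ1 hτ hdp ht1 (by linarith)
  have k2 := K2 b M θ L u v vf f hL H hmod σ (t - τ - 1) (t + 1) hσ hσ1 ht1 (by linarith) (by linarith)
  have k3 := K3 b u v vf f H (t - τ - 1) (t + 1 + σ) ht1 (by linarith) (by linarith)
  set Z := I2 μ (t - τ - 1) (t + 1) (fun y => |vf (y.1 + σ, y.2) - vf y| ^ p) with hZ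
  set Q := I2 μ (t - τ - 1) (t + 1 + σ) (fun y => |vf y| ^ p) with hQ
  have hom : om u v σ (t - τ - 1) ≤ 4 * K := om_le_four
    (hE _ ⟨by linarith, by linarith⟩) (hE _ ⟨ht1, by linarith⟩)
  have hom0 : 0 ≤ om u v σ (t + 1) := by unfold om; positivity
  rw [hcd] at k2
  have hZle : Z / τ ≤ (4 + 4 * C2 * L) / c * d := by
    have h1 : c * Z ≤ 4 * K + C2 * (L * σ ^ θ * (4 * τ)) := by
      have : C2 * (L * σ ^ θ * (t + 1 - (t - τ - 1) + 1)) ≤ C2 * (L * σ ^ θ * (4 * τ)) := by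
        have : t + 1 - (t - τ - 1) + 1 ≤ 4 * τ := by linarith
        gcongr
      linarith
    rw [div_le_iff₀ hτ0]
    have h2 : (4 + 4 * C2 * L) / c * d * τ = ((4 + 4 * C2 * L) * (K + σ ^ θ * τ)) / c := by
      rw [hd]; field_simp
    rw [h2, le_div_iff₀ hc]
    have : 0 ≤ 4 * (σ ^ θ * τ) + 4 * C2 * L * K := by positivity
    nlinarith
  have hQle : Q / τ ≤ (1 / a + 4 * C3) * (1 + K / τ) := by
    have h1 : Q ≤ (1 / a) * K + C3 * (4 * τ) := by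
      have e1 : ‖u (t - τ - 1)‖ ^ 2 + ‖v (t - τ - 1)‖ ^ 2 ≤ K := hE _ ⟨ht1, by linarith⟩
      have e2 : 0 ≤ ‖u (t + 1 + σ)‖ ^ 2 + ‖v (t + 1 + σ)‖ ^ 2 := by positivity
      have e3 : (1 / a) * ((‖u (t - τ - 1)‖ ^ 2 + ‖v (t - τ - 1)‖ ^ 2) - (‖u (t + 1 + σ)‖ ^ 2 + ‖v (t + 1 + σ)‖ ^ 2)) ≤
          (1 / a) * K := by gcongr; linarith
      have e4 : C3 * (t + 1 + σ - (t - τ - 1)) ≤ C3 * (4 * τ) := by
        have : t + 1 + σ - (t - τ - 1) ≤ 4 * τ := by linarith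
        gcongr
      linarith
    rw [div_le_iff₀ hτ0]
    have h2 : (1 / a + 4 * C3) * (1 + K / τ) * τ = (1 / a + 4 * C3) * (τ + K) := by field_simp
    rw [h2]
    have : 0 ≤ 1 / a * τ + 4 * C3 * K := by positivity
    nlinarith
  have hdd : d ^ (2 / p - 1) * d = d ^ (2 / p) := by
    rw [← Real.rpow_add_one hdp.ne']; congr 1; ring
  have t1 : d ^ (2 / p - 1) * (Z / τ) ≤ (4 + 4 * C2 * L) / c * d ^ (2 / p) := by
    calc d ^ (2 / p - 1) * (Z / τ) ≤ d ^ (2 / p - 1) * ((4 + 4 * C2 * L) / c * d) := by gcongr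
      _ = _ := by rw [← hdd]; ring
  have hKτ : 0 ≤ K / τ := by positivity
  have t2 : σ * (1 + Q / τ) ≤ (1 + 1 / a + 4 * C3) * (σ * (1 + K / τ)) := by
    have : 1 + Q / τ ≤ (1 + 1 / a + 4 * C3) * (1 + K / τ) := by nlinarith
    calc σ * (1 + Q / τ) ≤ σ * ((1 + 1 / a + 4 * C3) * (1 + K / τ)) := by gcongr
      _ = _ := by ring
  have hdd0 : 0 ≤ d ^ (2 / p) := by positivity
  have n1 : 0 ≤ σ * (1 + K / τ) := by positivity
  have n2 : 0 ≤ σ ^ θ * (τ + 1) := by positivity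
  have n3 : 0 ≤ (4 + 4 * C2 * L) / c := by positivity
  have n4 : 0 ≤ 1 + 1 / a + 4 * C3 := by positivity
  refine k1.trans ?_
  rw [mul_assoc C1]
  apply mul_le_mul_of_nonneg_left _ hC1.le
  have m1 : 0 ≤ ((1 + 1 / a + 4 * C3) + L) * d ^ (2 / p) := by positivity
  have m2 : 0 ≤ (1 + (4 + 4 * C2 * L) / c + L) * (σ * (1 + K / τ)) := by positivity
  have m3 : 0 ≤ (1 + (4 + 4 * C2 * L) / c + (1 + 1 / a + 4 * C3)) * (σ ^ θ * (τ + 1)) := by positivity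
  nlinarith

end Run7.h119
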