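import Mathlib
import Pool.Agent.Run7.h119.Cor

open MeasureTheory Set Filter Topology
open scoped ENNReal

set_option linter.unusedSectionVars false
set_option linter.style.haveILetI false
set_option linter.unusedVariables false

namespace Run7.h119

variable {X : Type*} [MetricSpace X] [SecondCountableTopology X] [SigmaCompactSpace X]
  [MeasurableSpace X] [BorelSpace X] {μ : Measure X} [IsFiniteMeasure μ]
  {V : Type*} [NormedAddCommGroup V] [InnerProductSpace ℝ V] [CompleteSpace V]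

theorem near_record (ι : V →L[ℝ] Lp ℝ 2 μ) {a p q M L : ℝ} (ha : 0 < a) (hp : 2 < p)
    (hpq : p.HolderConjugate q) (hM : 0 ≤ M) (hL : 0 ≤ L) :
    ∃ C : ℝ, 0 < C ∧ ∀ (b θ : ℝ) (u : ℝ → V) (v : ℝ → Lp ℝ 2 μ) (vf f : ℝ × X → ℝ), 0 < θ →
      Sol ι a p q b M u v vf f → TimeMod μ q θ L b f → ∀ T : ℝ, 6 ≤ T → T < b →
      (∀ r ∈ Icc 0 T, ‖u r‖ ^ 2 + ‖v r‖ ^ 2 ≤ ‖u T‖ ^ 2 + ‖v T‖ ^ 2) →
      ∃ t ∈ Icc (T - 3) (T - 2), ‖u T‖ ^ 2 + ‖v T‖ ^ 2 ≤ 2 * ‖S (1 / 2) (S (1 / 2) u) t‖ ^ 2 + C ∧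
        I2 μ t (t + 1) (fun y => |vf y| ^ p) ≤ C := by
  obtain ⟨C1, hC1, K1⟩ := fluct (μ := μ) ι ha hp hpq hM
  obtain ⟨C3, hC3, K3⟩ := Sol.diss (μ := μ) ι ha hp hpq hM
  set m := μ.real univ with hm
  have hm0 : 0 ≤ m := measureReal_nonneg
  set B := C1 * (1 + 2 * 2 ^ p * (5 * C3) + (1 + 5 * C3) + 2 * L) with hB
  have hB0 : 0 ≤ B := by positivity
  refine ⟨2 * B + (m + 5 * C3) + 3 * a * C3 + 5 * C3, by positivity,
    fun b θ u v vf f hθ H hmod T hT hTb hrec => ?_⟩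
  have Ln := H.lin
  have hp1 := hpq.lt.le
  have hh : (0:ℝ) < 1 / 2 := by norm_num
  haveI := isProb_Pm hh
  have iv := integrable_rpow_of_memLp hp1 Ln.zf_mem
  have Q0 : I2 μ (T - 5) T (fun y => |vf y| ^ p) ≤ 5 * C3 := by
    have h1 := K3 b u v vf f H (T - 5) T (by linarith) (by linarith) hTb
    have h2 := hrec (T - 5) ⟨by linarith, by linarith⟩
    have h3 : (1 / a) * ((‖u (T - 5)‖ ^ 2 + ‖v (T - 5)‖ ^ 2) - (‖u T‖ ^ 2 + ‖v T‖ ^ 2)) ≤ 0 :=
      mul_nonpos_of_nonneg_of_nonpos (by positivity) (by linarith)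
    linarith
  have sub : ∀ s t, T - 5 ≤ s → s ≤ t → t ≤ T → I2 μ s t (fun y => |vf y| ^ p) ≤ 5 * C3 := fun s t h1 h2 h3 =>
    (I2_mono_set iv (fun y => by positivity) h1 h2 h3).trans Q0
  obtain ⟨t, ht, hvt⟩ := exists_le_integral_unit (Ln.z_cont.norm.pow 2) (T - 3)
  have e1 : T - 3 + 1 = T - 2 := by ring
  rw [e1] at ht hvt
  have hvt2 : ‖v t‖ ^ 2 ≤ m + 5 * C3 := by
    refine hvt.trans ?_
    have := int_normsq_le (μ := μ) hp one_pos Ln.z_cont Ln.zf_meas Ln.zf_mem (s := T - 3) (t := T - 2) (by linarith) (by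
      filter_upwards [Ln.z_ae] with r hr hr'
      exact hr ⟨by linarith [hr'.1], by linarith [hr'.2]⟩)
    rw [Real.one_rpow, Real.one_rpow, one_mul, one_mul] at this
    have h2 := sub (T - 3) (T - 2) (by linarith) (by linarith) (by linarith)
    have h3 : μ.real univ * (T - 2 - (T - 3)) = m := by rw [hm]; ring
    rw [h3] at this
    exact this.trans (by linarith)
  have hom : ∀ σ ∈ Ioc (0:ℝ) (2 * (1 / 2)), om u v σ t ≤ B := by
    intro σ hσ
    have hσ1 : σ ≤ 1 := by linarith [hσ.2]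
    have k := K1 b θ L u v vf f hL H hmod σ 1 t 1 hσ.1 hσ1 le_rfl one_pos (by linarith [ht.1])
      (by linarith [ht.2])
    rw [Real.one_rpow, Real.one_rpow, div_one, div_one, one_mul] at k
    have hZ : I2 μ (t - 1 - 1) (t + 1) (fun y => |vf (y.1 + σ, y.2) - vf y| ^ p) ≤ 2 * 2 ^ p * (5 * C3) := by
      have i1 := integrable_rpow_of_memLp hp1 ((memLp_shift Ln.zf_mem σ).sub Ln.zf_mem)
      have i2 := integrable_shift iv σ
      have i3 : Integrable (fun y : ℝ × X => 2 ^ p * (|vf (y.1 + σ, y.2)| ^ p + |vf y| ^ p)) (volume.prod μ) :=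
        (i2.add iv).const_mul _
      have h1 : I2 μ (t - 1 - 1) (t + 1) (fun y => |vf (y.1 + σ, y.2) - vf y| ^ p) ≤
          I2 μ (t - 1 - 1) (t + 1) (fun y => 2 ^ p * (|vf (y.1 + σ, y.2)| ^ p + |vf y| ^ p)) :=
        I2_mono (by linarith) i1 i3 fun y => abs_sub_rpow_le hp1
      rw [I2_const_mul, I2_add i2 iv, I2_shift (F := fun y => |vf y| ^ p)] at h1
      have h2 := sub (t - 1 - 1 + σ) (t + 1 + σ) (by linarith [ht.1, hσ.1]) (by linarith) (by linarith [ht.2])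
      have h3 := sub (t - 1 - 1) (t + 1) (by linarith [ht.1]) (by linarith) (by linarith [ht.2])
      refine h1.trans ?_
      have : 2 * 2 ^ p * (5 * C3) = 2 ^ p * (5 * C3 + 5 * C3) := by ring
      rw [this]
      gcongr
    have hQ : I2 μ (t - 1 - 1) (t + 1 + σ) (fun y => |vf y| ^ p) ≤ 5 * C3 :=
      sub _ _ (by linarith [ht.1]) (by linarith [hσ.1]) (by linarith [ht.2])
    have hσθ : σ ^ θ ≤ 1 := Real.rpow_le_one hσ.1.le hσ1 hθ.le
    have hσθ0 : 0 ≤ σ ^ θ := Real.rpow_nonneg hσ.1.le _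
    refine k.trans ?_
    rw [hB]
    apply mul_le_mul_of_nonneg_left _ hC1.le
    have a1 : σ * (1 + I2 μ (t - 1 - 1) (t + 1 + σ) (fun y => |vf y| ^ p)) ≤ 1 * (1 + 5 * C3) := by
      have : 0 ≤ I2 μ (t - 1 - 1) (t + 1 + σ) (fun y => |vf y| ^ p) :=
        I2_nonneg (by linarith [hσ.1]) fun y => by positivity
      gcongr
    have a2 : L * σ ^ θ * (1 + 1) ≤ 2 * L := by nlinarith
    linarith
  have hdiff : ‖S (1 / 2) (S (1 / 2) u) t - u t‖ ^ 2 ≤ B := by
    have h1 := var_id hh Ln.w_cont t (u t)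
    have h2 := var_id hh Ln.w_cont t (S (1 / 2) (S (1 / 2) u) t)
    rw [sub_self, norm_zero] at h2
    have n1 : 0 ≤ ∫ s, ‖u (t + s) - S (1 / 2) (S (1 / 2) u) t‖ ^ 2 ∂(Pm (1 / 2)) :=
      integral_nonneg fun s => by positivity
    have cu : Continuous (fun s => ‖u (t + s) - u t‖ ^ 2) := by
      have := Ln.w_cont
      fun_prop
    have n2 : ∫ s, ‖u (t + s) - u t‖ ^ 2 ∂(Pm (1 / 2)) ≤ B := by
      calc ∫ s, ‖u (t + s) - u t‖ ^ 2 ∂(Pm (1 / 2)) ≤ ∫ s, B ∂(Pm (1 / 2)) := by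
            refine integral_mono_ae (integrable_Pm_of_continuous hh cu) (integrable_const _) ?_
            filter_upwards [ae_Pm_mem hh] with s hs
            have := hom s hs
            unfold om at this
            have h0 : 0 ≤ ‖v (t + s) - v t‖ ^ 2 := by positivity
            linarith
        _ = B := by rw [integral_const, probReal_univ, one_smul]
    have : (0:ℝ) ^ 2 = 0 := by norm_num
    rw [this] at h2
    linarith
  refine ⟨t, ht, ?_, ?_⟩
  · have h1 := K3 b u v vf f H t T (by linarith [ht.1]) (by linarith [ht.2]) hTb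
    have h2 : 0 ≤ I2 μ t T (fun y => |vf y| ^ p) := I2_nonneg (by linarith [ht.2]) fun y => by positivity
    have h3 : ‖u T‖ ^ 2 + ‖v T‖ ^ 2 ≤ ‖u t‖ ^ 2 + ‖v t‖ ^ 2 + 3 * a * C3 := by
      have h4 : 0 ≤ (1 / a) * ((‖u t‖ ^ 2 + ‖v t‖ ^ 2) - (‖u T‖ ^ 2 + ‖v T‖ ^ 2)) + C3 * (T - t) := h2.trans h1
      have h5 : C3 * (T - t) ≤ C3 * 3 := by gcongr; linarith [ht.1]
      have h6 : 0 ≤ a * ((1 / a) * ((‖u t‖ ^ 2 + ‖v t‖ ^ 2) - (‖u T‖ ^ 2 + ‖v T‖ ^ 2)) + C3 * 3) := by
        apply mul_nonneg ha.le; linarith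
      have h7 : a * ((1 / a) * ((‖u t‖ ^ 2 + ‖v t‖ ^ 2) - (‖u T‖ ^ 2 + ‖v T‖ ^ 2)) + C3 * 3) =
          ((‖u t‖ ^ 2 + ‖v t‖ ^ 2) - (‖u T‖ ^ 2 + ‖v T‖ ^ 2)) + 3 * a * C3 := by field_simp
      linarith
    have h8 : ‖u t‖ ^ 2 ≤ 2 * ‖S (1 / 2) (S (1 / 2) u) t‖ ^ 2 + 2 * ‖S (1 / 2) (S (1 / 2) u) t - u t‖ ^ 2 := by
      have e : u t = S (1 / 2) (S (1 / 2) u) t - (S (1 / 2) (S (1 / 2) u) t - u t) := by abel
      have h9 : ‖u t‖ ≤ ‖S (1 / 2) (S (1 / 2) u) t‖ + ‖S (1 / 2) (S (1 / 2) u) t - u t‖ := by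
        conv_lhs => rw [e]
        exact norm_sub_le _ _
      nlinarith [sq_nonneg (‖S (1 / 2) (S (1 / 2) u) t‖ - ‖S (1 / 2) (S (1 / 2) u) t - u t‖), norm_nonneg (u t),
        norm_nonneg (S (1 / 2) (S (1 / 2) u) t), norm_nonneg (S (1 / 2) (S (1 / 2) u) t - u t)]
    have : 0 ≤ 5 * C3 := by positivity
    linarith
  · have h1 := sub t (t + 1) (by linarith [ht.1]) (by linarith) (by linarith [ht.2])
    have : 0 ≤ 3 * a * C3 := by positivity
    linarith


theorem integral_avg_le {P : Measure ℝ} [IsProbabilityMeasure P] {c δ : ℝ} (hc : 0 ≤ c)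
    (hP : P ≤ ENNReal.ofReal c • volume) (hsupp : ∀ᵐ s ∂P, s ∈ Ioc 0 δ) (hδ : 0 ≤ δ)
    {ψ : ℝ × X → ℝ} (hm : StronglyMeasurable ψ) {p : ℝ} (hp : 1 ≤ p)
    (hψ : MemLp ψ (ENNReal.ofReal p) (volume.prod μ)) (t : ℝ) :
    ∫ x, |avg P ψ (t, x)| ^ p ∂μ ≤ c * I2 μ t (t + δ) (fun y => |ψ y| ^ p) := by
  have hp0 : 0 < p := by linarith
  have i1 := integrable_rpow_of_memLp hp (memLp_avg_slice ENNReal.ofReal_ne_top hP hp hm hψ t)
  have i2 := integrable_rpow_of_memLp hp hψ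
  have nn : 0 ≤ c * I2 μ t (t + δ) (fun y => |ψ y| ^ p) :=
    mul_nonneg hc (I2_nonneg (by linarith) fun y => by positivity)
  rw [← ENNReal.ofReal_le_ofReal_iff nn, ENNReal.ofReal_mul hc,
    ofReal_I2 (by linarith) i2 (fun y => by positivity),
    ofReal_integral_eq_lintegral_ofReal i1 (Eventually.of_forall fun _ => by positivity)]
  have hmm : Measurable (fun y : ℝ × X => ENNReal.ofReal (|ψ y| ^ p)) := by
    have := hm.measurable; fun_prop
  have e1 : ∀ x, ENNReal.ofReal (|avg P ψ (t, x)| ^ p) ≤ ∫⁻ τ, ENNReal.ofReal (|ψ (t + τ, x)| ^ p) ∂P := by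
    intro x
    have := enorm_integral_rpow_le (P := P) hp
      (hm.comp_measurable (by fun_prop : Measurable (fun s : ℝ => (t + s, x)))).aestronglyMeasurable
    rw [← ofReal_norm, Real.norm_eq_abs, ENNReal.ofReal_rpow_of_nonneg (abs_nonneg _) hp0.le] at this
    refine this.trans (le_of_eq ?_)
    apply lintegral_congr
    intro τ
    rw [← ofReal_norm, Real.norm_eq_abs, ENNReal.ofReal_rpow_of_nonneg (abs_nonneg _) hp0.le]
    rfl
  have e3 : P ≤ ENNReal.ofReal c • volume.restrict (Ioc 0 δ) := by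
    have h1 : P.restrict (Ioc 0 δ) = P := Measure.restrict_eq_self_of_ae_mem hsupp
    rw [← h1, ← Measure.restrict_smul]
    exact Measure.restrict_mono le_rfl hP
  calc ∫⁻ x, ENNReal.ofReal (|avg P ψ (t, x)| ^ p) ∂μ
      ≤ ∫⁻ x, ∫⁻ τ, ENNReal.ofReal (|ψ (t + τ, x)| ^ p) ∂P ∂μ := lintegral_mono e1
    _ = ∫⁻ τ, ∫⁻ x, ENNReal.ofReal (|ψ (t + τ, x)| ^ p) ∂μ ∂P := by
        refine lintegral_lintegral_swap ?_
        exact (hmm.comp (by fun_prop : Measurable (fun y : X × ℝ => (t + y.2, y.1)))).aemeasurable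
    _ ≤ ∫⁻ τ, (∫⁻ x, ENNReal.ofReal (|ψ (t + τ, x)| ^ p) ∂μ) ∂(ENNReal.ofReal c • volume.restrict (Ioc 0 δ)) :=
        lintegral_mono' e3 le_rfl
    _ = ENNReal.ofReal c * ∫⁻ τ in Ioc 0 δ, ∫⁻ x, ENNReal.ofReal (|ψ (t + τ, x)| ^ p) ∂μ := by
        rw [lintegral_smul_measure]; rfl
    _ = _ := by
        congr 1
        rw [← lintegral_indicator measurableSet_Ioc, ← lintegral_indicator measurableSet_Ioc,
          ← lintegral_add_left_eq_self ((Ioc t (t + δ)).indicator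
            (fun r => ∫⁻ x, ENNReal.ofReal (|ψ (r, x)| ^ p) ∂μ)) t]
        apply lintegral_congr
        intro r
        by_cases hc : r ∈ Ioc 0 δ
        · rw [indicator_of_mem hc, indicator_of_mem (show t + r ∈ Ioc t (t + δ) from
            ⟨by linarith [hc.1], by linarith [hc.2]⟩)]
        · rw [indicator_of_notMem hc, indicator_of_notMem]
          intro hd
          exact hc ⟨by linarith [hd.1], by linarith [hd.2]⟩

/-- the norm of the smoothed solution in terms of the obstacle functional -/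
theorem norm_le_Dl (ι : V →L[ℝ] Lp ℝ 2 μ) {P : V → V} (hP : IsProj (Obs ι 1) P) {a p q M : ℝ}
    (ha : 0 < a) (hp : 2 < p) (hpq : p.HolderConjugate q) (hM : 0 ≤ M) :
    ∃ C : ℝ, 0 < C ∧ ∀ (b : ℝ) (u : ℝ → V) (v : ℝ → Lp ℝ 2 μ) (vf f : ℝ × X → ℝ),
      Sol ι a p q b M u v vf f → ∀ t l : ℝ, 0 ≤ t → t + 1 < b → 0 < l →
      ‖S (1 / 2) (S (1 / 2) u) t‖ ^ 2 ≤ 4 * Dl P l (S (1 / 2) (S (1 / 2) u) t) +
        C * l * (1 + I2 μ t (t + 1) (fun y => |vf y| ^ p)) := by
  set m := μ.real univ with hm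
  have hm0 : 0 ≤ m := measureReal_nonneg
  refine ⟨2 * ((m + M ^ 2) + (m + a ^ q * 2) + 2 * (2 * m + 4)) + 1, by positivity,
    fun b u v vf f H t l ht htb hl => ?_⟩
  have Ln := H.lin
  have hp1 := hpq.lt.le
  have hq1 := hpq.symm.lt.le
  have hq2 := conj_lt_two hp hpq
  have hh : (0:ℝ) < 1 / 2 := by norm_num
  haveI := isProb_Pm hh
  haveI := isProb_U hh
  set h : ℝ := 1 / 2 with hhdef
  have h2 : 2 * h = 1 := by rw [hhdef]; norm_num
  have hinv : h⁻¹ = 2 := by rw [hhdef]; norm_num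
  have iv := integrable_rpow_of_memLp hp1 Ln.zf_mem
  set Q := I2 μ t (t + 1) (fun y => |vf y| ^ p) with hQ
  have hQ0 : 0 ≤ Q := I2_nonneg (by linarith) fun y => by positivity
  have hz := zl_mem hP hl (S h (S h u) t)
  set z := zl P l (S h (S h u) t) with hzdef
  have h0 := norm_sq_le_Dl hP hl (S h (S h u) t)
  rw [← hzdef] at h0
  have mz : MemLp (ι z) (ENNReal.ofReal p) μ := by
    refine (memLp_const l).of_le (Lp.aestronglyMeasurable _) ?_
    filter_upwards [hz] with x hx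
    rw [Real.norm_eq_abs, Real.norm_of_nonneg hl.le]; exact hx
  have heq := Ln.avg_eq hh ht (by rw [h2]; exact htb) mz
  have fq := H.f_memq
  have mgm : StronglyMeasurable (fun y => gfun a p (vf y)) :=
    (measurable_gfun.comp Ln.zf_meas.measurable).stronglyMeasurable
  have mg := memLp_gfun ha hp hpq Ln.zf_mem
  have sl2 := ae_memLp_slice (P := Pm h) ENNReal.ofReal_ne_top (Pm_le hh) hq1 H.f_meas fq t
  have sl1 := ae_memLp_slice (P := Pm h) ENNReal.ofReal_ne_top (Pm_le hh) hp1 Ln.zf_meas Ln.zf_mem t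
  have mA := memLp_avg_slice (P := Pm h) ENNReal.ofReal_ne_top (Pm_le hh) hq1 mgm mg t
  have mF := memLp_avg_slice (P := Pm h) ENNReal.ofReal_ne_top (Pm_le hh) hq1 H.f_meas fq t
  have mF2 := memLp_avg_slice (P := Pm h) ENNReal.ofReal_ne_top (Pm_le hh) (by norm_num : (1:ℝ) ≤ 2) H.f_meas H.f_mem t
  have mU : ∀ r', MemLp (fun x => avg (U h) vf (r', x)) (ENNReal.ofReal p) μ := fun r' =>
    memLp_avg_slice ENNReal.ofReal_ne_top U_le hp1 Ln.zf_meas Ln.zf_mem r'
  have jA := integrable_rpow_of_memLp hq1 mA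
  have jF := integrable_rpow_of_memLp (by norm_num : (1:ℝ) ≤ 2) mF2
  have jU := fun r' => integrable_rpow_of_memLp hp1 (mU r')
  -- bounds of the four integrals
  have bA : ∫ x, |avg (Pm h) (fun y => gfun a p (vf y)) (t, x)| ^ q ∂μ ≤ a ^ q * 2 * Q := by
    have k := integral_avg_le (P := Pm h) (c := h⁻¹) (δ := 2 * h) (by positivity) (Pm_le hh) (ae_Pm_mem hh) (by positivity) mgm hq1 mg t
    rw [hinv, h2] at k
    refine k.trans (le_of_eq ?_)
    have e : ∀ y : ℝ × X, |gfun a p (vf y)| ^ q = a ^ q * |vf y| ^ p := by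
      intro y
      rw [abs_gfun ha hp, Real.mul_rpow ha.le (by positivity), ← Real.rpow_mul (abs_nonneg _),
        hpq.sub_one_mul_conj]
    simp_rw [e]
    rw [I2_const_mul]; ring
  have bF : ∫ x, |avg (Pm h) f (t, x)| ^ (2:ℝ) ∂μ ≤ M ^ 2 := by
    have k := H.avg_f_bd (P := Pm h) (Measure.absolutelyContinuous_of_le_smul (Pm_le hh)) t
    rw [← ENNReal.ofReal_le_ofReal_iff (by positivity),
      ofReal_integral_eq_lintegral_ofReal jF (Eventually.of_forall fun _ => by positivity)]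
    refine le_trans (le_of_eq ?_) k
    apply lintegral_congr
    intro x
    rw [← ofReal_norm, Real.norm_eq_abs, ENNReal.ofReal_rpow_of_nonneg (abs_nonneg _) (by norm_num)]
  have bU1 : ∫ x, |avg (U h) vf (t, x)| ^ p ∂μ ≤ 2 * Q := by
    have k := integral_avg_le (P := U h) (c := h⁻¹) (δ := h) (by positivity) U_le ae_U_mem hh.le Ln.zf_meas hp1 Ln.zf_mem t
    rw [hinv] at k
    refine k.trans ?_
    have := I2_mono_set (s := t) (t := t + h) (s' := t) (t' := t + 1) iv (fun y => by positivity) le_rfl (by linarith) (by rw [← h2]; linarith)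
    linarith
  have bU2 : ∫ x, |avg (U h) vf (t + h, x)| ^ p ∂μ ≤ 2 * Q := by
    have k := integral_avg_le (P := U h) (c := h⁻¹) (δ := h) (by positivity) U_le ae_U_mem hh.le Ln.zf_meas hp1 Ln.zf_mem (t + h)
    rw [hinv] at k
    refine k.trans ?_
    have := I2_mono_set (s := t + h) (t := t + h + h) (s' := t) (t' := t + 1) iv (fun y => by positivity) (by linarith) (by linarith) (by rw [← h2]; linarith)
    linarith
  -- pointwise bound of the integrand
  have le1 : ∀ (A r : ℝ), 0 ≤ A → 1 ≤ r → A ≤ 1 + A ^ r := by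
    intro A r hA hr
    rcases le_total A 1 with h1 | h1
    · have : 0 ≤ A ^ r := by positivity
      linarith
    · have : A ^ (1:ℝ) ≤ A ^ r := Real.rpow_le_rpow_of_exponent_le h1 hr
      rw [Real.rpow_one] at this
      linarith
  have key : inner ℝ (S h (S h u) t) z ≤ l * ((m + M ^ 2) + (m + a ^ q * 2 * Q) + 2 * ((m + 2 * Q) + (m + 2 * Q))) := by
    rw [heq]
    have iRHS : Integrable (fun x => l * ((1 + |avg (Pm h) f (t, x)| ^ (2:ℝ)) + (1 + |avg (Pm h) (fun y => gfun a p (vf y)) (t, x)| ^ q) +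
        2 * ((1 + |avg (U h) vf (t + h, x)| ^ p) + (1 + |avg (U h) vf (t, x)| ^ p)))) μ := by
      exact ((((integrable_const _).add jF).add ((integrable_const _).add jA)).add
        ((((integrable_const _).add (jU _)).add ((integrable_const _).add (jU _))).const_mul _)).const_mul _
    have iLHS : Integrable (fun x => (avg (Pm h) (fun y => f y - gfun a p (vf y)) (t, x) -
      h⁻¹ * (avg (U h) vf (t + h, x) - avg (U h) vf (t, x))) * ι z x) μ := by
      refine integrable_mul_of_memLp hpq.symm (MemLp.sub ?_ (MemLp.const_mul (MemLp.sub ?_ ?_) _)) mz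
      · exact memLp_avg_slice ENNReal.ofReal_ne_top (Pm_le hh) hq1 Ln.R_meas Ln.R_mem t
      · exact (mU _).mono_exponent (ENNReal.ofReal_le_ofReal (by linarith))
      · exact (mU _).mono_exponent (ENNReal.ofReal_le_ofReal (by linarith))
    calc ∫ x, (avg (Pm h) (fun y => f y - gfun a p (vf y)) (t, x) -
      h⁻¹ * (avg (U h) vf (t + h, x) - avg (U h) vf (t, x))) * ι z x ∂μ
        ≤ ∫ x, l * ((1 + |avg (Pm h) f (t, x)| ^ (2:ℝ)) + (1 + |avg (Pm h) (fun y => gfun a p (vf y)) (t, x)| ^ q) +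
        2 * ((1 + |avg (U h) vf (t + h, x)| ^ p) + (1 + |avg (U h) vf (t, x)| ^ p))) ∂μ := by
          refine integral_mono_ae iLHS iRHS ?_
          filter_upwards [hz, sl1, sl2] with x x1 x2 x3
          have hg := memLp_gfun ha hp hpq x2
          have e1 : avg (Pm h) (fun y => f y - gfun a p (vf y)) (t, x) = avg (Pm h) f (t, x) -
              avg (Pm h) (fun y => gfun a p (vf y)) (t, x) := by
            unfold avg
            rw [integral_sub (integrable_of_memLp_ofReal hq1 x3) (integrable_of_memLp_ofReal hq1 hg)]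
          rw [e1, hinv]
          set A1 := avg (Pm h) f (t, x)
          set A2 := avg (Pm h) (fun y => gfun a p (vf y)) (t, x)
          set A3 := avg (U h) vf (t + h, x)
          set A4 := avg (U h) vf (t, x)
          have n1 := le1 |A1| 2 (abs_nonneg _) (by norm_num)
          have n2 := le1 |A2| q (abs_nonneg _) hq1
          have n3 := le1 |A3| p (abs_nonneg _) hp1
          have n4 := le1 |A4| p (abs_nonneg _) hp1
          have n5 : |A1 - A2 - 2 * (A3 - A4)| ≤ |A1| + |A2| + 2 * (|A3| + |A4|) := by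
            calc |A1 - A2 - 2 * (A3 - A4)| ≤ |A1 - A2| + |2 * (A3 - A4)| := abs_sub _ _
              _ ≤ (|A1| + |A2|) + 2 * (|A3| + |A4|) := by
                rw [abs_mul, abs_two]
                gcongr
                · exact abs_sub _ _
                · exact abs_sub _ _
          calc (A1 - A2 - 2 * (A3 - A4)) * ι z x ≤ |(A1 - A2 - 2 * (A3 - A4)) * ι z x| := le_abs_self _
            _ = |ι z x| * |A1 - A2 - 2 * (A3 - A4)| := by rw [abs_mul, mul_comm]
            _ ≤ l * ((1 + |A1| ^ (2:ℝ)) + (1 + |A2| ^ q) + 2 * ((1 + |A3| ^ p) + (1 + |A4| ^ p))) := by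
                apply mul_le_mul x1 _ (abs_nonneg _) hl.le
                linarith
      _ = l * ((m + ∫ x, |avg (Pm h) f (t, x)| ^ (2:ℝ) ∂μ) + (m + ∫ x, |avg (Pm h) (fun y => gfun a p (vf y)) (t, x)| ^ q ∂μ) +
        2 * ((m + ∫ x, |avg (U h) vf (t + h, x)| ^ p ∂μ) + (m + ∫ x, |avg (U h) vf (t, x)| ^ p ∂μ))) := by
          have c1 : ∀ {G : X → ℝ}, Integrable G μ → ∫ x, (1 + G x) ∂μ = m + ∫ x, G x ∂μ := by
            intro G hG
            rw [integral_add (integrable_const _) hG, integral_const, smul_eq_mul, mul_one]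
          have q1 : Integrable (fun x => (1 + |avg (Pm h) f (t, x)| ^ (2:ℝ))) μ := (integrable_const _).add jF
          have q2 : Integrable (fun x => (1 + |avg (Pm h) (fun y => gfun a p (vf y)) (t, x)| ^ q)) μ := (integrable_const _).add jA
          have q3 : Integrable (fun x => (1 + |avg (U h) vf (t + h, x)| ^ p)) μ := (integrable_const _).add (jU _)
          have q4 : Integrable (fun x => (1 + |avg (U h) vf (t, x)| ^ p)) μ := (integrable_const _).add (jU _)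
          have q12 : Integrable (fun x => (1 + |avg (Pm h) f (t, x)| ^ (2:ℝ)) + (1 + |avg (Pm h) (fun y => gfun a p (vf y)) (t, x)| ^ q)) μ := q1.add q2
          have q34 : Integrable (fun x => 2 * ((1 + |avg (U h) vf (t + h, x)| ^ p) + (1 + |avg (U h) vf (t, x)| ^ p))) μ := (q3.add q4).const_mul _
          rw [integral_const_mul, integral_add q12 q34, integral_add q1 q2, integral_const_mul, integral_add q3 q4,
            c1 jF, c1 jA, c1 (jU _), c1 (jU _)]
      _ ≤ _ := by gcongr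
  have hfin : 2 * (l * ((m + M ^ 2) + (m + a ^ q * 2 * Q) + 2 * ((m + 2 * Q) + (m + 2 * Q)))) ≤
      (2 * ((m + M ^ 2) + (m + a ^ q * 2) + 2 * (2 * m + 4)) + 1) * l * (1 + Q) := by
    have haq : 0 ≤ a ^ q := by positivity
    have e : (2 * ((m + M ^ 2) + (m + a ^ q * 2) + 2 * (2 * m + 4)) + 1) * l * (1 + Q) -
      2 * (l * ((m + M ^ 2) + (m + a ^ q * 2 * Q) + 2 * ((m + 2 * Q) + (m + 2 * Q)))) =
      l * ((2 * (a ^ q * 2) + 17) + (2 * ((m + M ^ 2) + m + 4 * m) + 1) * Q) := by ring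
    have : 0 ≤ l * ((2 * (a ^ q * 2) + 17) + (2 * ((m + M ^ 2) + m + 4 * m) + 1) * Q) := by positivity
    linarith
  linarith

end Run7.h119
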