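import Mathlib
import Pool.Agent.Run7.h119.Near

open MeasureTheory Set Filter Topology
open scoped ENNReal

set_option linter.unusedSectionVars false
set_option linter.style.haveILetI false
set_option linter.unusedVariables false

namespace Run7.h119

variable {X : Type*} [MetricSpace X] [SecondCountableTopology X] [SigmaCompactSpace X]
  [MeasurableSpace X] [BorelSpace X] {μ : Measure X} [IsFiniteMeasure μ]
  {V : Type*} [NormedAddCommGroup V] [InnerProductSpace ℝ V] [CompleteSpace V]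

theorem S_double {G : Type*} [NormedAddCommGroup G] [NormedSpace ℝ G] [CompleteSpace G] {h : ℝ}
    (hh : 0 < h) {F : ℝ → G} (hF : Continuous F) (t : ℝ) :
    S (2 * h) F t = (1/2:ℝ) • S h F t + (1/2:ℝ) • S h F (t + h) := by
  unfold S
  have e : t + h + h = t + 2 * h := by ring
  rw [e, ← intervalIntegral.integral_add_adjacent_intervals (hF.intervalIntegrable t (t + h))
    (hF.intervalIntegrable (t + h) (t + 2 * h)), smul_add, smul_smul, smul_smul]
  congr 2 <;> field_simp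

theorem A_double {G : Type*} [NormedAddCommGroup G] [NormedSpace ℝ G] [CompleteSpace G] {h : ℝ}
    (hh : 0 < h) {F : ℝ → G} (hF : Continuous F) (t : ℝ) :
    S (2 * h) (S (2 * h) F) t = (1/4:ℝ) • S h (S h F) t + (1/2:ℝ) • S h (S h F) (t + h) +
      (1/4:ℝ) • S h (S h F) (t + 2 * h) := by
  have c1 := continuous_S (2 * h) hF
  have c2 := continuous_S h hF
  have c3 : Continuous (fun r => S h F (r + h)) := c2.comp (by fun_prop)
  rw [S_double hh c1]
  have e1 : S (2 * h) F = fun r => (1/2:ℝ) • S h F r + (1/2:ℝ) • S h F (r + h) := by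
    funext r; exact S_double hh hF r
  have key : ∀ r, S h (S (2 * h) F) r = (1/2:ℝ) • S h (S h F) r + (1/2:ℝ) • S h (S h F) (r + h) := by
    intro r
    rw [e1]
    conv_lhs => unfold S
    have i1 : IntervalIntegrable (fun s => (1/2:ℝ) • S h F s) volume r (r + h) :=
      (c2.const_smul _).intervalIntegrable _ _
    have i2 : IntervalIntegrable (fun s => (1/2:ℝ) • S h F (s + h)) volume r (r + h) :=
      (c3.const_smul _).intervalIntegrable _ _
    have e2 : ∫ s in r..(r + h), ((1/2:ℝ) • S h F s + (1/2:ℝ) • S h F (s + h)) =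
        (1/2:ℝ) • (∫ s in r..(r + h), S h F s) + (1/2:ℝ) • ∫ s in (r + h)..(r + h + h), S h F s := by
      rw [intervalIntegral.integral_add i1 i2, intervalIntegral.integral_smul, intervalIntegral.integral_smul,
        intervalIntegral.integral_comp_add_right (fun s => S h F s) h]
    have e3 : ∫ s in r..(r + h), ((1/2:ℝ) • (h⁻¹ • ∫ s_1 in s..(s + h), F s_1) + (1/2:ℝ) • (h⁻¹ • ∫ s_1 in (s + h)..(s + h + h), F s_1)) =
        ∫ s in r..(r + h), ((1/2:ℝ) • S h F s + (1/2:ℝ) • S h F (s + h)) := rfl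
    rw [e3, e2, smul_add, smul_comm h⁻¹, smul_comm h⁻¹]
    rfl
  rw [key, key]
  have e4 : t + h + h = t + 2 * h := by ring
  rw [e4]
  module

/-- passing from a fine smoothing scale to a coarse one -/
theorem Dl_coarse {ι : V →L[ℝ] Lp ℝ 2 μ} {P : V → V} (hP : IsProj (Obs ι 1) P) {u : ℝ → V}
    (hu : Continuous u) {T l B : ℝ} (hl : 0 < l) (n k : ℕ)
    (h : ∀ t, 0 ≤ t → t + 2 * (1/2:ℝ) ^ (k + n + 1) ≤ T →
      Dl P l (S ((1/2:ℝ) ^ (k + n + 1)) (S ((1/2:ℝ) ^ (k + n + 1)) u) t) ≤ B) :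
    ∀ t, 0 ≤ t → t + 2 * (1/2:ℝ) ^ (k + 1) ≤ T →
      Dl P l (S ((1/2:ℝ) ^ (k + 1)) (S ((1/2:ℝ) ^ (k + 1)) u) t) ≤ B := by
  induction n with
  | zero => simpa using h
  | succ n ih =>
    apply ih
    intro t ht htT
    have hpos : (0:ℝ) < (1/2:ℝ) ^ (k + (n + 1) + 1) := by positivity
    have e : (1/2:ℝ) ^ (k + n + 1) = 2 * (1/2:ℝ) ^ (k + (n + 1) + 1) := by
      rw [show k + (n + 1) + 1 = (k + n + 1) + 1 by ring, pow_succ (1/2:ℝ) (k + n + 1)]; ring
    rw [e] at htT ⊢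
    rw [A_double hpos hu]
    refine Dl_conv hP hl (h t ht (by linarith)) (h _ (by linarith) (by linarith)) (h _ (by linarith) (by linarith))


/-- the exponent comparison used for all geometric terms -/
theorem pow_bound {x0 s0 s e : ℝ} (hx : 1 ≤ x0) (hs : 0 ≤ s) (hss : s ≤ s0) (he : e ≤ -s0) (j : ℕ) :
    ((2:ℝ) ^ j * x0) ^ e ≤ ((2:ℝ) ^ (-s)) ^ j := by
  have h2 : (1:ℝ) ≤ 2 ^ j := one_le_pow₀ (by norm_num)
  have h1 : 1 ≤ (2:ℝ) ^ j * x0 := by nlinarith
  calc ((2:ℝ) ^ j * x0) ^ e ≤ ((2:ℝ) ^ j * x0) ^ (-s) :=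
        Real.rpow_le_rpow_of_exponent_le h1 (by linarith)
    _ ≤ ((2:ℝ) ^ j) ^ (-s) := by
        apply Real.rpow_le_rpow_of_nonpos (by positivity) _ (by linarith)
        nlinarith
    _ = ((2:ℝ) ^ (-s)) ^ j := by
        rw [← Real.rpow_natCast 2 j, ← Real.rpow_mul (by norm_num), ← Real.rpow_natCast (2 ^ (-s)) j,
          ← Real.rpow_mul (by norm_num)]
        congr 1; ring

/-- dyadic smoothing exponent attached to the level `x` -/
noncomputable def kk (γ x : ℝ) : ℕ := ⌈γ * Real.logb 2 x⌉₊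

theorem kk_mono {γ x y : ℝ} (hγ : 0 < γ) (hx : 1 ≤ x) (hxy : x ≤ y) : kk γ x ≤ kk γ y := by
  unfold kk
  apply Nat.ceil_mono
  have : Real.logb 2 x ≤ Real.logb 2 y := Real.logb_le_logb_of_le (by norm_num) (by linarith) hxy
  gcongr

theorem kk_upper {γ x : ℝ} (hγ : 0 < γ) (hx : 1 ≤ x) : (1/2:ℝ) ^ (kk γ x) ≤ x ^ (-γ) := by
  have hx0 : 0 < x := by linarith
  have h1 : γ * Real.logb 2 x ≤ (kk γ x : ℝ) := Nat.le_ceil _
  have e : (1/2:ℝ) ^ (kk γ x) = 2 ^ (-(kk γ x : ℝ)) := by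
    rw [Real.rpow_neg (by norm_num), Real.rpow_natCast, one_div, inv_pow]
  rw [e]
  calc (2:ℝ) ^ (-(kk γ x : ℝ)) ≤ 2 ^ (-(γ * Real.logb 2 x)) :=
        Real.rpow_le_rpow_of_exponent_le (by norm_num) (by linarith)
    _ = x ^ (-γ) := by
        have : -(γ * Real.logb 2 x) = Real.logb 2 x * (-γ) := by ring
        rw [this, Real.rpow_mul (by norm_num), Real.rpow_logb (by norm_num) (by norm_num) hx0]

theorem kk_lower {γ x : ℝ} (hγ : 0 < γ) (hx : 1 ≤ x) : ((1/2:ℝ) ^ (kk γ x + 1))⁻¹ ≤ 4 * x ^ γ := by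
  have hx0 : 0 < x := by linarith
  have h0 : 0 ≤ γ * Real.logb 2 x := mul_nonneg hγ.le (Real.logb_nonneg (by norm_num) hx)
  have h1 : (kk γ x : ℝ) < γ * Real.logb 2 x + 1 := Nat.ceil_lt_add_one h0
  have e : ((1/2:ℝ) ^ (kk γ x + 1))⁻¹ = 2 ^ ((kk γ x : ℝ) + 1) := by
    rw [one_div, inv_pow, inv_inv, Real.rpow_add_one (by norm_num), Real.rpow_natCast, pow_succ]
  rw [e]
  calc (2:ℝ) ^ ((kk γ x : ℝ) + 1) ≤ 2 ^ (γ * Real.logb 2 x + 2) :=
        Real.rpow_le_rpow_of_exponent_le (by norm_num) (by linarith)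
    _ = 4 * x ^ γ := by
        rw [Real.rpow_add (by norm_num), mul_comm γ, Real.rpow_mul (by norm_num),
          Real.rpow_logb (by norm_num) (by norm_num) hx0]
        norm_num
        ring

end Run7.h119
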