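import Mathlib
import Pool.Agent.Run7.h119.Chain

open MeasureTheory Set Filter Topology
open scoped ENNReal

set_option linter.unusedSectionVars false
set_option linter.style.haveILetI false
set_option linter.unusedVariables false

namespace Run7.h119

variable {X : Type*} [MetricSpace X] [SecondCountableTopology X] [SigmaCompactSpace X]
  [MeasurableSpace X] [BorelSpace X] {μ : Measure X} [IsFiniteMeasure μ]
  {V : Type*} [NormedAddCommGroup V] [InnerProductSpace ℝ V] [CompleteSpace V]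

/-- exponents for the chain -/
structure ChainExp (p q ρ θ β γ : ℝ) : Prop where
  hβ0 : 0 < β
  hβ1 : β < 1
  hγ : 0 < γ
  c1 : 1 - β - ρ * (1 - q / 2) < 0
  c2 : 1 - β - ρ + β * p < 0
  c3 : 1 - β - ρ + γ * (p / (p - 2)) < 0
  c4 : 1 - β - γ * θ < 0

/-- bound of one block cost: force term and level term -/
theorem cost_bound {p q ρ θ β γ M Sob : ℝ} (hp : 2 < p) (hq : q < 2) (hM : 0 ≤ M) (hSob : 0 ≤ Sob)
    (E : ChainExp p q ρ θ β γ) {s0 s : ℝ} (hs : 0 ≤ s) (hss : s ≤ s0)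
    (d1 : 1 - β - ρ * (1 - q / 2) ≤ -s0) (d2 : 1 - β - ρ + β * p ≤ -s0)
    (d3 : 1 - β - ρ + γ * (p / (p - 2)) ≤ -s0) {K x0 : ℝ} (hK : 0 < K) (hx0 : 1 ≤ x0) (j : ℕ) :
    (Real.sqrt K * ((2:ℝ) ^ j * x0) ^ (1 - β)) *
      (M ^ q * (Sob * (Real.sqrt K / (Real.sqrt K * ((2:ℝ) ^ j * x0))) ^ ρ) ^ (1 - q / 2) +
        ((((2:ℝ) ^ j * x0) ^ β) ^ p + ((1/2:ℝ) ^ (kk γ ((2:ℝ) ^ j * x0) + 1))⁻¹ ^ (p / (p - 2))) *
          (Sob * (Real.sqrt K / (Real.sqrt K * ((2:ℝ) ^ j * x0))) ^ ρ)) ≤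
      (M ^ q * Sob ^ (1 - q / 2) + Sob + 4 ^ (p / (p - 2)) * Sob) * (Real.sqrt K * ((2:ℝ) ^ (-s)) ^ j) := by
  have h2 : (1:ℝ) ≤ 2 ^ j := one_le_pow₀ (by norm_num)
  set x := (2:ℝ) ^ j * x0 with hx
  have h1 : 1 ≤ x := by rw [hx]; nlinarith
  have hxp : 0 < x := by linarith
  have hsK : 0 < Real.sqrt K := Real.sqrt_pos.2 hK
  have hν : 0 ≤ p / (p - 2) := div_nonneg (by linarith) (by linarith)
  have hq2 : 0 ≤ 1 - q / 2 := by linarith
  have e0 : Real.sqrt K / (Real.sqrt K * x) = x⁻¹ := by field_simp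
  have e1 : (x⁻¹) ^ ρ = x ^ (-ρ) := by rw [Real.inv_rpow hxp.le, Real.rpow_neg hxp.le]
  rw [e0, e1]
  have P1 := pow_bound hx0 hs hss d1 j
  have P2 := pow_bound hx0 hs hss d2 j
  have P3 := pow_bound hx0 hs hss d3 j
  rw [← hx] at P1 P2 P3
  have f1 : x ^ (1 - β) * (M ^ q * (Sob * x ^ (-ρ)) ^ (1 - q / 2)) =
      M ^ q * Sob ^ (1 - q / 2) * x ^ (1 - β - ρ * (1 - q / 2)) := by
    rw [Real.mul_rpow hSob (by positivity), ← Real.rpow_mul hxp.le]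
    have : x ^ (1 - β - ρ * (1 - q / 2)) = x ^ (1 - β) * x ^ (-ρ * (1 - q / 2)) := by
      rw [← Real.rpow_add hxp]; congr 1; ring
    rw [this]; ring
  have f2 : x ^ (1 - β) * ((x ^ β) ^ p * (Sob * x ^ (-ρ))) = Sob * x ^ (1 - β - ρ + β * p) := by
    rw [← Real.rpow_mul hxp.le]
    have : x ^ (1 - β - ρ + β * p) = x ^ (1 - β) * x ^ (β * p) * x ^ (-ρ) := by
      rw [← Real.rpow_add hxp, ← Real.rpow_add hxp]; congr 1; ring
    rw [this]; ring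
  have f3 : x ^ (1 - β) * (((1/2:ℝ) ^ (kk γ x + 1))⁻¹ ^ (p / (p - 2)) * (Sob * x ^ (-ρ))) ≤
      4 ^ (p / (p - 2)) * Sob * x ^ (1 - β - ρ + γ * (p / (p - 2))) := by
    have k := kk_lower E.hγ h1
    have k2 : ((1/2:ℝ) ^ (kk γ x + 1))⁻¹ ^ (p / (p - 2)) ≤ (4 * x ^ γ) ^ (p / (p - 2)) := by
      apply Real.rpow_le_rpow (by positivity) k hν
    rw [Real.mul_rpow (by norm_num) (by positivity), ← Real.rpow_mul hxp.le] at k2
    calc x ^ (1 - β) * (((1/2:ℝ) ^ (kk γ x + 1))⁻¹ ^ (p / (p - 2)) * (Sob * x ^ (-ρ)))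
        ≤ x ^ (1 - β) * ((4 ^ (p / (p - 2)) * x ^ (γ * (p / (p - 2)))) * (Sob * x ^ (-ρ))) := by gcongr
      _ = 4 ^ (p / (p - 2)) * Sob * x ^ (1 - β - ρ + γ * (p / (p - 2))) := by
        have : x ^ (1 - β - ρ + γ * (p / (p - 2))) = x ^ (1 - β) * x ^ (γ * (p / (p - 2))) * x ^ (-ρ) := by
          rw [← Real.rpow_add hxp, ← Real.rpow_add hxp]; congr 1; ring
        rw [this]; ring
  have hc1 : 0 ≤ M ^ q * Sob ^ (1 - q / 2) := by positivity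
  have hc3 : 0 ≤ 4 ^ (p / (p - 2)) * Sob := by positivity
  have g1 := mul_le_mul_of_nonneg_left P1 hc1
  have g2 := mul_le_mul_of_nonneg_left P2 hSob
  have g3 := mul_le_mul_of_nonneg_left P3 hc3
  calc _ = Real.sqrt K * (x ^ (1 - β) * (M ^ q * (Sob * x ^ (-ρ)) ^ (1 - q / 2)) +
        x ^ (1 - β) * ((x ^ β) ^ p * (Sob * x ^ (-ρ))) +
        x ^ (1 - β) * (((1/2:ℝ) ^ (kk γ x + 1))⁻¹ ^ (p / (p - 2)) * (Sob * x ^ (-ρ)))) := by ring
    _ ≤ Real.sqrt K * (M ^ q * Sob ^ (1 - q / 2) * ((2:ℝ) ^ (-s)) ^ j + Sob * ((2:ℝ) ^ (-s)) ^ j +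
        4 ^ (p / (p - 2)) * Sob * ((2:ℝ) ^ (-s)) ^ j) := by
        apply mul_le_mul_of_nonneg_left _ hsK.le
        rw [f1, f2]
        linarith [f3.trans g3]
    _ = _ := by ring

/-- bound of the oscillation cost and of the late fluctuations -/
theorem late_bound {p ρ q θ β γ : ℝ} (hp : 2 < p) (hθ : 0 < θ) (E : ChainExp p q ρ θ β γ) {s0 s : ℝ}
    (hs0 : 0 < s0) (hs : s = 2 * s0 / p)
    (d4 : 1 - β - γ * θ ≤ -s0) (d5 : s0 ≤ 1 - β) (d6 : s0 ≤ γ * θ) (d7 : s0 ≤ γ)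
    {K x0 : ℝ} (hK : 1 ≤ K) (hx0 : 1 ≤ x0) (j : ℕ) :
    (∀ σ : ℝ, 0 < σ → σ ≤ (1/2:ℝ) ^ (kk γ ((2:ℝ) ^ j * x0)) →
      (K / (Real.sqrt K * ((2:ℝ) ^ j * x0) ^ (1 - β)) + σ ^ θ) ^ (2 / p) +
        σ * (1 + K / (Real.sqrt K * ((2:ℝ) ^ j * x0) ^ (1 - β))) +
        σ ^ θ * (Real.sqrt K * ((2:ℝ) ^ j * x0) ^ (1 - β) + 1) ≤
      6 * (Real.sqrt K * ((2:ℝ) ^ (-s)) ^ j)) ∧
    ((1/2:ℝ) ^ (kk γ ((2:ℝ) ^ j * x0))) ^ θ * (Real.sqrt K * ((2:ℝ) ^ j * x0) ^ (1 - β) + 1) ≤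
      2 * (Real.sqrt K * ((2:ℝ) ^ (-s)) ^ j) := by
  have h2 : (1:ℝ) ≤ 2 ^ j := one_le_pow₀ (by norm_num)
  set x := (2:ℝ) ^ j * x0 with hx
  have h1 : 1 ≤ x := by rw [hx]; nlinarith
  have hxp : 0 < x := by linarith
  have hK0 : 0 < K := by linarith
  have hsK : 1 ≤ Real.sqrt K := by rw [Real.one_le_sqrt]; exact hK
  have hsK0 : 0 < Real.sqrt K := by linarith
  have hp0 : 0 < p := by linarith
  have hss : s ≤ s0 := by
    rw [hs, div_le_iff₀ hp0]; nlinarith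
  have hs' : 0 ≤ s := by rw [hs]; positivity
  set r := ((2:ℝ) ^ (-s)) ^ j with hr
  have hr0 : 0 < r := by positivity
  have KT : K / (Real.sqrt K * x ^ (1 - β)) = Real.sqrt K * x ^ (-(1 - β)) := by
    rw [Real.rpow_neg hxp.le]
    have : K = Real.sqrt K * Real.sqrt K := (Real.mul_self_sqrt hK0.le).symm
    have hX : 0 < x ^ (1 - β) := by positivity
    rw [div_eq_iff (by positivity)]
    calc K = Real.sqrt K * Real.sqrt K := this
      _ = _ := by field_simp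
  have hup : (1/2:ℝ) ^ (kk γ x) ≤ x ^ (-γ) := kk_upper E.hγ h1
  have mono : ∀ e, e ≤ -s0 → x ^ e ≤ x ^ (-s0) := fun e he => Real.rpow_le_rpow_of_exponent_le h1 he
  have P4 : x ^ (1 - β - γ * θ) ≤ r := pow_bound hx0 hs' hss d4 j
  have P7 : x ^ (-γ) ≤ r := pow_bound hx0 hs' hss (by linarith) j
  have P0 : x ^ (-s0 * (2 / p)) ≤ r := by
    have : -s0 * (2 / p) ≤ -s := by rw [hs]; apply le_of_eq; ring
    exact pow_bound hx0 hs' le_rfl this j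
  have hT1 : 1 ≤ Real.sqrt K * x ^ (1 - β) := by
    have : 1 ≤ x ^ (1 - β) := Real.one_le_rpow h1 (by linarith [E.hβ1])
    nlinarith
  have hσθ : ∀ σ : ℝ, 0 < σ → σ ≤ (1/2:ℝ) ^ (kk γ x) → σ ^ θ ≤ x ^ (-(γ * θ)) := by
    intro σ h0 h3
    calc σ ^ θ ≤ (x ^ (-γ)) ^ θ := Real.rpow_le_rpow h0.le (h3.trans hup) hθ.le
      _ = _ := by rw [← Real.rpow_mul hxp.le]; congr 1; ring
  have third : ∀ σ : ℝ, 0 < σ → σ ≤ (1/2:ℝ) ^ (kk γ x) →
      σ ^ θ * (Real.sqrt K * x ^ (1 - β) + 1) ≤ 2 * (Real.sqrt K * r) := by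
    intro σ h0 h3
    have a1 := hσθ σ h0 h3
    calc σ ^ θ * (Real.sqrt K * x ^ (1 - β) + 1) ≤ x ^ (-(γ * θ)) * (Real.sqrt K * x ^ (1 - β) + Real.sqrt K * x ^ (1 - β)) := by
          gcongr
      _ = 2 * (Real.sqrt K * x ^ (1 - β - γ * θ)) := by
          have : x ^ (1 - β - γ * θ) = x ^ (1 - β) * x ^ (-(γ * θ)) := by
            rw [← Real.rpow_add hxp]; congr 1
          rw [this]; ring
      _ ≤ _ := by gcongr
  refine ⟨fun σ h0 h3 => ?_, third _ (by positivity) le_rfl⟩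
  have a3 := third σ h0 h3
  have a1 := hσθ σ h0 h3
  rw [KT]
  have b1 : (Real.sqrt K * x ^ (-(1 - β)) + σ ^ θ) ^ (2 / p) ≤ 2 * (Real.sqrt K * r) := by
    have c1 : Real.sqrt K * x ^ (-(1 - β)) + σ ^ θ ≤ (2 * Real.sqrt K) * x ^ (-s0) := by
      have m1 := mono (-(1 - β)) (by linarith)
      have m2 := mono (-(γ * θ)) (by linarith)
      have : x ^ (-s0) ≤ Real.sqrt K * x ^ (-s0) := by
        have : 0 < x ^ (-s0) := by positivity
        nlinarith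
      have m3 : Real.sqrt K * x ^ (-(1 - β)) ≤ Real.sqrt K * x ^ (-s0) := by gcongr
      linarith
    calc (Real.sqrt K * x ^ (-(1 - β)) + σ ^ θ) ^ (2 / p) ≤ ((2 * Real.sqrt K) * x ^ (-s0)) ^ (2 / p) := by
          apply Real.rpow_le_rpow (by positivity) c1 (by positivity)
      _ = (2 * Real.sqrt K) ^ (2 / p) * x ^ (-s0 * (2 / p)) := by
          rw [Real.mul_rpow (by positivity) (by positivity), ← Real.rpow_mul hxp.le]
      _ ≤ (2 * Real.sqrt K) ^ (1:ℝ) * r := by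
          have : 2 / p ≤ 1 := by rw [div_le_one hp0]; linarith
          gcongr
          linarith
      _ = _ := by rw [Real.rpow_one]; ring
  have b2 : σ * (1 + Real.sqrt K * x ^ (-(1 - β))) ≤ 2 * (Real.sqrt K * r) := by
    have c1 : x ^ (-(1 - β)) ≤ 1 := Real.rpow_le_one_of_one_le_of_nonpos h1 (by linarith [E.hβ1])
    calc σ * (1 + Real.sqrt K * x ^ (-(1 - β))) ≤ x ^ (-γ) * (Real.sqrt K + Real.sqrt K * 1) := by
          have := h3.trans hup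
          gcongr
      _ = 2 * (Real.sqrt K * x ^ (-γ)) := by ring
      _ ≤ _ := by gcongr
  linarith

end Run7.h119
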