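import Mathlib
import Pool.Agent.Run7.h119.Main1

open MeasureTheory Set Filter Topology

set_option linter.unusedSectionVars false
set_option linter.style.haveILetI false
set_option linter.unusedVariables false

namespace Run7.h119

theorem exists_chainExp {p q ρ θ : ℝ} (hρ : 2 < ρ) (hp : ρ < p) (hq : q = p / (p - 1))
    (hθ : (p - ρ) / ((ρ - 1) * (p - 2)) < θ) : ∃ β γ, ChainExp p q ρ θ β γ := by
  have hp2 : 2 < p := by linarith
  have hp1 : 0 < p - 1 := by linarith
  have hpm2 : 0 < p - 2 := by linarith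
  have hρ1 : 0 < ρ - 1 := by linarith
  have hθ0 : 0 < θ := lt_of_le_of_lt (by apply div_nonneg; linarith; positivity) hθ
  set β0 := (ρ - 1) / (p - 1) with hβ0
  have hβ0p : 0 < β0 := by positivity
  have hβ01 : β0 < 1 := by rw [hβ0, div_lt_one hp1]; linarith
  set gm := (ρ - 1) * (p - 2) / (p - 1) with hgm
  have hgmθ : 1 - β0 < gm * θ := by
    rw [div_lt_iff₀ (by positivity)] at hθ
    rw [hβ0, hgm]
    have e : 1 - (ρ - 1) / (p - 1) = (p - ρ) / (p - 1) := by field_simp; ring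
    rw [e, div_mul_eq_mul_div, div_lt_div_iff_of_pos_right hp1]
    linarith
  set γ := (gm + (1 - β0) / θ) / 2 with hγ
  have h1 : (1 - β0) / θ < gm := by rw [div_lt_iff₀ hθ0]; exact hgmθ
  have hγ1 : γ < gm := by rw [hγ]; linarith
  have hγ2 : 1 - β0 < γ * θ := by
    have : (1 - β0) / θ < γ := by rw [hγ]; linarith
    rwa [div_lt_iff₀ hθ0] at this
  have hγ0 : 0 < γ := by
    have : 0 < (1 - β0) / θ := by apply div_pos _ hθ0; linarith
    rw [hγ]; linarith
  -- gaps
  have g1 : 1 - β0 - ρ * (1 - q / 2) < 0 := by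
    rw [hβ0, hq]
    have e : 1 - (ρ - 1) / (p - 1) - ρ * (1 - p / (p - 1) / 2) = - (p * (ρ / 2 - 1)) / (p - 1) := by
      field_simp; ring
    rw [e]
    apply div_neg_of_neg_of_pos _ hp1
    have : 0 < p * (ρ / 2 - 1) := by apply mul_pos <;> linarith
    linarith
  have g3 : 1 - β0 - ρ + γ * (p / (p - 2)) < 0 := by
    have h2 : γ * (p / (p - 2)) < gm * (p / (p - 2)) := by
      apply mul_lt_mul_of_pos_right hγ1
      positivity
    have e : 1 - β0 - ρ + gm * (p / (p - 2)) = -(2 * β0) + 0 + (gm * (p / (p - 2)) - ((ρ - 1) - β0)) := by ring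
    have e2 : gm * (p / (p - 2)) = (ρ - 1) * p / (p - 1) := by
      rw [hgm]; field_simp
    have e3 : (ρ - 1) * p / (p - 1) = (ρ - 1) + β0 := by
      rw [hβ0]; field_simp; ring
    rw [e2, e3] at h2
    linarith
  have g4 : 1 - β0 - γ * θ < 0 := by linarith
  set δ := min (min (-(1 - β0 - ρ * (1 - q / 2))) (-(1 - β0 - ρ + γ * (p / (p - 2))))) (min (-(1 - β0 - γ * θ)) β0) / 2 with hδ
  have hm : 0 < min (min (-(1 - β0 - ρ * (1 - q / 2))) (-(1 - β0 - ρ + γ * (p / (p - 2))))) (min (-(1 - β0 - γ * θ)) β0) := by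
    simp only [lt_min_iff]
    refine ⟨⟨by linarith, by linarith⟩, by linarith, hβ0p⟩
  have hδ0 : 0 < δ := by rw [hδ]; linarith
  have d1 : δ < -(1 - β0 - ρ * (1 - q / 2)) := by
    have := (min_le_left _ _).trans (min_le_left _ _) |>.trans_eq' rfl |> fun h : min (min (-(1 - β0 - ρ * (1 - q / 2))) (-(1 - β0 - ρ + γ * (p / (p - 2))))) (min (-(1 - β0 - γ * θ)) β0) ≤ -(1 - β0 - ρ * (1 - q / 2)) => h
    linarith
  have d2 : δ < -(1 - β0 - ρ + γ * (p / (p - 2))) := by
    have h : min (min (-(1 - β0 - ρ * (1 - q / 2))) (-(1 - β0 - ρ + γ * (p / (p - 2))))) (min (-(1 - β0 - γ * θ)) β0) ≤ -(1 - β0 - ρ + γ * (p / (p - 2))) :=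
      (min_le_left _ _).trans (min_le_right _ _)
    linarith
  have d3 : δ < -(1 - β0 - γ * θ) := by
    have h : min (min (-(1 - β0 - ρ * (1 - q / 2))) (-(1 - β0 - ρ + γ * (p / (p - 2))))) (min (-(1 - β0 - γ * θ)) β0) ≤ -(1 - β0 - γ * θ) :=
      (min_le_right _ _).trans (min_le_left _ _)
    linarith
  have d4 : δ < β0 := by
    have h : min (min (-(1 - β0 - ρ * (1 - q / 2))) (-(1 - β0 - ρ + γ * (p / (p - 2))))) (min (-(1 - β0 - γ * θ)) β0) ≤ β0 :=
      (min_le_right _ _).trans (min_le_right _ _)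
    linarith
  refine ⟨β0 - δ, γ, ?_⟩
  refine ⟨by linarith, by linarith, hγ0, by linarith, ?_, by linarith, by linarith⟩
  have e : (β0 - δ) * p = β0 * (p - 1) + β0 - δ * p := by ring
  have e2 : β0 * (p - 1) = ρ - 1 := by rw [hβ0]; field_simp
  rw [e, e2]
  nlinarith [mul_pos hδ0 hp1]

end Run7.h119
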