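import Mathlib
import Pool.Agent.Run7.h119.Obst

open MeasureTheory Set Filter Topology
open scoped ENNReal

set_option linter.unusedSectionVars false
set_option linter.style.haveILetI false
set_option linter.unusedVariables false

namespace Run7.h119

/-- weak closedness of balls, in the form needed for the lattice property -/
theorem weak_ball {V G : Type*} [NormedAddCommGroup V] [InnerProductSpace ℝ V] [CompleteSpace V]
    [NormedAddCommGroup G] [NormedSpace ℝ G] (ι : V →L[ℝ] G) {x : ℕ → V} {r : ℕ → ℝ} {r0 : ℝ} {y : G}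
    (hx : Tendsto (fun n => ι (x n)) atTop (𝓝 y)) (hr : ∀ n, ‖x n‖ ≤ r n)
    (hr0 : Tendsto r atTop (𝓝 r0)) : ∃ z : V, ι z = y ∧ ‖z‖ ≤ r0 := by
  set A : ℕ → Set V := fun k => {z | ‖ι z - y‖ ≤ 1 / ((k:ℝ) + 1)} with hA
  have hcl : ∀ k, IsClosed (A k) := fun k =>
    isClosed_le ((ι.continuous.sub continuous_const).norm) continuous_const
  have hcv : ∀ k, Convex ℝ (A k) := by
    intro k z hz w hw a b ha hb hab
    have hz' : ‖ι z - y‖ ≤ 1 / ((k:ℝ) + 1) := hz
    have hw' : ‖ι w - y‖ ≤ 1 / ((k:ℝ) + 1) := hw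
    have e : ι (a • z + b • w) - y = a • (ι z - y) + b • (ι w - y) := by
      rw [map_add, map_smul, map_smul]
      have : y = a • y + b • y := by rw [← add_smul, hab, one_smul]
      conv_lhs => rw [this]
      rw [smul_sub, smul_sub]; abel
    have : ‖ι (a • z + b • w) - y‖ ≤ 1 / ((k:ℝ) + 1) := by
      rw [e]
      calc ‖a • (ι z - y) + b • (ι w - y)‖ ≤ ‖a • (ι z - y)‖ + ‖b • (ι w - y)‖ := norm_add_le _ _
        _ = a * ‖ι z - y‖ + b * ‖ι w - y‖ := by
          rw [norm_smul, norm_smul, Real.norm_of_nonneg ha, Real.norm_of_nonneg hb]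
        _ ≤ a * (1 / ((k:ℝ) + 1)) + b * (1 / ((k:ℝ) + 1)) := by gcongr
        _ = _ := by rw [← add_mul, hab, one_mul]
    exact this
  have hev : ∀ k, ∀ᶠ n in atTop, x n ∈ A k := by
    intro k
    have h1 : Tendsto (fun n => ‖ι (x n) - y‖) atTop (𝓝 0) := by
      have := (hx.sub_const y).norm
      simpa using this
    have h2 : (0:ℝ) < 1 / ((k:ℝ) + 1) := by positivity
    filter_upwards [h1.eventually (ge_mem_nhds h2)] with n hn
    exact hn
  have hne : ∀ k, (A k).Nonempty := fun k => by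
    obtain ⟨n, hn⟩ := (hev k).exists
    exact ⟨x n, hn⟩
  have hmin := fun k => exists_proj (hne k) (hcl k) (hcv k) (0 : V)
  choose m hm1 hm2 using hmin
  have hm3 : ∀ k, ∀ z ∈ A k, ‖m k‖ ^ 2 ≤ inner ℝ (m k) z := by
    intro k z hz
    have := hm2 k z hz
    rw [zero_sub, inner_neg_left, inner_sub_right, real_inner_self_eq_norm_sq] at this
    linarith
  have hm4 : ∀ k, ∀ z ∈ A k, ‖m k‖ ≤ ‖z‖ := by
    intro k z hz
    have h1 := hm3 k z hz
    have h2 := real_inner_le_norm (m k) z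
    by_cases h0 : ‖m k‖ = 0
    · rw [h0]; exact norm_nonneg _
    · have h3 : 0 < ‖m k‖ := lt_of_le_of_ne (norm_nonneg _) (Ne.symm h0)
      have : ‖m k‖ * ‖m k‖ ≤ ‖m k‖ * ‖z‖ := by nlinarith
      exact le_of_mul_le_mul_left this h3
  have hbd : ∀ k, ‖m k‖ ≤ r0 := by
    intro k
    refine ge_of_tendsto hr0 ?_
    filter_upwards [hev k] with n hn
    exact (hm4 k _ hn).trans (hr n)
  have hsub : ∀ j k, k ≤ j → A j ⊆ A k := by
    intro j k hjk z hz
    have hz' : ‖ι z - y‖ ≤ 1 / ((j:ℝ) + 1) := hz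
    have : ‖ι z - y‖ ≤ 1 / ((k:ℝ) + 1) := hz'.trans (by
      have : (k:ℝ) ≤ j := by exact_mod_cast hjk
      gcongr)
    exact this
  have hdist : ∀ j k, k ≤ j → ‖m j - m k‖ ^ 2 ≤ ‖m j‖ ^ 2 - ‖m k‖ ^ 2 := by
    intro j k hjk
    have h1 := hm3 k (m j) (hsub j k hjk (hm1 j))
    rw [norm_sub_sq_real, real_inner_comm]
    linarith
  have hmono : Monotone (fun k => ‖m k‖ ^ 2) := by
    intro k j hjk
    have := hdist j k hjk
    have h0 : 0 ≤ ‖m j - m k‖ ^ 2 := sq_nonneg _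
    simp only
    linarith
  have hr00 : 0 ≤ r0 := (norm_nonneg _).trans (hbd 0)
  have hbdd : BddAbove (range (fun k => ‖m k‖ ^ 2)) := by
    refine ⟨r0 ^ 2, ?_⟩
    rintro _ ⟨k, rfl⟩
    have := hbd k
    simp only
    gcongr
  have hconv := tendsto_atTop_ciSup hmono hbdd
  set s0 := ⨆ k, ‖m k‖ ^ 2 with hs0
  have hcau : CauchySeq m := by
    rw [Metric.cauchySeq_iff']
    intro ε hε
    have : ∀ᶠ k in atTop, s0 - ε ^ 2 < ‖m k‖ ^ 2 :=
      hconv.eventually (lt_mem_nhds (by have := pow_pos hε 2; linarith))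
    obtain ⟨k, hk⟩ := this.exists
    refine ⟨k, fun j hj => ?_⟩
    have h1 := hdist j k hj
    have h2 : ‖m j‖ ^ 2 ≤ s0 := le_ciSup hbdd j
    rw [dist_eq_norm]
    have h3 : ‖m j - m k‖ ^ 2 < ε ^ 2 := by linarith
    exact lt_of_pow_lt_pow_left₀ 2 hε.le h3
  obtain ⟨z, hz⟩ := cauchySeq_tendsto_of_complete hcau
  refine ⟨z, ?_, ?_⟩
  · have h1 : Tendsto (fun k => ‖ι (m k) - y‖) atTop (𝓝 ‖ι z - y‖) :=
      (((ι.continuous.tendsto z).comp hz).sub_const y).norm
    have h2 : Tendsto (fun k : ℕ => 1 / ((k:ℝ) + 1)) atTop (𝓝 0) := tendsto_one_div_add_atTop_nhds_zero_nat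
    have h3 : ‖ι z - y‖ ≤ 0 := le_of_tendsto_of_tendsto' h1 h2 fun k => hm1 k
    have h4 : ‖ι z - y‖ = 0 := le_antisymm h3 (norm_nonneg _)
    exact sub_eq_zero.1 (norm_eq_zero.1 h4)
  · exact le_of_tendsto' hz.norm hbd

end Run7.h119
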