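import Mathlib
import Pool.Agent.Run7.h119.WL

open MeasureTheory Set Filter Topology
open scoped ENNReal ContDiff

set_option linter.unusedSectionVars false
set_option linter.style.haveILetI false
set_option linter.unusedVariables false

namespace Run7.h119

/-- smooth approximation of the positive part -/
noncomputable def Fapp (n : ℕ) (l s : ℝ) : ℝ := ∫ r in (0:ℝ)..s, Real.smoothTransition (((n:ℝ) + 1) * (r - l))

theorem hasDerivAt_Fapp (n : ℕ) (l s : ℝ) :
    HasDerivAt (Fapp n l) (Real.smoothTransition (((n:ℝ) + 1) * (s - l))) s := by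
  have hc : Continuous (fun r : ℝ => Real.smoothTransition (((n:ℝ) + 1) * (r - l))) :=
    Real.smoothTransition.continuous.comp (by fun_prop)
  exact intervalIntegral.integral_hasDerivAt_right (hc.intervalIntegrable _ _)
      (hc.stronglyMeasurableAtFilter _ _) hc.continuousAt

theorem contDiff_Fapp (n : ℕ) (l : ℝ) : ContDiff ℝ ∞ (Fapp n l) := by
  rw [contDiff_infty_iff_deriv]
  refine ⟨fun s => (hasDerivAt_Fapp n l s).differentiableAt, ?_⟩
  have : deriv (Fapp n l) = fun s => Real.smoothTransition (((n:ℝ) + 1) * (s - l)) := by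
    funext s; exact (hasDerivAt_Fapp n l s).deriv
  rw [this]
  exact Real.smoothTransition.contDiff.comp (by fun_prop)

theorem Fapp_zero (n : ℕ) (l : ℝ) : Fapp n l 0 = 0 := by simp [Fapp]

theorem Fapp_close {n : ℕ} {l : ℝ} (hl : 0 ≤ l) (s : ℝ) : |Fapp n l s - max (s - l) 0| ≤ 1 / ((n:ℝ) + 1) := by
  have hn : (0:ℝ) < (n:ℝ) + 1 := by positivity
  have hc : Continuous (fun r : ℝ => Real.smoothTransition (((n:ℝ) + 1) * (r - l))) :=
    Real.smoothTransition.continuous.comp (by fun_prop)
  have z1 : ∀ r, r ≤ l → Real.smoothTransition (((n:ℝ) + 1) * (r - l)) = 0 := fun r hr =>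
    Real.smoothTransition.zero_of_nonpos (mul_nonpos_of_nonneg_of_nonpos hn.le (by linarith))
  have z2 : ∀ r, l + 1 / ((n:ℝ) + 1) ≤ r → Real.smoothTransition (((n:ℝ) + 1) * (r - l)) = 1 := by
    intro r hr
    apply Real.smoothTransition.one_of_one_le
    have : 1 / ((n:ℝ) + 1) ≤ r - l := by linarith
    calc (1:ℝ) = ((n:ℝ) + 1) * (1 / ((n:ℝ) + 1)) := by field_simp
      _ ≤ _ := by gcongr
  have b0 : ∀ x, 0 ≤ Real.smoothTransition x := Real.smoothTransition.nonneg
  have b1 : ∀ x, Real.smoothTransition x ≤ 1 := Real.smoothTransition.le_one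
  rcases le_total s l with h | h
  · -- value zero
    have hz : Fapp n l s = 0 := by
      unfold Fapp
      have : ∫ r in (0:ℝ)..s, Real.smoothTransition (((n:ℝ) + 1) * (r - l)) = ∫ r in (0:ℝ)..s, (0:ℝ) := by
        apply intervalIntegral.integral_congr
        intro r hr
        rw [mem_uIcc] at hr
        apply z1
        rcases hr with hr | hr
        · exact hr.2.trans h
        · exact hr.2.trans hl
      rw [this]; simp
    rw [hz, max_eq_right (by linarith)]
    simp
    positivity
  · -- s ≥ l
    rw [max_eq_left (by linarith)]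
    have hsplit : Fapp n l s = ∫ r in l..s, Real.smoothTransition (((n:ℝ) + 1) * (r - l)) := by
      unfold Fapp
      rw [← intervalIntegral.integral_add_adjacent_intervals (hc.intervalIntegrable 0 l) (hc.intervalIntegrable l s)]
      have : ∫ r in (0:ℝ)..l, Real.smoothTransition (((n:ℝ) + 1) * (r - l)) = ∫ r in (0:ℝ)..l, (0:ℝ) := by
        apply intervalIntegral.integral_congr
        intro r hr
        rw [uIcc_of_le hl] at hr
        exact z1 r hr.2
      rw [this]; simp
    have hup : Fapp n l s ≤ s - l := by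
      rw [hsplit]
      calc ∫ r in l..s, Real.smoothTransition (((n:ℝ) + 1) * (r - l)) ≤ ∫ r in l..s, (1:ℝ) :=
            intervalIntegral.integral_mono_on h (hc.intervalIntegrable _ _) intervalIntegrable_const fun r _ => b1 _
        _ = s - l := by simp
    have hlow : s - l - 1 / ((n:ℝ) + 1) ≤ Fapp n l s := by
      rw [hsplit]
      rcases le_total s (l + 1 / ((n:ℝ) + 1)) with h2 | h2
      · have : 0 ≤ ∫ r in l..s, Real.smoothTransition (((n:ℝ) + 1) * (r - l)) :=
          intervalIntegral.integral_nonneg h fun r _ => b0 _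
        linarith
      · have hl1 : l ≤ l + 1 / ((n:ℝ) + 1) := by
          have : 0 < 1 / ((n:ℝ) + 1) := by positivity
          linarith
        rw [← intervalIntegral.integral_add_adjacent_intervals (hc.intervalIntegrable l (l + 1 / ((n:ℝ) + 1)))
          (hc.intervalIntegrable (l + 1 / ((n:ℝ) + 1)) s)]
        have e1 : 0 ≤ ∫ r in l..(l + 1 / ((n:ℝ) + 1)), Real.smoothTransition (((n:ℝ) + 1) * (r - l)) :=
          intervalIntegral.integral_nonneg hl1 fun r _ => b0 _
        have e2 : ∫ r in (l + 1 / ((n:ℝ) + 1))..s, Real.smoothTransition (((n:ℝ) + 1) * (r - l)) =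
            ∫ r in (l + 1 / ((n:ℝ) + 1))..s, (1:ℝ) := by
          apply intervalIntegral.integral_congr
          intro r hr
          rw [uIcc_of_le h2] at hr
          exact z2 r hr.1
        rw [e2]
        simp only [intervalIntegral.integral_const, smul_eq_mul, mul_one]
        linarith
    rw [abs_le]
    have : 0 < 1 / ((n:ℝ) + 1) := by positivity
    constructor <;> linarith

end Run7.h119
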