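import Mathlib
import Pool.Agent.Run7.h119.WL

open MeasureTheory Set Filter Topology
open scoped ENNReal ContDiff

set_option linter.unusedSectionVars false
set_option linter.style.haveILetI false
set_option linter.unusedVariables false

namespace Run7.h119

/-- Euclidean space of dimension `N` -/
abbrev EE (N : ℕ) := EuclideanSpace ℝ (Fin N)

variable {N : ℕ}

/-- smooth functions with compact support in `Ω` -/
def IsTest (Ω : Set (EE N)) (φ : EE N → ℝ) : Prop :=
  ContDiff ℝ ∞ φ ∧ HasCompactSupport φ ∧ tsupport φ ⊆ Ω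

namespace IsTest

variable {Ω : Set (EE N)} {φ ψ : EE N → ℝ}

theorem differentiable (h : IsTest Ω φ) : Differentiable ℝ φ := h.1.differentiable (by simp)

theorem continuous (h : IsTest Ω φ) : Continuous φ := h.1.continuous

theorem continuous_gradient (h : IsTest Ω φ) : Continuous (gradient φ) := by
  unfold gradient
  exact (InnerProductSpace.toDual ℝ (EE N)).symm.continuous.comp (h.1.continuous_fderiv (by simp))

theorem support_gradient (h : IsTest Ω φ) : HasCompactSupport (gradient φ) := by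
  have h1 := h.2.1.fderiv (𝕜 := ℝ)
  unfold gradient
  exact h1.comp_left (g := (InnerProductSpace.toDual ℝ (EE N)).symm) (map_zero _)

theorem memLp (h : IsTest Ω φ) (p : ℝ≥0∞) : MemLp φ p (volume.restrict Ω) :=
  (h.continuous.memLp_of_hasCompactSupport h.2.1 (μ := volume)).restrict Ω

theorem memLp_gradient (h : IsTest Ω φ) (p : ℝ≥0∞) : MemLp (gradient φ) p (volume.restrict Ω) :=
  (h.continuous_gradient.memLp_of_hasCompactSupport h.support_gradient (μ := volume)).restrict Ω

theorem add (h : IsTest Ω φ) (h' : IsTest Ω ψ) : IsTest Ω (fun x => φ x + ψ x) := by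
  refine ⟨h.1.add h'.1, h.2.1.add h'.2.1, ?_⟩
  exact (tsupport_add φ ψ).trans (union_subset h.2.2 h'.2.2)

theorem smul (h : IsTest Ω φ) (c : ℝ) : IsTest Ω (fun x => c * φ x) := by
  refine ⟨contDiff_const.mul h.1, h.2.1.mul_left, ?_⟩
  refine (closure_mono ?_).trans h.2.2
  intro x hx
  simp only [Function.mem_support] at hx ⊢
  exact right_ne_zero_of_mul hx

theorem zero : IsTest Ω (fun _ => (0:ℝ)) := by
  refine ⟨contDiff_const, HasCompactSupport.zero, ?_⟩
  have : tsupport (fun _ : EE N => (0:ℝ)) = ∅ := by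
    simp [tsupport]
  rw [this]
  exact empty_subset _

theorem comp (h : IsTest Ω φ) {F : ℝ → ℝ} (hF : ContDiff ℝ ∞ F) (hF0 : F 0 = 0) :
    IsTest Ω (fun x => F (φ x)) := by
  refine ⟨hF.comp h.1, h.2.1.comp_left hF0, ?_⟩
  refine (closure_mono ?_).trans h.2.2
  intro x hx
  simp only [Function.mem_support] at hx ⊢
  intro h0
  exact hx (by rw [h0, hF0])

end IsTest

theorem gradient_add' {φ ψ : EE N → ℝ} (h : Differentiable ℝ φ) (h' : Differentiable ℝ ψ) :
    gradient (fun x => φ x + ψ x) = fun x => gradient φ x + gradient ψ x := by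
  funext x
  unfold gradient
  rw [fderiv_fun_add (h x) (h' x), map_add]

theorem gradient_smul' {φ : EE N → ℝ} (h : Differentiable ℝ φ) (c : ℝ) :
    gradient (fun x => c * φ x) = fun x => c • gradient φ x := by
  funext x
  unfold gradient
  rw [fderiv_const_mul (h x), map_smul]

theorem gradient_comp' {φ : EE N → ℝ} (h : Differentiable ℝ φ) {F : ℝ → ℝ} (hF : Differentiable ℝ F) :
    gradient (fun x => F (φ x)) = fun x => deriv F (φ x) • gradient φ x := by
  funext x
  unfold gradient
  have := (hF (φ x)).hasDerivAt.comp_hasFDerivAt x (h x).hasFDerivAt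
  have e : (fun x => F (φ x)) = F ∘ φ := rfl
  rw [e, this.fderiv, map_smul]

variable (Ω : Set (EE N))

/-- graph of (gradient, function) over test functions -/
def Gam0 : Submodule ℝ (Lp (EE N) 2 (volume.restrict Ω) × Lp ℝ 2 (volume.restrict Ω)) where
  carrier := {y | ∃ φ, IsTest Ω φ ∧ (y.1 : EE N → EE N) =ᵐ[volume.restrict Ω] gradient φ ∧
    (y.2 : EE N → ℝ) =ᵐ[volume.restrict Ω] φ}
  add_mem' := by
    rintro y y' ⟨φ, h1, h2, h3⟩ ⟨ψ, k1, k2, k3⟩
    refine ⟨_, h1.add k1, ?_, ?_⟩
    · rw [gradient_add' h1.differentiable k1.differentiable]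
      filter_upwards [h2, k2, Lp.coeFn_add y.1 y'.1] with x x1 x2 x3
      rw [Prod.fst_add, x3, Pi.add_apply, x1, x2]
    · filter_upwards [h3, k3, Lp.coeFn_add y.2 y'.2] with x x1 x2 x3
      rw [Prod.snd_add, x3, Pi.add_apply, x1, x2]
  zero_mem' := by
    refine ⟨_, IsTest.zero, ?_, ?_⟩
    · have : gradient (fun _ : EE N => (0:ℝ)) = fun _ => 0 := by
        funext x; unfold gradient; simp
      rw [this]
      exact Lp.coeFn_zero _ _ _
    · exact Lp.coeFn_zero _ _ _
  smul_mem' := by
    rintro c y ⟨φ, h1, h2, h3⟩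
    refine ⟨_, h1.smul c, ?_, ?_⟩
    · rw [gradient_smul' h1.differentiable]
      filter_upwards [h2, Lp.coeFn_smul c y.1] with x x1 x3
      rw [Prod.smul_fst, x3, Pi.smul_apply, x1]
    · filter_upwards [h3, Lp.coeFn_smul c y.2] with x x1 x3
      rw [Prod.smul_snd, x3, Pi.smul_apply, x1]; rfl

/-- closure of the graph -/
noncomputable def Gam : Submodule ℝ (Lp (EE N) 2 (volume.restrict Ω) × Lp ℝ 2 (volume.restrict Ω)) :=
  (Gam0 Ω).topologicalClosure

/-- `H¹₀` as a space of gradients -/
noncomputable def VV : Submodule ℝ (Lp (EE N) 2 (volume.restrict Ω)) :=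
  (Gam Ω).map (LinearMap.fst ℝ _ _)

variable {Ω}

theorem norm_gradient (φ : EE N → ℝ) (x : EE N) : ‖gradient φ x‖ = ‖fderiv ℝ φ x‖ := by
  unfold gradient
  exact (InnerProductSpace.toDual ℝ (EE N)).symm.norm_map _

/-- Sobolev and Poincare inequalities for test functions -/
theorem sobolev_test (hN : 3 ≤ N) (hΩ : Bornology.IsBounded Ω) (hΩm : MeasurableSet Ω) {q : NNReal}
    (hq : (2:ℝ)⁻¹ - (N:ℝ)⁻¹ ≤ (q:ℝ)⁻¹) :
    ∃ C : NNReal, ∀ φ, IsTest Ω φ →
      eLpNorm φ q (volume.restrict Ω) ≤ C * eLpNorm (gradient φ) 2 (volume.restrict Ω) := by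
  refine ⟨eLpNormLESNormFDerivOfLeConst ℝ volume Ω 2 q, fun φ hφ => ?_⟩
  have hfin : Module.finrank ℝ (EE N) = N := by simp
  have hsupp : φ.support ⊆ Ω := (subset_tsupport φ).trans hφ.2.2
  have h1 := eLpNorm_le_eLpNorm_fderiv_of_le (F := ℝ) (volume : Measure (EE N)) (u := φ) (s := Ω)
    (hφ.1.of_le (by simp)) hsupp (p := 2) (q := q) (by norm_num)
    (by rw [hfin]; exact_mod_cast (by omega : 2 < N)) (by rw [hfin]; exact_mod_cast hq) hΩ
  have h2 : eLpNorm φ q (volume.restrict Ω) ≤ eLpNorm φ q volume :=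
    eLpNorm_mono_measure _ Measure.restrict_le_self
  have h3 : eLpNorm (fderiv ℝ φ) 2 volume = eLpNorm (gradient φ) 2 (volume.restrict Ω) := by
    have e1 : eLpNorm (gradient φ) 2 volume = eLpNorm (fderiv ℝ φ) 2 volume :=
      eLpNorm_congr_norm_ae (Eventually.of_forall fun x => norm_gradient φ x)
    rw [← e1]
    have hs : Function.support (gradient φ) ⊆ Ω := by
      intro x hx
      have : x ∈ tsupport φ := by
        by_contra hn
        apply hx
        have h4 : fderiv ℝ φ x = 0 := by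
          by_contra h0
          exact hn (support_fderiv_subset ℝ (f := φ) h0)
        unfold gradient
        rw [h4, map_zero]
      exact hφ.2.2 this
    have e2 : gradient φ = Ω.indicator (gradient φ) := (indicator_eq_self.2 hs).symm
    rw [e2, eLpNorm_indicator_eq_eLpNorm_restrict hΩm]
    apply eLpNorm_congr_ae
    filter_upwards [ae_restrict_mem hΩm] with x hx
    rw [indicator_of_mem hx]
  refine h2.trans (h1.trans (le_of_eq ?_))
  congr 1

end Run7.h119
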