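import Mathlib
import Pool.Agent.Run7.h119.H10

open MeasureTheory Set Filter Topology
open scoped ENNReal ContDiff

set_option linter.unusedSectionVars false
set_option linter.style.haveILetI false
set_option linter.unusedVariables false

namespace Run7.h119

variable {N : ℕ} {Ω : Set (EE N)}

/-- the product space -/
abbrev PP (Ω : Set (EE N)) := Lp (EE N) 2 (volume.restrict Ω) × Lp ℝ 2 (volume.restrict Ω)

theorem exists_poincare (hN : 3 ≤ N) (hΩ : Bornology.IsBounded Ω) (hΩm : MeasurableSet Ω) :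
    ∃ C : NNReal, ∀ y ∈ Gam Ω, ‖y.2‖ ≤ C * ‖y.1‖ := by
  obtain ⟨C, hC⟩ := sobolev_test (q := 2) hN hΩ hΩm (by
    have : (0:ℝ) ≤ (N:ℝ)⁻¹ := by positivity
    have e : (((2:NNReal):ℝ))⁻¹ = (2:ℝ)⁻¹ := by norm_num
    rw [e]; linarith)
  refine ⟨C, ?_⟩
  have hcl : IsClosed {y : PP Ω | ‖y.2‖ ≤ C * ‖y.1‖} :=
    isClosed_le continuous_snd.norm (continuous_const.mul continuous_fst.norm)
  have hsub : (Gam0 Ω : Set (PP Ω)) ⊆ {y : PP Ω | ‖y.2‖ ≤ C * ‖y.1‖} := by
    rintro y ⟨φ, h1, h2, h3⟩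
    have h4 := hC φ h1
    rw [eLpNorm_congr_ae h2.symm, show ((2:NNReal):ℝ≥0∞) = 2 by norm_num, eLpNorm_congr_ae h3.symm] at h4
    have : ‖y.2‖ ≤ C * ‖y.1‖ := by
      rw [Lp.norm_def, Lp.norm_def]
      have h5 := ENNReal.toReal_mono (ENNReal.mul_ne_top ENNReal.coe_ne_top (Lp.memLp y.1).2.ne) h4
      rwa [ENNReal.toReal_mul] at h5
    exact this
  intro y hy
  have : y ∈ closure (Gam0 Ω : Set (PP Ω)) := hy
  exact closure_minimal hsub hcl this

theorem isClosed_Gam : IsClosed (Gam Ω : Set (PP Ω)) := (Gam0 Ω).isClosed_topologicalClosure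

theorem isComplete_VV (hN : 3 ≤ N) (hΩ : Bornology.IsBounded Ω) (hΩm : MeasurableSet Ω) :
    IsComplete (VV Ω : Set (Lp (EE N) 2 (volume.restrict Ω))) := by
  obtain ⟨C, hC⟩ := exists_poincare hN hΩ hΩm
  set g : Gam Ω → Lp (EE N) 2 (volume.restrict Ω) := fun y => y.1.1 with hg
  have hanti : AntilipschitzWith (max 1 C) g := by
    refine AntilipschitzWith.of_le_mul_dist fun x y => ?_
    have h1 := hC (x.1 - y.1) (Submodule.sub_mem _ x.2 y.2)
    rw [Subtype.dist_eq, dist_eq_norm, dist_eq_norm, Prod.norm_def]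
    have h2 : ‖(x.1 - y.1).1‖ = ‖g x - g y‖ := rfl
    have hm1 : (1:ℝ) ≤ ((max 1 C : NNReal) : ℝ) := by exact_mod_cast le_max_left _ _
    have hm2 : (C:ℝ) ≤ ((max 1 C : NNReal) : ℝ) := by exact_mod_cast le_max_right _ _
    rw [← h2]
    apply max_le
    · nlinarith [norm_nonneg (x.1 - y.1).1]
    · refine h1.trans ?_
      gcongr
  have huc : UniformContinuous g := uniformContinuous_fst.comp uniformContinuous_subtype_val
  haveI : CompleteSpace (Gam Ω) := isClosed_Gam.completeSpace_coe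
  have hr : IsComplete (range g) := hanti.isComplete_range huc
  have e : (VV Ω : Set (Lp (EE N) 2 (volume.restrict Ω))) = range g := by
    ext z
    constructor
    · rintro ⟨y, hy, rfl⟩
      exact ⟨⟨y, hy⟩, rfl⟩
    · rintro ⟨y, rfl⟩
      exact ⟨y.1, y.2, rfl⟩
  rw [e]
  exact hr

theorem exists_iota_aux {E F : Type*} [NormedAddCommGroup E] [NormedSpace ℝ E] [NormedAddCommGroup F] [NormedSpace ℝ F]
    (G : Submodule ℝ (E × F)) (C : ℝ) (hC : ∀ y ∈ G, ‖y.2‖ ≤ C * ‖y.1‖) :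
    ∃ ι : (G.map (LinearMap.fst ℝ E F)) →L[ℝ] F, ∀ g : (G.map (LinearMap.fst ℝ E F)), ∀ w : F,
      ((g : E), w) ∈ G ↔ ι g = w := by
  have hex : ∀ g : (G.map (LinearMap.fst ℝ E F)), ∃ w : F, ((g : E), w) ∈ G := by
    rintro ⟨g, y, hy, rfl⟩
    exact ⟨y.2, hy⟩
  have huniq : ∀ (g : E) (w w' : F),
      (g, w) ∈ G → (g, w') ∈ G → w = w' := by
    intro g w w' h1 h2
    have h3 := hC _ (Submodule.sub_mem _ h1 h2)
    have h4 : ((g, w) - (g, w') : E × F) = (0, w - w') := by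
      ext <;> simp
    rw [h4] at h3
    simp only [norm_zero, mul_zero] at h3
    exact sub_eq_zero.1 (norm_le_zero_iff.1 h3)
  choose J hJ using hex
  have hadd : ∀ x y, J (x + y) = J x + J y := by
    intro x y
    have h1 : (((x : E), J x) + ((y : E), J y) : E × F) ∈ G :=
      Submodule.add_mem _ (hJ x) (hJ y)
    rw [Prod.mk_add_mk] at h1
    exact huniq _ _ _ (hJ (x + y)) h1
  have hsmul : ∀ (c : ℝ) x, J (c • x) = c • J x := by
    intro c x
    have h1 : (c • ((x : E), J x) : E × F) ∈ G :=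
      Submodule.smul_mem _ c (hJ x)
    rw [Prod.smul_mk] at h1
    exact huniq _ _ _ (hJ (c • x)) h1
  have hb : ∀ x, ‖J x‖ ≤ C * ‖x‖ := fun x => hC _ (hJ x)
  refine ⟨LinearMap.mkContinuous (IsLinearMap.mk' J ⟨hadd, hsmul⟩) C hb, ?_⟩
  intro g w
  have e : (LinearMap.mkContinuous (IsLinearMap.mk' J ⟨hadd, hsmul⟩) C hb) g = J g := rfl
  rw [e]
  constructor
  · intro h
    exact huniq _ _ _ (hJ g) h
  · intro h
    rw [← h]
    exact hJ g


theorem exists_iota (hN : 3 ≤ N) (hΩ : Bornology.IsBounded Ω) (hΩm : MeasurableSet Ω) :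
    ∃ ι : VV Ω →L[ℝ] Lp ℝ 2 (volume.restrict Ω), ∀ g : VV Ω, ∀ w : Lp ℝ 2 (volume.restrict Ω),
      ((g : Lp (EE N) 2 (volume.restrict Ω)), w) ∈ Gam Ω ↔ ι g = w := by
  obtain ⟨C, hC⟩ := exists_poincare hN hΩ hΩm
  exact exists_iota_aux (Gam Ω) C hC

end Run7.h119
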