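import Mathlib
import Pool.Agent.Run7.h119.H10b
import Pool.Agent.Run7.h119.Fapp

open MeasureTheory Set Filter Topology
open scoped ENNReal ContDiff

set_option linter.unusedSectionVars false
set_option linter.style.haveILetI false
set_option linter.unusedVariables false

namespace Run7.h119

theorem markov_aux {V G : Type*} [NormedAddCommGroup V] [InnerProductSpace ℝ V] [CompleteSpace V]
    [NormedAddCommGroup G] [NormedSpace ℝ G] (ι : V →L[ℝ] G) {x s : ℕ → V} {v : V} {y : G}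
    (hx : Tendsto x atTop (𝓝 v)) (hs : Tendsto (fun n => ι (s n)) atTop (𝓝 y))
    (h : ∀ n, 0 ≤ inner ℝ (x n - s n) (s n)) : ∃ ξ : V, ι ξ = y ∧ 0 ≤ inner ℝ (v - ξ) ξ := by
  have h1 : Tendsto (fun n => ι (s n - (1/2:ℝ) • x n)) atTop (𝓝 (y - (1/2:ℝ) • ι v)) := by
    have : (fun n => ι (s n - (1/2:ℝ) • x n)) = fun n => ι (s n) - (1/2:ℝ) • ι (x n) := by
      funext n; rw [map_sub, map_smul]
    rw [this]
    exact hs.sub (((ι.continuous.tendsto v).comp hx).const_smul _)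
  have h2 : ∀ n, ‖s n - (1/2:ℝ) • x n‖ ≤ (1/2) * ‖x n‖ := by
    intro n
    have h3 := h n
    rw [inner_sub_left, real_inner_self_eq_norm_sq] at h3
    have h4 : ‖s n - (1/2:ℝ) • x n‖ ^ 2 = ‖s n‖ ^ 2 - inner ℝ (x n) (s n) + 1/4 * ‖x n‖ ^ 2 := by
      rw [norm_sub_sq_real, inner_smul_right, norm_smul, real_inner_comm]
      norm_num
      ring
    have h5 : ‖s n - (1/2:ℝ) • x n‖ ^ 2 ≤ ((1/2) * ‖x n‖) ^ 2 := by
      rw [h4]; nlinarith
    exact le_of_sq_le_sq h5 (by positivity)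
  have h3 : Tendsto (fun n => (1/2) * ‖x n‖) atTop (𝓝 ((1/2) * ‖v‖)) := hx.norm.const_mul _
  obtain ⟨z, hz1, hz2⟩ := weak_ball ι h1 h2 h3
  refine ⟨z + (1/2:ℝ) • v, ?_, ?_⟩
  · rw [map_add, map_smul, hz1]; abel
  · have e : v - (z + (1/2:ℝ) • v) = (1/2:ℝ) • v - z := by
      have : v = (1/2:ℝ) • v + (1/2:ℝ) • v := by rw [← add_smul]; norm_num
      conv_lhs => rw [this]
      rw [← this]; 
      nth_rewrite 1 [this]
      abel
    rw [e, inner_add_right, inner_sub_left, inner_sub_left, real_inner_self_eq_norm_sq, real_inner_self_eq_norm_sq,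
      real_inner_comm, norm_smul]
    have h6 : ‖z‖ ^ 2 ≤ ((1/2) * ‖v‖) ^ 2 := by gcongr
    have h7 : ‖(1/2:ℝ)‖ = 1/2 := by norm_num
    rw [h7]
    linarith

variable {N : ℕ} {Ω : Set (EE N)}

theorem mk_mem_Gam {φ : EE N → ℝ} (h : IsTest Ω φ) :
    (((h.memLp_gradient 2).toLp _, (h.memLp 2).toLp _) : PP Ω) ∈ Gam Ω := by
  apply (Gam0 Ω).le_topologicalClosure
  exact ⟨φ, h, MemLp.coeFn_toLp (h.memLp_gradient 2), MemLp.coeFn_toLp (h.memLp 2)⟩

theorem mem_Gam_iff (y : PP Ω) : y ∈ Gam Ω ↔ ∃ z : ℕ → PP Ω, (∀ n, z n ∈ Gam0 Ω) ∧ Tendsto z atTop (𝓝 y) := by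
  have : y ∈ Gam Ω ↔ y ∈ closure (Gam0 Ω : Set (PP Ω)) := Iff.rfl
  rw [this, mem_closure_iff_seq_limit]
  rfl

/-- test element of the space of gradients -/
noncomputable def tE (φ : EE N → ℝ) (h : IsTest Ω φ) : VV Ω :=
  ⟨(h.memLp_gradient 2).toLp _, ⟨_, mk_mem_Gam h, rfl⟩⟩

theorem tE_coe (φ : EE N → ℝ) (h : IsTest Ω φ) :
    ((tE φ h : VV Ω) : Lp (EE N) 2 (volume.restrict Ω)) = (h.memLp_gradient 2).toLp _ := rfl

variable {ι : VV Ω →L[ℝ] Lp ℝ 2 (volume.restrict Ω)}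
  (hι : ∀ g : VV Ω, ∀ w : Lp ℝ 2 (volume.restrict Ω), ((g : Lp (EE N) 2 (volume.restrict Ω)), w) ∈ Gam Ω ↔ ι g = w)

include hι in
theorem ι_tE {φ : EE N → ℝ} (h : IsTest Ω φ) : ι (tE φ h) = (h.memLp 2).toLp _ :=
  (hι _ _).1 (mk_mem_Gam h)

include hι in
theorem approx (v : VV Ω) : ∃ φ : ℕ → EE N → ℝ, ∃ h : ∀ n, IsTest Ω (φ n),
    Tendsto (fun n => tE (φ n) (h n)) atTop (𝓝 v) := by
  have h1 := (hι v (ι v)).2 rfl
  rw [mem_Gam_iff] at h1
  obtain ⟨z, hz1, hz2⟩ := h1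
  have hz3 : ∀ n, ∃ φ, IsTest Ω φ ∧ ((z n).1 : EE N → EE N) =ᵐ[volume.restrict Ω] gradient φ ∧
    ((z n).2 : EE N → ℝ) =ᵐ[volume.restrict Ω] φ := fun n => hz1 n
  choose φ h1 h2 h3 using hz3
  refine ⟨φ, h1, ?_⟩
  rw [tendsto_subtype_rng]
  have e : (fun n => ((tE (φ n) (h1 n) : VV Ω) : Lp (EE N) 2 (volume.restrict Ω))) = fun n => (z n).1 := by
    funext n
    rw [tE_coe]
    apply Lp.ext
    exact (MemLp.coeFn_toLp _).trans (h2 n).symm
  rw [e]
  exact (continuous_fst.tendsto _).comp hz2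

theorem inner_tE_nonneg {φ : EE N → ℝ} (h : IsTest Ω φ) {F : ℝ → ℝ} (hF : ContDiff ℝ ∞ F) (hF0 : F 0 = 0)
    (hF1 : ∀ s, 0 ≤ deriv F s) (hF2 : ∀ s, deriv F s ≤ 1) :
    0 ≤ inner ℝ (tE φ h - tE (fun x => F (φ x)) (h.comp hF hF0)) (tE (fun x => F (φ x)) (h.comp hF hF0)) := by
  rw [Submodule.coe_inner, Submodule.coe_sub, tE_coe, tE_coe, L2.inner_def]
  apply integral_nonneg_of_ae
  have e1 := MemLp.coeFn_toLp (h.memLp_gradient 2)
  have e2 := MemLp.coeFn_toLp ((h.comp hF hF0).memLp_gradient 2)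
  filter_upwards [e1, e2, Lp.coeFn_sub ((h.memLp_gradient 2).toLp _) (((h.comp hF hF0).memLp_gradient 2).toLp _)] with x x1 x2 x3
  rw [x3, Pi.sub_apply, x1, x2, gradient_comp' h.differentiable (hF.differentiable (by simp))]
  simp only [Pi.zero_apply]
  rw [inner_sub_left, inner_smul_right, inner_smul_left, inner_smul_right, real_inner_self_eq_norm_sq]
  simp only [conj_trivial]
  have := hF1 (φ x)
  have h2 := hF2 (φ x)
  have h3 : 0 ≤ deriv F (φ x) * ‖gradient φ x‖ ^ 2 := by positivity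
  nlinarith

theorem deriv_Fapp (n : ℕ) (l s : ℝ) : deriv (Fapp n l) s = Real.smoothTransition (((n:ℝ) + 1) * (s - l)) :=
  (hasDerivAt_Fapp n l s).deriv

theorem memLp_pos (w : Lp ℝ 2 (volume.restrict Ω)) {l : ℝ} (hl : 0 ≤ l) :
    MemLp (fun x => max (w x - l) 0) 2 (volume.restrict Ω) := by
  refine (Lp.memLp w).mono ?_ (Eventually.of_forall fun x => ?_)
  · exact (((Lp.aestronglyMeasurable w).sub aestronglyMeasurable_const).sup aestronglyMeasurable_const)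
  · rw [Real.norm_eq_abs, Real.norm_eq_abs]
    rw [abs_of_nonneg (le_max_right _ _)]
    apply max_le
    · have := le_abs_self (w x); linarith
    · exact abs_nonneg _

theorem norm_le_of_ae {X : Type*} [MeasurableSpace X] {μ : Measure X} [IsFiniteMeasure μ]
    (f g h : Lp ℝ 2 μ) (c : ℝ) (hc : 0 ≤ c) (H : ∀ᵐ x ∂μ, |f x - g x| ≤ c + |h x|) :
    ‖f - g‖ ≤ c * (μ.real univ) ^ (1/2:ℝ) + ‖h‖ := by
  have h1 : eLpNorm (fun x => f x - g x) 2 μ ≤ eLpNorm (fun _ : X => c) 2 μ + eLpNorm h 2 μ := by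
    calc eLpNorm (fun x => f x - g x) 2 μ ≤ eLpNorm (fun x => c + |h x|) 2 μ := by
          apply eLpNorm_mono_ae
          filter_upwards [H] with x hx
          rw [Real.norm_eq_abs, Real.norm_eq_abs, abs_of_nonneg (show 0 ≤ c + |h x| by positivity)]
          exact hx
      _ ≤ eLpNorm (fun _ : X => c) 2 μ + eLpNorm (fun x => |h x|) 2 μ := by
          exact eLpNorm_add_le aestronglyMeasurable_const (Lp.aestronglyMeasurable h).norm (by norm_num)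
      _ = _ := by
          congr 1
          exact eLpNorm_norm h
  have h2 : eLpNorm (fun x => f x - g x) 2 μ = eLpNorm (f - g : Lp ℝ 2 μ) 2 μ :=
    eLpNorm_congr_ae (Lp.coeFn_sub f g).symm
  rw [h2] at h1
  rw [Lp.norm_def, Lp.norm_def]
  have h3 : eLpNorm (fun _ : X => c) 2 μ ≠ ⊤ := (memLp_const c).2.ne
  have h4 := ENNReal.toReal_mono (ENNReal.add_ne_top.2 ⟨h3, (Lp.memLp h).2.ne⟩) h1
  rw [ENNReal.toReal_add h3 (Lp.memLp h).2.ne] at h4
  have h5 : (eLpNorm (fun _ : X => c) 2 μ).toReal = c * (μ.real univ) ^ (1/2:ℝ) := by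
    rw [eLpNorm_const' c (by norm_num) (by norm_num), ENNReal.toReal_mul, toReal_enorm, Real.norm_of_nonneg hc,
      ← ENNReal.toReal_rpow]
    norm_num [Measure.real]
  rw [h5] at h4
  exact h4

include hι in
theorem markov_VV [IsFiniteMeasure (volume.restrict Ω)] [CompleteSpace (VV Ω)] (v : VV Ω) {l : ℝ} (hl : 0 ≤ l) :
    ∃ ξ : VV Ω, (ι ξ : EE N → ℝ) =ᵐ[volume.restrict Ω] (fun x => max (ι v x - l) 0) ∧ 0 ≤ inner ℝ (v - ξ) ξ := by
  obtain ⟨φ, h, ht⟩ := approx hι v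
  set P := (memLp_pos (ι v) hl).toLp with hP
  have hPe : (P : EE N → ℝ) =ᵐ[volume.restrict Ω] (fun x => max (ι v x - l) 0) := MemLp.coeFn_toLp _
  have hlim : Tendsto (fun n => ι (tE (fun x => Fapp n l (φ n x)) ((h n).comp (contDiff_Fapp n l) (Fapp_zero n l))))
      atTop (𝓝 P) := by
    rw [tendsto_iff_norm_sub_tendsto_zero]
    have hb : ∀ n : ℕ, ‖ι (tE (fun x => Fapp n l (φ n x)) ((h n).comp (contDiff_Fapp n l) (Fapp_zero n l))) - P‖ ≤
        (1 / ((n:ℝ) + 1)) * ((volume.restrict Ω).real univ) ^ (1/2:ℝ) + ‖ι (tE (φ n) (h n)) - ι v‖ := by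
      intro n
      apply norm_le_of_ae _ _ _ _ (by positivity)
      rw [ι_tE hι, ι_tE hι]
      filter_upwards [MemLp.coeFn_toLp (((h n).comp (contDiff_Fapp n l) (Fapp_zero n l)).memLp 2), hPe,
        MemLp.coeFn_toLp ((h n).memLp 2), Lp.coeFn_sub (((h n).memLp 2).toLp _) (ι v)] with x x1 x2 x3 x4
      rw [x1, x2, x4, Pi.sub_apply, x3]
      have h1 := Fapp_close (n := n) hl (φ n x)
      have h2 : |max (φ n x - l) 0 - max (ι v x - l) 0| ≤ |φ n x - ι v x| := by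
        have := abs_max_sub_max_le_abs (φ n x - l) (ι v x - l) 0
        simpa using this
      calc |Fapp n l (φ n x) - max (ι v x - l) 0| =
          |(Fapp n l (φ n x) - max (φ n x - l) 0) + (max (φ n x - l) 0 - max (ι v x - l) 0)| := by congr 1; ring
        _ ≤ _ := (abs_add_le _ _).trans (add_le_add h1 h2)
    refine squeeze_zero (fun n => norm_nonneg _) hb ?_
    have h1 : Tendsto (fun n : ℕ => (1 / ((n:ℝ) + 1)) * ((volume.restrict Ω).real univ) ^ (1/2:ℝ)) atTop (𝓝 0) := by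
      have := (tendsto_one_div_add_atTop_nhds_zero_nat (𝕜 := ℝ)).mul_const (((volume.restrict Ω).real univ) ^ (1/2:ℝ))
      simpa using this
    have h2 : Tendsto (fun n => ‖ι (tE (φ n) (h n)) - ι v‖) atTop (𝓝 0) := by
      have := (((ι.continuous.tendsto v).comp ht).sub_const (ι v)).norm
      simpa using this
    simpa using h1.add h2
  obtain ⟨ξ, h1, h2⟩ := markov_aux ι ht hlim fun n => inner_tE_nonneg (h n) (contDiff_Fapp n l) (Fapp_zero n l)
    (fun s => by rw [deriv_Fapp]; exact Real.smoothTransition.nonneg _)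
    (fun s => by rw [deriv_Fapp]; exact Real.smoothTransition.le_one _)
  refine ⟨ξ, ?_, h2⟩
  rw [h1]
  exact hPe

theorem norm_tE {φ : EE N → ℝ} (h : IsTest Ω φ) :
    ENNReal.ofReal ‖tE φ h‖ = eLpNorm (gradient φ) 2 (volume.restrict Ω) := by
  have : ‖tE φ h‖ = ‖(h.memLp_gradient 2).toLp _‖ := rfl
  rw [this, Lp.norm_toLp, ENNReal.ofReal_toReal (h.memLp_gradient 2).2.ne]

include hι in
theorem sobolev_VV (hN : 3 ≤ N) (hΩ : Bornology.IsBounded Ω) (hΩm : MeasurableSet Ω) {q : NNReal}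
    (hq : (2:ℝ)⁻¹ - (N:ℝ)⁻¹ ≤ (q:ℝ)⁻¹) :
    ∃ C : NNReal, ∀ v : VV Ω, eLpNorm (ι v) q (volume.restrict Ω) ≤ C * ENNReal.ofReal ‖v‖ := by
  obtain ⟨C, hC⟩ := sobolev_test hN hΩ hΩm hq
  refine ⟨C, fun v => ?_⟩
  obtain ⟨φ, h, ht⟩ := approx hι v
  have h1 : Tendsto (fun n => ι (tE (φ n) (h n))) atTop (𝓝 (ι v)) := (ι.continuous.tendsto v).comp ht
  obtain ⟨k, hk1, hk2⟩ := (tendstoInMeasure_of_tendsto_Lp h1).exists_seq_tendsto_ae
  have h2 := Lp.eLpNorm_lim_le_liminf_eLpNorm (p := (q:ℝ≥0∞)) (fun n => Lp.aestronglyMeasurable (ι (tE (φ (k n)) (h (k n)))))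
    (ι v) hk2
  refine h2.trans ?_
  have h3 : ∀ n, eLpNorm (ι (tE (φ (k n)) (h (k n)))) q (volume.restrict Ω) ≤ C * ENNReal.ofReal ‖tE (φ (k n)) (h (k n))‖ := by
    intro n
    rw [norm_tE, ι_tE hι]
    rw [eLpNorm_congr_ae (MemLp.coeFn_toLp ((h (k n)).memLp 2))]
    exact hC _ (h _)
  have h4 : Tendsto (fun n => C * ENNReal.ofReal ‖tE (φ (k n)) (h (k n))‖) atTop (𝓝 (C * ENNReal.ofReal ‖v‖)) := by
    apply ENNReal.Tendsto.const_mul _ (Or.inr ENNReal.coe_ne_top)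
    exact ENNReal.tendsto_ofReal ((ht.comp hk1.tendsto_atTop).norm)
  rw [← h4.liminf_eq]
  exact liminf_le_liminf (Eventually.of_forall h3)

theorem cheb {X : Type*} [MeasurableSpace X] {μ : Measure X} [IsFiniteMeasure μ] (w : Lp ℝ 2 μ) {q : NNReal}
    (hq : 0 < q) {A : ℝ} (hA : 0 ≤ A) (h : eLpNorm w q μ ≤ ENNReal.ofReal A) {l : ℝ} (hl : 0 < l) :
    μ.real {x | l ≤ |w x|} ≤ (A / l) ^ (q:ℝ) := by
  have h1 := meas_ge_le_mul_pow_eLpNorm_enorm (p := (q:ℝ≥0∞)) (μ := μ) (by simpa using hq.ne') ENNReal.coe_ne_top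
    (Lp.aestronglyMeasurable w) (ε := ENNReal.ofReal l) (by simpa using hl) (by simp)
  have e : {x | ENNReal.ofReal l ≤ ‖w x‖ₑ} = {x | l ≤ |w x|} := by
    ext x
    simp only [mem_setOf_eq]
    rw [← ofReal_norm_eq_enorm, ENNReal.ofReal_le_ofReal_iff (norm_nonneg _), Real.norm_eq_abs]
  rw [e] at h1
  have hq0 : (0:ℝ) ≤ q := q.2
  have h2 : μ {x | l ≤ |w x|} ≤ ENNReal.ofReal ((A / l) ^ (q:ℝ)) := by
    refine h1.trans ?_
    rw [ENNReal.coe_toReal]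
    calc (ENNReal.ofReal l)⁻¹ ^ (q:ℝ) * eLpNorm w q μ ^ (q:ℝ) ≤ (ENNReal.ofReal l)⁻¹ ^ (q:ℝ) * ENNReal.ofReal A ^ (q:ℝ) := by
          gcongr
      _ = _ := by
          rw [← ENNReal.ofReal_inv_of_pos hl, ← ENNReal.mul_rpow_of_nonneg _ _ hq0, ← ENNReal.ofReal_mul (by positivity),
            ENNReal.ofReal_rpow_of_nonneg (by positivity) hq0]
          congr 2
          field_simp
  exact ENNReal.toReal_le_of_le_ofReal (by positivity) h2

include hι in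
/-- the abstract structure for the Dirichlet form -/
theorem form_VV (hN : 3 ≤ N) (hΩ : Bornology.IsBounded Ω) (hΩm : MeasurableSet Ω) [IsFiniteMeasure (volume.restrict Ω)]
    [CompleteSpace (VV Ω)] : ∃ Sob, 0 ≤ Sob ∧ Form ι (2 * N / (N - 2)) Sob := by
  have hN' : (3:ℝ) ≤ N := by exact_mod_cast hN
  have hρ : (0:ℝ) < 2 * N / (N - 2) := by
    apply div_pos <;> linarith
  set q : NNReal := ⟨2 * N / (N - 2), hρ.le⟩ with hq
  have hqv : (q:ℝ) = 2 * N / (N - 2) := rfl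
  obtain ⟨C, hC⟩ := sobolev_VV hι hN hΩ hΩm (q := q) (by
    rw [hqv, inv_div]
    have : (N:ℝ) ≠ 0 := by positivity
    field_simp
    linarith)
  refine ⟨(C:ℝ) ^ (2 * N / (N - 2) : ℝ), by positivity, fun w l hl => markov_VV hι w hl, fun w l hl => ?_⟩
  have h1 : eLpNorm (ι w) q (volume.restrict Ω) ≤ ENNReal.ofReal (C * ‖w‖) := by
    rw [ENNReal.ofReal_mul (by positivity), ENNReal.ofReal_coe_nnreal]
    exact hC w
  have h2 := cheb (ι w) (q := q) hρ (by positivity) h1 hl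
  rw [hqv] at h2
  refine h2.trans (le_of_eq ?_)
  rw [mul_div_assoc, Real.mul_rpow (by positivity) (by positivity)]

end Run7.h119
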