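import Mathlib
import Pool.Agent.Run7.h119.H10c
import Pool.Agent.Run7.h119.Lin

open MeasureTheory Set Filter Topology
open scoped ENNReal ContDiff

set_option linter.unusedSectionVars false
set_option linter.style.haveILetI false
set_option linter.unusedVariables false

namespace Run7.h119

theorem weak_conv {V H : Type*} [NormedAddCommGroup V] [InnerProductSpace ℝ V] [CompleteSpace V]
    [NormedAddCommGroup H] [InnerProductSpace ℝ H] [CompleteSpace H] (ι : V →L[ℝ] H)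
    (hinj : ∀ v, ι v = 0 → v = 0) {ψ : ℕ → V} {φ : V} {C : ℝ} (hb : ∀ n, ‖ψ n‖ ≤ C)
    (h : ∀ y : H, Tendsto (fun n => inner ℝ y (ι (ψ n))) atTop (𝓝 (inner ℝ y (ι φ)))) (W : V) :
    Tendsto (fun n => inner ℝ W (ψ n)) atTop (𝓝 (inner ℝ W φ)) := by
  have hC : 0 ≤ C := (norm_nonneg _).trans (hb 0)
  have hdense : (ι.adjoint.range).topologicalClosure = ⊤ := by
    rw [Submodule.topologicalClosure_eq_top_iff, ContinuousLinearMap.orthogonal_range,
      ContinuousLinearMap.adjoint_adjoint, Submodule.eq_bot_iff]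
    intro v hv
    exact hinj v hv
  rw [Metric.tendsto_atTop]
  intro ε hε
  have hW : W ∈ (ι.adjoint.range).topologicalClosure := by rw [hdense]; exact Submodule.mem_top
  have hW' : W ∈ closure ((ι.adjoint.range : Submodule ℝ V) : Set V) := hW
  rw [Metric.mem_closure_iff] at hW'
  obtain ⟨w, ⟨y, rfl⟩, hw⟩ := hW' (ε / (2 * (C + ‖φ‖ + 1))) (by positivity)
  obtain ⟨n0, hn0⟩ := (Metric.tendsto_atTop.1 (h y)) (ε / 2) (by positivity)
  refine ⟨n0, fun n hn => ?_⟩
  have h1 := hn0 n hn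
  rw [Real.dist_eq] at h1 ⊢
  have e : inner ℝ W (ψ n) - inner ℝ W φ = inner ℝ (W - ι.adjoint y) (ψ n - φ) + (inner ℝ y (ι (ψ n)) - inner ℝ y (ι φ)) := by
    rw [← ContinuousLinearMap.adjoint_inner_left, ← ContinuousLinearMap.adjoint_inner_left, inner_sub_left,
      inner_sub_right, inner_sub_right]
    ring
  rw [e]
  have h2 : |inner ℝ (W - ι.adjoint y) (ψ n - φ)| ≤ ‖W - ι.adjoint y‖ * ‖ψ n - φ‖ := abs_real_inner_le_norm _ _
  have h3 : ‖ψ n - φ‖ ≤ C + ‖φ‖ := (norm_sub_le _ _).trans (by linarith [hb n])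
  rw [dist_eq_norm] at hw
  have h4 : ‖W - ι.adjoint y‖ * ‖ψ n - φ‖ ≤ ε / (2 * (C + ‖φ‖ + 1)) * (C + ‖φ‖ + 1) := by
    apply mul_le_mul hw.le (by linarith) (norm_nonneg _) (by positivity)
  have h5 : ε / (2 * (C + ‖φ‖ + 1)) * (C + ‖φ‖ + 1) = ε / 2 := by field_simp
  calc _ ≤ |inner ℝ (W - ι.adjoint y) (ψ n - φ)| + |inner ℝ y (ι (ψ n)) - inner ℝ y (ι φ)| := abs_add_le _ _
    _ < ε := by linarith

section Ident

variable {X : Type*} [MeasurableSpace X] {μ : Measure X} [IsFiniteMeasure μ]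
  {V : Type*} [NormedAddCommGroup V] [InnerProductSpace ℝ V] [CompleteSpace V]

theorem memLp_two_of {p : ℝ} (hp : 2 < p) {K : X → ℝ} (hK : MemLp K (ENNReal.ofReal p) μ) : MemLp K 2 μ := by
  refine hK.mono_exponent ?_
  rw [show (2:ℝ≥0∞) = ENNReal.ofReal 2 by norm_num]
  exact ENNReal.ofReal_le_ofReal hp.le

theorem ident_closure {ι : V →L[ℝ] Lp ℝ 2 μ} (hinj : ∀ v, ι v = 0 → v = 0) {p q : ℝ}
    (hpq : p.HolderConjugate q) (hp : 2 < p) {Z : Lp ℝ 2 μ} {W : V} {h : X → ℝ}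
    (hh : MemLp h (ENNReal.ofReal q) μ) {ψ : ℕ → V} {φ : V} {C : ℝ} (hb : ∀ n, ‖ψ n‖ ≤ C) {K : X → ℝ}
    (hK : MemLp K (ENNReal.ofReal p) μ) (hdom : ∀ n, ∀ᵐ x ∂μ, |ι (ψ n) x| ≤ K x)
    (hlim : ∀ᵐ x ∂μ, Tendsto (fun n => ι (ψ n) x) atTop (𝓝 (ι φ x)))
    (hid : ∀ n, inner ℝ Z (ι (ψ n)) + inner ℝ W (ψ n) = ∫ x, h x * ι (ψ n) x ∂μ) :
    inner ℝ Z (ι φ) + inner ℝ W φ = ∫ x, h x * ι φ x ∂μ := by
  have hK2 := memLp_two_of hp hK
  have h1 : ∀ y : Lp ℝ 2 μ, Tendsto (fun n => inner ℝ y (ι (ψ n))) atTop (𝓝 (inner ℝ y (ι φ))) := by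
    intro y
    simp only [L2.inner_def]
    refine tendsto_integral_of_dominated_convergence (fun x => K x * ‖y x‖) (fun n => ?_) ?_ (fun n => ?_) ?_
    · exact (L2.integrable_inner y (ι (ψ n))).aestronglyMeasurable
    · exact hK2.integrable_mul (Lp.memLp y).norm
    · filter_upwards [hdom n] with x hx
      rw [Real.norm_eq_abs]
      calc |inner ℝ (y x) (ι (ψ n) x)| ≤ ‖y x‖ * ‖ι (ψ n) x‖ := abs_real_inner_le_norm _ _
        _ ≤ ‖y x‖ * K x := by
          apply mul_le_mul_of_nonneg_left _ (norm_nonneg _)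
          rw [Real.norm_eq_abs]; exact hx
        _ = _ := mul_comm _ _
    · filter_upwards [hlim] with x hx
      exact (continuous_const.inner continuous_id).continuousAt.tendsto.comp hx
  have h2 := weak_conv ι hinj hb h1 W
  have h3 : Tendsto (fun n => ∫ x, h x * ι (ψ n) x ∂μ) atTop (𝓝 (∫ x, h x * ι φ x ∂μ)) := by
    refine tendsto_integral_of_dominated_convergence (fun x => |h x| * K x) (fun n => ?_) ?_ (fun n => ?_) ?_
    · exact hh.1.mul (Lp.aestronglyMeasurable _)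
    · exact integrable_mul_of_memLp hpq.symm hh.norm hK
    · filter_upwards [hdom n] with x hx
      rw [Real.norm_eq_abs, abs_mul]
      gcongr
    · filter_upwards [hlim] with x hx
      exact hx.const_mul _
  have h4 := (h1 Z).add h2
  have h5 : (fun n => inner ℝ Z (ι (ψ n)) + inner ℝ W (ψ n)) = fun n => ∫ x, h x * ι (ψ n) x ∂μ := by
    funext n; exact hid n
  rw [h5] at h4
  exact tendsto_nhds_unique h4 h3

end Ident

/-- smooth bounded truncation -/
noncomputable def Tr (k s : ℝ) : ℝ := s - Fapp 0 k s + Fapp 0 k (-s)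

theorem contDiff_Tr (k : ℝ) : ContDiff ℝ ∞ (Tr k) := by
  unfold Tr
  exact (contDiff_id.sub (contDiff_Fapp 0 k)).add ((contDiff_Fapp 0 k).comp contDiff_neg)

theorem Tr_zero (k : ℝ) : Tr k 0 = 0 := by simp [Tr, Fapp_zero]

theorem hasDerivAt_Tr (k s : ℝ) :
    HasDerivAt (Tr k) (1 - Real.smoothTransition (s - k) - Real.smoothTransition (-s - k)) s := by
  have h1 := hasDerivAt_Fapp 0 k s
  have h2 := (hasDerivAt_Fapp 0 k (-s)).comp s (hasDerivAt_neg s)
  have h3 := ((hasDerivAt_id s).sub h1).add h2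
  simp only [Nat.cast_zero, zero_add, one_mul, mul_neg, mul_one] at h3
  exact h3.congr_deriv (by ring)

theorem deriv_Tr_mem {k : ℝ} (hk : 0 ≤ k) (s : ℝ) : 0 ≤ deriv (Tr k) s ∧ deriv (Tr k) s ≤ 1 := by
  rw [(hasDerivAt_Tr k s).deriv]
  have n1 := Real.smoothTransition.nonneg (s - k)
  have n2 := Real.smoothTransition.nonneg (-s - k)
  have l1 := Real.smoothTransition.le_one (s - k)
  have l2 := Real.smoothTransition.le_one (-s - k)
  rcases le_total s 0 with h | h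
  · have : Real.smoothTransition (s - k) = 0 := Real.smoothTransition.zero_of_nonpos (by linarith)
    constructor <;> linarith
  · have : Real.smoothTransition (-s - k) = 0 := Real.smoothTransition.zero_of_nonpos (by linarith)
    constructor <;> linarith

theorem Fapp_of_le {k : ℝ} (hk : 0 ≤ k) {s : ℝ} (hs : s ≤ k) : Fapp 0 k s = 0 := by
  unfold Fapp
  have : ∫ r in (0:ℝ)..s, Real.smoothTransition ((((0:ℕ):ℝ) + 1) * (r - k)) = ∫ r in (0:ℝ)..s, (0:ℝ) := by
    apply intervalIntegral.integral_congr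
    intro r hr
    rw [mem_uIcc] at hr
    apply Real.smoothTransition.zero_of_nonpos
    simp only [Nat.cast_zero, zero_add, one_mul]
    rcases hr with hr | hr
    · linarith [hr.2]
    · linarith [hr.2]
  rw [this]; simp

theorem Tr_of_abs_le {k : ℝ} (hk : 0 ≤ k) {s : ℝ} (hs : |s| ≤ k) : Tr k s = s := by
  rw [abs_le] at hs
  unfold Tr
  rw [Fapp_of_le hk hs.2, Fapp_of_le hk (by linarith)]
  ring

theorem abs_Tr_le {k : ℝ} (hk : 0 ≤ k) (s : ℝ) : |Tr k s| ≤ k + 1 := by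
  have h1 := Fapp_close (n := 0) hk s
  have h2 := Fapp_close (n := 0) hk (-s)
  simp only [Nat.cast_zero, zero_add, div_one] at h1 h2
  rcases le_total |s| k with h | h
  · rw [Tr_of_abs_le hk h]; linarith
  · unfold Tr
    rcases le_total s 0 with h0 | h0
    · have e : Fapp 0 k s = 0 := Fapp_of_le hk (by linarith)
      rw [e]
      rw [abs_of_nonpos h0] at h
      rw [max_eq_left (by linarith)] at h2
      rw [abs_le] at h2 ⊢
      constructor <;> linarith [h2.1, h2.2]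
    · have e : Fapp 0 k (-s) = 0 := Fapp_of_le hk (by linarith)
      rw [e]
      rw [abs_of_nonneg h0] at h
      rw [max_eq_left (by linarith)] at h1
      rw [abs_le] at h1 ⊢
      constructor <;> linarith [h1.1, h1.2]

theorem continuous_Tr (k : ℝ) : Continuous (Tr k) := (contDiff_Tr k).continuous

section Density

variable {N : ℕ} {Ω : Set (EE N)} {ι : VV Ω →L[ℝ] Lp ℝ 2 (volume.restrict Ω)}
  (hι : ∀ g : VV Ω, ∀ w : Lp ℝ 2 (volume.restrict Ω), ((g : Lp (EE N) 2 (volume.restrict Ω)), w) ∈ Gam Ω ↔ ι g = w)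

theorem norm_tE_comp_le {φ : EE N → ℝ} (h : IsTest Ω φ) {F : ℝ → ℝ} (hF : ContDiff ℝ ∞ F) (hF0 : F 0 = 0)
    (hF1 : ∀ s, 0 ≤ deriv F s) (hF2 : ∀ s, deriv F s ≤ 1) :
    ‖tE (fun x => F (φ x)) (h.comp hF hF0)‖ ≤ ‖tE φ h‖ := by
  rw [Submodule.coe_norm, Submodule.coe_norm, tE_coe, tE_coe]
  refine Lp.norm_le_norm_of_ae_le ?_
  filter_upwards [MemLp.coeFn_toLp (h.memLp_gradient 2), MemLp.coeFn_toLp ((h.comp hF hF0).memLp_gradient 2)] with x x1 x2
  rw [x1, x2, gradient_comp' h.differentiable (hF.differentiable (by simp)), norm_smul, Real.norm_eq_abs,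
    abs_of_nonneg (hF1 _)]
  have := hF2 (φ x)
  nlinarith [norm_nonneg (gradient φ x)]

include hι in
/-- density of test functions in the energy space intersected with `L^p`, for identities -/
theorem ident_of_test [IsFiniteMeasure (volume.restrict Ω)] [CompleteSpace (VV Ω)]
    (hinj : ∀ v, ι v = 0 → v = 0) {p q : ℝ} (hpq : p.HolderConjugate q) (hp : 2 < p)
    {Z : Lp ℝ 2 (volume.restrict Ω)} {W : VV Ω} {h : EE N → ℝ}
    (hh : MemLp h (ENNReal.ofReal q) (volume.restrict Ω))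
    (hid : ∀ φ (hφ : IsTest Ω φ), inner ℝ Z (ι (tE φ hφ)) + inner ℝ W (tE φ hφ) = ∫ x in Ω, h x * ι (tE φ hφ) x)
    (φ : VV Ω) (hφ : MemLp (ι φ) (ENNReal.ofReal p) (volume.restrict Ω)) :
    inner ℝ Z (ι φ) + inner ℝ W φ = ∫ x in Ω, h x * ι φ x := by
  -- bounded case
  have key : ∀ (k : ℝ) (φ : VV Ω), 0 ≤ k → (∀ᵐ x ∂(volume.restrict Ω), |ι φ x| ≤ k) →
      inner ℝ Z (ι φ) + inner ℝ W φ = ∫ x in Ω, h x * ι φ x := by
    intro k φ hk hbd
    obtain ⟨ψ, hψ, ht⟩ := approx hι φ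
    have h1 : Tendsto (fun n => ι (tE (ψ n) (hψ n))) atTop (𝓝 (ι φ)) := (ι.continuous.tendsto φ).comp ht
    obtain ⟨m, hm1, hm2⟩ := (tendstoInMeasure_of_tendsto_Lp h1).exists_seq_tendsto_ae
    obtain ⟨C, hC⟩ := (Metric.isBounded_range_of_tendsto _ ht).exists_norm_le
    refine ident_closure (ι := ι) hinj hpq hp hh
      (ψ := fun n => tE (fun x => Tr k (ψ (m n) x)) ((hψ (m n)).comp (contDiff_Tr k) (Tr_zero k)))
      (C := C) (K := fun _ => k + 1) ?_ (memLp_const _) ?_ ?_ (fun n => hid _ _)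
    · intro n
      refine (norm_tE_comp_le (hψ (m n)) (contDiff_Tr k) (Tr_zero k) (fun s => (deriv_Tr_mem hk s).1)
        (fun s => (deriv_Tr_mem hk s).2)).trans (hC _ (mem_range_self _))
    · intro n
      rw [ι_tE hι]
      filter_upwards [MemLp.coeFn_toLp (((hψ (m n)).comp (contDiff_Tr k) (Tr_zero k)).memLp 2)] with x hx
      rw [hx]
      exact abs_Tr_le hk _
    · have h2 : ∀ᵐ x ∂(volume.restrict Ω), ∀ n, ι (tE (fun x => Tr k (ψ (m n) x)) ((hψ (m n)).comp (contDiff_Tr k) (Tr_zero k))) x =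
          Tr k (ι (tE (ψ (m n)) (hψ (m n))) x) := by
        rw [ae_all_iff]
        intro n
        rw [ι_tE hι, ι_tE hι]
        filter_upwards [MemLp.coeFn_toLp (((hψ (m n)).comp (contDiff_Tr k) (Tr_zero k)).memLp 2),
          MemLp.coeFn_toLp ((hψ (m n)).memLp 2)] with x hx hx2
        rw [hx, hx2]
      filter_upwards [h2, hm2, hbd] with x x1 x2 x3
      have x4 := ((continuous_Tr k).tendsto _).comp x2
      rw [Tr_of_abs_le hk x3] at x4
      refine x4.congr fun n => ?_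
      exact (x1 n).symm
  -- general case
  have hmk := fun (w : VV Ω) (k : ℕ) => markov_VV hι w (l := (k:ℝ)) (Nat.cast_nonneg k)
  choose ξ hξ1 hξ2 using hmk
  have hξ3 : ∀ w k, ‖ξ w k‖ ≤ ‖w‖ := by
    intro w k
    have h1 := hξ2 w k
    rw [inner_sub_left, real_inner_self_eq_norm_sq] at h1
    have h2 := real_inner_le_norm w (ξ w k)
    by_cases h0 : ‖ξ w k‖ = 0
    · rw [h0]; exact norm_nonneg _
    · have h3 : 0 < ‖ξ w k‖ := lt_of_le_of_ne (norm_nonneg _) (Ne.symm h0)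
      have : ‖ξ w k‖ * ‖ξ w k‖ ≤ ‖w‖ * ‖ξ w k‖ := by nlinarith
      exact le_of_mul_le_mul_right this h3
  have hform : ∀ k : ℕ, ∀ᵐ x ∂(volume.restrict Ω), ι (φ - ξ φ k + ξ (-φ) k) x =
      ι φ x - max (ι φ x - k) 0 + max (- ι φ x - k) 0 := by
    intro k
    filter_upwards [ι_add_ae (ι := ι) (φ - ξ φ k) (ξ (-φ) k), ι_sub_ae (ι := ι) φ (ξ φ k), hξ1 φ k, hξ1 (-φ) k,
      ι_neg_ae (ι := ι) φ] with x x1 x2 x3 x4 x5
    rw [x1, x2, x3, x4, x5]
  have hval : ∀ (k : ℕ) (s : ℝ), |s - max (s - k) 0 + max (-s - k) 0| ≤ min |s| k := by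
    intro k s
    have hk : (0:ℝ) ≤ k := Nat.cast_nonneg k
    rw [le_min_iff]
    rcases le_total 0 s with h0 | h0
    · rw [max_eq_right (by linarith : -s - (k:ℝ) ≤ 0), abs_of_nonneg h0]
      rcases le_total s k with h1 | h1
      · rw [max_eq_right (by linarith : s - (k:ℝ) ≤ 0)]
        constructor <;> rw [abs_le] <;> constructor <;> linarith
      · rw [max_eq_left (by linarith : 0 ≤ s - (k:ℝ))]
        constructor <;> rw [abs_le] <;> constructor <;> linarith
    · rw [max_eq_right (by linarith : s - (k:ℝ) ≤ 0), abs_of_nonpos h0]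
      rcases le_total (-s) k with h1 | h1
      · rw [max_eq_right (by linarith : -s - (k:ℝ) ≤ 0)]
        constructor <;> rw [abs_le] <;> constructor <;> linarith
      · rw [max_eq_left (by linarith : 0 ≤ -s - (k:ℝ))]
        constructor <;> rw [abs_le] <;> constructor <;> linarith
  refine ident_closure (ι := ι) hinj hpq hp hh (ψ := fun k => φ - ξ φ k + ξ (-φ) k) (C := 3 * ‖φ‖)
    (K := fun x => |ι φ x|) ?_ hφ.norm ?_ ?_ ?_
  · intro k
    have h1 := hξ3 φ k
    have h2 := hξ3 (-φ) k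
    rw [norm_neg] at h2
    calc ‖φ - ξ φ k + ξ (-φ) k‖ ≤ ‖φ - ξ φ k‖ + ‖ξ (-φ) k‖ := norm_add_le _ _
      _ ≤ (‖φ‖ + ‖ξ φ k‖) + ‖ξ (-φ) k‖ := by gcongr; exact norm_sub_le _ _
      _ ≤ 3 * ‖φ‖ := by linarith
  · intro k
    filter_upwards [hform k] with x hx
    rw [hx]
    exact (hval k _).trans (min_le_left _ _)
  · have h2 : ∀ᵐ x ∂(volume.restrict Ω), ∀ k : ℕ, ι (φ - ξ φ k + ξ (-φ) k) x =
      ι φ x - max (ι φ x - k) 0 + max (- ι φ x - k) 0 := by
      rw [ae_all_iff]; exact hform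
    filter_upwards [h2] with x hx
    refine tendsto_const_nhds.congr' ?_
    obtain ⟨k0, hk0⟩ := exists_nat_ge |ι φ x|
    filter_upwards [eventually_ge_atTop k0] with k hk
    rw [hx k]
    have hk1 : |ι φ x| ≤ k := hk0.trans (by exact_mod_cast hk)
    rw [abs_le] at hk1
    rw [max_eq_right (by linarith [hk1.2]), max_eq_right (by linarith [hk1.1])]
    ring
  · intro k
    refine key k _ (Nat.cast_nonneg k) ?_
    filter_upwards [hform k] with x hx
    rw [hx]
    exact (hval k _).trans (min_le_right _ _)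

end Density

end Run7.h119
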