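import Mathlib
import Pool.Agent.Run7.h119.Dens

open MeasureTheory Set Filter Topology
open scoped ENNReal ContDiff

set_option linter.unusedSectionVars false
set_option linter.style.haveILetI false
set_option linter.unusedVariables false

namespace Run7.h119

variable {N : ℕ} {Ω : Set (EE N)}

theorem inner_gradient (φ : EE N → ℝ) (x e : EE N) : inner ℝ e (gradient φ x) = fderiv ℝ φ x e := by
  unfold gradient
  rw [real_inner_comm, InnerProductSpace.toDual_symm_apply]

theorem ibp_test (hΩ : MeasurableSet Ω) {φ η : EE N → ℝ} (hφ : IsTest Ω φ) (hη : IsTest Ω η) (e : EE N) :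
    ∫ x in Ω, inner ℝ (η x • e) (gradient φ x) = - ∫ x in Ω, fderiv ℝ η x e * φ x := by
  have c1 : Continuous (fun x => fderiv ℝ η x e) := (hη.1.continuous_fderiv (by simp)).clm_apply continuous_const
  have c2 : Continuous (fun x => fderiv ℝ φ x e) := (hφ.1.continuous_fderiv (by simp)).clm_apply continuous_const
  have e1 : ∫ x in Ω, inner ℝ (η x • e) (gradient φ x) = ∫ x, η x * fderiv ℝ φ x e := by
    rw [← setIntegral_eq_integral_of_forall_compl_eq_zero (s := Ω) (f := fun x => η x * fderiv ℝ φ x e)]
    · apply integral_congr_ae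
      filter_upwards with x
      rw [inner_smul_left, inner_gradient]
      simp
    · intro x hx
      have : η x = 0 := by
        by_contra h0
        exact hx (hη.2.2 (subset_tsupport _ h0))
      rw [this, zero_mul]
  have e2 : ∫ x in Ω, fderiv ℝ η x e * φ x = ∫ x, fderiv ℝ η x e * φ x := by
    apply setIntegral_eq_integral_of_forall_compl_eq_zero
    intro x hx
    have : φ x = 0 := by
      by_contra h0
      exact hx (hφ.2.2 (subset_tsupport _ h0))
    rw [this, mul_zero]
  rw [e1, e2]
  apply integral_mul_fderiv_eq_neg_fderiv_mul_of_integrable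
  · exact (c1.mul hφ.continuous).integrable_of_hasCompactSupport hφ.2.1.mul_left
  · exact (hη.continuous.mul c2).integrable_of_hasCompactSupport hη.2.1.mul_right
  · exact (hη.continuous.mul hφ.continuous).integrable_of_hasCompactSupport hη.2.1.mul_right
  · intro x _; exact hη.differentiable x
  · intro x _; exact hφ.differentiable x

theorem gam_zero (hΩ : IsOpen Ω) [IsFiniteMeasure (volume.restrict Ω)] {g : Lp (EE N) 2 (volume.restrict Ω)}
    (h : ((g, 0) : PP Ω) ∈ Gam Ω) : g = 0 := by
  have hm := hΩ.measurableSet
  have key : ∀ (η : EE N → ℝ) (hη : IsTest Ω η) (e : EE N), ∫ x in Ω, inner ℝ (η x • e) (g x) = 0 := by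
    intro η hη e
    have m1 : MemLp (fun x => η x • e) 2 (volume.restrict Ω) := by
      have : MemLp (fun x => η x • e) 2 volume :=
        (hη.continuous.smul continuous_const).memLp_of_hasCompactSupport hη.2.1.smul_right
      exact this.restrict Ω
    have c1 : Continuous (fun x => fderiv ℝ η x e) := (hη.1.continuous_fderiv (by simp)).clm_apply continuous_const
    have m2 : MemLp (fun x => fderiv ℝ η x e) 2 (volume.restrict Ω) := by
      have hs : HasCompactSupport (fun x => fderiv ℝ η x e) := (hη.2.1.fderiv (𝕜 := ℝ)).comp_left (g := fun L : EE N →L[ℝ] ℝ => L e) rfl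
      have : MemLp (fun x => fderiv ℝ η x e) 2 volume := c1.memLp_of_hasCompactSupport hs
      exact this.restrict Ω
    set L : PP Ω → ℝ := fun y => inner ℝ (m1.toLp _) y.1 + inner ℝ (m2.toLp _) y.2 with hL
    have hLc : Continuous L := by
      rw [hL]
      exact (continuous_const.inner continuous_fst).add (continuous_const.inner continuous_snd)
    have h0 : ∀ y ∈ (Gam0 Ω : Set (PP Ω)), L y = 0 := by
      rintro y ⟨φ, h1, h2, h3⟩
      have e1 : inner ℝ (m1.toLp _) y.1 = ∫ x in Ω, inner ℝ (η x • e) (gradient φ x) := by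
        rw [L2.inner_def]
        apply integral_congr_ae
        filter_upwards [m1.coeFn_toLp, h2] with x x1 x2
        rw [x1, x2]
      have e2 : inner ℝ (m2.toLp _) y.2 = ∫ x in Ω, fderiv ℝ η x e * φ x := by
        rw [L2.inner_def]
        apply integral_congr_ae
        filter_upwards [m2.coeFn_toLp, h3] with x x1 x2
        rw [x1, x2]
        simp [mul_comm]
      simp only [hL]
      rw [e1, e2, ibp_test hm h1 hη]
      ring
    have hcl : IsClosed {y : PP Ω | L y = 0} := isClosed_eq hLc continuous_const
    have h4 : ((g, 0) : PP Ω) ∈ {y : PP Ω | L y = 0} :=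
      closure_minimal h0 hcl h
    have h5 : L (g, 0) = 0 := h4
    simp only [hL, inner_zero_right, add_zero] at h5
    rw [L2.inner_def] at h5
    rw [← h5]
    apply integral_congr_ae
    filter_upwards [m1.coeFn_toLp] with x x1
    rw [x1]
  have hgi : Integrable g (volume.restrict Ω) := (Lp.memLp g).integrable (by norm_num)
  have hz := hΩ.ae_eq_zero_of_integral_contDiff_smul_eq_zero (μ := volume.restrict Ω) (f := g)
    (hgi.locallyIntegrable.locallyIntegrableOn Ω) (by
      intro η h1 h2 h3
      have hη : IsTest Ω η := ⟨h1, h2, h3⟩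
      have hi : Integrable (fun x => η x • g x) (volume.restrict Ω) := by
        have hb : ∃ C, ∀ x, ‖η x‖ ≤ C := hη.continuous.bounded_above_of_compact_support h2
        obtain ⟨C, hC⟩ := hb
        exact hgi.bdd_smul C hη.continuous.aestronglyMeasurable (Eventually.of_forall hC)
      apply ext_inner_left ℝ
      intro e
      rw [inner_zero_right, ← integral_inner hi, ← key η hη e]
      apply integral_congr_ae
      filter_upwards with x
      rw [inner_smul_left, inner_smul_right]
      simp)
  apply Lp.ext
  filter_upwards [hz, ae_restrict_mem hm, Lp.coeFn_zero (EE N) 2 (volume.restrict Ω)] with x x1 x2 x3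
  rw [x1 x2, x3]; rfl

theorem iota_inj (hΩ : IsOpen Ω) [IsFiniteMeasure (volume.restrict Ω)] {ι : VV Ω →L[ℝ] Lp ℝ 2 (volume.restrict Ω)}
    (hι : ∀ g : VV Ω, ∀ w : Lp ℝ 2 (volume.restrict Ω), ((g : Lp (EE N) 2 (volume.restrict Ω)), w) ∈ Gam Ω ↔ ι g = w)
    (v : VV Ω) (hv : ι v = 0) : v = 0 := by
  have := gam_zero hΩ ((hι v 0).2 hv)
  exact Subtype.ext this

end Run7.h119
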