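import Mathlib
import Pool.Agent.Run7.h119.Main1

open MeasureTheory Set Filter Topology
open scoped ENNReal

set_option linter.unusedSectionVars false
set_option linter.style.haveILetI false
set_option linter.unusedVariables false

namespace Run7.h119

variable {X : Type*} [MetricSpace X] [SecondCountableTopology X] [SigmaCompactSpace X]
  [MeasurableSpace X] [BorelSpace X] {μ : Measure X} [IsFiniteMeasure μ]
  {V : Type*} [NormedAddCommGroup V] [InnerProductSpace ℝ V] [CompleteSpace V]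

theorem abs_bounded (ι : V →L[ℝ] Lp ℝ 2 μ) {ρ Sob : ℝ} (F : Form ι ρ Sob) (hρ : 0 < ρ)
    (hSob : 0 ≤ Sob) {a p q θ L M β γ E0 : ℝ} (ha : 0 < a) (hp : 2 < p) (hpq : p.HolderConjugate q)
    (hM : 0 ≤ M) (hL : 0 ≤ L) (hθ : 0 < θ) (E : ChainExp p q ρ θ β γ) (hE0 : 0 ≤ E0) :
    ∃ C : ℝ, ∀ (b : ℝ) (u : ℝ → V) (v : ℝ → Lp ℝ 2 μ) (vf f : ℝ × X → ℝ),
      Sol ι a p q b M u v vf f → TimeMod μ q θ L b f →
      (∀ r ∈ Icc (0:ℝ) 1, ‖u r‖ ^ 2 + ‖v r‖ ^ 2 ≤ E0) → ∀ T : ℝ, 6 ≤ T → T < b →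
      (∀ r ∈ Icc 0 T, ‖u r‖ ^ 2 + ‖v r‖ ^ 2 ≤ ‖u T‖ ^ 2 + ‖v T‖ ^ 2) →
      ‖u T‖ ^ 2 + ‖v T‖ ^ 2 ≤ C := by
  obtain ⟨P, hP⟩ := exists_isProj ι
  obtain ⟨Cb, hCb, Kb⟩ := block ι F hρ hSob hP ha hp hpq hθ hL
  obtain ⟨Cf, hCf, Kf⟩ := fluct_late (μ := μ) (L := L) ι ha hp hpq hM hL
  obtain ⟨Cn, hCn, Kn⟩ := near_record (μ := μ) (L := L) ι ha hp hpq hM hL
  obtain ⟨Cd, hCd, Kd⟩ := norm_le_Dl (μ := μ) ι hP ha hp hpq hM
  have hq2 := conj_lt_two hp hpq
  have hp0 : 0 < p := by linarith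
  -- the rate
  obtain ⟨s0, hs0, d1, d2, d3, d4, d5, d6, d7⟩ : ∃ s0 : ℝ, 0 < s0 ∧ 1 - β - ρ * (1 - q / 2) ≤ -s0 ∧
      1 - β - ρ + β * p ≤ -s0 ∧ 1 - β - ρ + γ * (p / (p - 2)) ≤ -s0 ∧ 1 - β - γ * θ ≤ -s0 ∧
      s0 ≤ 1 - β ∧ s0 ≤ γ * θ ∧ s0 ≤ γ := by
    have hγθ := mul_pos E.hγ hθ
    refine ⟨min (min (min (-(1 - β - ρ * (1 - q / 2))) (-(1 - β - ρ + β * p)))
      (min (-(1 - β - ρ + γ * (p / (p - 2)))) (-(1 - β - γ * θ)))) (min (min (1 - β) (γ * θ)) γ), ?_, ?_, ?_, ?_, ?_, ?_, ?_, ?_⟩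
    · simp only [lt_min_iff]
      exact ⟨⟨⟨by linarith [E.c1], by linarith [E.c2]⟩, ⟨by linarith [E.c3], by linarith [E.c4]⟩⟩,
        ⟨⟨by linarith [E.hβ1], hγθ⟩, E.hγ⟩⟩
    · have := (min_le_left (min (min (-(1 - β - ρ * (1 - q / 2))) (-(1 - β - ρ + β * p)))
        (min (-(1 - β - ρ + γ * (p / (p - 2)))) (-(1 - β - γ * θ)))) (min (min (1 - β) (γ * θ)) γ)).trans
        ((min_le_left _ _).trans (min_le_left _ _))
      linarith
    · have := (min_le_left (min (min (-(1 - β - ρ * (1 - q / 2))) (-(1 - β - ρ + β * p)))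
        (min (-(1 - β - ρ + γ * (p / (p - 2)))) (-(1 - β - γ * θ)))) (min (min (1 - β) (γ * θ)) γ)).trans
        ((min_le_left _ _).trans (min_le_right _ _))
      linarith
    · have := (min_le_left (min (min (-(1 - β - ρ * (1 - q / 2))) (-(1 - β - ρ + β * p)))
        (min (-(1 - β - ρ + γ * (p / (p - 2)))) (-(1 - β - γ * θ)))) (min (min (1 - β) (γ * θ)) γ)).trans
        ((min_le_right _ _).trans (min_le_left _ _))
      linarith
    · have := (min_le_left (min (min (-(1 - β - ρ * (1 - q / 2))) (-(1 - β - ρ + β * p)))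
        (min (-(1 - β - ρ + γ * (p / (p - 2)))) (-(1 - β - γ * θ)))) (min (min (1 - β) (γ * θ)) γ)).trans
        ((min_le_right _ _).trans (min_le_right _ _))
      linarith
    · exact (min_le_right _ _).trans ((min_le_left _ _).trans (min_le_left _ _))
    · exact (min_le_right _ _).trans ((min_le_left _ _).trans (min_le_right _ _))
    · exact (min_le_right _ _).trans (min_le_right _ _)
  obtain ⟨s, hs⟩ : ∃ s : ℝ, s = 2 * s0 / p := ⟨_, rfl⟩
  have hsp : 0 < s := by rw [hs]; positivity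
  have hss : s ≤ s0 := by rw [hs, div_le_iff₀ hp0]; nlinarith
  obtain ⟨r, hr⟩ : ∃ r : ℝ, r = (2:ℝ) ^ (-s) := ⟨_, rfl⟩
  have hr0 : 0 < r := by rw [hr]; positivity
  have hr1 : r < 1 := by rw [hr]; exact Real.rpow_lt_one_of_one_lt_of_neg (by norm_num) (by linarith)
  obtain ⟨CI, hCI⟩ : ∃ CI : ℝ, CI = M ^ q * Sob ^ (1 - q / 2) + Sob + 4 ^ (p / (p - 2)) * Sob := ⟨_, rfl⟩
  have hCI0 : 0 ≤ CI := by rw [hCI]; positivity
  obtain ⟨Cδ, hCδ⟩ : ∃ Cδ : ℝ, Cδ = 6 * Cf + 3 * Cb * CI + 6 * Cb * L := ⟨_, rfl⟩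
  have hCδ0 : 0 ≤ Cδ := by rw [hCδ]; positivity
  obtain ⟨ε, hε⟩ : ∃ ε : ℝ, ε = 1 / (4 * Cd * (1 + Cn)) := ⟨_, rfl⟩
  have hε0 : 0 < ε := by rw [hε]; positivity
  set A := 32 * E0 + 2 * Cn with hA
  set B := 16 * (Cδ / (1 - r)) with hB
  refine ⟨4 + (1 / ε) ^ 2 + 2 * A + B ^ 2, fun b u v vf f H hmod hE T hT hTb hrec => ?_⟩
  set K := ‖u T‖ ^ 2 + ‖v T‖ ^ 2 with hKdef
  have hA0 : 0 ≤ A := by positivity
  rcases lt_or_ge K (4 + (1 / ε) ^ 2) with hsmall | hbig
  · have : 0 ≤ B ^ 2 := by positivity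
    linarith
  have hεinv : 0 < 1 / ε := by positivity
  have hK4 : 4 ≤ K := by nlinarith [sq_nonneg (1 / ε)]
  have hK1 : 1 ≤ K := by linarith
  have hK0 : 0 < K := by linarith
  have hsK2 : 2 ≤ Real.sqrt K := by
    apply Real.le_sqrt_of_sq_le; linarith
  have hsKε : 1 / ε ≤ Real.sqrt K := by
    apply Real.le_sqrt_of_sq_le; linarith
  have hsK0 : 0 < Real.sqrt K := by linarith
  obtain ⟨x0, hx0d⟩ : ∃ x0 : ℝ, x0 = ε * Real.sqrt K := ⟨_, rfl⟩
  have hx0 : 1 ≤ x0 := by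
    rw [hx0d]
    calc (1:ℝ) = ε * (1 / ε) := by field_simp
      _ ≤ ε * Real.sqrt K := by gcongr
  have Ln := H.lin
  have huK : ∀ r ∈ Icc 0 T, ‖u r‖ ^ 2 ≤ K := by
    intro r hr
    have := hrec r hr
    have h0 : 0 ≤ ‖v r‖ ^ 2 := by positivity
    linarith
  -- notation for the chain
  set x : ℕ → ℝ := fun j => (2:ℝ) ^ j * x0 with hxdef
  have hx1 : ∀ j, 1 ≤ x j := by
    intro j
    have h2 : (1:ℝ) ≤ 2 ^ j := one_le_pow₀ (by norm_num)
    simp only [hxdef]; nlinarith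
  set Tj : ℕ → ℝ := fun j => Real.sqrt K * (x j) ^ (1 - β) with hTjdef
  have hTj2 : ∀ j, 2 ≤ Tj j := by
    intro j
    have h1 : 1 ≤ (x j) ^ (1 - β) := Real.one_le_rpow (hx1 j) (by linarith [E.hβ1])
    simp only [hTjdef]; nlinarith
  set hj : ℕ → ℝ := fun j => (1/2:ℝ) ^ (kk γ (x j) + 1) with hhjdef
  have hhj0 : ∀ j, 0 < hj j := fun j => by simp only [hhjdef]; positivity
  have h2hj : ∀ j, 2 * hj j = (1/2:ℝ) ^ (kk γ (x j)) := by
    intro j; simp only [hhjdef]; rw [pow_succ]; ring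
  have h2hj1 : ∀ j, 2 * hj j ≤ 1 := by
    intro j; rw [h2hj]; exact pow_le_one₀ (by norm_num) (by norm_num)
  -- one block, total cost
  have blk : ∀ j t1 t2, 0 ≤ t1 → t1 ≤ t2 → t2 - t1 ≤ 3 * Tj j → t2 + 2 * hj j ≤ T →
      Dl P (Real.sqrt K * x j) (S (hj j) (S (hj j) u) t2) ≤
        Dl P (Real.sqrt K * x j + (x j) ^ β * (t2 - t1)) (S (hj j) (S (hj j) u) t1) +
        2 * LinSol.flu (hj j) u v t1 + (3 * Cb * CI + 6 * Cb * L) * (Real.sqrt K * r ^ j) := by
    intro j t1 t2 h1 h12 hlen hT2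
    have hxj := hx1 j
    have hl : 0 < Real.sqrt K * x j := by positivity
    have k := Kb b M K u v vf f H hmod (hj j) t1 t2 (Real.sqrt K * x j) ((x j) ^ β) (hhj0 j) (h2hj1 j) h1 h12
      (by linarith) (fun t ht => huK t ⟨ht.1, ht.2.trans hT2⟩) hl (by positivity)
    have k0 := flu_nonneg (hhj0 j) Ln.w_cont Ln.z_cont t2
    have cb := cost_bound (M := M) (Sob := Sob) hp hq2 hM hSob E hsp.le hss d1 d2 d3 hK0 hx0 j
    have lb := (late_bound (q := q) hp hθ E hs0 hs d4 d5 d6 d7 hK1 hx0 j).2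
    rw [← hr] at cb lb
    rw [← hCI] at cb
    have hxj' : x j = (2:ℝ) ^ j * x0 := rfl
    have hhj' : hj j = (1/2:ℝ) ^ (kk γ ((2:ℝ) ^ j * x0) + 1) := rfl
    have hTj' : Tj j = Real.sqrt K * ((2:ℝ) ^ j * x0) ^ (1 - β) := rfl
    rw [← hxj', ← hTj'] at cb lb
    rw [← hxj'] at hhj'
    rw [← hhj'] at cb
    set I := (M ^ q * (Sob * (Real.sqrt K / (Real.sqrt K * x j)) ^ ρ) ^ (1 - q / 2) +
          (((x j) ^ β) ^ p + (hj j)⁻¹ ^ (p / (p - 2))) *
            (Sob * (Real.sqrt K / (Real.sqrt K * x j)) ^ ρ)) with hI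
    have hI0 : 0 ≤ I := by
      have := hhj0 j
      positivity
    have hT0 : 0 ≤ Tj j := by linarith [hTj2 j]
    have a1 : (t2 - t1) * I ≤ 3 * (CI * (Real.sqrt K * r ^ j)) := by
      calc (t2 - t1) * I ≤ (3 * Tj j) * I := by gcongr
        _ = 3 * (Tj j * I) := by ring
        _ ≤ _ := by gcongr
    have a2 : L * (2 * hj j) ^ θ * (t2 - t1 + 1) ≤ L * (6 * (Real.sqrt K * r ^ j)) := by
      rw [h2hj]
      calc L * ((1/2:ℝ) ^ (kk γ (x j))) ^ θ * (t2 - t1 + 1) ≤ L * ((1/2:ℝ) ^ (kk γ (x j))) ^ θ * (3 * (Tj j + 1)) := by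
            have : t2 - t1 + 1 ≤ 3 * (Tj j + 1) := by linarith
            gcongr
        _ = L * (3 * (((1/2:ℝ) ^ (kk γ (x j))) ^ θ * (Tj j + 1))) := by ring
        _ ≤ L * (3 * (2 * (Real.sqrt K * r ^ j))) := by gcongr
        _ = _ := by ring
    have a3 : Cb * ((t2 - t1) * I + L * (2 * hj j) ^ θ * (t2 - t1 + 1)) ≤
        (3 * Cb * CI + 6 * Cb * L) * (Real.sqrt K * r ^ j) := by
      calc _ ≤ Cb * (3 * (CI * (Real.sqrt K * r ^ j)) + L * (6 * (Real.sqrt K * r ^ j))) := by gcongr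
        _ = _ := by ring
    linarith
  -- early times
  have early : ∀ j t, 0 ≤ t → t ≤ 3 * Tj j → t + 2 * hj j ≤ T →
      Dl P (Real.sqrt K * x j) (S (hj j) (S (hj j) u) t) ≤ 2 * E0 + Cδ * (Real.sqrt K * r ^ j) := by
    intro j t ht0 ht1 htT
    have hxj := hx1 j
    have k := blk j 0 t le_rfl ht0 (by linarith) htT
    have hl : 0 < Real.sqrt K * x j + (x j) ^ β * (t - 0) := by
      have : 0 ≤ (x j) ^ β * (t - 0) := mul_nonneg (by positivity) (by linarith)
      have : 0 < Real.sqrt K * x j := by positivity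
      linarith
    have b1 := Dl_le_norm hP hl (S (hj j) (S (hj j) u) 0)
    have b2 : ‖S (hj j) (S (hj j) u) 0‖ ^ 2 ≤ E0 := by
      have : ‖S (hj j) (S (hj j) u) 0‖ ≤ Real.sqrt E0 := norm_A_le (hhj0 j) fun s hs => by
        apply Real.le_sqrt_of_sq_le
        have := hE s ⟨by linarith [hs.1], by linarith [hs.2, h2hj1 j]⟩
        have h0 : 0 ≤ ‖v s‖ ^ 2 := by positivity
        linarith
      calc ‖S (hj j) (S (hj j) u) 0‖ ^ 2 ≤ (Real.sqrt E0) ^ 2 := by gcongr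
        _ = E0 := Real.sq_sqrt hE0
    have b3 : 2 * LinSol.flu (hj j) u v 0 ≤ E0 := by
      unfold LinSol.flu
      have n1 : 0 ≤ ‖S (hj j) (S (hj j) u) 0‖ ^ 2 := by positivity
      have n2 : 0 ≤ ‖S (hj j) (S (hj j) v) 0‖ ^ 2 := by positivity
      have n3 : S (hj j) (S (hj j) (fun t => ‖u t‖ ^ 2 + ‖v t‖ ^ 2)) 0 ≤ E0 := by
        refine (le_abs_self _).trans ?_
        rw [← Real.norm_eq_abs]
        refine norm_A_le (hhj0 j) fun s hs => ?_
        rw [Real.norm_of_nonneg (by positivity)]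
        exact hE s ⟨by linarith [hs.1], by linarith [hs.2, h2hj1 j]⟩
      linarith
    have hcf : 0 ≤ 6 * Cf * (Real.sqrt K * r ^ j) := by positivity
    have e : Cδ * (Real.sqrt K * r ^ j) = 6 * Cf * (Real.sqrt K * r ^ j) +
        (3 * Cb * CI + 6 * Cb * L) * (Real.sqrt K * r ^ j) := by rw [hCδ]; ring
    rw [e]
    linarith
  -- choose the last block
  obtain ⟨J, hJ⟩ : ∃ J : ℕ, T ≤ Tj J := by
    have h1 : Tendsto (fun j : ℕ => ((2:ℝ) ^ (1 - β)) ^ j) atTop atTop :=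
      tendsto_pow_atTop_atTop_of_one_lt (Real.one_lt_rpow (by norm_num) (by linarith [E.hβ1]))
    obtain ⟨J, hJ⟩ := (h1.eventually_ge_atTop T).exists
    refine ⟨J, hJ.trans ?_⟩
    have h2 : ((2:ℝ) ^ (1 - β)) ^ J = ((2:ℝ) ^ J) ^ (1 - β) := by
      rw [← Real.rpow_natCast (2 ^ (1 - β)) J, ← Real.rpow_mul (by norm_num), ← Real.rpow_natCast 2 J,
        ← Real.rpow_mul (by norm_num)]
      congr 1; ring
    have h3 : ((2:ℝ) ^ J) ^ (1 - β) ≤ (x J) ^ (1 - β) := by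
      apply Real.rpow_le_rpow (by positivity) _ (by linarith [E.hβ1])
      simp only [hxdef]
      have : (0:ℝ) < 2 ^ J := by positivity
      nlinarith
    rw [h2]
    simp only [hTjdef]
    have h4 : 0 ≤ (x J) ^ (1 - β) := by have := hx1 J; positivity
    nlinarith
  have h1r : 0 < 1 - r := by linarith
  -- downward induction
  have chain : ∀ n j, j + n = J → ∀ t, 0 ≤ t → t + 2 * hj j ≤ T →
      Dl P (Real.sqrt K * x j) (S (hj j) (S (hj j) u) t) ≤ 2 * E0 + Cδ * (Real.sqrt K * r ^ j) / (1 - r) := by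
    intro n
    have base : ∀ j, Cδ * (Real.sqrt K * r ^ j) ≤ Cδ * (Real.sqrt K * r ^ j) / (1 - r) := by
      intro j
      rw [le_div_iff₀ h1r]
      have : 0 ≤ Cδ * (Real.sqrt K * r ^ j) := by positivity
      nlinarith
    induction n with
    | zero =>
      intro j hjJ t ht0 htT
      rw [add_zero] at hjJ
      subst hjJ
      have h0 := hhj0 j
      have := early j t ht0 (by linarith [hTj2 j]) htT
      linarith [base j]
    | succ n ih =>
      intro j hjJ t ht0 htT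
      have hxj := hx1 j
      rcases le_or_gt t (3 * Tj j) with hlt | hgt
      · have := early j t ht0 hlt htT
        linarith [base j]
      · have hT2 := hTj2 j
        have ih' := ih (j + 1) (by omega)
        -- pass to the coarser scale
        have hkm : kk γ (x j) ≤ kk γ (x (j + 1)) := by
          apply kk_mono E.hγ (hx1 j)
          simp only [hxdef]
          rw [pow_succ]
          have : (0:ℝ) < 2 ^ j := by positivity
          nlinarith
        obtain ⟨m, hm⟩ := Nat.exists_eq_add_of_le hkm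
        have hlpos : 0 < Real.sqrt K * x (j + 1) := by have := hx1 (j + 1); positivity
        have coarse := Dl_coarse hP Ln.w_cont (T := T) hlpos (n := m) (k := kk γ (x j))
          (B := 2 * E0 + Cδ * (Real.sqrt K * r ^ (j + 1)) / (1 - r)) (by
            intro t' h0' hT'
            have := ih' t' h0'
            simp only [hhjdef] at this
            rw [hm] at this
            exact this hT')
        have k := blk j (t - Tj j) t (by linarith) (by linarith) (by linarith) htT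
        have hlev : Real.sqrt K * x j + (x j) ^ β * (t - (t - Tj j)) = Real.sqrt K * x (j + 1) := by
          have hxp : 0 < x j := by linarith
          have e1 : (x j) ^ β * (x j) ^ (1 - β) = x j := by
            rw [← Real.rpow_add hxp]
            have : β + (1 - β) = 1 := by ring
            rw [this, Real.rpow_one]
          have e2 : x (j + 1) = 2 * x j := by simp only [hxdef]; rw [pow_succ]; ring
          rw [e2]
          simp only [hTjdef]
          calc Real.sqrt K * x j + (x j) ^ β * (t - (t - Real.sqrt K * (x j) ^ (1 - β))) =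
              Real.sqrt K * x j + Real.sqrt K * ((x j) ^ β * (x j) ^ (1 - β)) := by ring
            _ = _ := by rw [e1]; ring
        rw [hlev] at k
        have c1 := coarse (t - Tj j) (by linarith) (by
          have := h2hj j
          have h2 : 2 * (1/2:ℝ) ^ (kk γ (x j) + 1) = 2 * hj j := rfl
          rw [h2]; linarith)
        have c2 : 2 * LinSol.flu (hj j) u v (t - Tj j) ≤ Cf * (6 * (Real.sqrt K * r ^ j)) := by
          have lb := (late_bound (q := q) hp hθ E hs0 hs d4 d5 d6 d7 hK1 hx0 j).1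
          rw [← hr] at lb
          have := flu_le_om (hhj0 j) Ln.w_cont Ln.z_cont (t := t - Tj j) (B := Cf * (6 * (Real.sqrt K * r ^ j))) (by
            intro σ hσ
            have hσ1 : σ ≤ 1 := hσ.2.trans (h2hj1 j)
            have hhpos := hhj0 j
            have k1 := Kf b θ u v vf f H hmod K T hK1 hTb hrec σ (Tj j) (t - Tj j) hσ.1 hσ1 (by linarith)
              (by linarith) (by linarith)
            refine k1.trans ?_
            apply mul_le_mul_of_nonneg_left _ hCf.le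
            exact lb σ hσ.1 (by rw [← h2hj j]; exact hσ.2))
          linarith
        have c3 : Cδ * (Real.sqrt K * r ^ (j + 1)) / (1 - r) + Cδ * (Real.sqrt K * r ^ j) =
            Cδ * (Real.sqrt K * r ^ j) / (1 - r) := by
          rw [pow_succ]; field_simp; ring
        have c4 : Cδ * (Real.sqrt K * r ^ j) = Cf * (6 * (Real.sqrt K * r ^ j)) +
          (3 * Cb * CI + 6 * Cb * L) * (Real.sqrt K * r ^ j) := by rw [hCδ]; ring
        have c5 : Dl P (Real.sqrt K * x (j + 1)) (S (hj j) (S (hj j) u) (t - Tj j)) ≤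
          2 * E0 + Cδ * (Real.sqrt K * r ^ (j + 1)) / (1 - r) := c1
        linarith
  -- conclusion at the record time
  obtain ⟨t, ht, hKt, hQt⟩ := Kn b θ u v vf f hθ H hmod T hT hTb hrec
  have hfinal := chain J 0 (by omega)
  have hx00 : x 0 = x0 := by simp [hxdef]
  have hl0 : 0 < Real.sqrt K * x 0 := by rw [hx00]; positivity
  have coarse0 := Dl_coarse hP Ln.w_cont (T := T) hl0 (n := kk γ (x 0)) (k := 0)
    (B := 2 * E0 + Cδ * (Real.sqrt K * r ^ 0) / (1 - r)) (by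
      intro t' h0' hT'
      rw [zero_add] at hT' ⊢
      exact hfinal t' h0' hT')
  have D0 := coarse0 t (by linarith [ht.1]) (by norm_num; linarith [ht.2])
  have eh : ((1:ℝ)/2) ^ (0 + 1) = 1 / 2 := by norm_num
  rw [eh] at D0
  have N0 := Kd b u v vf f H t (Real.sqrt K * x 0) (by linarith [ht.1]) (by linarith [ht.2]) hl0
  have lval : Real.sqrt K * x 0 = ε * K := by
    rw [hx00, hx0d]
    calc Real.sqrt K * (ε * Real.sqrt K) = ε * (Real.sqrt K * Real.sqrt K) := by ring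
      _ = ε * K := by rw [Real.mul_self_sqrt hK0.le]
  rw [lval] at N0 D0
  have g1 : Cd * (ε * K) * (1 + I2 μ t (t + 1) (fun y => |vf y| ^ p)) ≤ K / 4 := by
    calc Cd * (ε * K) * (1 + I2 μ t (t + 1) (fun y => |vf y| ^ p)) ≤ Cd * (ε * K) * (1 + Cn) := by gcongr
      _ = K / 4 := by rw [hε]; field_simp
  rw [pow_zero, mul_one] at D0
  have g2 : K ≤ 16 * (2 * E0 + Cδ * Real.sqrt K / (1 - r)) + 2 * Cn := by
    have hKt' : K ≤ 2 * ‖S (1 / 2) (S (1 / 2) u) t‖ ^ 2 + Cn := hKt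
    linarith
  have g3 : K ≤ A + B * Real.sqrt K := by
    have : 16 * (2 * E0 + Cδ * Real.sqrt K / (1 - r)) + 2 * Cn = A + B * Real.sqrt K := by
      rw [hA, hB]; ring
    linarith
  have g4 : B * Real.sqrt K ≤ K / 2 + B ^ 2 / 2 := by
    have h1 : Real.sqrt K ^ 2 = K := Real.sq_sqrt hK0.le
    nlinarith [sq_nonneg (Real.sqrt K - B)]
  have : 0 ≤ (1 / ε) ^ 2 := by positivity
  linarith

end Run7.h119
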