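import Mathlib
import Pool.Agent.Run7.h119.Block2

open MeasureTheory Set Filter Topology
open scoped ENNReal

set_option linter.unusedSectionVars false
set_option linter.style.haveILetI false
set_option linter.unusedVariables false

namespace Run7.h119

section Cut

variable {X : Type*} [MeasurableSpace X] {μ : Measure X} [IsFiniteMeasure μ]

/-- a strongly measurable representative cut off to a time interval -/
theorem exists_cut {g : ℝ → X → ℝ}
    (hg : AEStronglyMeasurable (fun y : ℝ × X => g y.1 y.2) ((volume.restrict (Ici 0)).prod μ)) (b : ℝ) :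
    ∃ gf : ℝ × X → ℝ, StronglyMeasurable gf ∧ (∀ᵐ t : ℝ, t ∈ Icc 0 b → (fun x => gf (t, x)) =ᵐ[μ] g t) ∧
      (∀ᵐ x ∂μ, ∀ᵐ t : ℝ, t ∈ Icc 0 b → gf (t, x) = g t x) ∧
      (∀ t, t ∉ Icc 0 b → ∀ x, gf (t, x) = 0) := by
  refine ⟨(Icc 0 b ×ˢ univ).indicator (hg.mk _), ?_, ?_, ?_, ?_⟩
  · exact hg.stronglyMeasurable_mk.indicator (measurableSet_Icc.prod MeasurableSet.univ)
  · have h1 := Measure.ae_ae_of_ae_prod hg.ae_eq_mk
    have h2 := (ae_restrict_iff' measurableSet_Ici).1 h1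
    filter_upwards [h2] with t ht h3
    filter_upwards [ht h3.1] with x hx
    rw [indicator_of_mem (show (t, x) ∈ Icc 0 b ×ˢ univ from ⟨h3, mem_univ _⟩)]
    exact hx.symm
  · have h0 : ∀ᵐ z ∂(μ.prod (volume.restrict (Ici 0))), g (Prod.swap z).1 (Prod.swap z).2 = hg.mk _ (Prod.swap z) :=
      (Measure.measurePreserving_swap (μ := μ) (ν := (volume : Measure ℝ).restrict (Ici 0))).quasiMeasurePreserving.ae hg.ae_eq_mk
    have h1 := Measure.ae_ae_of_ae_prod h0
    filter_upwards [h1] with x hx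
    have h2 := (ae_restrict_iff' measurableSet_Ici).1 hx
    filter_upwards [h2] with t ht h3
    rw [indicator_of_mem (show (t, x) ∈ Icc 0 b ×ˢ univ from ⟨h3, mem_univ _⟩)]
    exact (ht h3.1).symm
  · intro t ht x
    rw [indicator_of_notMem]
    intro h
    exact ht h.1

theorem cut_lintegral {g : ℝ → X → ℝ} {b : ℝ} {gf : ℝ × X → ℝ} (hm : StronglyMeasurable gf)
    (h1 : ∀ᵐ t : ℝ, t ∈ Icc 0 b → (fun x => gf (t, x)) =ᵐ[μ] g t)
    (h2 : ∀ t, t ∉ Icc 0 b → ∀ x, gf (t, x) = 0) {r : ℝ} (hr : 0 < r) :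
    ∫⁻ y, ‖gf y‖ₑ ^ r ∂(volume.prod μ) = ∫⁻ t in Icc 0 b, ∫⁻ x, ‖g t x‖ₑ ^ r ∂μ := by
  rw [lintegral_prod _ (hm.measurable.enorm.pow_const r).aemeasurable,
    ← lintegral_indicator measurableSet_Icc]
  apply lintegral_congr_ae
  filter_upwards [h1] with t ht
  by_cases h : t ∈ Icc 0 b
  · rw [indicator_of_mem h]
    apply lintegral_congr_ae
    filter_upwards [ht h] with x hx
    rw [hx]
  · rw [indicator_of_notMem h]
    simp [h2 t h, hr]

/-- exponents below 2 for time cut-off functions -/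
theorem memLp_cut {b : ℝ} {gf : ℝ × X → ℝ} (hm : StronglyMeasurable gf)
    (h2 : ∀ t, t ∉ Icc 0 b → ∀ x, gf (t, x) = 0) (h : MemLp gf (ENNReal.ofReal 2) (volume.prod μ)) {q : ℝ}
    (hq2 : q ≤ 2) : MemLp gf (ENNReal.ofReal q) (volume.prod μ) := by
  have e : gf = (Icc 0 b ×ˢ univ).indicator gf := by
    symm
    rw [indicator_eq_self]
    intro y hy
    by_contra hn
    apply hy
    apply h2
    intro h3
    exact hn ⟨h3, mem_univ _⟩
  have hms : MeasurableSet (Icc 0 b ×ˢ (univ : Set X)) := measurableSet_Icc.prod MeasurableSet.univ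
  rw [e, memLp_indicator_iff_restrict hms]
  have h3 : MemLp gf (ENNReal.ofReal 2) ((volume.prod μ).restrict (Icc 0 b ×ˢ univ)) := h.restrict _
  have hfin : IsFiniteMeasure (((volume : Measure ℝ).prod μ).restrict (Icc 0 b ×ˢ univ)) := by
    rw [← Measure.prod_restrict, Measure.restrict_univ]
    infer_instance
  exact h3.mono_exponent (ENNReal.ofReal_le_ofReal hq2)

end Cut

section Cont

variable {X : Type*} [MeasurableSpace X] {μ : Measure X} {G : Type*} [NormedAddCommGroup G]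

theorem continuous_toLp_of {F : ℝ → X → G} (hF : ∀ t, 0 ≤ t → MemLp (F t) 2 μ)
    (hc : ∀ t, 0 ≤ t → Tendsto (fun s => eLpNorm (fun x => F s x - F t x) 2 μ) (𝓝[Ici 0] t) (𝓝 0)) :
    Continuous (fun t : ℝ => (hF (max t 0) (le_max_right _ _)).toLp (F (max t 0))) := by
  rw [continuous_iff_continuousAt]
  intro t
  unfold ContinuousAt
  rw [tendsto_iff_edist_tendsto_0]
  have h1 : Tendsto (fun s : ℝ => max s 0) (𝓝 t) (𝓝[Ici 0] (max t 0)) := by
    apply tendsto_nhdsWithin_of_tendsto_nhds_of_eventually_within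
    · exact (continuous_id.max continuous_const).tendsto t
    · exact Eventually.of_forall fun s => (mem_Ici.2 (le_max_right s 0))
  have h2 := (hc (max t 0) (le_max_right _ _)).comp h1
  refine h2.congr fun s => ?_
  rw [Lp.edist_toLp_toLp]
  rfl

end Cont

section Ident

variable {X : Type*} [MeasurableSpace X] {μ : Measure X} [IsFiniteMeasure μ]
  {V : Type*} [NormedAddCommGroup V] [InnerProductSpace ℝ V] [CompleteSpace V]

theorem ident_scale {ι : V →L[ℝ] Lp ℝ 2 μ} {p q : ℝ} (hpq : p.HolderConjugate q) {w : ℝ → V} {z : ℝ → Lp ℝ 2 μ}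
    {R : ℝ × X → ℝ} (hw : Continuous w) (hR : StronglyMeasurable R)
    (hRm : MemLp R (ENNReal.ofReal q) (volume.prod μ)) {s t : ℝ} (hst : s < t) {φ : V}
    (hφ : MemLp (ι φ) (ENNReal.ofReal p) μ) :
    (inner ℝ (z t - z s) (ι φ) + ∫ r in s..t, inner ℝ (w r) φ = ∫ r in s..t, ∫ x, R (r, x) * ι φ x ∂μ) ↔
    (inner ℝ ((t - s)⁻¹ • (z t - z s)) (ι φ) + inner ℝ (S (t - s) w s) φ =
      ∫ x, avg (U (t - s)) R (s, x) * ι φ x ∂μ) := by
  have hh : 0 < t - s := by linarith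
  haveI := isProb_U hh
  have h2 := fub_avg (P := U (t - s)) ENNReal.ofReal_ne_top U_le hpq hR hRm s hφ
  rw [← h2, integral_U hh]
  have h3 : ∫ r in (0:ℝ)..(t - s), (∫ x, R (s + r, x) * ι φ x ∂μ) = ∫ r in s..t, (∫ x, R (r, x) * ι φ x ∂μ) := by
    rw [intervalIntegral.integral_comp_add_left (fun r => ∫ x, R (r, x) * ι φ x ∂μ)]
    simp
  have h4 : Integrable w (volume.restrict (Ioc s t)) :=
    (hw.continuousOn.integrableOn_compact isCompact_Icc).mono_set Ioc_subset_Icc_self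
  have h5 : inner ℝ (S (t - s) w s) φ = (t - s)⁻¹ * ∫ r in s..t, inner ℝ (w r) φ := by
    rw [S, inner_smul_left, add_sub_cancel]
    simp only [conj_trivial]
    congr 1
    rw [intervalIntegral.integral_of_le hst.le, intervalIntegral.integral_of_le hst.le, real_inner_comm,
      ← integral_inner h4]
    apply integral_congr_ae
    filter_upwards with r
    exact real_inner_comm _ _
  rw [h3, h5, inner_smul_left, smul_eq_mul]
  simp only [conj_trivial]
  rw [← mul_add]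
  constructor
  · intro h
    rw [h]
  · intro h
    exact mul_left_cancel₀ (inv_ne_zero hh.ne') h

end Ident

section Modulus

variable {X : Type*} [MeasurableSpace X] {μ : Measure X} [IsFiniteMeasure μ]

/-- from unit intervals to general intervals -/
theorem timeMod_of_unit {q θ L b : ℝ} (hL : 0 ≤ L) {f : ℝ → X → ℝ} {ff : ℝ × X → ℝ}
    (h1 : ∀ᵐ t : ℝ, t ∈ Icc 0 b → (fun x => ff (t, x)) =ᵐ[μ] f t)
    (hmod : ∀ t σ : ℝ, 0 ≤ t → 0 ≤ σ → σ ≤ 1 →
      ∫⁻ s in Icc t (t + 1), ∫⁻ x, ‖f (s + σ) x - f s x‖ₑ ^ q ∂μ ≤ ENNReal.ofReal (L * σ ^ θ)) :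
    TimeMod μ q θ L b ff := by
  intro σ t1 t2 hσ hσ1 ht1 ht hb
  set G : ℝ → ℝ≥0∞ := fun s => ∫⁻ x, ‖f (s + σ) x - f s x‖ₑ ^ q ∂μ with hG
  have e1 : ∫⁻ t in Ioc t1 t2, ∫⁻ x, ‖ff (t + σ, x) - ff (t, x)‖ₑ ^ q ∂μ = ∫⁻ t in Ioc t1 t2, G t := by
    apply lintegral_congr_ae
    have h2 : ∀ᵐ t : ℝ, t + σ ∈ Icc 0 b → (fun x => ff (t + σ, x)) =ᵐ[μ] f (t + σ) :=
      (measurePreserving_add_right volume σ).quasiMeasurePreserving.ae h1
    filter_upwards [ae_restrict_of_ae h1, ae_restrict_of_ae h2, ae_restrict_mem measurableSet_Ioc] with t a1 a2 a3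
    have i1 : t ∈ Icc 0 b := ⟨by linarith [a3.1], by linarith [a3.2]⟩
    have i2 : t + σ ∈ Icc 0 b := ⟨by linarith [a3.1], by linarith [a3.2]⟩
    apply lintegral_congr_ae
    filter_upwards [a1 i1, a2 i2] with x x1 x2
    rw [x1, x2]
  rw [e1]
  set n := ⌈t2 - t1⌉₊ with hn
  have hn1 : t2 - t1 ≤ n := Nat.le_ceil _
  have hn2 : (n:ℝ) ≤ t2 - t1 + 1 := (Nat.ceil_lt_add_one (by linarith)).le
  have key : ∀ m : ℕ, ∫⁻ t in Ioc t1 (t1 + m), G t ≤ m * ENNReal.ofReal (L * σ ^ θ) := by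
    intro m
    induction m with
    | zero => simp
    | succ m ih =>
      have hsub : Ioc t1 (t1 + ((m + 1 : ℕ):ℝ)) ⊆ Ioc t1 (t1 + m) ∪ Icc (t1 + m) (t1 + m + 1) := by
        intro s hs
        by_cases h : s ≤ t1 + m
        · left; exact ⟨hs.1, h⟩
        · right
          push_cast at hs
          push Not at h
          exact ⟨h.le, by linarith [hs.2]⟩
      calc ∫⁻ t in Ioc t1 (t1 + ((m + 1 : ℕ):ℝ)), G t ≤ ∫⁻ t in Ioc t1 (t1 + m) ∪ Icc (t1 + m) (t1 + m + 1), G t :=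
            lintegral_mono_set hsub
        _ ≤ (∫⁻ t in Ioc t1 (t1 + m), G t) + ∫⁻ t in Icc (t1 + m) (t1 + m + 1), G t := lintegral_union_le _ _ _
        _ ≤ m * ENNReal.ofReal (L * σ ^ θ) + ENNReal.ofReal (L * σ ^ θ) := by
            gcongr
            exact hmod (t1 + m) σ (by positivity) hσ hσ1
        _ = _ := by push_cast; ring
  calc ∫⁻ t in Ioc t1 t2, G t ≤ ∫⁻ t in Ioc t1 (t1 + n), G t :=
        lintegral_mono_set (Ioc_subset_Ioc_right (by linarith))
    _ ≤ n * ENNReal.ofReal (L * σ ^ θ) := key n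
    _ = ENNReal.ofReal (n * (L * σ ^ θ)) := by
        rw [ENNReal.ofReal_mul (Nat.cast_nonneg _), ENNReal.ofReal_natCast]
    _ ≤ ENNReal.ofReal (L * σ ^ θ * (t2 - t1 + 1)) := by
        apply ENNReal.ofReal_le_ofReal
        rw [mul_comm]
        have : 0 ≤ L * σ ^ θ := by positivity
        gcongr

end Modulus

end Run7.h119
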