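import Mathlib
import Pool.Agent.Run7.h119.Pde1

open MeasureTheory Set Filter Topology
open scoped ENNReal

set_option linter.unusedSectionVars false
set_option linter.style.haveILetI false
set_option linter.unusedVariables false

namespace Run7.h119

section A

variable {X : Type*} [MeasurableSpace X] {μ : Measure X} [IsFiniteMeasure μ]

/-- the velocity relation in `L²` -/
theorem deriv_Lp {u v : ℝ → X → ℝ} (hu : ∀ t, 0 ≤ t → MemLp (u t) 2 μ) (hv : ∀ t, 0 ≤ t → MemLp (v t) 2 μ)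
    (hc : ∀ t, 0 ≤ t → Tendsto (fun s => eLpNorm (fun x => v s x - v t x) 2 μ) (𝓝[Ici 0] t) (𝓝 0))
    (hm : AEStronglyMeasurable (fun y : ℝ × X => v y.1 y.2) ((volume.restrict (Ici 0)).prod μ))
    (hd : ∀ t, 0 ≤ t → ∀ᵐ x ∂μ, u t x = u 0 x + ∫ s in (0:ℝ)..t, v s x) {s t : ℝ} (hs : 0 ≤ s) (hst : s ≤ t) :
    (hu (max t 0) (le_max_right _ _)).toLp _ - (hu (max s 0) (le_max_right _ _)).toLp _ =
      ∫ r in s..t, (hv (max r 0) (le_max_right _ _)).toLp _ := by
  have ht : 0 ≤ t := hs.trans hst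
  have hcont := continuous_toLp_of hv hc
  obtain ⟨vf, m1, m2, m3, m4⟩ := exists_cut hm t
  have hρ : ∀ a b : ℝ, 0 ≤ a → b ≤ t → ∀ᵐ r ∂(volume.restrict (Ioc a b)), (fun x => vf (r, x)) =ᵐ[μ]
      ((hv (max r 0) (le_max_right _ _)).toLp (v (max r 0)) : Lp ℝ 2 μ) := by
    intro a b ha hb
    filter_upwards [ae_restrict_of_ae m2, ae_restrict_mem measurableSet_Ioc] with r h1 h2
    have h3 : 0 ≤ r := by linarith [h2.1]
    have h4 := h1 ⟨h3, by linarith [h2.2]⟩
    refine h4.trans ?_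
    have h5 := MemLp.coeFn_toLp (hv (max r 0) (le_max_right _ _))
    filter_upwards [h5] with x hx
    rw [hx, max_eq_left h3]
  have hint : ∀ a b : ℝ, Integrable (fun r : ℝ => ((hv (max r 0) (le_max_right _ _)).toLp (v (max r 0)) : Lp ℝ 2 μ))
      (volume.restrict (Ioc a b)) := fun a b =>
    (hcont.continuousOn.integrableOn_compact isCompact_Icc).mono_set Ioc_subset_Icc_self
  have k1 := integral_lp2_ae (hint 0 t) m1 (hρ 0 t le_rfl le_rfl)
  have k2 := integral_lp2_ae (hint s t) m1 (hρ s t hs le_rfl)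
  apply Lp.ext
  rw [intervalIntegral.integral_of_le hst]
  refine EventuallyEq.trans ?_ k2.2.symm
  have k3 := k1.1.prod_left_ae
  filter_upwards [Lp.coeFn_sub ((hu (max t 0) (le_max_right _ _)).toLp _) ((hu (max s 0) (le_max_right _ _)).toLp _),
    MemLp.coeFn_toLp (hu (max t 0) (le_max_right _ _)), MemLp.coeFn_toLp (hu (max s 0) (le_max_right _ _)),
    hd t ht, hd s hs, k3, m3] with x x1 x2 x3 x4 x5 x6 x7
  rw [x1, Pi.sub_apply, x2, x3, max_eq_left ht, max_eq_left hs, x4, x5]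
  have e1 : ∀ b, 0 ≤ b → b ≤ t → ∫ r in (0:ℝ)..b, v r x = ∫ r in (0:ℝ)..b, vf (r, x) := by
    intro b hb hbt
    rw [intervalIntegral.integral_of_le hb, intervalIntegral.integral_of_le hb]
    apply integral_congr_ae
    filter_upwards [ae_restrict_of_ae x7, ae_restrict_mem measurableSet_Ioc] with r h1 h2
    exact (h1 ⟨h2.1.le, h2.2.trans hbt⟩).symm
  rw [e1 t ht le_rfl, e1 s hs hst]
  have i1 : IntervalIntegrable (fun r => vf (r, x)) volume 0 t := by
    rw [intervalIntegrable_iff_integrableOn_Ioc_of_le ht]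
    exact x6
  have i2 : IntervalIntegrable (fun r => vf (r, x)) volume 0 s := i1.mono_set (by
    rw [uIcc_of_le hs, uIcc_of_le ht]; exact Icc_subset_Icc_right hst)
  rw [← intervalIntegral.integral_of_le hst, ← intervalIntegral.integral_interval_sub_left i1 i2]
  ring

end A

section B

variable {X : Type*} [MeasurableSpace X] {μ : Measure X} [IsFiniteMeasure μ]

/-- the weak identity for one test function in terms of cut-off representatives -/
theorem weak_cut {a α q : ℝ} (ha : 0 < a) (hα : 0 < α) (hpq : (α + 2).HolderConjugate q) {f v : ℝ → X → ℝ}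
    (hv : ∀ t, 0 ≤ t → MemLp (v t) 2 μ) {vf ff : ℝ × X → ℝ} {b : ℝ}
    (hvm : MemLp vf (ENNReal.ofReal (α + 2)) (volume.prod μ)) (hfm : MemLp ff (ENNReal.ofReal q) (volume.prod μ))
    (v1 : ∀ᵐ t : ℝ, t ∈ Icc 0 b → (fun x => vf (t, x)) =ᵐ[μ] v t)
    (f1 : ∀ᵐ t : ℝ, t ∈ Icc 0 b → (fun x => ff (t, x)) =ᵐ[μ] f t)
    {φ : X → ℝ} (hφ : MemLp φ (ENNReal.ofReal (α + 2)) μ) {Φ : Lp ℝ 2 μ} (hΦ : (Φ : X → ℝ) =ᵐ[μ] φ)
    {A A' : ℝ → ℝ} (hA : Continuous A') (hAA : ∀ r, 0 ≤ r → A r = A' r)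
    (hw : ∀ t, 0 ≤ t → (∫ x, v t x * φ x ∂μ) - (∫ x, v 0 x * φ x ∂μ) + (∫ r in (0:ℝ)..t, A r) +
      (∫ r in (0:ℝ)..t, ∫ x, a * |v r x| ^ α * v r x * φ x ∂μ) = ∫ r in (0:ℝ)..t, ∫ x, f r x * φ x ∂μ)
    {s t : ℝ} (hs : 0 ≤ s) (hst : s ≤ t) (htb : t ≤ b) :
    inner ℝ ((hv (max t 0) (le_max_right _ _)).toLp _ - (hv (max s 0) (le_max_right _ _)).toLp _) Φ +
      ∫ r in s..t, A' r = ∫ r in s..t, ∫ x, (ff (r, x) - gfun a (α + 2) (vf (r, x))) * Φ x ∂μ := by
  have ht : 0 ≤ t := hs.trans hst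
  have hp : 2 < α + 2 := by linarith
  have e0 : ∀ r, 0 ≤ r → inner ℝ ((hv (max r 0) (le_max_right _ _)).toLp _) Φ = ∫ x, v r x * φ x ∂μ := by
    intro r hr
    rw [L2.inner_def]
    apply integral_congr_ae
    filter_upwards [MemLp.coeFn_toLp (hv (max r 0) (le_max_right _ _)), hΦ] with x x1 x2
    rw [x1, x2, max_eq_left hr]
    simp [mul_comm]
  have hle : ((volume.restrict (Ioc 0 b)).prod μ : Measure (ℝ × X)) ≤ volume.prod μ := by
    have : (volume.restrict (Ioc 0 b)).prod μ = (volume.prod μ).restrict (Ioc 0 b ×ˢ univ) := by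
      rw [← Measure.prod_restrict, Measure.restrict_univ]
    rw [this]
    exact Measure.restrict_le_self
  have hφ2 : MemLp (fun z : ℝ × X => φ z.2) (ENNReal.ofReal (α + 2)) ((volume.restrict (Ioc 0 b)).prod μ) :=
    hφ.comp_snd _
  have hgm : MemLp (fun y => gfun a (α + 2) (vf y)) (ENNReal.ofReal q) (volume.prod μ) := memLp_gfun ha hp hpq hvm
  have i1 : Integrable (fun z : ℝ × X => gfun a (α + 2) (vf z) * φ z.2) ((volume.restrict (Ioc 0 b)).prod μ) :=
    integrable_mul_of_memLp hpq.symm (hgm.mono_measure hle) hφ2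
  have i2 : Integrable (fun z : ℝ × X => ff z * φ z.2) ((volume.restrict (Ioc 0 b)).prod μ) :=
    integrable_mul_of_memLp hpq.symm (hfm.mono_measure hle) hφ2
  have j1 : IntervalIntegrable (fun r => ∫ x, gfun a (α + 2) (vf (r, x)) * φ x ∂μ) volume 0 b := by
    rw [intervalIntegrable_iff_integrableOn_Ioc_of_le (ht.trans htb)]
    exact i1.integral_prod_left
  have j2 : IntervalIntegrable (fun r => ∫ x, ff (r, x) * φ x ∂μ) volume 0 b := by
    rw [intervalIntegrable_iff_integrableOn_Ioc_of_le (ht.trans htb)]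
    exact i2.integral_prod_left
  have j3 : ∀ c, IntervalIntegrable A' volume 0 c := fun c => hA.intervalIntegrable _ _
  have c1 : ∀ c, 0 ≤ c → c ≤ b → ∫ r in (0:ℝ)..c, ∫ x, a * |v r x| ^ α * v r x * φ x ∂μ =
      ∫ r in (0:ℝ)..c, ∫ x, gfun a (α + 2) (vf (r, x)) * φ x ∂μ := by
    intro c hc hcb
    rw [intervalIntegral.integral_of_le hc, intervalIntegral.integral_of_le hc]
    apply integral_congr_ae
    filter_upwards [ae_restrict_of_ae v1, ae_restrict_mem measurableSet_Ioc] with r h1 h2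
    apply integral_congr_ae
    filter_upwards [h1 ⟨h2.1.le, h2.2.trans hcb⟩] with x hx
    rw [hx, gfun]
    simp only [add_sub_cancel_right]
  have c2 : ∀ c, 0 ≤ c → c ≤ b → ∫ r in (0:ℝ)..c, ∫ x, f r x * φ x ∂μ =
      ∫ r in (0:ℝ)..c, ∫ x, ff (r, x) * φ x ∂μ := by
    intro c hc hcb
    rw [intervalIntegral.integral_of_le hc, intervalIntegral.integral_of_le hc]
    apply integral_congr_ae
    filter_upwards [ae_restrict_of_ae f1, ae_restrict_mem measurableSet_Ioc] with r h1 h2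
    apply integral_congr_ae
    filter_upwards [h1 ⟨h2.1.le, h2.2.trans hcb⟩] with x hx
    rw [hx]
  have c3 : ∀ c, 0 ≤ c → ∫ r in (0:ℝ)..c, A r = ∫ r in (0:ℝ)..c, A' r := by
    intro c hc
    apply intervalIntegral.integral_congr
    intro r hr
    rw [uIcc_of_le hc] at hr
    exact hAA r hr.1
  have w1 := hw t ht
  have w2 := hw s hs
  rw [c1 t ht htb, c2 t ht htb, c3 t ht] at w1
  rw [c1 s hs (hst.trans htb), c2 s hs (hst.trans htb), c3 s hs] at w2
  have hsub : ∀ {g : ℝ → ℝ}, IntervalIntegrable g volume 0 b →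
      (∫ r in s..t, g r) = (∫ r in (0:ℝ)..t, g r) - ∫ r in (0:ℝ)..s, g r := by
    intro g hg
    have g1 : IntervalIntegrable g volume 0 t := hg.mono_set (by
      rw [uIcc_of_le ht, uIcc_of_le (ht.trans htb)]; exact Icc_subset_Icc_right htb)
    have g2 : IntervalIntegrable g volume 0 s := hg.mono_set (by
      rw [uIcc_of_le hs, uIcc_of_le (ht.trans htb)]; exact Icc_subset_Icc_right (hst.trans htb))
    rw [intervalIntegral.integral_interval_sub_left g1 g2]
  have hR : ∫ r in s..t, ∫ x, (ff (r, x) - gfun a (α + 2) (vf (r, x))) * Φ x ∂μ =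
      (∫ r in s..t, ∫ x, ff (r, x) * φ x ∂μ) - ∫ r in s..t, ∫ x, gfun a (α + 2) (vf (r, x)) * φ x ∂μ := by
    rw [← intervalIntegral.integral_sub]
    · rw [intervalIntegral.integral_of_le hst, intervalIntegral.integral_of_le hst]
      apply integral_congr_ae
      have hsub : volume.restrict (Ioc s t) ≤ volume.restrict (Ioc 0 b) :=
        Measure.restrict_mono (Ioc_subset_Ioc hs htb) le_rfl
      have n1 := (ae_mono hsub) i1.prod_right_ae
      have n2 := (ae_mono hsub) i2.prod_right_ae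
      filter_upwards [n1, n2] with r r1 r2
      rw [← integral_sub r2 r1]
      apply integral_congr_ae
      filter_upwards [hΦ] with x hx
      rw [hx]
      ring
    · exact j2.mono_set (by
        rw [uIcc_of_le hst, uIcc_of_le (ht.trans htb)]; exact Icc_subset_Icc hs htb)
    · exact j1.mono_set (by
        rw [uIcc_of_le hst, uIcc_of_le (ht.trans htb)]; exact Icc_subset_Icc hs htb)
  rw [hR, hsub j1, hsub j2, hsub (j3 b), inner_sub_left, e0 t ht, e0 s hs]
  linarith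

end B

end Run7.h119
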