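import Mathlib
import Pool.Agent.Run7.h119.Pde2
import Pool.Agent.Run7.h119.Inj
import Pool.Agent.Run7.h119.Expo
import Pool.Agent.Run7.h119.Main2

open MeasureTheory Set Filter Topology
open scoped ENNReal ContDiff

set_option linter.unusedSectionVars false
set_option linter.style.haveILetI false
set_option linter.unusedVariables false

namespace Run7.h119

variable {N : ℕ}

/-- `w ∈ H¹₀(Ω)` with gradient `G` -/
def MemH (Ω : Set (EE N)) (w : EE N → ℝ) (G : EE N → EE N) : Prop :=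
  MemLp w 2 (volume.restrict Ω) ∧ MemLp G 2 (volume.restrict Ω) ∧
  ∀ ε : ℝ≥0∞, 0 < ε → ∃ φ : EE N → ℝ, IsTest Ω φ ∧ eLpNorm (fun x => w x - φ x) 2 (volume.restrict Ω) ≤ ε ∧
    eLpNorm (fun x => G x - gradient φ x) 2 (volume.restrict Ω) ≤ ε

/-- weak solutions -/
structure WSol (Ω : Set (EE N)) (a α : ℝ) (f u : ℝ → EE N → ℝ) (Du : ℝ → EE N → EE N) (v : ℝ → EE N → ℝ) : Prop where
  mem : ∀ t, 0 ≤ t → MemH Ω (u t) (Du t)
  vel : ∀ t, 0 ≤ t → MemLp (v t) 2 (volume.restrict Ω)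
  cont_Du : ∀ t, 0 ≤ t →
    Tendsto (fun s => eLpNorm (fun x => Du s x - Du t x) 2 (volume.restrict Ω)) (𝓝[Ici 0] t) (𝓝 0)
  cont_v : ∀ t, 0 ≤ t →
    Tendsto (fun s => eLpNorm (fun x => v s x - v t x) 2 (volume.restrict Ω)) (𝓝[Ici 0] t) (𝓝 0)
  meas_v : AEStronglyMeasurable (fun y : ℝ × EE N => v y.1 y.2)
    (((volume : Measure ℝ).restrict (Ici 0)).prod (volume.restrict Ω))
  damp : ∀ T, 0 ≤ T → ∫⁻ t in Icc 0 T, ∫⁻ x in Ω, ‖v t x‖ₑ ^ (α + 2) < ⊤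
  deriv : ∀ t, 0 ≤ t → ∀ᵐ x ∂(volume.restrict Ω), u t x = u 0 x + ∫ s in (0:ℝ)..t, v s x
  weak : ∀ φ : EE N → ℝ, IsTest Ω φ → ∀ t, 0 ≤ t →
    (∫ x in Ω, v t x * φ x) - (∫ x in Ω, v 0 x * φ x) +
      (∫ s in (0:ℝ)..t, ∫ x in Ω, inner ℝ (Du s x) (gradient φ x)) +
      (∫ s in (0:ℝ)..t, ∫ x in Ω, a * |v s x| ^ α * v s x * φ x) = ∫ s in (0:ℝ)..t, ∫ x in Ω, f s x * φ x

variable {Ω : Set (EE N)}

theorem memH_Gam {w : EE N → ℝ} {G : EE N → EE N} (h : MemH Ω w G) :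
    ((h.2.1.toLp G, h.1.toLp w) : PP Ω) ∈ Gam Ω := by
  have : ((h.2.1.toLp G, h.1.toLp w) : PP Ω) ∈ closure (Gam0 Ω : Set (PP Ω)) := by
    rw [EMetric.mem_closure_iff]
    intro ε hε
    obtain ⟨φ, h1, h2, h3⟩ := h.2.2 (min (ε / 2) 1) (by
      rw [lt_min_iff]; exact ⟨ENNReal.half_pos hε.ne', by norm_num⟩)
    refine ⟨((h1.memLp_gradient 2).toLp _, (h1.memLp 2).toLp _),
      ⟨φ, h1, MemLp.coeFn_toLp (h1.memLp_gradient 2), MemLp.coeFn_toLp (h1.memLp 2)⟩, ?_⟩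
    rw [Prod.edist_eq, Lp.edist_toLp_toLp, Lp.edist_toLp_toLp, max_lt_iff]
    have hlt : min (ε / 2) 1 < ε := by
      by_cases ht : ε = ⊤
      · rw [ht]
        exact lt_of_le_of_lt (min_le_right _ _) (by norm_num)
      · exact lt_of_le_of_lt (min_le_left _ _) (ENNReal.half_lt_self hε.ne' ht)
    exact ⟨lt_of_le_of_lt h3 hlt, lt_of_le_of_lt h2 hlt⟩
  exact this

namespace WSol

variable {a α : ℝ} {f u : ℝ → EE N → ℝ} {Du : ℝ → EE N → EE N} {v : ℝ → EE N → ℝ}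

/-- gradient path -/
noncomputable def Uc (H : WSol Ω a α f u Du v) (t : ℝ) : VV Ω :=
  ⟨(H.mem (max t 0) (le_max_right _ _)).2.1.toLp _, ⟨_, memH_Gam (H.mem (max t 0) (le_max_right _ _)), rfl⟩⟩

/-- velocity path -/
noncomputable def Vc (H : WSol Ω a α f u Du v) (t : ℝ) : Lp ℝ 2 (volume.restrict Ω) :=
  (H.vel (max t 0) (le_max_right _ _)).toLp _

theorem continuous_Uc (H : WSol Ω a α f u Du v) : Continuous H.Uc := by
  unfold Uc
  apply Continuous.subtype_mk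
  exact continuous_toLp_of (fun t ht => (H.mem t ht).2.1) H.cont_Du

theorem continuous_Vc (H : WSol Ω a α f u Du v) : Continuous H.Vc :=
  continuous_toLp_of (fun t ht => H.vel t ht) H.cont_v

theorem norm_Vc (H : WSol Ω a α f u Du v) {t : ℝ} (ht : 0 ≤ t) : ‖H.Vc t‖ ^ 2 = ∫ x in Ω, v t x ^ 2 := by
  rw [← real_inner_self_eq_norm_sq, L2.inner_def]
  apply integral_congr_ae
  filter_upwards [MemLp.coeFn_toLp (H.vel (max t 0) (le_max_right _ _))] with x hx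
  unfold Vc
  rw [hx, max_eq_left ht, real_inner_self_eq_norm_sq, Real.norm_eq_abs, sq_abs]

theorem norm_Uc (H : WSol Ω a α f u Du v) {t : ℝ} (ht : 0 ≤ t) : ‖H.Uc t‖ ^ 2 = ∫ x in Ω, ‖Du t x‖ ^ 2 := by
  have e : ‖H.Uc t‖ = ‖(H.mem (max t 0) (le_max_right _ _)).2.1.toLp _‖ := rfl
  rw [e, ← real_inner_self_eq_norm_sq, L2.inner_def]
  apply integral_congr_ae
  filter_upwards [MemLp.coeFn_toLp (H.mem (max t 0) (le_max_right _ _)).2.1] with x hx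
  rw [hx, max_eq_left ht, real_inner_self_eq_norm_sq]

theorem inner_Uc (H : WSol Ω a α f u Du v) {t : ℝ} (ht : 0 ≤ t) {φ : EE N → ℝ} (hφ : IsTest Ω φ) :
    ∫ x in Ω, inner ℝ (Du t x) (gradient φ x) = inner ℝ (H.Uc t) (tE φ hφ) := by
  have e : inner ℝ (H.Uc t) (tE φ hφ) =
      inner ℝ ((H.mem (max t 0) (le_max_right _ _)).2.1.toLp _) ((hφ.memLp_gradient 2).toLp _) := rfl
  rw [e, L2.inner_def]
  apply integral_congr_ae
  filter_upwards [MemLp.coeFn_toLp (H.mem (max t 0) (le_max_right _ _)).2.1,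
    MemLp.coeFn_toLp (hφ.memLp_gradient 2)] with x h1 h2
  rw [h1, h2, max_eq_left ht]

end WSol

theorem exists_sol_of_wsol (hΩ : IsOpen Ω) [IsFiniteMeasure (volume.restrict Ω)] [CompleteSpace (VV Ω)]
    {ι : VV Ω →L[ℝ] Lp ℝ 2 (volume.restrict Ω)}
    (hι : ∀ g : VV Ω, ∀ w : Lp ℝ 2 (volume.restrict Ω), ((g : Lp (EE N) 2 (volume.restrict Ω)), w) ∈ Gam Ω ↔ ι g = w)
    {a α q M θ L : ℝ} (ha : 0 < a) (hα : 0 < α) (hpq : (α + 2).HolderConjugate q) (hM : 0 ≤ M) (hL : 0 ≤ L)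
    {f u : ℝ → EE N → ℝ} {Du : ℝ → EE N → EE N} {v : ℝ → EE N → ℝ}
    (hf : AEStronglyMeasurable (fun y : ℝ × EE N => f y.1 y.2)
      (((volume : Measure ℝ).restrict (Ici 0)).prod (volume.restrict Ω)))
    (hfb : ∀ᵐ t ∂((volume : Measure ℝ).restrict (Ici 0)), ∫⁻ x in Ω, ‖f t x‖ₑ ^ (2:ℝ) ≤ ENNReal.ofReal (M ^ 2))
    (hmod : ∀ t σ : ℝ, 0 ≤ t → 0 ≤ σ → σ ≤ 1 →
      ∫⁻ s in Icc t (t + 1), ∫⁻ x in Ω, ‖f (s + σ) x - f s x‖ₑ ^ q ≤ ENNReal.ofReal (L * σ ^ θ))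
    (H : WSol Ω a α f u Du v) {b : ℝ} (hb : 0 ≤ b) :
    ∃ vf ff : ℝ × EE N → ℝ, Sol ι a (α + 2) q b M H.Uc H.Vc vf ff ∧ TimeMod (volume.restrict Ω) q θ L b ff := by
  have hp : 2 < α + 2 := by linarith
  have hq2 := conj_lt_two hp hpq
  obtain ⟨vf, v0, v1, v2, v3⟩ := exists_cut H.meas_v b
  obtain ⟨ff, f0, f1, f2, f3⟩ := exists_cut hf b
  have hvm : MemLp vf (ENNReal.ofReal (α + 2)) (volume.prod (volume.restrict Ω)) := by
    refine memLp_of_lintegral (by linarith) v0.aestronglyMeasurable ?_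
    rw [cut_lintegral v0 v1 v3 (by linarith)]
    exact H.damp b hb
  have hfb' : ∀ᵐ t : ℝ, 0 ≤ t → ∫⁻ x in Ω, ‖f t x‖ₑ ^ (2:ℝ) ≤ ENNReal.ofReal (M ^ 2) :=
    (ae_restrict_iff' measurableSet_Ici).1 hfb
  have hfm2 : MemLp ff (ENNReal.ofReal 2) (volume.prod (volume.restrict Ω)) := by
    refine memLp_of_lintegral (by norm_num) f0.aestronglyMeasurable ?_
    rw [cut_lintegral f0 f1 f3 (by norm_num)]
    calc ∫⁻ t in Icc 0 b, ∫⁻ x in Ω, ‖f t x‖ₑ ^ (2:ℝ) ≤ ∫⁻ t in Icc 0 b, ENNReal.ofReal (M ^ 2) := by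
          apply lintegral_mono_ae
          filter_upwards [ae_restrict_of_ae hfb', ae_restrict_mem measurableSet_Icc] with t h1 h2
          exact h1 h2.1
      _ < ⊤ := by
          rw [lintegral_const]
          exact ENNReal.mul_lt_top ENNReal.ofReal_lt_top (by simp)
  have hfmq : MemLp ff (ENNReal.ofReal q) (volume.prod (volume.restrict Ω)) := memLp_cut f0 f3 hfm2 hq2.le
  have hgm : MemLp (fun y => gfun a (α + 2) (vf y)) (ENNReal.ofReal q) (volume.prod (volume.restrict Ω)) :=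
    memLp_gfun ha hp hpq hvm
  have hg0 : StronglyMeasurable (fun y => gfun a (α + 2) (vf y)) :=
    (measurable_gfun.comp v0.measurable).stronglyMeasurable
  have hR0 : StronglyMeasurable (fun y => ff y - gfun a (α + 2) (vf y)) := f0.sub hg0
  have hRm : MemLp (fun y => ff y - gfun a (α + 2) (vf y)) (ENNReal.ofReal q) (volume.prod (volume.restrict Ω)) :=
    hfmq.sub hgm
  have hιU : ∀ t, ι (H.Uc t) = (H.mem (max t 0) (le_max_right _ _)).1.toLp _ := fun t =>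
    (hι _ _).1 (memH_Gam (H.mem (max t 0) (le_max_right _ _)))
  have htest : ∀ (φ : EE N → ℝ) (hφ : IsTest Ω φ) (s t : ℝ), 0 ≤ s → s ≤ t → t ≤ b →
      inner ℝ (H.Vc t - H.Vc s) (ι (tE φ hφ)) + ∫ r in s..t, inner ℝ (H.Uc r) (tE φ hφ) =
        ∫ r in s..t, ∫ x in Ω, (ff (r, x) - gfun a (α + 2) (vf (r, x))) * ι (tE φ hφ) x := by
    intro φ hφ s t hs hst htb
    refine weak_cut (A := fun r => ∫ x in Ω, inner ℝ (Du r x) (gradient φ x))
      (A' := fun r => inner ℝ (H.Uc r) (tE φ hφ)) ha hα hpq H.vel hvm hfmq v1 f1 (hφ.memLp _) ?_ ?_ ?_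
      (H.weak φ hφ) hs hst htb
    · rw [ι_tE hι]
      exact MemLp.coeFn_toLp _
    · exact H.continuous_Uc.inner continuous_const
    · intro r hr
      exact H.inner_Uc hr hφ
  refine ⟨vf, ff, ⟨ha, hp, hM, ?_, f0, hfm2, ?_⟩, timeMod_of_unit hL f1 hmod⟩
  · refine ⟨hpq, H.continuous_Uc, H.continuous_Vc, v0, hR0, hvm, hRm, ?_, ?_, ?_⟩
    · filter_upwards [v1] with t ht h1
      refine (ht ⟨h1.1.le, h1.2.le⟩).trans ?_
      filter_upwards [MemLp.coeFn_toLp (H.vel (max t 0) (le_max_right _ _))] with x hx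
      unfold WSol.Vc
      rw [hx, max_eq_left h1.1.le]
    · intro s t hs hst htb
      rw [hιU, hιU]
      exact deriv_Lp (fun t ht => (H.mem t ht).1) H.vel H.cont_v H.meas_v H.deriv hs hst
    · intro φ hφ s t hs hst htb
      rcases hst.eq_or_lt with h | h
      · rw [h]; simp
      · rw [ident_scale hpq H.continuous_Uc hR0 hRm h hφ]
        have hh : 0 < t - s := by linarith
        haveI := isProb_U hh
        refine ident_of_test hι (iota_inj hΩ hι) hpq hp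
          (memLp_avg_slice (P := U (t - s)) ENNReal.ofReal_ne_top U_le hpq.symm.lt.le hR0 hRm s) ?_ φ hφ
        intro ψ hψ
        have hm : MemLp (ι (tE ψ hψ)) (ENNReal.ofReal (α + 2)) (volume.restrict Ω) := by
          rw [ι_tE hι]
          exact (memLp_congr_ae (MemLp.coeFn_toLp _)).2 (hψ.memLp _)
        exact (ident_scale hpq H.continuous_Uc hR0 hRm h hm).1 (htest ψ hψ s t hs hst htb)
  · filter_upwards [f1, hfb'] with t h1 h2
    by_cases h : t ∈ Icc 0 b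
    · have e : ∫⁻ x in Ω, ‖ff (t, x)‖ₑ ^ (2:ℝ) = ∫⁻ x in Ω, ‖f t x‖ₑ ^ (2:ℝ) := by
        apply lintegral_congr_ae
        filter_upwards [h1 h] with x hx
        rw [hx]
      rw [e]
      exact h2 h.1
    · have e : ∫⁻ x in Ω, ‖ff (t, x)‖ₑ ^ (2:ℝ) = 0 := by
        simp [f3 t h]
      rw [e]
      exact bot_le

/-- boundedness of the energy of weak solutions -/
theorem pde_bounded (hN : 3 ≤ N) (hΩ : IsOpen Ω) (hbd : Bornology.IsBounded Ω)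
    {a α M θ L : ℝ} (ha : 0 < a) (hα : 4 / ((N:ℝ) - 2) < α)
    {f u : ℝ → EE N → ℝ} {Du : ℝ → EE N → EE N} {v : ℝ → EE N → ℝ}
    (hf : AEStronglyMeasurable (fun y : ℝ × EE N => f y.1 y.2)
      (((volume : Measure ℝ).restrict (Ici 0)).prod (volume.restrict Ω)))
    (hfb : ∀ᵐ t ∂((volume : Measure ℝ).restrict (Ici 0)), ∫⁻ x in Ω, ‖f t x‖ₑ ^ (2:ℝ) ≤ ENNReal.ofReal (M ^ 2))
    (hθ : (α * ((N:ℝ) - 2) - 4) / (α * ((N:ℝ) + 2)) < θ)
    (hmod : ∀ t σ : ℝ, 0 ≤ t → 0 ≤ σ → σ ≤ 1 →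
      ∫⁻ s in Icc t (t + 1), ∫⁻ x in Ω, ‖f (s + σ) x - f s x‖ₑ ^ ((α + 2) / (α + 1)) ≤ ENNReal.ofReal (L * σ ^ θ))
    (H : WSol Ω a α f u Du v) :
    ∃ C : ℝ, ∀ t, 0 ≤ t → (∫ x in Ω, v t x ^ 2) + (∫ x in Ω, ‖Du t x‖ ^ 2) ≤ C := by
  have hN' : (3:ℝ) ≤ N := by exact_mod_cast hN
  have hN2 : (0:ℝ) < (N:ℝ) - 2 := by linarith
  have hα0 : 0 < α := lt_trans (by positivity) hα
  have hα4 : 4 < α * ((N:ℝ) - 2) := by rwa [div_lt_iff₀ hN2] at hα
  have hθ0 : 0 < θ := lt_trans (div_pos (by linarith) (by positivity)) hθ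
  have hpq : (α + 2).HolderConjugate ((α + 2) / (α + 1)) := by
    rw [Real.holderConjugate_iff]
    refine ⟨by linarith, ?_⟩
    field_simp
    ring
  haveI : IsFiniteMeasure (volume.restrict Ω) := by
    refine ⟨?_⟩
    rw [Measure.restrict_apply_univ]
    exact hbd.measure_lt_top
  haveI : CompleteSpace (VV Ω) := (isComplete_VV hN hbd hΩ.measurableSet).completeSpace_coe
  obtain ⟨ι, hι⟩ := exists_iota (Ω := Ω) hN hbd hΩ.measurableSet
  obtain ⟨Sob, hSob, F⟩ := form_VV hι hN hbd hΩ.measurableSet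
  have hρ0 : (0:ℝ) < 2 * N / (N - 2) := by positivity
  obtain ⟨β, γ, E⟩ := exists_chainExp (p := α + 2) (q := (α + 2) / (α + 1)) (ρ := 2 * N / (N - 2)) (θ := θ)
    (by rw [lt_div_iff₀ hN2]; linarith)
    (by rw [div_lt_iff₀ hN2]; nlinarith)
    (by congr 1; ring) (by
      have e : (α + 2 - 2 * N / (N - 2)) / ((2 * N / (N - 2) - 1) * (α + 2 - 2)) =
          (α * ((N:ℝ) - 2) - 4) / (α * ((N:ℝ) + 2)) := by
        have h1 : (2 * N / (N - 2) - 1 : ℝ) = (N + 2) / (N - 2) := by field_simp; ring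
        have h2 : α + 2 - 2 * N / (N - 2) = (α * ((N:ℝ) - 2) - 4) / (N - 2) := by field_simp; ring
        rw [h1, h2, add_sub_cancel_right]
        field_simp
      rw [e]; exact hθ)
  -- the energy
  set e : ℝ → ℝ := fun t => ‖H.Uc t‖ ^ 2 + ‖H.Vc t‖ ^ 2 with he
  have hec : Continuous e := (H.continuous_Uc.norm.pow 2).add (H.continuous_Vc.norm.pow 2)
  obtain ⟨r0, -, hr0⟩ := isCompact_Icc.exists_isMaxOn (s := Icc (0:ℝ) 6) (nonempty_Icc.2 (by norm_num)) hec.continuousOn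
  have he0 : 0 ≤ e r0 := by simp only [he]; positivity
  obtain ⟨C, hC⟩ := abs_bounded ι F hρ0 hSob (a := a) (p := α + 2) (q := (α + 2) / (α + 1)) (θ := θ) (L := |L|)
    (M := |M|) (E0 := e r0) ha (by linarith) hpq (abs_nonneg M) (abs_nonneg L) hθ0 E he0
  have hmod' : ∀ t σ : ℝ, 0 ≤ t → 0 ≤ σ → σ ≤ 1 →
      ∫⁻ s in Icc t (t + 1), ∫⁻ x in Ω, ‖f (s + σ) x - f s x‖ₑ ^ ((α + 2) / (α + 1)) ≤ ENNReal.ofReal (|L| * σ ^ θ) := by
    intro t σ h1 h2 h3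
    refine (hmod t σ h1 h2 h3).trans (ENNReal.ofReal_le_ofReal ?_)
    have := le_abs_self L
    gcongr
  have hfb' : ∀ᵐ t ∂((volume : Measure ℝ).restrict (Ici 0)), ∫⁻ x in Ω, ‖f t x‖ₑ ^ (2:ℝ) ≤ ENNReal.ofReal (|M| ^ 2) := by
    rw [sq_abs]; exact hfb
  refine ⟨max C (e r0), fun t ht => ?_⟩
  have hgoal : (∫ x in Ω, v t x ^ 2) + (∫ x in Ω, ‖Du t x‖ ^ 2) = e t := by
    simp only [he]
    rw [H.norm_Uc ht, H.norm_Vc ht]
    ring
  rw [hgoal]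
  obtain ⟨T, hT1, hT2⟩ := isCompact_Icc.exists_isMaxOn (s := Icc (0:ℝ) (max t 6))
    (nonempty_Icc.2 (le_trans ht (le_max_left _ _))) hec.continuousOn
  have h1 : e t ≤ e T := hT2 (show t ∈ Icc (0:ℝ) (max t 6) from ⟨ht, le_max_left _ _⟩)
  rcases le_total T 6 with h | h
  · exact h1.trans ((hr0 (show T ∈ Icc (0:ℝ) 6 from ⟨hT1.1, h⟩)).trans (le_max_right _ _))
  · refine h1.trans (le_trans ?_ (le_max_left _ _))
    obtain ⟨vf, ff, hS, hTM⟩ := exists_sol_of_wsol hΩ hι ha hα0 hpq (abs_nonneg M) (abs_nonneg L) hf hfb' hmod' H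
      (b := T + 1) (by linarith)
    refine hC (T + 1) H.Uc H.Vc vf ff hS hTM ?_ T h (by linarith) ?_
    · intro r hr
      exact hr0 (show r ∈ Icc (0:ℝ) 6 from ⟨hr.1, by linarith [hr.2]⟩)
    · intro r hr
      exact hT2 (show r ∈ Icc (0:ℝ) (max t 6) from ⟨hr.1, hr.2.trans hT1.2⟩)

end Run7.h119
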